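import Mathlib

/-! Chunk A1 (size M/L).  Telescoping with generating functions.

Proof.  Fix `0 < q < 1`, `G = Σ g N q^N`, `A_t = Σ a t N q^N`.  All series have nonnegative terms.
(1) `A_t` converges and `A_t ≤ (1-q)^t G`, by induction: `a 1 0 = 1 ≤ g 0` and `a 1 (N+1) ≤ g (N+1) - g N` give `A_1 ≤ g 0 + Σ (g (N+1) - g N) q^(N+1) = (1-q) G`;
in the same way `A_(t+1) ≤ (1-q) A_t`.
(2) Choose a real `K ≥ log C` for the finitely many constants `C` of `h1`, `h2`, `K ≥ 0`, and put `E_t(N) = log (w t N) + K * a t N ≥ 0`.  Taking logarithms in `h1`: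
`log (w 1 (N+1)) ≤ g N * log κ / 2 + (g (N+1) - g N - a 1 (N+1)) * log C`, so `E_1(N+1) ≤ (log κ/2) g N + K (g (N+1) - g N)`, `E_1(0) = K ≤ K g 0`.
So `F_1 := Σ E_1(N) q^N ≤ (log κ/2) G + K (1-q) G`.  In the same way `h2` gives `E_(t+1)(N+1) ≤ E_t(N+1) - E_t(N) + log 3 * a t N`, `E_(t+1)(0) = E_t(0)`, so
`F_(t+1) ≤ (1-q) F_t + log 3 * A_t ≤ (1-q) F_t + log 3 (1-q)^t G` (and the series converge).
Hence `F_k ≤ (1-q)^(k-1) G * (log κ/2 + K (1-q) + (k-1) log 3)`.
(3) `G ≤ ∏ (1 - q^(D s)) (1-q)^(-(n+1)) ≤ (∏ D s) (1-q)^ρ (1-q)^(-(n+1))`, since `1 - q^D ≤ D (1-q)`.  As `n = ρ + k`: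
`A_k ≤ (∏ D) (1-q)^(-1)`, `F_k ≤ (∏ D) (1-q)^(-2) (log κ/2 + K(1-q) + (k-1) log 3)`.
(4) Bounded: if `a k N₁ ≥ R` then by monotonicity `A_k ≥ R q^(N₁) / (1-q)`, so `R q^(N₁) ≤ ∏ D`, `q → 1`: `R ≤ ∏ D`.
(5) If `h N ≤ log (w k N) + C'` for all `N`, then `F_k ≥ Σ (h N - C') q^N = h q/(1-q)^2 - C'/(1-q)` (`tsum_coe_mul_geometric_of_norm_lt_one`), so
`h q - C' (1-q) ≤ (∏ D) (log κ/2 + K(1-q) + (k-1) log 3)` for all `0<q<1`; let `q → 1` (`le_of_tendsto`-argument, or take `q = 1 - 1/j`). -/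

namespace H58D

private lemma A1_gen (q : ℝ) (hq0 : 0 < q) (hq1 : q < 1) (u v b : ℕ → ℝ)
    (hu : ∀ N, 0 ≤ u N) (hb : ∀ N, 0 ≤ b N) (h0 : u 0 ≤ v 0)
    (h : ∀ N, u (N + 1) ≤ v (N + 1) - v N + b N)
    (hv : Summable (fun N => v N * q ^ N)) (hbs : Summable (fun N => b N * q ^ N)) :
    Summable (fun N => u N * q ^ N) ∧
      ∑' N, u N * q ^ N ≤ (1 - q) * (∑' N, v N * q ^ N) + ∑' N, b N * q ^ N := by
  have hv1 : Summable (fun N => v (N + 1) * q ^ (N + 1)) :=
    (summable_nat_add_iff (f := fun N => v N * q ^ N) 1).2 hv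
  have hle : ∀ N, u (N + 1) * q ^ (N + 1) ≤
      v (N + 1) * q ^ (N + 1) - q * (v N * q ^ N) + q * (b N * q ^ N) := by
    intro N
    have h1 := mul_le_mul_of_nonneg_right (h N) (pow_nonneg hq0.le (N + 1))
    have h2 : (v (N + 1) - v N + b N) * q ^ (N + 1) =
      v (N + 1) * q ^ (N + 1) - q * (v N * q ^ N) + q * (b N * q ^ N) := by ring
    rwa [h2] at h1
  have hs : Summable (fun N => v (N + 1) * q ^ (N + 1) - q * (v N * q ^ N) + q * (b N * q ^ N)) :=
    (hv1.sub (hv.mul_left q)).add (hbs.mul_left q)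
  have hu1 : Summable (fun N => u (N + 1) * q ^ (N + 1)) :=
    Summable.of_nonneg_of_le (fun N => mul_nonneg (hu _) (pow_nonneg hq0.le _)) hle hs
  have husum : Summable (fun N => u N * q ^ N) :=
    (summable_nat_add_iff (f := fun N => u N * q ^ N) 1).1 hu1
  refine ⟨husum, ?_⟩
  have e1 : ∑' N, u N * q ^ N = u 0 + ∑' N, u (N + 1) * q ^ (N + 1) := by
    rw [husum.tsum_eq_zero_add]; simp
  have e2 : ∑' N, v N * q ^ N = v 0 + ∑' N, v (N + 1) * q ^ (N + 1) := by
    rw [hv.tsum_eq_zero_add]; simp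
  have e3 : ∑' N, u (N + 1) * q ^ (N + 1) ≤
      ∑' N, (v (N + 1) * q ^ (N + 1) - q * (v N * q ^ N) + q * (b N * q ^ N)) :=
    Summable.tsum_le_tsum hle hu1 hs
  have e4 : ∑' N, (v (N + 1) * q ^ (N + 1) - q * (v N * q ^ N) + q * (b N * q ^ N)) =
      ∑' N, v (N + 1) * q ^ (N + 1) - q * (∑' N, v N * q ^ N) + q * ∑' N, b N * q ^ N := by
    rw [Summable.tsum_add (hv1.sub (hv.mul_left q)) (hbs.mul_left q),
      Summable.tsum_sub hv1 (hv.mul_left q), tsum_mul_left, tsum_mul_left]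
  have hb0 : 0 ≤ ∑' N, b N * q ^ N :=
    tsum_nonneg (fun N => mul_nonneg (hb N) (pow_nonneg hq0.le N))
  have hqb : q * ∑' N, b N * q ^ N ≤ ∑' N, b N * q ^ N := by nlinarith
  rw [e4] at e3
  have e5 : (1 - q) * (∑' N, v N * q ^ N) = ∑' N, v N * q ^ N - q * ∑' N, v N * q ^ N := by ring
  rw [e5]
  linarith

private lemma A1_lim (f : ℝ → ℝ) (c : ℝ) (hf : Continuous f)
    (h : ∀ q : ℝ, 0 < q → q < 1 → f q ≤ c) : f 1 ≤ c := by
  have ht : Filter.Tendsto f (nhdsWithin 1 (Set.Iio 1)) (nhds (f 1)) :=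
    (hf.tendsto 1).mono_left nhdsWithin_le_nhds
  refine le_of_tendsto ht ?_
  filter_upwards [Ioo_mem_nhdsLT (show (0 : ℝ) < 1 by norm_num)] with q hq
  exact h q hq.1 hq.2

private lemma A1_one_sub (q : ℝ) (hq0 : 0 < q) (hq1 : q < 1) (d : ℕ) :
    1 - q ^ d ≤ (d : ℝ) * (1 - q) := by
  have h := one_add_mul_le_pow (a := q - 1) (by linarith) d
  have h2 : (1 : ℝ) + (q - 1) = q := by ring
  rw [h2] at h
  linarith


theorem A1 (n ρ k : ℕ) (hk : 1 ≤ k) (hn : n = ρ + k) (D : Fin ρ → ℕ) (g : ℕ → ℕ)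
    (hg0 : 1 ≤ g 0)
    (hg : ∀ q : ℝ, 0 < q → q < 1 → Summable (fun N : ℕ => (g N : ℝ) * q ^ N) ∧
      (∑' N : ℕ, (g N : ℝ) * q ^ N) * (1 - q) ^ (n + 1) ≤ ∏ s, (1 - q ^ (D s)))
    (κ : ℕ) (hκ : 1 ≤ κ) (a w : ℕ → ℕ → ℕ)
    (h0 : ∀ t, 1 ≤ t → t ≤ k → a t 0 = 1 ∧ w t 0 = 1)
    (hpos : ∀ t, 1 ≤ t → t ≤ k → ∀ N, 0 < a t N ∧ 0 < w t N)
    (hmono : ∀ N, a k N ≤ a k (N + 1))
    (h1 : ∃ C : ℕ, 1 ≤ C ∧ ∀ N, a 1 (N + 1) + g N ≤ g (N + 1) ∧
      (w 1 (N + 1)) ^ 2 ≤ κ ^ (g N) * (C ^ 2) ^ (g (N + 1) - g N - a 1 (N + 1)))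
    (h2 : ∀ t, 1 ≤ t → t < k → ∃ C : ℕ, 1 ≤ C ∧ ∀ N, a (t + 1) (N + 1) + a t N ≤ a t (N + 1) ∧
      w (t + 1) (N + 1) * w t N ≤
        3 ^ (a t N) * C ^ (a t (N + 1) - a t N - a (t + 1) (N + 1)) * w t (N + 1)) :
    (∃ R : ℕ, ∀ N, a k N ≤ R) ∧
      ∀ h C' : ℝ, (∀ N : ℕ, h * N ≤ Real.log (w k N) + C') →
        h ≤ (∏ s, (D s : ℝ)) * (Real.log κ / 2 + ((k : ℝ) - 1) * Real.log 3) := by
  obtain ⟨C1, hC1, h1'⟩ := h1
  have h2' : ∀ t : ℕ, ∃ C : ℕ, 1 ≤ C ∧ (1 ≤ t → t < k → ∀ N, a (t + 1) (N + 1) + a t N ≤ a t (N + 1) ∧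
      w (t + 1) (N + 1) * w t N ≤
        3 ^ (a t N) * C ^ (a t (N + 1) - a t N - a (t + 1) (N + 1)) * w t (N + 1)) := by
    intro t
    by_cases ht : 1 ≤ t ∧ t < k
    · obtain ⟨C, hC, h⟩ := h2 t ht.1 ht.2
      exact ⟨C, hC, fun _ _ => h⟩
    · exact ⟨1, le_refl 1, fun ha hb => absurd ⟨ha, hb⟩ ht⟩
  choose Ct hCt h3 using h2'
  obtain ⟨K, hK⟩ : ∃ K : ℝ, K = Real.log C1 + ∑ t ∈ Finset.range k, Real.log (Ct t) := ⟨_, rfl⟩
  have hlogC1 : 0 ≤ Real.log (C1 : ℝ) := Real.log_nonneg (by exact_mod_cast hC1)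
  have hlogCt : ∀ t, 0 ≤ Real.log (Ct t : ℝ) := fun t => Real.log_nonneg (by exact_mod_cast hCt t)
  have hsumC : 0 ≤ ∑ t ∈ Finset.range k, Real.log (Ct t : ℝ) := Finset.sum_nonneg (fun t _ => hlogCt t)
  have hK0 : 0 ≤ K := by rw [hK]; linarith
  have hKC1 : Real.log (C1 : ℝ) ≤ K := by rw [hK]; linarith
  have hKCt : ∀ t, t < k → Real.log (Ct t : ℝ) ≤ K := by
    intro t ht
    have := Finset.single_le_sum (f := fun t => Real.log (Ct t : ℝ)) (fun t _ => hlogCt t)
      (Finset.mem_range.2 ht)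
    rw [hK]
    linarith
  have hlogκ : 0 ≤ Real.log (κ : ℝ) := Real.log_nonneg (by exact_mod_cast hκ)
  have hlog3 : 0 ≤ Real.log (3 : ℝ) := Real.log_nonneg (by norm_num)
  obtain ⟨P, hP⟩ : ∃ P : ℝ, P = ∏ s, (D s : ℝ) := ⟨_, rfl⟩
  have hP0 : 0 ≤ P := by rw [hP]; exact Finset.prod_nonneg (fun s _ => Nat.cast_nonneg _)
  have hEnonneg : ∀ t, 1 ≤ t → t ≤ k → ∀ N, 0 ≤ Real.log (w t N : ℝ) + K * (a t N : ℝ) := by
    intro t ht1 ht2 N
    have hw : 0 ≤ Real.log (w t N : ℝ) :=
      Real.log_nonneg (by exact_mod_cast (hpos t ht1 ht2 N).2)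
    have := mul_nonneg hK0 (Nat.cast_nonneg (α := ℝ) (a t N))
    linarith
  -- the main estimates for a fixed `q`
  have main : ∀ q : ℝ, 0 < q → q < 1 →
      (Summable (fun N => (a k N : ℝ) * q ^ N) ∧ (1 - q) * ∑' N, (a k N : ℝ) * q ^ N ≤ P) ∧
      (Summable (fun N => (Real.log (w k N : ℝ) + K * (a k N : ℝ)) * q ^ N) ∧
        (1 - q) ^ 2 * ∑' N, (Real.log (w k N : ℝ) + K * (a k N : ℝ)) * q ^ N ≤
          P * (Real.log κ / 2 + K * (1 - q) + ((k : ℝ) - 1) * Real.log 3)) := by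
    intro q hq0 hq1
    obtain ⟨hgs, hgb⟩ := hg q hq0 hq1
    obtain ⟨G, hG⟩ : ∃ G : ℝ, G = ∑' N : ℕ, (g N : ℝ) * q ^ N := ⟨_, rfl⟩
    rw [← hG] at hgb
    have h1q : 0 < 1 - q := by linarith
    -- step 1
    have stepA : ∀ t, 1 ≤ t → t ≤ k → Summable (fun N => (a t N : ℝ) * q ^ N) ∧
        ∑' N, (a t N : ℝ) * q ^ N ≤ (1 - q) ^ t * G := by
      intro t ht
      induction t, ht using Nat.le_induction with
      | base =>
        intro _
        have := A1_gen q hq0 hq1 (fun N => (a 1 N : ℝ)) (fun N => (g N : ℝ)) (fun _ => 0)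
          (fun N => Nat.cast_nonneg _) (fun _ => le_refl _)
          (by simp only [(h0 1 (le_refl 1) hk).1]; exact_mod_cast hg0)
          (by
            intro N
            have := (h1' N).1
            have h' : (a 1 (N + 1) : ℝ) + (g N : ℝ) ≤ (g (N + 1) : ℝ) := by exact_mod_cast this
            simp only [add_zero]
            linarith) hgs (by simp)
        refine ⟨this.1, ?_⟩
        have h4 := this.2
        simp only [zero_mul, tsum_zero, add_zero] at h4
        rw [pow_one, hG]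
        exact h4
      | succ t ht ih =>
        intro htk
        obtain ⟨ihs, ihb⟩ := ih (by omega)
        have := A1_gen q hq0 hq1 (fun N => (a (t + 1) N : ℝ)) (fun N => (a t N : ℝ)) (fun _ => 0)
          (fun N => Nat.cast_nonneg _) (fun _ => le_refl _)
          (by simp only [(h0 t ht (by omega)).1, (h0 (t + 1) (by omega) htk).1]; exact le_refl _)
          (by
            intro N
            have := (h3 t ht (by omega) N).1
            have h' : (a (t + 1) (N + 1) : ℝ) + (a t N : ℝ) ≤ (a t (N + 1) : ℝ) := by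
              exact_mod_cast this
            simp only [add_zero]
            linarith) ihs (by simp)
        refine ⟨this.1, ?_⟩
        have h4 := this.2
        simp only [zero_mul, tsum_zero, add_zero] at h4
        calc ∑' N, (a (t + 1) N : ℝ) * q ^ N ≤ (1 - q) * ∑' N, (a t N : ℝ) * q ^ N := h4
          _ ≤ (1 - q) * ((1 - q) ^ t * G) := mul_le_mul_of_nonneg_left ihb h1q.le
          _ = (1 - q) ^ (t + 1) * G := by ring
    -- step 2
    have stepE : ∀ t, 1 ≤ t → t ≤ k →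
        Summable (fun N => (Real.log (w t N : ℝ) + K * (a t N : ℝ)) * q ^ N) ∧
        ∑' N, (Real.log (w t N : ℝ) + K * (a t N : ℝ)) * q ^ N ≤
          (1 - q) ^ (t - 1) * G * (Real.log κ / 2 + K * (1 - q) + ((t : ℝ) - 1) * Real.log 3) := by
      intro t ht
      induction t, ht using Nat.le_induction with
      | base =>
        intro _
        have := A1_gen q hq0 hq1 (fun N => Real.log (w 1 N : ℝ) + K * (a 1 N : ℝ))
          (fun N => K * (g N : ℝ)) (fun N => Real.log κ / 2 * (g N : ℝ))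
          (hEnonneg 1 (le_refl 1) hk) (fun N => mul_nonneg (by linarith) (Nat.cast_nonneg _))
          (by
            simp only [(h0 1 (le_refl 1) hk).1, (h0 1 (le_refl 1) hk).2, Nat.cast_one, Real.log_one,
              zero_add]
            exact mul_le_mul_of_nonneg_left (by exact_mod_cast hg0) hK0)
          (by
            intro N
            obtain ⟨h5, h6⟩ := h1' N
            have hw : (0 : ℝ) < (w 1 (N + 1) : ℝ) := by
              exact_mod_cast (hpos 1 (le_refl 1) hk (N + 1)).2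
            obtain ⟨e, he⟩ : ∃ e, e = g (N + 1) - g N - a 1 (N + 1) := ⟨_, rfl⟩
            rw [← he] at h6
            have he' : (e : ℝ) = (g (N + 1) : ℝ) - g N - a 1 (N + 1) := by
              have : e + g N + a 1 (N + 1) = g (N + 1) := by omega
              have h' : (e : ℝ) + g N + a 1 (N + 1) = g (N + 1) := by exact_mod_cast this
              linarith
            have h7 : ((w 1 (N + 1) : ℝ)) ^ 2 ≤ (κ : ℝ) ^ (g N) * ((C1 : ℝ) ^ 2) ^ e := by
              exact_mod_cast h6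
            have h8 := Real.log_le_log (by positivity) h7
            have hκ' : (0 : ℝ) < κ := by exact_mod_cast hκ
            have hC1' : (0 : ℝ) < C1 := by exact_mod_cast hC1
            rw [Real.log_mul (by positivity) (by positivity), Real.log_pow, Real.log_pow,
              Real.log_pow, Real.log_pow] at h8
            have h9 : (e : ℝ) * Real.log C1 ≤ e * K :=
              mul_le_mul_of_nonneg_left hKC1 (Nat.cast_nonneg _)
            rw [he'] at h9
            rw [he'] at h8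
            push_cast at h8
            nlinarith) (by
              have := hgs.mul_left K
              refine this.congr (fun N => by ring)) (by
              have := hgs.mul_left (Real.log κ / 2)
              refine this.congr (fun N => by ring))
        refine ⟨this.1, ?_⟩
        have h4 := this.2
        have e1 : ∑' N, K * (g N : ℝ) * q ^ N = K * G := by
          rw [hG, ← tsum_mul_left]; exact tsum_congr (fun N => by ring)
        have e2 : ∑' N, Real.log κ / 2 * (g N : ℝ) * q ^ N = Real.log κ / 2 * G := by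
          rw [hG, ← tsum_mul_left]; exact tsum_congr (fun N => by ring)
        rw [e1, e2] at h4
        refine le_trans h4 (le_of_eq ?_)
        simp only [Nat.sub_self, pow_zero, Nat.cast_one]
        ring
      | succ t ht ih =>
        intro htk
        obtain ⟨ihs, ihb⟩ := ih (by omega)
        obtain ⟨has, hab⟩ := stepA t ht (by omega)
        have := A1_gen q hq0 hq1 (fun N => Real.log (w (t + 1) N : ℝ) + K * (a (t + 1) N : ℝ))
          (fun N => Real.log (w t N : ℝ) + K * (a t N : ℝ)) (fun N => Real.log 3 * (a t N : ℝ))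
          (hEnonneg (t + 1) (by omega) htk) (fun N => mul_nonneg hlog3 (Nat.cast_nonneg _))
          (by
            simp only [(h0 t ht (by omega)).1, (h0 t ht (by omega)).2,
              (h0 (t + 1) (by omega) htk).1, (h0 (t + 1) (by omega) htk).2]
            exact le_refl _)
          (by
            intro N
            obtain ⟨h5, h6⟩ := h3 t ht (by omega) N
            have hw : (0 : ℝ) < (w (t + 1) (N + 1) : ℝ) := by
              exact_mod_cast (hpos (t + 1) (by omega) htk (N + 1)).2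
            have hw2 : (0 : ℝ) < (w t N : ℝ) := by
              exact_mod_cast (hpos t ht (by omega) N).2
            have hw3 : (0 : ℝ) < (w t (N + 1) : ℝ) := by
              exact_mod_cast (hpos t ht (by omega) (N + 1)).2
            obtain ⟨e, he⟩ : ∃ e, e = a t (N + 1) - a t N - a (t + 1) (N + 1) := ⟨_, rfl⟩
            rw [← he] at h6
            have he' : (e : ℝ) = (a t (N + 1) : ℝ) - a t N - a (t + 1) (N + 1) := by
              have : e + a t N + a (t + 1) (N + 1) = a t (N + 1) := by omega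
              have h' : (e : ℝ) + a t N + a (t + 1) (N + 1) = a t (N + 1) := by exact_mod_cast this
              linarith
            have h7 : (w (t + 1) (N + 1) : ℝ) * (w t N : ℝ) ≤
                (3 : ℝ) ^ (a t N) * (Ct t : ℝ) ^ e * (w t (N + 1) : ℝ) := by
              exact_mod_cast h6
            have h8 := Real.log_le_log (by positivity) h7
            have hC1' : (0 : ℝ) < Ct t := by exact_mod_cast hCt t
            rw [Real.log_mul (by positivity) (by positivity),
              Real.log_mul (by positivity) (by positivity),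
              Real.log_mul (by positivity) (by positivity), Real.log_pow, Real.log_pow] at h8
            have h9 : (e : ℝ) * Real.log (Ct t) ≤ e * K :=
              mul_le_mul_of_nonneg_left (hKCt t (by omega)) (Nat.cast_nonneg _)
            rw [he'] at h9
            rw [he'] at h8
            nlinarith) ihs (by
              have := has.mul_left (Real.log 3)
              refine this.congr (fun N => by ring))
        refine ⟨this.1, ?_⟩
        have h4 := this.2
        have e2 : ∑' N, Real.log 3 * (a t N : ℝ) * q ^ N = Real.log 3 * ∑' N, (a t N : ℝ) * q ^ N := by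
          rw [← tsum_mul_left]; exact tsum_congr (fun N => by ring)
        rw [e2] at h4
        have h5 : Real.log 3 * ∑' N, (a t N : ℝ) * q ^ N ≤ Real.log 3 * ((1 - q) ^ t * G) :=
          mul_le_mul_of_nonneg_left hab hlog3
        have h6 := mul_le_mul_of_nonneg_left ihb h1q.le
        refine le_trans h4 (le_trans (add_le_add h6 h5) (le_of_eq ?_))
        obtain ⟨m, rfl⟩ : ∃ m, t = m + 1 := ⟨t - 1, by omega⟩
        simp only [Nat.add_sub_cancel]
        push_cast
        ring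
    -- step 3
    have hprod : ∏ s, (1 - q ^ (D s)) ≤ P * (1 - q) ^ ρ := by
      have h5 : ∏ s : Fin ρ, (1 - q ^ (D s)) ≤ ∏ s : Fin ρ, ((D s : ℝ) * (1 - q)) := by
        refine Finset.prod_le_prod (fun s _ => ?_) (fun s _ => A1_one_sub q hq0 hq1 (D s))
        have := pow_le_one₀ (n := D s) hq0.le hq1.le
        linarith
      rw [Finset.prod_mul_distrib] at h5
      simp only [Finset.prod_const, Finset.card_univ, Fintype.card_fin] at h5
      rw [hP]
      exact h5
    have hG0 : 0 ≤ G := by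
      rw [hG]; exact tsum_nonneg (fun N => mul_nonneg (Nat.cast_nonneg _) (pow_nonneg hq0.le N))
    have hGk : G * (1 - q) ^ (k + 1) ≤ P := by
      have h6 : G * (1 - q) ^ (n + 1) = (G * (1 - q) ^ (k + 1)) * (1 - q) ^ ρ := by
        rw [hn, mul_assoc, ← pow_add]
        congr 2
        omega
      have h7 := le_trans hgb hprod
      rw [h6] at h7
      exact le_of_mul_le_mul_right h7 (pow_pos h1q ρ)
    obtain ⟨hAs, hAb⟩ := stepA k hk (le_refl k)
    obtain ⟨hEs, hEb⟩ := stepE k hk (le_refl k)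
    refine ⟨⟨hAs, ?_⟩, ⟨hEs, ?_⟩⟩
    · calc (1 - q) * ∑' N, (a k N : ℝ) * q ^ N ≤ (1 - q) * ((1 - q) ^ k * G) :=
            mul_le_mul_of_nonneg_left hAb h1q.le
        _ = G * (1 - q) ^ (k + 1) := by ring
        _ ≤ P := hGk
    · obtain ⟨m, hm⟩ : ∃ m, k = m + 1 := ⟨k - 1, by omega⟩
      have hL0 : 0 ≤ Real.log κ / 2 + K * (1 - q) + ((k : ℝ) - 1) * Real.log 3 := by
        have h8 : (1 : ℝ) ≤ k := by exact_mod_cast hk
        have h9 : 0 ≤ ((k : ℝ) - 1) * Real.log 3 := mul_nonneg (by linarith) hlog3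
        have h10 : 0 ≤ K * (1 - q) := mul_nonneg hK0 h1q.le
        linarith
      calc (1 - q) ^ 2 * ∑' N, (Real.log (w k N : ℝ) + K * (a k N : ℝ)) * q ^ N
          ≤ (1 - q) ^ 2 * ((1 - q) ^ (k - 1) * G *
            (Real.log κ / 2 + K * (1 - q) + ((k : ℝ) - 1) * Real.log 3)) :=
            mul_le_mul_of_nonneg_left hEb (by positivity)
        _ = (G * (1 - q) ^ (k + 1)) *
            (Real.log κ / 2 + K * (1 - q) + ((k : ℝ) - 1) * Real.log 3) := by
            have h11 : (1 - q) ^ (k + 1) = (1 - q) ^ 2 * (1 - q) ^ (k - 1) := by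
              rw [← pow_add]
              congr 1
              omega
            rw [h11]; ring
        _ ≤ P * (Real.log κ / 2 + K * (1 - q) + ((k : ℝ) - 1) * Real.log 3) :=
            mul_le_mul_of_nonneg_right hGk hL0
  constructor
  · -- boundedness
    refine ⟨∏ s, D s, fun N₁ => ?_⟩
    have hmono' : Monotone (a k) := monotone_nat_of_le_succ hmono
    have key : ∀ q : ℝ, 0 < q → q < 1 → (a k N₁ : ℝ) * q ^ N₁ ≤ P := by
      intro q hq0 hq1
      obtain ⟨⟨hAs, hAb⟩, _⟩ := main q hq0 hq1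
      have h1q : 0 < 1 - q := by linarith
      have h5 : ∑' N, (a k N₁ : ℝ) * q ^ N₁ * q ^ N ≤ ∑' N, (a k (N + N₁) : ℝ) * q ^ (N + N₁) := by
        refine Summable.tsum_le_tsum (fun N => ?_)
          ((summable_geometric_of_lt_one hq0.le hq1).mul_left _)
          ((summable_nat_add_iff (f := fun N => (a k N : ℝ) * q ^ N) N₁).2 hAs)
        have h6 : (a k N₁ : ℝ) ≤ a k (N + N₁) := by exact_mod_cast hmono' (by omega)
        calc (a k N₁ : ℝ) * q ^ N₁ * q ^ N = (a k N₁ : ℝ) * q ^ (N + N₁) := by ring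
          _ ≤ (a k (N + N₁) : ℝ) * q ^ (N + N₁) :=
            mul_le_mul_of_nonneg_right h6 (pow_nonneg hq0.le _)
      rw [tsum_mul_left, tsum_geometric_of_lt_one hq0.le hq1] at h5
      have h7 : ∑' N, (a k (N + N₁) : ℝ) * q ^ (N + N₁) ≤ ∑' N, (a k N : ℝ) * q ^ N := by
        rw [← hAs.sum_add_tsum_nat_add N₁]
        have : 0 ≤ ∑ i ∈ Finset.range N₁, (a k i : ℝ) * q ^ i :=
          Finset.sum_nonneg (fun i _ => mul_nonneg (Nat.cast_nonneg _) (pow_nonneg hq0.le i))
        linarith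
      have h8 : (1 - q) * ((a k N₁ : ℝ) * q ^ N₁ * (1 - q)⁻¹) ≤ P :=
        le_trans (mul_le_mul_of_nonneg_left (le_trans h5 h7) h1q.le) hAb
      have h9 : (1 - q) * ((a k N₁ : ℝ) * q ^ N₁ * (1 - q)⁻¹) = (a k N₁ : ℝ) * q ^ N₁ := by
        field_simp
      rwa [h9] at h8
    have h10 := A1_lim (fun q => (a k N₁ : ℝ) * q ^ N₁) P (by fun_prop) key
    simp only [one_pow, mul_one] at h10
    rw [hP] at h10
    exact_mod_cast h10
  · intro h C' hh
    have key : ∀ q : ℝ, 0 < q → q < 1 →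
        h * q - C' * (1 - q) - P * (Real.log κ / 2 + K * (1 - q) + ((k : ℝ) - 1) * Real.log 3) ≤ 0 := by
      intro q hq0 hq1
      obtain ⟨_, ⟨hEs, hEb⟩⟩ := main q hq0 hq1
      have h1q : 0 < 1 - q := by linarith
      have hn1 : ‖q‖ < 1 := by rw [Real.norm_of_nonneg hq0.le]; exact hq1
      have s1 : Summable (fun N : ℕ => (N : ℝ) * q ^ N) := by
        have := summable_pow_mul_geometric_of_norm_lt_one 1 hn1
        simpa using this
      have s2 := summable_geometric_of_lt_one hq0.le hq1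
      have h5 : ∑' N : ℕ, (h * ((N : ℝ) * q ^ N) - C' * q ^ N) ≤
          ∑' N, (Real.log (w k N : ℝ) + K * (a k N : ℝ)) * q ^ N := by
        refine Summable.tsum_le_tsum (fun N => ?_) ((s1.mul_left h).sub (s2.mul_left C')) hEs
        have h6 : h * N - C' ≤ Real.log (w k N : ℝ) + K * (a k N : ℝ) := by
          have h7 := hh N
          have h8 := mul_nonneg hK0 (Nat.cast_nonneg (α := ℝ) (a k N))
          linarith
        calc h * ((N : ℝ) * q ^ N) - C' * q ^ N = (h * N - C') * q ^ N := by ring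
          _ ≤ _ := mul_le_mul_of_nonneg_right h6 (pow_nonneg hq0.le _)
      rw [Summable.tsum_sub (s1.mul_left h) (s2.mul_left C'), tsum_mul_left, tsum_mul_left,
        tsum_coe_mul_geometric_of_norm_lt_one hn1, tsum_geometric_of_lt_one hq0.le hq1] at h5
      have h9 := mul_le_mul_of_nonneg_left h5 (show 0 ≤ (1 - q) ^ 2 by positivity)
      have h10 : (1 - q) ^ 2 * (h * (q / (1 - q) ^ 2) - C' * (1 - q)⁻¹) = h * q - C' * (1 - q) := by
        field_simp
      rw [h10] at h9
      linarith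
    have h10 := A1_lim (fun q => h * q - C' * (1 - q) -
      P * (Real.log κ / 2 + K * (1 - q) + ((k : ℝ) - 1) * Real.log 3)) 0 (by fun_prop) key
    simp only [mul_one, sub_self, mul_zero, sub_zero, add_zero] at h10
    rw [← hP]
    linarith

end H58D
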