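import Pool.Agent.Lib.H58D.Defs

/-! Chunk B1 (size M/L).  Standard basis for the total degree.

Proof.  For `f ≠ 0` let `in f = homogeneousComponent f.totalDegree f ≠ 0`.  The ideal of `MvPolynomial ι ℤ` (Noetherian) generated by `{in f : f ∈ 𝔞, f ≠ 0}` is generated by a finite
subset `{in g : g ∈ G}` (`Submodule.fg_span_iff_fg_span_finset_subset` or similar), `G ⊆ 𝔞 \ {0}` finite.  Strong induction on `d = f.totalDegree`, `f ∈ 𝔞`, `f ≠ 0`:
`in f = Σ_{g ∈ G} h_g * in g`; take the homogeneous component of degree `d`: `in f = Σ_{g, deg g ≤ d} (h_g)_{d - deg g} * in g`, so with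
`h'_g = homogeneousComponent (d - g.totalDegree) h_g` (and `0` if `deg g > d`) the polynomial `f' = f - Σ h'_g g` is in `𝔞`, and its components of degree `≥ d` vanish.
Each `h'_g g` is an integer combination of `X^u g` with `Σ u_i = d - deg g`, so it is in the span for the bound `d`.  If `d = 0` then `f' = 0`
(the only component is the one in degree `0`); if `d ≥ 1`, `f'` is `0` or has total degree `< d`; by induction it is in the span for the bound `f'.totalDegree ≤ d`. -/

namespace H58D

open MvPolynomial in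
private theorem B1_hc_right {ι : Type*} (e d : ℕ) (h p : MvPolynomial ι ℤ)
    (hp : p.IsHomogeneous e) :
    homogeneousComponent d (h * p) = if e ≤ d then homogeneousComponent (d - e) h * p else 0 := by
  classical
  let _ := MvPolynomial.gradedAlgebra (σ := ι) (R := ℤ)
  have key : ∀ (q : MvPolynomial ι ℤ) (i : ℕ),
      (DirectSum.decompose (homogeneousSubmodule ι ℤ) q i : MvPolynomial ι ℤ) = homogeneousComponent i q :=
    fun q i => decomposition.decompose'_apply q i
  rw [← key, ← key]
  exact DirectSum.coe_decompose_mul_of_right_mem (homogeneousSubmodule ι ℤ) d hp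

open MvPolynomial in
private theorem B1_hc_left {ι : Type*} (e d : ℕ) (a b : MvPolynomial ι ℤ)
    (ha : a.IsHomogeneous e) :
    homogeneousComponent d (a * b) = if e ≤ d then a * homogeneousComponent (d - e) b else 0 := by
  classical
  let _ := MvPolynomial.gradedAlgebra (σ := ι) (R := ℤ)
  have key : ∀ (q : MvPolynomial ι ℤ) (i : ℕ),
      (DirectSum.decompose (homogeneousSubmodule ι ℤ) q i : MvPolynomial ι ℤ) = homogeneousComponent i q :=
    fun q i => decomposition.decompose'_apply q i
  rw [← key, ← key]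
  exact DirectSum.coe_decompose_mul_of_left_mem (homogeneousSubmodule ι ℤ) d ha

open MvPolynomial in
private theorem B1_ne {ι : Type*} (f : MvPolynomial ι ℤ) (hf : f ≠ 0) :
    ∃ u ∈ f.support, (u.sum fun _ e => e) = f.totalDegree := by
  have hs : f.support.Nonempty := by
    rw [Finset.nonempty_iff_ne_empty]; intro h; exact hf (support_eq_empty.mp h)
  obtain ⟨u, hu, hmax⟩ := Finset.exists_mem_eq_sup f.support hs (fun s => s.sum fun _ e => e)
  exact ⟨u, hu, hmax.symm⟩

open MvPolynomial in
private theorem B1_span {ι : Type*} [Fintype ι] (G : Finset (MvPolynomial ι ℤ)) (g : MvPolynomial ι ℤ)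
    (hg : g ∈ G) (h : MvPolynomial ι ℤ) (D d : ℕ) (hh : h.IsHomogeneous D)
    (hD : D + g.totalDegree ≤ d) :
    h * g ∈ Submodule.span ℤ {q : MvPolynomial ι ℤ | ∃ g ∈ G, ∃ u : ι →₀ ℕ,
        q = MvPolynomial.monomial u 1 * g ∧ (∑ i, u i) + g.totalDegree ≤ d} := by
  classical
  have e : h * g = ∑ u ∈ h.support, h.coeff u • (MvPolynomial.monomial u 1 * g) := by
    conv_lhs => rw [h.as_sum]
    rw [Finset.sum_mul]
    apply Finset.sum_congr rfl
    intro u _
    rw [smul_eq_C_mul, ← mul_assoc, C_mul_monomial, mul_one]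
  rw [e]
  apply Submodule.sum_mem
  intro u hu
  apply Submodule.smul_mem
  apply Submodule.subset_span
  refine ⟨g, hg, u, rfl, ?_⟩
  have h1 : u.degree = D := by
    have h3 := hh (MvPolynomial.mem_support_iff.mp hu)
    rw [Finsupp.degree_eq_weight_one]
    exact h3
  have h2 : (∑ i, u i) = u.degree := by
    rw [Finsupp.degree_eq_sum]
  rw [h2, h1]; exact hD

theorem B1 {ι : Type*} [Fintype ι] [DecidableEq ι] (𝔞 : Ideal (MvPolynomial ι ℤ)) :
    ∃ G : Finset (MvPolynomial ι ℤ), (∀ g ∈ G, g ∈ 𝔞) ∧
      ∀ f ∈ 𝔞, f ∈ Submodule.span ℤ {q : MvPolynomial ι ℤ | ∃ g ∈ G, ∃ u : ι →₀ ℕ,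
        q = MvPolynomial.monomial u 1 * g ∧ (∑ i, u i) + g.totalDegree ≤ f.totalDegree} := by
  classical
  let S : Set (MvPolynomial ι ℤ) := {p | ∃ f ∈ 𝔞, f ≠ 0 ∧ p = MvPolynomial.homogeneousComponent f.totalDegree f}
  have hfg : (Submodule.span (MvPolynomial ι ℤ) S).FG := IsNoetherian.noetherian _
  obtain ⟨T, hTS, hT⟩ := (Submodule.fg_span_iff_fg_span_finset_subset S).mp hfg
  have hch : ∀ p ∈ T, ∃ g, g ∈ 𝔞 ∧ g ≠ 0 ∧ p = MvPolynomial.homogeneousComponent g.totalDegree g := by
    intro p hp
    obtain ⟨g, h1, h2, h3⟩ := hTS hp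
    exact ⟨g, h1, h2, h3⟩
  choose! γ hγ using hch
  refine ⟨T.image γ, ?_, ?_⟩
  · intro g hg
    obtain ⟨p, hp, rfl⟩ := Finset.mem_image.mp hg
    exact (hγ p hp).1
  have main : ∀ d : ℕ, ∀ f ∈ 𝔞, f.totalDegree ≤ d → f ∈ Submodule.span ℤ {q : MvPolynomial ι ℤ |
      ∃ g ∈ T.image γ, ∃ u : ι →₀ ℕ,
        q = MvPolynomial.monomial u 1 * g ∧ (∑ i, u i) + g.totalDegree ≤ f.totalDegree} := by
    intro d
    induction d using Nat.strong_induction_on with
    | _ d ih =>
    intro f hf hd
    by_cases hf0 : f = 0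
    · rw [hf0]; exact Submodule.zero_mem _
    have hin : MvPolynomial.homogeneousComponent f.totalDegree f ∈
        Submodule.span (MvPolynomial ι ℤ) (T : Set (MvPolynomial ι ℤ)) := by
      rw [← hT]; exact Submodule.subset_span ⟨f, hf, hf0, rfl⟩
    obtain ⟨h, -, hh⟩ := Submodule.mem_span_finset.mp hin
    let D := f.totalDegree
    let h' : MvPolynomial ι ℤ → MvPolynomial ι ℤ := fun p =>
      if (γ p).totalDegree ≤ D then MvPolynomial.homogeneousComponent (D - (γ p).totalDegree) (h p) else 0
    let s := ∑ p ∈ T, h' p * γ p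
    have hsa : s ∈ 𝔞 := by
      apply Ideal.sum_mem
      intro p hp
      exact Ideal.mul_mem_left _ _ (hγ p hp).1
    have hterm : ∀ p ∈ T, h' p * γ p ∈ Submodule.span ℤ {q : MvPolynomial ι ℤ |
      ∃ g ∈ T.image γ, ∃ u : ι →₀ ℕ,
        q = MvPolynomial.monomial u 1 * g ∧ (∑ i, u i) + g.totalDegree ≤ f.totalDegree} := by
      intro p hp
      by_cases hle : (γ p).totalDegree ≤ D
      · have e1 : h' p = MvPolynomial.homogeneousComponent (D - (γ p).totalDegree) (h p) := if_pos hle
        rw [e1]
        exact B1_span (T.image γ) (γ p) (Finset.mem_image_of_mem _ hp) _ (D - (γ p).totalDegree) D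
          (MvPolynomial.homogeneousComponent_isHomogeneous _ _) (by omega)
      · have e1 : h' p = 0 := if_neg hle
        rw [e1, zero_mul]; exact Submodule.zero_mem _
    have hs : s ∈ Submodule.span ℤ {q : MvPolynomial ι ℤ |
      ∃ g ∈ T.image γ, ∃ u : ι →₀ ℕ,
        q = MvPolynomial.monomial u 1 * g ∧ (∑ i, u i) + g.totalDegree ≤ f.totalDegree} :=
      Submodule.sum_mem _ hterm
    have hsdeg : s.totalDegree ≤ D := by
      apply MvPolynomial.totalDegree_finsetSum_le
      intro p hp
      by_cases hle : (γ p).totalDegree ≤ D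
      · have e1 : h' p = MvPolynomial.homogeneousComponent (D - (γ p).totalDegree) (h p) := if_pos hle
        refine (MvPolynomial.totalDegree_mul _ _).trans ?_
        have : (h' p).totalDegree ≤ D - (γ p).totalDegree := by
          rw [e1]
          exact (MvPolynomial.homogeneousComponent_isHomogeneous _ _).totalDegree_le
        omega
      · have e1 : h' p = 0 := if_neg hle
        rw [e1, zero_mul]; simp
    have hcomp : MvPolynomial.homogeneousComponent D s = MvPolynomial.homogeneousComponent D f := by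
      rw [← hh, map_sum]
      have e2 : ∑ p ∈ T, h p • p = ∑ p ∈ T, h p * p := rfl
      rw [e2]
      have e3 : MvPolynomial.homogeneousComponent D (∑ p ∈ T, h p * p) = ∑ p ∈ T, h p * p := by
        rw [← e2, hh]
        exact MvPolynomial.homogeneousComponent_eq_self (MvPolynomial.homogeneousComponent_isHomogeneous _ _)
      rw [← e3, map_sum]
      apply Finset.sum_congr rfl
      intro p hp
      obtain ⟨g1, g2, g3⟩ := hγ p hp
      have hpH : p.IsHomogeneous (γ p).totalDegree := by
        have h5 : (MvPolynomial.homogeneousComponent (γ p).totalDegree (γ p)).IsHomogeneous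
            (γ p).totalDegree := MvPolynomial.homogeneousComponent_isHomogeneous _ _
        rwa [← g3] at h5
      rw [B1_hc_right (γ p).totalDegree D (h p) p hpH]
      by_cases hle : (γ p).totalDegree ≤ D
      · have e1 : h' p = MvPolynomial.homogeneousComponent (D - (γ p).totalDegree) (h p) := if_pos hle
        rw [if_pos hle, ← e1, B1_hc_left (D - (γ p).totalDegree) D (h' p) (γ p)
          (by rw [e1]; exact MvPolynomial.homogeneousComponent_isHomogeneous _ _), if_pos (by omega)]
        have : D - (D - (γ p).totalDegree) = (γ p).totalDegree := by omega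
        rw [this, ← g3]
      · have e1 : h' p = 0 := if_neg hle
        rw [if_neg hle, e1, zero_mul]
        exact LinearMap.map_zero (MvPolynomial.homogeneousComponent D)
    have hfs' : (f - s) ∈ 𝔞 := Ideal.sub_mem _ hf hsa
    have hk : (f - s) ∈ Submodule.span ℤ {q : MvPolynomial ι ℤ |
      ∃ g ∈ T.image γ, ∃ u : ι →₀ ℕ,
        q = MvPolynomial.monomial u 1 * g ∧ (∑ i, u i) + g.totalDegree ≤ f.totalDegree} := by
      by_cases hz : f - s = 0
      · rw [hz]; exact Submodule.zero_mem _
      have h0 : MvPolynomial.homogeneousComponent D (f - s) = 0 := by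
        rw [map_sub, hcomp, sub_self]
      have h1 : (f - s).totalDegree ≤ D := by
        refine (MvPolynomial.totalDegree_sub _ _).trans ?_
        exact max_le le_rfl hsdeg
      have h2 : (f - s).totalDegree ≠ D := by
        intro h3
        obtain ⟨u, hu, hud⟩ := B1_ne (f - s) hz
        have h4 : MvPolynomial.coeff u (MvPolynomial.homogeneousComponent D (f - s)) = 0 := by
          rw [h0, MvPolynomial.coeff_zero]
        rw [MvPolynomial.coeff_homogeneousComponent, if_pos] at h4
        · exact (MvPolynomial.mem_support_iff.mp hu) h4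
        · rw [← h3, ← hud]; rfl
      have h3 : (f - s).totalDegree < D := lt_of_le_of_ne h1 h2
      have h4 := ih (f - s).totalDegree (lt_of_lt_of_le h3 hd) (f - s) hfs' le_rfl
      refine Submodule.span_mono ?_ h4
      rintro q ⟨g, hg, u, hq, hu⟩
      exact ⟨g, hg, u, hq, hu.trans h3.le⟩
    have hadd := Submodule.add_mem _ hk hs
    have hfsD : f - s + s = f := by ring
    rwa [hfsD] at hadd
  intro f hf
  exact main _ f hf le_rfl

end H58D
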