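import Pool.Agent.Lib.H58D.B1

/-! Chunk B2 (size M).  The kernel of `L_N(y) → L_N(f ∘ y)` is spanned by short combinations of monomials.

Proof.  Let `𝔞` be the kernel of `MvPolynomial.eval₂Hom (Int.castRingHom B') (fun i => f (y i)) : MvPolynomial ι ℤ → B'`, `G` from `B1`, and
`C = 1 + max_{g ∈ G} Σ_u |coeff u g|` (sum over the support).  Let `k ∈ L_N(y)` with `f k = 0`; `k = Σ_u a_u y^u` (finite sum, `deg u ≤ N`, from
`Submodule.mem_span` / `Finsupp.mem_span_iff_linearCombination`).  The polynomial `P = Σ a_u X^u` has total degree `≤ N`, evaluates to `k` at `y`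
and to `f k = 0` at `f ∘ y`; so `P ∈ 𝔞`, hence `P` is an integer combination of `X^u g`, `g ∈ G`, `Σ u + deg g ≤ deg P ≤ N`.  Evaluate at `y`: `k` is an integer
combination of the elements `y^u g(y) = Σ_v coeff_v(g) y^(u+v)` with `deg (u+v) ≤ N`; each has `ℓ¹`-norm `≤ C` and lies in the kernel of `f`.
(`Finsupp` vs functions: `mon y u` for `u : ι → ℕ`; use `Finsupp.equivFunOnFinite`.  Different `v` may give equal monomials in `B`; then the coefficients add and the `ℓ¹`-norm can only
drop.  A helper lemma: `L1le S C x` and `L1le S C' x'` imply `L1le S (C + C') (x + x')`, `L1le S (|a|) (a • s)` for `s ∈ S`.) -/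

namespace H58D

private lemma l1_zero {L : Type*} [AddCommGroup L] (S : Set L) : L1le S 0 (0 : L) :=
  ⟨0, by simp, by simp, by simp⟩

private lemma l1_mono {L : Type*} [AddCommGroup L] {S : Set L} {C C' : ℕ} {x : L}
    (h : L1le S C x) (hC : C ≤ C') : L1le S C' x := by
  obtain ⟨c, hc, hx, hn⟩ := h
  exact ⟨c, hc, hx, hn.trans hC⟩

private lemma l1_single {L : Type*} [AddCommGroup L] {S : Set L} {s : L} (hs : s ∈ S) (a : ℤ) :
    L1le S a.natAbs (a • s) := by
  classical
  refine ⟨Finsupp.single s a, ?_, ?_, ?_⟩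
  · intro t ht
    have h1 := Finsupp.support_single_subset (Finset.mem_coe.1 ht)
    rw [Finset.mem_singleton] at h1
    rw [h1]; exact hs
  · rw [Finsupp.sum_single_index (by simp)]
  · rw [Finsupp.sum_single_index (by simp)]

private lemma l1_add {L : Type*} [AddCommGroup L] {S : Set L} {C C' : ℕ} {x x' : L}
    (h : L1le S C x) (h' : L1le S C' x') : L1le S (C + C') (x + x') := by
  classical
  obtain ⟨c, hc, hx, hn⟩ := h
  obtain ⟨c', hc', hx', hn'⟩ := h'
  refine ⟨c + c', ?_, ?_, ?_⟩
  · intro s hs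
    have h1 := Finsupp.support_add (Finset.mem_coe.1 hs)
    rcases Finset.mem_union.1 h1 with h | h
    · exact hc (Finset.mem_coe.2 h)
    · exact hc' (Finset.mem_coe.2 h)
  · rw [hx, hx', Finsupp.sum_add_index']
    · intro s; exact zero_smul ℤ s
    · intro s a b; exact add_smul a b s
  · have h1 : (c + c').sum (fun _ a => a.natAbs)
        = ∑ s ∈ c.support ∪ c'.support, ((c + c') s).natAbs :=
      Finsupp.sum_of_support_subset _ Finsupp.support_add _ (by intro _ _; rfl)
    have h2 : c.sum (fun _ a => a.natAbs) = ∑ s ∈ c.support ∪ c'.support, (c s).natAbs :=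
      Finsupp.sum_of_support_subset _ Finset.subset_union_left _ (by intro _ _; rfl)
    have h3 : c'.sum (fun _ a => a.natAbs) = ∑ s ∈ c.support ∪ c'.support, (c' s).natAbs :=
      Finsupp.sum_of_support_subset _ Finset.subset_union_right _ (by intro _ _; rfl)
    rw [h2] at hn
    rw [h3] at hn'
    rw [h1]
    calc ∑ s ∈ c.support ∪ c'.support, ((c + c') s).natAbs
        ≤ ∑ s ∈ c.support ∪ c'.support, ((c s).natAbs + (c' s).natAbs) :=
          Finset.sum_le_sum (fun s _ => Int.natAbs_add_le _ _)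
      _ = (∑ s ∈ c.support ∪ c'.support, (c s).natAbs)
            + ∑ s ∈ c.support ∪ c'.support, (c' s).natAbs := Finset.sum_add_distrib
      _ ≤ C + C' := by omega

private lemma l1_sum {L : Type*} [AddCommGroup L] {S : Set L} {α : Type*} (t : Finset α)
    (a : α → ℤ) (s : α → L) (hs : ∀ i ∈ t, s i ∈ S) :
    L1le S (∑ i ∈ t, (a i).natAbs) (∑ i ∈ t, a i • s i) := by
  classical
  induction t using Finset.induction_on with
  | empty => simpa using l1_zero S
  | insert i t hi ih =>
    rw [Finset.sum_insert hi, Finset.sum_insert hi]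
    exact l1_add (l1_single (hs i (Finset.mem_insert_self i t)) (a i))
      (ih (fun j hj => hs j (Finset.mem_insert_of_mem hj)))

private lemma lat_poly {ι : Type*} [Fintype ι] {B : Type*} [CommRing B] (y : ι → B) (N : ℕ)
    (b : B) (hb : b ∈ lat y N) :
    ∃ P : MvPolynomial ι ℤ, P.totalDegree ≤ N ∧
      MvPolynomial.eval₂Hom (Int.castRingHom B) y P = b := by
  classical
  induction hb using Submodule.span_induction with
  | mem x hx =>
    obtain ⟨u, hu, rfl⟩ := hx
    refine ⟨MvPolynomial.monomial (Finsupp.equivFunOnFinite.symm u) 1, ?_, ?_⟩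
    · refine (MvPolynomial.totalDegree_monomial_le _ _).trans ?_
      rw [Finsupp.sum_fintype _ _ (fun _ => rfl)]
      exact hu
    · rw [MvPolynomial.coe_eval₂Hom, MvPolynomial.eval₂_monomial,
        Finsupp.prod_fintype _ _ (fun i => pow_zero _)]
      simp [mon]
  | zero => exact ⟨0, by simp, by simp⟩
  | add x x' _ _ hx hx' =>
    obtain ⟨P, hP, rfl⟩ := hx
    obtain ⟨Q, hQ, rfl⟩ := hx'
    exact ⟨P + Q, (MvPolynomial.totalDegree_add P Q).trans (max_le hP hQ), map_add _ _ _⟩
  | smul a x _ hx =>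
    obtain ⟨P, hP, rfl⟩ := hx
    refine ⟨a • P, (MvPolynomial.totalDegree_smul_le a P).trans hP, ?_⟩
    exact map_zsmul _ a P

theorem B2 {ι : Type*} [Fintype ι] [DecidableEq ι] {B B' : Type*} [CommRing B] [CommRing B']
    (y : ι → B) (f : B →+* B') :
    ∃ C : ℕ, 1 ≤ C ∧ ∀ N : ℕ, ∀ k : lat y N, f (k : B) = 0 →
      k ∈ Submodule.span ℤ {e : lat y N | f (e : B) = 0 ∧ L1le (monSet y N) C e} := by
  classical
  obtain ⟨G, hG, hspan⟩ := B1 (RingHom.ker
    (f.comp (MvPolynomial.eval₂Hom (Int.castRingHom B) y)))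
  refine ⟨1 + ∑ g ∈ G, ∑ v ∈ g.support, (MvPolynomial.coeff v g).natAbs, by omega, ?_⟩
  intro N k hk
  obtain ⟨P, hPN, hPk⟩ := lat_poly y N (k : B) k.2
  have hPa : P ∈ RingHom.ker (f.comp (MvPolynomial.eval₂Hom (Int.castRingHom B) y)) := by
    rw [RingHom.mem_ker, RingHom.comp_apply, hPk]
    exact hk
  have hP := hspan P hPa
  have key : ∀ q ∈ Submodule.span ℤ {q : MvPolynomial ι ℤ | ∃ g ∈ G, ∃ u : ι →₀ ℕ,
        q = MvPolynomial.monomial u 1 * g ∧ (∑ i, u i) + g.totalDegree ≤ P.totalDegree},
      ∃ e ∈ Submodule.span ℤ {e : lat y N | f (e : B) = 0 ∧ L1le (monSet y N)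
        (1 + ∑ g ∈ G, ∑ v ∈ g.support, (MvPolynomial.coeff v g).natAbs) e},
        (e : B) = MvPolynomial.eval₂Hom (Int.castRingHom B) y q := by
    intro q hq
    induction hq using Submodule.span_induction with
    | mem q hq =>
      obtain ⟨g, hg, u, rfl, hdeg⟩ := hq
      let s : (ι →₀ ℕ) → lat y N := fun v =>
        if h : deg (⇑(u + v)) ≤ N then
          ⟨mon y (⇑(u + v)), Submodule.subset_span ⟨_, h, rfl⟩⟩ else 0
      have hdv : ∀ v ∈ g.support, deg (⇑(u + v)) ≤ N := by
        intro v hv
        have h1 := MvPolynomial.le_totalDegree hv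
        rw [Finsupp.sum_fintype _ _ (fun _ => rfl)] at h1
        have h2 : deg (⇑(u + v)) = (∑ i, u i) + ∑ i, v i := by
          simp only [deg, Finsupp.coe_add, Pi.add_apply]
          exact Finset.sum_add_distrib
        omega
      have hsv : ∀ v ∈ g.support, ((s v : lat y N) : B) = mon y (⇑(u + v)) := by
        intro v hv
        simp only [s, dif_pos (hdv v hv)]
      have hval : ((∑ v ∈ g.support, (MvPolynomial.coeff v g) • s v : lat y N) : B)
          = MvPolynomial.eval₂Hom (Int.castRingHom B) y (MvPolynomial.monomial u 1 * g) := by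
        rw [map_mul, MvPolynomial.coe_eval₂Hom, MvPolynomial.eval₂_monomial,
          Finsupp.prod_fintype _ _ (fun i => pow_zero _), MvPolynomial.eval₂_eq',
          Finset.mul_sum]
        rw [Submodule.coe_sum]
        refine Finset.sum_congr rfl fun v hv => ?_
        rw [Submodule.coe_smul, hsv v hv, zsmul_eq_mul]
        simp only [mon, Finsupp.coe_add, Pi.add_apply, pow_add, Finset.prod_mul_distrib,
          map_one, one_mul, eq_intCast]
        ring
      refine ⟨∑ v ∈ g.support, (MvPolynomial.coeff v g) • s v, ?_, hval⟩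
      apply Submodule.subset_span
      refine ⟨?_, ?_⟩
      · rw [hval, map_mul, map_mul]
        have h0 : f (MvPolynomial.eval₂Hom (Int.castRingHom B) y g) = 0 := by
          have := hG g hg
          rwa [RingHom.mem_ker, RingHom.comp_apply] at this
        rw [h0, mul_zero]
      · refine l1_mono (l1_sum g.support (fun v => MvPolynomial.coeff v g) s ?_) ?_
        · intro v hv
          exact ⟨_, hdv v hv, hsv v hv⟩
        · have h1 : ∑ v ∈ g.support, (MvPolynomial.coeff v g).natAbs
              ≤ ∑ g ∈ G, ∑ v ∈ g.support, (MvPolynomial.coeff v g).natAbs :=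
            Finset.single_le_sum
              (f := fun g : MvPolynomial ι ℤ => ∑ v ∈ g.support, (MvPolynomial.coeff v g).natAbs)
              (fun _ _ => Nat.zero_le _) hg
          exact h1.trans (Nat.le_add_left _ _)
    | zero => exact ⟨0, Submodule.zero_mem _, by simp⟩
    | add q q' _ _ hq hq' =>
      obtain ⟨e, he, he1⟩ := hq
      obtain ⟨e', he', he1'⟩ := hq'
      refine ⟨e + e', Submodule.add_mem _ he he', ?_⟩
      rw [map_add, ← he1, ← he1']
      rfl
    | smul a q _ hq =>
      obtain ⟨e, he, he1⟩ := hq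
      refine ⟨a • e, Submodule.smul_mem _ a he, ?_⟩
      rw [map_zsmul, ← he1]
      rfl
  obtain ⟨e, he, he1⟩ := key P hP
  have : k = e := by
    apply Subtype.ext
    rw [he1, hPk]
  rw [this]
  exact he

end H58D
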