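import Pool.Agent.Lib.H58D.Defs

/-! Chunk C1 (size S/M).  Counting classes modulo an element of infinite order.

Proof.  `d = p - m`.  Call `y ∈ Y` a top if `y + n • d ∉ Y` for all `n ≥ 1`.  Every class of `𝒢 ⧸ zmultiples d` which meets `Y` contains a top: otherwise starting from
`y ∈ Y` we get infinitely many distinct elements `y + n • d` of `Y` (distinct since `d` has infinite order), contradicting finiteness.  So the number of classes which meet `Y` is at most
the number of tops (the image of the set of tops is the image of `Y`).  The map `a ↦ a + m` is injective from `A` to `Y`, and `a + m` is not a top because `a + m + d = a + p ∈ Y`.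
So `#tops + #A ≤ #Y`.  (`A` is finite as it injects in `Y`.) -/

namespace H58D

theorem C1 {𝒢 : Type*} [AddCommGroup 𝒢] (p m : 𝒢) (hd : ∀ n : ℕ, 0 < n → n • (p - m) ≠ 0)
    (A Y : Set 𝒢) (hY : Y.Finite) (hA : ∀ a ∈ A, a + p ∈ Y ∧ a + m ∈ Y) :
    ((QuotientAddGroup.mk : 𝒢 → 𝒢 ⧸ AddSubgroup.zmultiples (p - m)) '' Y).ncard + A.ncard ≤
      Y.ncard := by
  set d := p - m with hdd
  let T : Set 𝒢 := {y | y ∈ Y ∧ ∀ n : ℕ, 0 < n → y + n • d ∉ Y}
  have hTY : T ⊆ Y := fun y hy => hy.1
  have hTf : T.Finite := hY.subset hTY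
  have hinj : ∀ y : 𝒢, Function.Injective (fun n : ℕ => y + n • d) := by
    intro y a b hab
    have hab' : a • d = b • d := add_left_cancel hab
    by_contra hne
    rcases Nat.lt_or_gt_of_ne hne with h | h
    · refine hd (b - a) (by omega) ?_
      have : (b - a) • d + a • d = a • d := by
        rw [← add_nsmul, Nat.sub_add_cancel h.le, hab']
      exact add_eq_right.1 this
    · refine hd (a - b) (by omega) ?_
      have : (a - b) • d + b • d = b • d := by
        rw [← add_nsmul, Nat.sub_add_cancel h.le, hab']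
      exact add_eq_right.1 this
  have himg : (QuotientAddGroup.mk : 𝒢 → 𝒢 ⧸ AddSubgroup.zmultiples d) '' Y ⊆
      (QuotientAddGroup.mk : 𝒢 → 𝒢 ⧸ AddSubgroup.zmultiples d) '' T := by
    rintro _ ⟨y, hy, rfl⟩
    have hfin : {n : ℕ | y + n • d ∈ Y}.Finite := hY.preimage (hinj y).injOn
    obtain ⟨n0, hn0, hmax⟩ := Set.exists_max_image _ (fun n : ℕ => n) hfin
      ⟨0, by simpa using hy⟩
    refine ⟨y + n0 • d, ⟨hn0, fun n hn hmem => ?_⟩, ?_⟩
    · have h1 := hmax (n0 + n) (by
        change y + (n0 + n) • d ∈ Y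
        rw [add_nsmul, ← add_assoc]
        exact hmem)
      omega
    · rw [QuotientAddGroup.eq]
      have : -(y + n0 • d) + y = -(n0 • d) := by abel
      rw [this]
      exact AddSubgroup.neg_mem _ (AddSubgroup.nsmul_mem _ (AddSubgroup.mem_zmultiples d) n0)
  have h1 : ((QuotientAddGroup.mk : 𝒢 → 𝒢 ⧸ AddSubgroup.zmultiples d) '' Y).ncard ≤ T.ncard :=
    (Set.ncard_le_ncard himg (hTf.image _)).trans (Set.ncard_image_le hTf)
  have h2 : ((fun a => a + m) '' A).ncard = A.ncard :=
    Set.ncard_image_of_injective _ (add_left_injective m)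
  have hsub : (fun a => a + m) '' A ⊆ Y := by
    rintro _ ⟨a, ha, rfl⟩
    exact (hA a ha).2
  have h3 : Disjoint T ((fun a => a + m) '' A) := by
    rw [Set.disjoint_left]
    rintro _ hT ⟨a, ha, rfl⟩
    refine hT.2 1 one_pos ?_
    have : a + m + 1 • d = a + p := by rw [one_nsmul, hdd]; abel
    simp only at this ⊢
    rw [this]
    exact (hA a ha).1
  have h4 := Set.ncard_le_ncard (Set.union_subset hTY hsub) hY
  rw [Set.ncard_union_eq h3 hTf (hY.subset hsub)] at h4
  omega

end H58D
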