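import Pool.Agent.Lib.H58D.C1

/-! Chunk C2 (size M).  Adding one relation.

Proof.  `𝒢 = (ι → ℤ) ⧸ Λ`, `𝒢' = (ι → ℤ) ⧸ Λ'`, `Λ' = Λ ⊔ zmultiples (dvec p m)`.  The natural map `𝒢 → 𝒢'` maps `gset Λ N` onto `gset Λ' N` and identifies two
elements iff they are congruent modulo `zmultiples [dvec p m]`, so `cnt Λ' N` = number of classes of `𝒢 ⧸ zmultiples ([p] - [m])` that meet `gset Λ N`
(`[p]` = class of `fun i => (p i : ℤ)`).  First claim: image of a finite set.  Second claim: `C1` with `Y = gset Λ (N + D)`, `A = gset Λ N`, the elements `[p]`, `[m]`: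
`[u] + [p] = [u + p]` has degree `≤ N + D`.  Infinite order: `n • ([p] - [m]) = 0` means `n • dvec p m ∈ Λ`, excluded by `hnt`. -/

namespace H58D

private theorem finite_gset {ι : Type*} [Fintype ι] [DecidableEq ι] (Λ : AddSubgroup (ι → ℤ))
    (N : ℕ) : (gset Λ N).Finite := by
  have h1 : {u : ι → ℕ | deg u ≤ N}.Finite := by
    refine (Set.finite_Iic (fun _ : ι => N)).subset ?_
    intro u hu i
    exact (Finset.single_le_sum (f := u) (fun j _ => Nat.zero_le _) (Finset.mem_univ i)).trans hu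
  refine (h1.image (fun u : ι → ℕ =>
    (QuotientAddGroup.mk (fun i => (u i : ℤ)) : (ι → ℤ) ⧸ Λ))).subset ?_
  rintro c ⟨u, hu, rfl⟩
  exact ⟨u, hu, rfl⟩

theorem C2 {ι : Type*} [Fintype ι] [DecidableEq ι] (Λ : AddSubgroup (ι → ℤ)) (p m : ι → ℕ) (D : ℕ)
    (hp : deg p ≤ D) (hm : deg m ≤ D) (hnt : ¬ Tors Λ (dvec p m)) (N : ℕ) :
    cnt (Λ ⊔ AddSubgroup.zmultiples (dvec p m)) N ≤ cnt Λ N ∧
      cnt (Λ ⊔ AddSubgroup.zmultiples (dvec p m)) (N + D) + cnt Λ N ≤ cnt Λ (N + D) := by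
  set Λ' := Λ ⊔ AddSubgroup.zmultiples (dvec p m) with hΛ'
  have hle : Λ ≤ Λ' := le_sup_left
  have hmem : dvec p m ∈ Λ' :=
    (le_sup_right : AddSubgroup.zmultiples (dvec p m) ≤ Λ') (AddSubgroup.mem_zmultiples _)
  let π : (ι → ℤ) ⧸ Λ →+ (ι → ℤ) ⧸ Λ' := QuotientAddGroup.map Λ Λ' (AddMonoidHom.id _) hle
  have hπ : ∀ v : ι → ℤ, π (QuotientAddGroup.mk v) = QuotientAddGroup.mk v := fun v => rfl
  have himg : ∀ K : ℕ, gset Λ' K = π '' gset Λ K := by
    intro K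
    ext c
    constructor
    · rintro ⟨u, hu, rfl⟩
      exact ⟨QuotientAddGroup.mk (fun i => (u i : ℤ)), ⟨u, hu, rfl⟩, hπ _⟩
    · rintro ⟨_, ⟨u, hu, rfl⟩, rfl⟩
      exact ⟨u, hu, hπ _⟩
  refine ⟨?_, ?_⟩
  · unfold cnt
    rw [himg]
    exact Set.ncard_image_le (finite_gset Λ N)
  · let P : (ι → ℤ) ⧸ Λ := QuotientAddGroup.mk (fun i => (p i : ℤ))
    let M : (ι → ℤ) ⧸ Λ := QuotientAddGroup.mk (fun i => (m i : ℤ))
    have hPM : P - M = QuotientAddGroup.mk (dvec p m) := rfl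
    have hd : ∀ n : ℕ, 0 < n → n • (P - M) ≠ 0 := by
      intro n hn h0
      refine hnt ⟨n, hn, ?_⟩
      rw [hPM] at h0
      exact (QuotientAddGroup.eq_zero_iff (n • dvec p m)).1 h0
    have h1 := C1 P M hd (gset Λ N) (gset Λ (N + D)) (finite_gset Λ (N + D)) (by
      rintro _ ⟨u, hu, rfl⟩
      have hadd : ∀ q : ι → ℕ, deg q ≤ D → deg (u + q) ≤ N + D := by
        intro q hq
        have : deg (u + q) = deg u + deg q := by
          simp [deg, Finset.sum_add_distrib]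
        omega
      refine ⟨⟨u + p, hadd p hp, ?_⟩, ⟨u + m, hadd m hm, ?_⟩⟩
      · have : (fun i => ((u + p) i : ℤ)) = (fun i => (u i : ℤ)) + fun i => (p i : ℤ) := by
          funext i
          simp
        rw [this]
        rfl
      · have : (fun i => ((u + m) i : ℤ)) = (fun i => (u i : ℤ)) + fun i => (m i : ℤ) := by
          funext i
          simp
        rw [this]
        rfl)
    let ψ : ((ι → ℤ) ⧸ Λ) ⧸ AddSubgroup.zmultiples (P - M) →+ (ι → ℤ) ⧸ Λ' :=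
      QuotientAddGroup.lift (AddSubgroup.zmultiples (P - M)) π (by
        rw [AddSubgroup.zmultiples_le]
        change π (P - M) = 0
        rw [hPM, hπ]
        exact (QuotientAddGroup.eq_zero_iff (dvec p m)).2 hmem)
    have h2 : gset Λ' (N + D) = ψ '' ((QuotientAddGroup.mk : (ι → ℤ) ⧸ Λ →
        ((ι → ℤ) ⧸ Λ) ⧸ AddSubgroup.zmultiples (P - M)) '' gset Λ (N + D)) := by
      rw [himg, Set.image_image]
      rfl
    have h3 : cnt Λ' (N + D) ≤ ((QuotientAddGroup.mk : (ι → ℤ) ⧸ Λ →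
        ((ι → ℤ) ⧸ Λ) ⧸ AddSubgroup.zmultiples (P - M)) '' gset Λ (N + D)).ncard := by
      unfold cnt
      rw [h2]
      exact Set.ncard_image_le ((finite_gset Λ (N + D)).image _)
    unfold cnt at h3 ⊢
    omega

end H58D
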