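import Pool.Agent.Lib.H58D.Defs

/-! Chunk C3 (size S/M).  The number of exponent vectors of degree at most `N`.

Proof.  For `Λ = ⊥` the classes of different vectors are different, so `cnt ⊥ N = #{u : ι → ℕ | Σ u_i ≤ N}`, which is the number of `(n+1)`-tuples with sum exactly `N`
(add a slack coordinate), `= (N + n).choose n`, `n = card ι` (stars and bars: `Sym.card_sym_eq_choose`, `Finset.Nat.antidiagonalTuple` or `Finset.piAntidiag`
with its cardinality; or induction on `n` with `Nat.sum_range_choose_...`: `#_{n+1}(N) = Σ_{j ≤ N} #_n(N - j)`). -/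

namespace H58D

private noncomputable def C3_equiv {ι : Type*} [Fintype ι] (N : ℕ) :
    {u : ι → ℕ // deg u ≤ N} ≃ {P : Option ι → ℕ // ∑ i, P i = N} where
  toFun u := ⟨fun o => o.elim (N - deg u.1) u.1, by
    rw [Fintype.sum_option]
    simp only [Option.elim_none, Option.elim_some]
    exact Nat.sub_add_cancel u.2⟩
  invFun P := ⟨fun i => P.1 (some i), by
    have h := P.2
    rw [Fintype.sum_option] at h
    show ∑ i, P.1 (some i) ≤ N
    omega⟩
  left_inv u := by
    apply Subtype.ext
    funext i
    rfl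
  right_inv P := by
    apply Subtype.ext
    funext o
    cases o with
    | none =>
      have h := P.2
      rw [Fintype.sum_option] at h
      show N - ∑ i, P.1 (some i) = P.1 none
      omega
    | some i => rfl

theorem C3 {ι : Type*} [Fintype ι] [DecidableEq ι] (N : ℕ) :
    cnt (⊥ : AddSubgroup (ι → ℤ)) N = (N + Fintype.card ι).choose (Fintype.card ι) := by
  have h1 : gset (⊥ : AddSubgroup (ι → ℤ)) N =
      (fun u : ι → ℕ => (QuotientAddGroup.mk (fun i => (u i : ℤ)) :
        (ι → ℤ) ⧸ (⊥ : AddSubgroup (ι → ℤ)))) '' {u | deg u ≤ N} := by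
    ext c
    constructor
    · rintro ⟨u, hu, rfl⟩
      exact ⟨u, hu, rfl⟩
    · rintro ⟨u, hu, rfl⟩
      exact ⟨u, hu, rfl⟩
  have hinj : Function.Injective (fun u : ι → ℕ => (QuotientAddGroup.mk (fun i => (u i : ℤ)) :
        (ι → ℤ) ⧸ (⊥ : AddSubgroup (ι → ℤ)))) := by
    intro u v huv
    have h2 := QuotientAddGroup.eq.1 huv
    rw [AddSubgroup.mem_bot] at h2
    funext i
    have h3 := congrFun h2 i
    simp only [Pi.add_apply, Pi.neg_apply, Pi.zero_apply] at h3
    omega
  unfold cnt
  rw [h1, Set.ncard_image_of_injective _ hinj]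
  have h4 : {u : ι → ℕ | deg u ≤ N}.ncard = Nat.card {u : ι → ℕ // deg u ≤ N} := rfl
  rw [h4, Nat.card_congr (C3_equiv N),
    Nat.card_congr (Sym.equivNatSumOfFintype (Option ι) N).symm, Nat.card_eq_fintype_card,
    Sym.card_sym_eq_choose, Fintype.card_option]
  have h5 : Fintype.card ι + 1 + N - 1 = N + Fintype.card ι := by omega
  rw [h5]
  exact Nat.choose_symm_add

end H58D
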