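import Pool.Agent.Lib.H58D.C2
import Pool.Agent.Lib.H58D.C3

/-! Chunk C4 (size M).  The generating function of the counting function.

Proof.  Induction on `ρ`.  `ρ = 0`: `latt` of the empty family is `⊥`; `C3` and `tsum_choose_mul_geometric_of_norm_lt_one`
(`Σ (N+n choose n) q^N = 1/(1-q)^(n+1)`) and the corresponding `Summable` statement.  `ρ + 1`: `latt` of the whole family is
`latt (first ρ vectors) ⊔ zmultiples (last vector)`; by linear independence the last vector is not torsion modulo the first ones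
(if `n • r_last ∈ latt (first)`, it is an integer combination of them, `AddSubgroup.closure` of a range = integer span).  Let `a N = cnt (old)`, `a' N = cnt (new)`.
`C2`: `a' ≤ a` gives summability, and `a' (N + D) + a N ≤ a (N + D)`, `a' N ≤ a N` for `N < D` give
`Σ a' q^N ≤ Σ a q^N - q^D Σ a q^N = (1 - q^D) Σ a q^N` (split the sum at `D`: `Summable.sum_add_tsum_nat_add`).  Multiply the induction hypothesis by `1 - q^D ≥ 0`. -/

namespace H58D

private theorem C4_latt_succ {ι : Type*} (ρ : ℕ) (r : Fin (ρ + 1) → ι → ℤ) :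
    latt r = latt (fun s : Fin ρ => r s.castSucc) ⊔ AddSubgroup.zmultiples (r (Fin.last ρ)) := by
  unfold latt
  apply le_antisymm
  · rw [AddSubgroup.closure_le]
    rintro _ ⟨s, rfl⟩
    refine Fin.lastCases ?_ (fun s => ?_) s
    · exact (le_sup_right : AddSubgroup.zmultiples (r (Fin.last ρ)) ≤ _)
        (AddSubgroup.mem_zmultiples _)
    · exact (le_sup_left : AddSubgroup.closure (Set.range fun s : Fin ρ => r s.castSucc) ≤ _)
        (AddSubgroup.subset_closure ⟨s, rfl⟩)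
  · refine sup_le ?_ ?_
    · rw [AddSubgroup.closure_le]
      rintro _ ⟨s, rfl⟩
      exact AddSubgroup.subset_closure ⟨s.castSucc, rfl⟩
    · rw [AddSubgroup.zmultiples_le]
      exact AddSubgroup.subset_closure ⟨Fin.last ρ, rfl⟩

private theorem C4_init {ι : Type*} (ρ : ℕ) (r : Fin (ρ + 1) → ι → ℤ)
    (h : LinearIndependent ℤ r) : LinearIndependent ℤ (fun s : Fin ρ => r s.castSucc) :=
  h.comp _ (Fin.castSucc_injective ρ)

private theorem C4_nt {ι : Type*} (ρ : ℕ) (r : Fin (ρ + 1) → ι → ℤ)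
    (h : LinearIndependent ℤ r) :
    ¬ Tors (latt (fun s : Fin ρ => r s.castSucc)) (r (Fin.last ρ)) := by
  rintro ⟨n, hn, hmem⟩
  unfold latt at hmem
  rw [← Submodule.span_int_eq_addSubgroupClosure, Submodule.mem_toAddSubgroup,
    Submodule.mem_span_range_iff_exists_fun] at hmem
  obtain ⟨c, hc⟩ := hmem
  rw [Fintype.linearIndependent_iff] at h
  have h1 := h (Fin.snoc (α := fun _ => ℤ) c (-(n : ℤ))) (by
    rw [Fin.sum_univ_castSucc]
    simp only [Fin.snoc_castSucc, Fin.snoc_last]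
    rw [hc, neg_smul, natCast_zsmul, add_neg_cancel]) (Fin.last ρ)
  rw [Fin.snoc_last] at h1
  omega

private theorem C4_sum (a a' : ℕ → ℕ) (D : ℕ) (q : ℝ) (hq0 : 0 < q)
    (h1 : ∀ N, a' N ≤ a N) (h2 : ∀ N, a' (N + D) + a N ≤ a (N + D))
    (hs : Summable (fun N : ℕ => (a N : ℝ) * q ^ N)) :
    Summable (fun N : ℕ => (a' N : ℝ) * q ^ N) ∧
      ∑' N : ℕ, (a' N : ℝ) * q ^ N ≤ (1 - q ^ D) * ∑' N : ℕ, (a N : ℝ) * q ^ N := by
  have hs' : Summable (fun N : ℕ => (a' N : ℝ) * q ^ N) := by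
    refine Summable.of_nonneg_of_le (fun N => by positivity) (fun N => ?_) hs
    have : (a' N : ℝ) ≤ a N := by exact_mod_cast h1 N
    exact mul_le_mul_of_nonneg_right this (by positivity)
  refine ⟨hs', ?_⟩
  rw [← hs'.sum_add_tsum_nat_add D]
  have h3 : ∑ N ∈ Finset.range D, (a' N : ℝ) * q ^ N ≤ ∑ N ∈ Finset.range D, (a N : ℝ) * q ^ N := by
    refine Finset.sum_le_sum fun N _ => ?_
    have : (a' N : ℝ) ≤ a N := by exact_mod_cast h1 N
    exact mul_le_mul_of_nonneg_right this (by positivity)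
  have hsD : Summable (fun N : ℕ => (a (N + D) : ℝ) * q ^ (N + D)) :=
    (summable_nat_add_iff (f := fun N : ℕ => (a N : ℝ) * q ^ N) D).2 hs
  have hsD' : Summable (fun N : ℕ => (a' (N + D) : ℝ) * q ^ (N + D)) :=
    (summable_nat_add_iff (f := fun N : ℕ => (a' N : ℝ) * q ^ N) D).2 hs'
  have hqa : Summable (fun N : ℕ => q ^ D * ((a N : ℝ) * q ^ N)) := hs.mul_left _
  have h4 : ∑' N : ℕ, (a' (N + D) : ℝ) * q ^ (N + D) ≤
      ∑' N : ℕ, ((a (N + D) : ℝ) * q ^ (N + D) - q ^ D * ((a N : ℝ) * q ^ N)) := by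
    refine hsD'.tsum_le_tsum (fun N => ?_) (hsD.sub hqa)
    have h5 : (a' (N + D) : ℝ) + a N ≤ a (N + D) := by exact_mod_cast h2 N
    have h6 : (a' (N + D) : ℝ) ≤ a (N + D) - a N := by linarith
    calc (a' (N + D) : ℝ) * q ^ (N + D) ≤ ((a (N + D) : ℝ) - a N) * q ^ (N + D) :=
          mul_le_mul_of_nonneg_right h6 (by positivity)
      _ = (a (N + D) : ℝ) * q ^ (N + D) - q ^ D * ((a N : ℝ) * q ^ N) := by
          rw [pow_add]; ring
  rw [hsD.tsum_sub hqa, tsum_mul_left] at h4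
  have h7 := hs.sum_add_tsum_nat_add D
  linarith

theorem C4 {ι : Type*} [Fintype ι] [DecidableEq ι] (ρ : ℕ) (p m : Fin ρ → ι → ℕ) (D : Fin ρ → ℕ)
    (hp : ∀ s, deg (p s) ≤ D s) (hm : ∀ s, deg (m s) ≤ D s)
    (hind : LinearIndependent ℤ (fun s => dvec (p s) (m s))) (q : ℝ) (hq0 : 0 < q) (hq1 : q < 1) :
    Summable (fun N : ℕ => (cnt (latt (fun s => dvec (p s) (m s))) N : ℝ) * q ^ N) ∧
      (∑' N : ℕ, (cnt (latt (fun s => dvec (p s) (m s))) N : ℝ) * q ^ N) *
        (1 - q) ^ (Fintype.card ι + 1) ≤ ∏ s, (1 - q ^ (D s)) := by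
  induction ρ with
  | zero =>
    have h0 : latt (fun s : Fin 0 => dvec (p s) (m s)) = ⊥ := by
      unfold latt
      rw [Set.range_eq_empty, AddSubgroup.closure_empty]
    have hq : ‖q‖ < 1 := by
      rw [Real.norm_eq_abs, abs_of_pos hq0]
      exact hq1
    have h1 : (fun N : ℕ => (cnt (latt (fun s : Fin 0 => dvec (p s) (m s))) N : ℝ) * q ^ N) =
        fun N : ℕ => (((N + Fintype.card ι).choose (Fintype.card ι) : ℕ) : ℝ) * q ^ N := by
      funext N
      rw [h0, C3]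
    rw [h1]
    have hpos : (1 - q) ^ (Fintype.card ι + 1) ≠ 0 := pow_ne_zero _ (by linarith)
    refine ⟨summable_choose_mul_geometric_of_norm_lt_one (Fintype.card ι) hq, ?_⟩
    rw [tsum_choose_mul_geometric_of_norm_lt_one (Fintype.card ι) hq, Finset.univ_eq_empty,
      Finset.prod_empty, one_div, inv_mul_cancel₀ hpos]
  | succ ρ ih =>
    have ih' := ih (fun s => p s.castSucc) (fun s => m s.castSucc) (fun s => D s.castSucc)
      (fun s => hp _) (fun s => hm _) (C4_init ρ _ hind)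
    obtain ⟨hs, hle⟩ := ih'
    have hnt := C4_nt ρ _ hind
    have hC2 := C2 (latt (fun s : Fin ρ => dvec (p s.castSucc) (m s.castSucc)))
      (p (Fin.last ρ)) (m (Fin.last ρ)) (D (Fin.last ρ)) (hp _) (hm _) hnt
    have hl := C4_latt_succ ρ (fun s => dvec (p s) (m s))
    have hC := C4_sum _ _ (D (Fin.last ρ)) q hq0 (fun N => (hC2 N).1) (fun N => (hC2 N).2) hs
    rw [← hl] at hC
    refine ⟨hC.1, ?_⟩
    rw [Fin.prod_univ_castSucc]
    have hq2 : 0 ≤ 1 - q ^ D (Fin.last ρ) := sub_nonneg.2 (pow_le_one₀ hq0.le hq1.le)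
    have hq3 : 0 ≤ (1 - q) ^ (Fintype.card ι + 1) := pow_nonneg (by linarith) _
    calc _ ≤ ((1 - q ^ D (Fin.last ρ)) * ∑' N : ℕ,
          (cnt (latt (fun s : Fin ρ => dvec (p s.castSucc) (m s.castSucc))) N : ℝ) * q ^ N) *
          (1 - q) ^ (Fintype.card ι + 1) := mul_le_mul_of_nonneg_right hC.2 hq3
      _ = (1 - q ^ D (Fin.last ρ)) * ((∑' N : ℕ,
          (cnt (latt (fun s : Fin ρ => dvec (p s.castSucc) (m s.castSucc))) N : ℝ) * q ^ N) *
          (1 - q) ^ (Fintype.card ι + 1)) := by ring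
      _ ≤ (1 - q ^ D (Fin.last ρ)) * ∏ s : Fin ρ, (1 - q ^ (D s.castSucc)) :=
          mul_le_mul_of_nonneg_left hle hq2
      _ = _ := by ring

end H58D
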