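import Pool.Agent.Lib.H58D.D2

/-! Chunk CI1 (size M).  Cramer's rule for the logarithms.

Proof.  `A s j = dvec (p s) (m s) j`.  Let `F u = Σ_i u i * log ‖x i‖` for `u : ι → ℤ`.  From `mon x (p s) = α s * mon x (m s)` and `x i ≠ 0` (so `α s ≠ 0`): `F (A s) = log ‖α s‖`.
Cramer: `Σ_s c_s • A s = det A • e_v` with `c_s` = determinant of `A` with row `s` replaced by `e_v` (`Matrix.cramer`, `Matrix.mulVec_cramer` for the transpose, or
`Matrix.adjugate_mul`: `(adjugate A * A) = det A • 1`, take row `v`: `c_s = adjugate A v s`, `Matrix.adjugate_apply` / `Matrix.updateRow`).  So `det A * log ‖x v‖ = Σ c_s log ‖α s‖`.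
`|c_s| ≤ ∏ D` by `D2` for the matrix with row `s` replaced by `e_v` (`p' s = Pi.single v 1`, `m' s = 0`, bound `1 ≤ D s`). -/

namespace H58D

theorem CI1 {ι : Type*} [Fintype ι] [DecidableEq ι] (x : ι → ℂ) (hx : ∀ i, x i ≠ 0)
    (p m : ι → ι → ℕ) (D : ι → ℕ) (hD : ∀ s, 1 ≤ D s) (hp : ∀ s, deg (p s) ≤ D s)
    (hm : ∀ s, deg (m s) ≤ D s) (α : ι → ℂ) (hrel : ∀ s, mon x (p s) = α s * mon x (m s))
    (v : ι) :
    Real.log ‖x v‖ * |((Matrix.of (fun s j => dvec (p s) (m s) j)).det : ℝ)| ≤
      ∑ s, (∏ s', (D s' : ℝ)) * |Real.log ‖α s‖| := by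
  set A : Matrix ι ι ℤ := Matrix.of (fun s j => dvec (p s) (m s) j) with hA
  set y : ι → ℝ := fun i => Real.log ‖x i‖ with hy
  have hmon : ∀ u : ι → ℕ, mon x u ≠ 0 := fun u =>
    Finset.prod_ne_zero_iff.mpr fun i _ => pow_ne_zero _ (hx i)
  have hlog : ∀ u : ι → ℕ, Real.log ‖mon x u‖ = ∑ i, (u i : ℝ) * y i := by
    intro u
    unfold mon
    rw [norm_prod, Real.log_prod]
    · refine Finset.sum_congr rfl fun i _ => ?_
      rw [norm_pow, Real.log_pow]
    · intro i _
      exact norm_ne_zero_iff.mpr (pow_ne_zero _ (hx i))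
  have hα : ∀ s, α s ≠ 0 := by
    intro s h0
    apply hmon (p s)
    rw [hrel s, h0, zero_mul]
  have hAy : ∀ s, ((A.map (Int.cast : ℤ → ℝ)).mulVec y) s = Real.log ‖α s‖ := by
    intro s
    have h1 := hlog (p s)
    rw [hrel s, norm_mul, Real.log_mul (norm_ne_zero_iff.mpr (hα s))
      (norm_ne_zero_iff.mpr (hmon (m s))), hlog (m s)] at h1
    have h2 : ((A.map (Int.cast : ℤ → ℝ)).mulVec y) s
        = ∑ i, (p s i : ℝ) * y i - ∑ i, (m s i : ℝ) * y i := by
      rw [← Finset.sum_sub_distrib]
      simp only [Matrix.mulVec, dotProduct, Matrix.map_apply, hA, Matrix.of_apply, dvec]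
      refine Finset.sum_congr rfl fun i _ => ?_
      push_cast
      ring
    rw [h2, ← h1]
    ring
  have hadj : (A.map (Int.cast : ℤ → ℝ)).adjugate = A.adjugate.map (Int.cast : ℤ → ℝ) := by
    have := (Int.castRingHom ℝ).map_adjugate A
    simpa [RingHom.mapMatrix_apply] using this.symm
  have hdet : (A.map (Int.cast : ℤ → ℝ)).det = (A.det : ℝ) := by
    have := (Int.castRingHom ℝ).map_det A
    simpa [RingHom.mapMatrix_apply] using this.symm
  have hcr : (A.det : ℝ) * y v = ∑ s, ((A.adjugate v s : ℤ) : ℝ) * Real.log ‖α s‖ := by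
    have h3 : (A.map (Int.cast : ℤ → ℝ)).adjugate.mulVec
        ((A.map (Int.cast : ℤ → ℝ)).mulVec y) = (A.det : ℝ) • y := by
      rw [Matrix.mulVec_mulVec, Matrix.adjugate_mul, hdet, Matrix.smul_mulVec,
        Matrix.one_mulVec]
    have h4 := congrFun h3 v
    rw [hadj] at h4
    simp only [Matrix.mulVec, dotProduct, Matrix.map_apply, Pi.smul_apply, smul_eq_mul] at h4
    rw [← h4]
    refine Finset.sum_congr rfl fun s _ => ?_
    rw [← hAy s]
    simp only [Matrix.mulVec, dotProduct, Matrix.map_apply]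
  have hbd : ∀ s, |((A.adjugate v s : ℤ) : ℝ)| ≤ ∏ s', (D s' : ℝ) := by
    intro s
    have h5 := D2 (Function.update p s (Pi.single v 1)) (Function.update m s 0) D
      (by
        intro t
        by_cases ht : t = s
        · subst ht
          rw [Function.update_self]
          refine le_trans (le_of_eq ?_) (hD t)
          unfold deg
          rw [Finset.sum_pi_single']
          simp
        · rw [Function.update_of_ne ht]
          exact hp t)
      (by
        intro t
        by_cases ht : t = s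
        · subst ht
          rw [Function.update_self]
          simp [deg]
        · rw [Function.update_of_ne ht]
          exact hm t)
    have h6 : (Matrix.of (fun t j => dvec (Function.update p s (Pi.single v 1) t)
        (Function.update m s 0 t) j) : Matrix ι ι ℤ) = A.updateRow s (Pi.single v 1) := by
      ext t j
      by_cases ht : t = s
      · subst ht
        rw [Matrix.updateRow_self, Matrix.of_apply, Function.update_self, Function.update_self]
        simp only [dvec, Pi.zero_apply, Nat.cast_zero, sub_zero]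
        by_cases hj : j = v
        · subst hj
          simp
        · simp [Pi.single_eq_of_ne hj]
      · rw [Matrix.updateRow_ne ht, Matrix.of_apply, Function.update_of_ne ht,
          Function.update_of_ne ht]
        rfl
    rw [h6, ← Matrix.adjugate_apply] at h5
    have h7 : ((|A.adjugate v s| : ℤ) : ℝ) ≤ ((∏ s', (D s' : ℤ) : ℤ) : ℝ) := by
      exact_mod_cast h5
    push_cast at h7
    exact h7
  calc Real.log ‖x v‖ * |(A.det : ℝ)| ≤ |Real.log ‖x v‖| * |(A.det : ℝ)| :=
        mul_le_mul_of_nonneg_right (le_abs_self _) (abs_nonneg _)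
    _ = |(A.det : ℝ) * y v| := by rw [abs_mul, mul_comm]
    _ = |∑ s, ((A.adjugate v s : ℤ) : ℝ) * Real.log ‖α s‖| := by rw [hcr]
    _ ≤ ∑ s, |((A.adjugate v s : ℤ) : ℝ) * Real.log ‖α s‖| := Finset.abs_sum_le_sum_abs _ _
    _ ≤ ∑ s, (∏ s', (D s' : ℝ)) * |Real.log ‖α s‖| := by
        refine Finset.sum_le_sum fun s _ => ?_
        rw [abs_mul]
        exact mul_le_mul_of_nonneg_right (hbd s) (abs_nonneg _)

end H58D
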