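import Pool.Agent.Lib.H58D.Defs

/-! Chunk CI2 (size M).  A vector which is torsion modulo the relation rows: `det A` kills it.

Proof.  Cramer: `det A • g = Σ_s c_s • A s`, `c_s` = determinant of `A` with row `s` replaced by `g`.  If `s ∉ Rr`: `N * c_s` = determinant of `A` with row `s` replaced by `N • g`, and
`N • g` is an integer combination of the rows `A s'`, `s' ∈ Rr`, `s' ≠ s`, so this determinant is `0` (`Matrix.det_updateRow_...`: multilinear and two equal rows).  Hence `c_s = 0`.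
So `det A • g = Σ_{s ∈ Rr} c_s • A s` and `(∏ x_i^(g_i))^(det A) = ∏_{s ∈ Rr} (∏ x_i^(A s i))^(c_s) = 1`; the same for `natAbs` (inverse). -/

namespace H58D

private noncomputable def CI2phi {ι : Type*} [Fintype ι] (x : ι → ℂ) (hx : ∀ i, x i ≠ 0) :
    (ι → ℤ) →ₗ[ℤ] Additive ℂˣ :=
  Fintype.linearCombination ℤ (fun i => Additive.ofMul (Units.mk0 (x i) (hx i)))

private theorem CI2phi_apply {ι : Type*} [Fintype ι] (x : ι → ℂ) (hx : ∀ i, x i ≠ 0) (v : ι → ℤ) :
    (((CI2phi x hx v).toMul : ℂˣ) : ℂ) = ∏ i, x i ^ (v i) := by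
  unfold CI2phi
  rw [Fintype.linearCombination_apply, toMul_sum, Units.coe_prod]
  refine Finset.prod_congr rfl (fun i _ => ?_)
  rw [toMul_zsmul, toMul_ofMul, Units.val_zpow_eq_zpow_val, Units.val_mk0]

private theorem CI2zero {ι : Type*} [Fintype ι] [DecidableEq ι] (A : Matrix ι ι ℤ) (Rr : Set ι)
    (s : ι) (hs : s ∉ Rr) (v : ι → ℤ) (hv : v ∈ latt (fun s : Rr => A s)) :
    (Matrix.cramer A.transpose) v s = 0 := by
  unfold latt at hv
  induction hv using AddSubgroup.closure_induction with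
  | mem w hw =>
    obtain ⟨⟨s', hs'⟩, rfl⟩ := hw
    have hne : s ≠ s' := fun h => hs (h ▸ hs')
    rw [Matrix.cramer_transpose_apply]
    refine Matrix.det_zero_of_row_eq hne ?_
    rw [Matrix.updateRow_self, Matrix.updateRow_ne hne.symm]
  | zero => simp
  | add a b _ _ ha hb => rw [map_add, Pi.add_apply, ha, hb, add_zero]
  | neg a _ ha => rw [map_neg, Pi.neg_apply, ha, neg_zero]

theorem CI2 {ι : Type*} [Fintype ι] [DecidableEq ι] (x : ι → ℂ) (hx : ∀ i, x i ≠ 0)
    (A : Matrix ι ι ℤ) (Rr : Set ι) (hR : ∀ s ∈ Rr, ∏ i, x i ^ (A s i) = 1)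
    (g : ι → ℤ) (N : ℕ) (hN : 0 < N) (hg : N • g ∈ latt (fun s : Rr => A s)) :
    (∏ i, x i ^ (g i)) ^ (A.det.natAbs) = 1 := by
  set c : ι → ℤ := Matrix.cramer A.transpose g with hc
  have hcs : ∀ s, s ∉ Rr → c s = 0 := by
    intro s hs
    have h1 := CI2zero A Rr s hs (N • g) hg
    rw [map_nsmul, Pi.smul_apply, nsmul_eq_mul] at h1
    rcases mul_eq_zero.1 h1 with h | h
    · exact absurd h (by exact_mod_cast hN.ne')
    · exact h
  have hdet : A.det • g = ∑ s, c s • (A s) := by
    have h := Matrix.mulVec_cramer A.transpose g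
    rw [Matrix.det_transpose] at h
    rw [← h]
    ext j
    rw [Matrix.mulVec, dotProduct, Finset.sum_apply]
    refine Finset.sum_congr rfl (fun s _ => ?_)
    rw [Matrix.transpose_apply, Pi.smul_apply, smul_eq_mul, mul_comm]
  have hphi0 : ∀ s ∈ Rr, CI2phi x hx (A s) = 0 := by
    intro s hs
    have h := CI2phi_apply x hx (A s)
    rw [hR s hs] at h
    have h2 : (CI2phi x hx (A s)).toMul = 1 := Units.ext h
    exact Additive.toMul.injective h2
  have hmain : A.det • CI2phi x hx g = 0 := by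
    rw [← map_smul, hdet, map_sum]
    refine Finset.sum_eq_zero (fun s _ => ?_)
    rw [map_smul]
    by_cases hs : s ∈ Rr
    · rw [hphi0 s hs, smul_zero]
    · rw [hcs s hs, zero_smul]
  have hnat : A.det.natAbs • CI2phi x hx g = 0 := by
    rcases Int.natAbs_eq A.det with h | h
    · rw [h, natCast_zsmul] at hmain
      exact hmain
    · rw [h, neg_smul, natCast_zsmul, neg_eq_zero] at hmain
      exact hmain
  have h3 := congrArg (fun u : Additive ℂˣ => ((u.toMul : ℂˣ) : ℂ)) hnat
  simp only [toMul_nsmul, Units.val_pow_eq_pow_val, toMul_zero, Units.val_one] at h3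
  rw [CI2phi_apply] at h3
  exact h3

end H58D
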