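import Mathlib

/-! Chunk CI3 (size S/M).  Lower bounds for `1 + η` and `η - 1`, `η` a root of unity.

Proof.  Upper bounds: norms are `≤ 2`.  Lower bound: let `ω ≠ 1`, `ω^K = 1`, `K ≥ 2`.  Then `(ω - 1) * Σ_{j<K} j ω^j = K` (telescoping:
`(ω-1) Σ_{j<K} j ω^j = (K-1) ω^K - Σ_{1≤j<K} ω^j = K - 1 + 1 = K` since `Σ_{0≤j<K} ω^j = 0`), and `|Σ j ω^j| ≤ K (K-1)/2`, so
`|ω - 1| ≥ 2/(K-1)`.  For `1 + η ≠ 0`: `ω = -η`, `K = 2M`: `|1 + η| ≥ 2/(2M-1) ≥ 1/M`.  For `η ≠ 1`: `K = M`, `|η - 1| ≥ 2/(M-1) ≥ 1/M`.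
So `|log ‖·‖| ≤ max (log 2) (log M) ≤ M log 2` (`M ≤ 2^M`, `Nat.lt_two_pow_self`). -/

namespace H58D

/-- Telescoping: `2 ≤ K ‖ω - 1‖` for a root of unity `ω ≠ 1` of order dividing `K`. -/
private theorem CI3_low (ω : ℂ) (K : ℕ) (hK : 0 < K) (hω : ω ^ K = 1) (h1 : ω ≠ 1) :
    2 ≤ (K : ℝ) * ‖ω - 1‖ := by
  have hn : ‖ω‖ = 1 := Complex.norm_eq_one_of_pow_eq_one hω hK.ne'
  have hg : ∑ j ∈ Finset.range K, ω ^ j = 0 := by
    have h2 := mul_geom_sum ω K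
    rw [hω, sub_self] at h2
    exact (mul_eq_zero.mp h2).resolve_left (sub_ne_zero.mpr h1)
  have htel : ∀ N : ℕ, (ω - 1) * ∑ j ∈ Finset.range N, (j : ℂ) * ω ^ j
      = (N : ℂ) * ω ^ N - ω * ∑ j ∈ Finset.range N, ω ^ j := by
    intro N
    induction N with
    | zero => simp
    | succ N ih =>
      rw [Finset.sum_range_succ, Finset.sum_range_succ, mul_add, ih]
      push_cast
      ring
  have hK1 := htel K
  rw [hg, hω, mul_zero, sub_zero, mul_one] at hK1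
  have hb : ‖∑ j ∈ Finset.range K, (j : ℂ) * ω ^ j‖ ≤ ∑ j ∈ Finset.range K, (j : ℝ) := by
    refine (norm_sum_le _ _).trans (Finset.sum_le_sum fun j _ => ?_)
    rw [norm_mul, norm_pow, hn, one_pow, mul_one, Complex.norm_natCast]
  have hs : (∑ j ∈ Finset.range K, (j : ℝ)) * 2 = (K : ℝ) * ((K : ℝ) - 1) := by
    have h3 := Finset.sum_range_id_mul_two K
    have h4 : ((∑ j ∈ Finset.range K, j : ℕ) : ℝ) * 2 = ((K * (K - 1) : ℕ) : ℝ) := by
      exact_mod_cast h3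
    rw [Nat.cast_sum] at h4
    rw [h4, Nat.cast_mul, Nat.cast_sub hK, Nat.cast_one]
  have hKr : (0 : ℝ) < K := by exact_mod_cast hK
  have h5 : (K : ℝ) ≤ ‖ω - 1‖ * ∑ j ∈ Finset.range K, (j : ℝ) := by
    calc (K : ℝ) = ‖(K : ℂ)‖ := (Complex.norm_natCast K).symm
      _ = ‖(ω - 1) * ∑ j ∈ Finset.range K, (j : ℂ) * ω ^ j‖ := by rw [hK1]
      _ = ‖ω - 1‖ * ‖∑ j ∈ Finset.range K, (j : ℂ) * ω ^ j‖ := norm_mul _ _
      _ ≤ _ := mul_le_mul_of_nonneg_left hb (norm_nonneg _)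
  have h6 : (K : ℝ) * 2 ≤ (K : ℝ) * (‖ω - 1‖ * ((K : ℝ) - 1)) := by
    have h9 := mul_le_mul_of_nonneg_right h5 (zero_le_two (α := ℝ))
    rw [mul_assoc, hs] at h9
    calc (K : ℝ) * 2 ≤ ‖ω - 1‖ * ((K : ℝ) * ((K : ℝ) - 1)) := h9
      _ = _ := by ring
  have h7 : 2 ≤ ‖ω - 1‖ * ((K : ℝ) - 1) := le_of_mul_le_mul_left h6 hKr
  have h8 := norm_nonneg (ω - 1)
  nlinarith

private theorem CI3_log (x : ℝ) (M : ℕ) (hM : 0 < M) (h1 : 1 ≤ (M : ℝ) * x) (h2 : x ≤ 2) :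
    |Real.log x| ≤ M * Real.log 2 := by
  have hMr : (0 : ℝ) < M := by exact_mod_cast hM
  have hM1 : (1 : ℝ) ≤ M := by exact_mod_cast hM
  have hx : 0 < x := by
    by_contra h
    push Not at h
    nlinarith
  have hl2 : 0 < Real.log 2 := Real.log_pos (by norm_num)
  rw [abs_le]
  constructor
  · have h3 : Real.log (1 : ℝ) ≤ Real.log ((M : ℝ) * x) := Real.log_le_log one_pos h1
    rw [Real.log_one, Real.log_mul hMr.ne' hx.ne'] at h3
    have h4 : Real.log (M : ℝ) ≤ M * Real.log 2 := by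
      have h5 : (M : ℝ) ≤ 2 ^ M := by
        have := (Nat.lt_two_pow_self (n := M)).le
        exact_mod_cast this
      have h6 := Real.log_le_log hMr h5
      rwa [Real.log_pow] at h6
    linarith
  · have h3 : Real.log x ≤ Real.log 2 := Real.log_le_log hx h2
    nlinarith

theorem CI3 (η : ℂ) (M : ℕ) (hM : 0 < M) (hη : η ^ M = 1) :
    (1 + η ≠ 0 → |Real.log ‖1 + η‖| ≤ M * Real.log 2) ∧
      (η - 1 ≠ 0 → |Real.log ‖η - 1‖| ≤ M * Real.log 2) := by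
  have hn : ‖η‖ = 1 := Complex.norm_eq_one_of_pow_eq_one hη hM.ne'
  have hMr : (0 : ℝ) < M := by exact_mod_cast hM
  constructor
  · intro h
    refine CI3_log _ M hM ?_ ?_
    · have hk : (0 : ℕ) < 2 * M := by omega
      have hw : (-η) ^ (2 * M) = 1 := by
        rw [pow_mul, neg_sq, ← pow_mul, mul_comm, pow_mul, hη, one_pow]
      have hne : -η ≠ 1 := by
        intro h2
        apply h
        rw [← h2]
        ring
      have h3 := CI3_low (-η) (2 * M) hk hw hne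
      have h4 : ‖-η - 1‖ = ‖1 + η‖ := by
        rw [← norm_neg]
        congr 1
        ring
      rw [h4] at h3
      push_cast at h3
      linarith
    · refine (norm_add_le _ _).trans ?_
      rw [norm_one, hn]
      norm_num
  · intro h
    refine CI3_log _ M hM ?_ ?_
    · have h3 := CI3_low η M hM hη (sub_ne_zero.mp h)
      linarith
    · refine (norm_sub_le _ _).trans ?_
      rw [norm_one, hn]
      norm_num

end H58D
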