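import Pool.Agent.Lib.H58D.K1

/-! Chunk CI4 (size M).  Completing an independent family to a nonsingular square matrix by vectors of `𝒟`.

Proof.  By induction on `k` with `k + ρ ≤ card ι`: there are `k` vectors of `𝒟` which are independent together with the `r s`.
For the step `K1c` gives a nonzero `ℓ` which kills the `k + ρ` vectors; by `hfull` some `x ∈ 𝒟` has `ℓ x ≠ 0`, and `x` can be added.
The family `Sum.elim r d` is linearly independent with `card ι` members, choose any bijection `e`; the determinant is nonzero. -/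

namespace H58D

theorem CI4_step {ι : Type*} [Fintype ι] [DecidableEq ι] (ρ : ℕ) (r : Fin ρ → ι → ℤ)
    (hr : LinearIndependent ℤ r) (𝒟 : Set (ι → ℤ))
    (hfull : ∀ ℓ : (ι → ℤ) →+ ℤ, (∀ s, ℓ (r s) = 0) → (∀ d ∈ 𝒟, ℓ d = 0) → ℓ = 0) (k : ℕ)
    (hk : k + ρ ≤ Fintype.card ι) :
    ∃ d : Fin k → ι → ℤ, (∀ t, d t ∈ 𝒟) ∧ LinearIndependent ℤ (Sum.elim r d) := by
  induction k with
  | zero =>
    refine ⟨fun t => t.elim0, fun t => t.elim0, ?_⟩
    rw [Fintype.linearIndependent_iff] at hr ⊢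
    intro g hg i
    rw [Fintype.sum_sum_type] at hg
    have h1 : ∑ s, g (Sum.inl s) • r s = 0 := by simpa using hg
    rcases i with s | t
    · exact hr (fun s => g (Sum.inl s)) h1 s
    · exact t.elim0
  | succ k ih =>
    obtain ⟨d, hd, hi⟩ := ih (by omega)
    obtain ⟨ℓ, h1, i, h2⟩ := K1c (Sum.elim r d) (by
      rw [Fintype.card_sum, Fintype.card_fin, Fintype.card_fin]
      omega)
    have hl : ∀ s, ℓ (Sum.elim r d s) = 0 := fun s => h1 _ (AddSubgroup.subset_closure ⟨s, rfl⟩)
    have h3 : ∃ x ∈ 𝒟, ℓ x ≠ 0 := by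
      by_contra hcon
      push Not at hcon
      apply h2
      rw [hfull ℓ (fun s => hl (Sum.inl s)) hcon]
      rfl
    obtain ⟨x, hx, hlx⟩ := h3
    refine ⟨Fin.cons x d, ?_, ?_⟩
    · intro t
      refine Fin.cases ?_ ?_ t
      · exact hx
      · intro t
        simpa using hd t
    · rw [Fintype.linearIndependent_iff] at hi ⊢
      intro g hg
      rw [Fintype.sum_sum_type, Fin.sum_univ_succ] at hg
      simp only [Sum.elim_inl, Sum.elim_inr, Fin.cons_zero, Fin.cons_succ] at hg
      have h4 : g (Sum.inr 0) = 0 := by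
        have h5 := congrArg ℓ hg
        rw [map_add, map_add, map_sum, map_sum, map_zsmul, map_zero] at h5
        have h6 : ∑ s, ℓ (g (Sum.inl s) • r s) = 0 := by
          refine Finset.sum_eq_zero fun s _ => ?_
          rw [map_zsmul, show ℓ (r s) = 0 from hl (Sum.inl s), smul_zero]
        have h7 : ∑ t : Fin k, ℓ (g (Sum.inr t.succ) • d t) = 0 := by
          refine Finset.sum_eq_zero fun t _ => ?_
          rw [map_zsmul, show ℓ (d t) = 0 from hl (Sum.inr t), smul_zero]
        rw [h6, h7, zero_add, add_zero, smul_eq_mul] at h5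
        exact (mul_eq_zero.1 h5).resolve_right hlx
      rw [h4, zero_smul, zero_add] at hg
      have h8 := hi (Sum.elim (fun s => g (Sum.inl s)) (fun t => g (Sum.inr t.succ))) (by
        rw [Fintype.sum_sum_type]
        exact hg)
      intro i
      rcases i with s | t
      · exact h8 (Sum.inl s)
      · refine Fin.cases ?_ ?_ t
        · exact h4
        · intro t
          exact h8 (Sum.inr t)

theorem CI4 {ι : Type*} [Fintype ι] [DecidableEq ι] (ρ : ℕ) (r : Fin ρ → ι → ℤ)
    (hr : LinearIndependent ℤ r) (𝒟 : Set (ι → ℤ))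
    (hfull : ∀ ℓ : (ι → ℤ) →+ ℤ, (∀ s, ℓ (r s) = 0) → (∀ d ∈ 𝒟, ℓ d = 0) → ℓ = 0) :
    ∃ (e : ι ≃ Fin ρ ⊕ Fin (Fintype.card ι - ρ)) (d : Fin (Fintype.card ι - ρ) → ι → ℤ),
      (∀ t, d t ∈ 𝒟) ∧ (Matrix.of (fun i j => Sum.elim r d (e i) j)).det ≠ 0 := by
  have hρ : ρ ≤ Fintype.card ι := by
    have h2 := hr.fintype_card_le_finrank
    rw [Module.finrank_pi, Fintype.card_fin] at h2
    exact h2
  obtain ⟨d, hd, hi⟩ := CI4_step ρ r hr 𝒟 hfull (Fintype.card ι - ρ) (by omega)
  have hcard : Fintype.card ι = Fintype.card (Fin ρ ⊕ Fin (Fintype.card ι - ρ)) := by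
    rw [Fintype.card_sum, Fintype.card_fin, Fintype.card_fin]
    omega
  let e := Fintype.equivOfCardEq hcard
  refine ⟨e, d, hd, ?_⟩
  intro hdet
  obtain ⟨v, hv0, hv⟩ := Matrix.exists_vecMul_eq_zero_iff.2 hdet
  apply hv0
  have h1 : LinearIndependent ℤ (Sum.elim r d ∘ e) := hi.comp e e.injective
  rw [Fintype.linearIndependent_iff] at h1
  refine funext (h1 v ?_)
  funext j
  have h2 := congrFun hv j
  rw [Finset.sum_apply]
  exact h2

end H58D
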