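import Pool.Agent.Lib.H58D.CI1
import Pool.Agent.Lib.H58D.CI2
import Pool.Agent.Lib.H58D.CI3
import Pool.Agent.Lib.H58D.CI4

/-! Chunk CI5 (size M/L).  Case I: no triple of pairwise different classes modulo torsion.

Proof.  `Λ = latt (fun s => dvec (p s) (m s))`.  For `t = (i,j,k) ∈ 𝒯` one of the three differences is torsion:
(1) `e_i - e_j`: `η = x j / x i`, `x k = (1 + η) x i`, `d = e_k - e_i`, `α = 1 + η`;
(2) `e_i - e_k`: `η = x k / x i`, `x j = (η - 1) x i`, `d = e_j - e_i`, `α = η - 1`;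
(3) `e_j - e_k`: `η = x k / x j`, `x i = (η - 1) x j`, `d = e_i - e_j`, `α = η - 1`.
Let `𝒟` be the set of these `d` (one for each triple): `𝒟 = {d | ∃ a b : ι, d = ev a - ev b ∧ ∃ g : ι → ℤ, Tors Λ g ∧ with η = ∏ x_i^(g_i): (x a = (1 + η) x b ∨ x a = (η - 1) x b)}` (this larger set is
even simpler).  `hfull` of `CI4`: let `ℓ` kill all relation vectors and `𝒟`.  It kills `Λ`, hence all torsion `g` (`N * ℓ g = 0`).  So for every triple all three values `ℓ e_i, ℓ e_j, ℓ e_k` are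
equal, and `ℓ = 0` by `hcos`.  Take `e`, `d` from `CI4`, `A` = the square matrix, `M = |det A| ≥ 1`.
`CI1` for the rows `i : ι` of `A`: if `e i = inl s`: `p s, m s, D s`, `α = 1`; if `e i = inr t`: `d t = ev a - ev b`, exponents `Pi.single a 1`, `Pi.single b 1`, `D = 1`,
`α = 1 + η` or `η - 1` (nonzero because `x a ≠ 0`).  By `CI2` (with `Rr` = the rows coming from `inl`; `latt` of the relation rows is `Λ`), `η^M = 1`, so `|log ‖α‖| ≤ M log 2` by `CI3`.
So `log ‖x v‖ * M ≤ Σ_{t} (∏ D) * M log 2 = (card ι - ρ) (∏ D) M log 2` (the product of all the `D`'s of the square system is `∏ s, D s`).  Divide by `M`. -/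

namespace H58D

private theorem CI5_mon_single {ι : Type*} [Fintype ι] [DecidableEq ι] (x : ι → ℂ) (a : ι) :
    mon x (Pi.single a 1) = x a := by
  unfold mon
  rw [Finset.prod_eq_single a]
  · simp
  · intro b _ hb
    rw [Pi.single_eq_of_ne hb, pow_zero]
  · intro h
    exact absurd (Finset.mem_univ a) h

private theorem CI5_deg_single {ι : Type*} [Fintype ι] [DecidableEq ι] (a : ι) :
    deg (Pi.single a 1 : ι → ℕ) = 1 := by
  unfold deg
  rw [Finset.sum_pi_single']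
  simp

private theorem CI5_dvec_single {ι : Type*} [Fintype ι] [DecidableEq ι] (a b : ι) :
    dvec (Pi.single a 1 : ι → ℕ) (Pi.single b 1) = ev a - ev b := by
  funext i
  unfold dvec ev
  rw [Pi.sub_apply]
  congr 1
  · by_cases h : i = a
    · subst h
      simp
    · rw [Pi.single_eq_of_ne h, Pi.single_eq_of_ne h]
      rfl
  · by_cases h : i = b
    · subst h
      simp
    · rw [Pi.single_eq_of_ne h, Pi.single_eq_of_ne h]
      rfl

private theorem CI5_zprod {ι : Type*} [Fintype ι] (x : ι → ℂ) (hx : ∀ i, x i ≠ 0)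
    (p m : ι → ℕ) : mon x p = (∏ i, x i ^ (dvec p m i)) * mon x m := by
  unfold mon dvec
  rw [← Finset.prod_mul_distrib]
  refine Finset.prod_congr rfl fun i _ => ?_
  rw [zpow_sub₀ (hx i), zpow_natCast, zpow_natCast, div_mul_cancel₀]
  exact pow_ne_zero _ (hx i)

private theorem CI5_eta {ι : Type*} [Fintype ι] [DecidableEq ι] (x : ι → ℂ) (hx : ∀ i, x i ≠ 0)
    (a b : ι) : x a = (∏ i, x i ^ ((ev a - ev b : ι → ℤ) i)) * x b := by
  have h := CI5_zprod x hx (Pi.single a 1) (Pi.single b 1)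
  rw [CI5_mon_single, CI5_mon_single, CI5_dvec_single] at h
  exact h

private theorem CI5_tors_neg {ι : Type*} {Λ : AddSubgroup (ι → ℤ)} {u : ι → ℤ} (h : Tors Λ u) :
    Tors Λ (-u) := by
  obtain ⟨n, hn, h⟩ := h
  refine ⟨n, hn, ?_⟩
  rw [smul_neg]
  exact Λ.neg_mem h

private theorem CI5_tors_kill {ι κ : Type*} (r : κ → ι → ℤ) (ℓ : (ι → ℤ) →+ ℤ)
    (hl : ∀ s, ℓ (r s) = 0) {u : ι → ℤ} (h : Tors (latt r) u) : ℓ u = 0 := by
  obtain ⟨n, hn, h⟩ := h
  have h1 : latt r ≤ ℓ.ker := by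
    unfold latt
    rw [AddSubgroup.closure_le]
    rintro _ ⟨s, rfl⟩
    exact hl s
  have h2 : ℓ (n • u) = 0 := h1 h
  rw [map_nsmul, nsmul_eq_mul] at h2
  rcases mul_eq_zero.1 h2 with h3 | h3
  · exact absurd h3 (by exact_mod_cast hn.ne')
  · exact h3

theorem CI5 {ι : Type*} [Fintype ι] [DecidableEq ι] (x : ι → ℂ) (hx : ∀ i, x i ≠ 0) (ρ : ℕ)
    (p m : Fin ρ → ι → ℕ) (D : Fin ρ → ℕ) (hD : ∀ s, 1 ≤ D s)
    (hp : ∀ s, deg (p s) ≤ D s) (hm : ∀ s, deg (m s) ≤ D s)
    (hrel : ∀ s, mon x (p s) = mon x (m s))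
    (hind : LinearIndependent ℤ (fun s => dvec (p s) (m s)))
    (𝒯 : Set (ι × ι × ι)) (h𝒯 : ∀ t ∈ 𝒯, x t.1 + x t.2.1 = x t.2.2)
    (hcos : ∀ ℓ : (ι → ℤ) →+ ℤ, (∀ s, ℓ (dvec (p s) (m s)) = 0) →
      (∀ t ∈ 𝒯, ℓ (ev t.1) = ℓ (ev t.2.1) ∧ ℓ (ev t.2.1) = ℓ (ev t.2.2)) → ℓ = 0)
    (hN : ∀ t ∈ 𝒯, Tors (latt (fun s => dvec (p s) (m s))) (ev t.1 - ev t.2.1) ∨
      Tors (latt (fun s => dvec (p s) (m s))) (ev t.1 - ev t.2.2) ∨
      Tors (latt (fun s => dvec (p s) (m s))) (ev t.2.1 - ev t.2.2))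
    (v : ι) :
    Real.log ‖x v‖ ≤ ((Fintype.card ι - ρ : ℕ) : ℝ) * (∏ s, (D s : ℝ)) * Real.log 2 := by
  classical
  set r : Fin ρ → ι → ℤ := fun s => dvec (p s) (m s) with hr
  let 𝒟 : Set (ι → ℤ) := {d | ∃ a b : ι, d = ev a - ev b ∧ ∃ g : ι → ℤ, Tors (latt r) g ∧
    (x a = (1 + ∏ i, x i ^ g i) * x b ∨ x a = ((∏ i, x i ^ g i) - 1) * x b)}
  have hfull : ∀ ℓ : (ι → ℤ) →+ ℤ, (∀ s, ℓ (r s) = 0) → (∀ d ∈ 𝒟, ℓ d = 0) → ℓ = 0 := by
    intro ℓ h1 h2
    refine hcos ℓ h1 ?_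
    rintro ⟨i, j, k⟩ ht
    have hsum := h𝒯 _ ht
    have hT := hN _ ht
    simp only at hsum hT ⊢
    rcases hT with hT | hT | hT
    · have h3 := CI5_tors_kill r ℓ h1 hT
      rw [map_sub, sub_eq_zero] at h3
      have hT' := CI5_tors_neg hT
      rw [neg_sub] at hT'
      have h4 : ev k - ev i ∈ 𝒟 := by
        refine ⟨k, i, rfl, ev j - ev i, hT', Or.inl ?_⟩
        have h5 := CI5_eta x hx j i
        rw [add_mul, one_mul, ← h5, hsum]
      have h6 := h2 _ h4
      rw [map_sub, sub_eq_zero] at h6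
      exact ⟨h3, by rw [← h3, h6]⟩
    · have h3 := CI5_tors_kill r ℓ h1 hT
      rw [map_sub, sub_eq_zero] at h3
      have hT' := CI5_tors_neg hT
      rw [neg_sub] at hT'
      have h4 : ev j - ev i ∈ 𝒟 := by
        refine ⟨j, i, rfl, ev k - ev i, hT', Or.inr ?_⟩
        have h5 := CI5_eta x hx k i
        rw [sub_mul, one_mul, ← h5, ← hsum]
        ring
      have h6 := h2 _ h4
      rw [map_sub, sub_eq_zero] at h6
      exact ⟨h6.symm, by rw [h6, h3]⟩
    · have h3 := CI5_tors_kill r ℓ h1 hT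
      rw [map_sub, sub_eq_zero] at h3
      have hT' := CI5_tors_neg hT
      rw [neg_sub] at hT'
      have h4 : ev i - ev j ∈ 𝒟 := by
        refine ⟨i, j, rfl, ev k - ev j, hT', Or.inr ?_⟩
        have h5 := CI5_eta x hx k j
        rw [sub_mul, one_mul, ← h5, ← hsum]
        ring
      have h6 := h2 _ h4
      rw [map_sub, sub_eq_zero] at h6
      exact ⟨h6, h3⟩
  obtain ⟨e, d, hd, hdet⟩ := CI4 ρ r hind 𝒟 hfull
  choose da db hdab dg htors hdx using hd
  set A : Matrix ι ι ℤ := Matrix.of (fun i j => Sum.elim r d (e i) j) with hA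
  set M : ℕ := A.det.natAbs with hM
  have hM0 : 0 < M := Int.natAbs_pos.2 hdet
  -- the eta's
  have hroot : ∀ t, (∏ i, x i ^ (dg t i)) ^ M = 1 := by
    intro t
    obtain ⟨N, hN0, hN1⟩ := htors t
    refine CI2 x hx A {i | ∃ s, e i = Sum.inl s} ?_ (dg t) N hN0 ?_
    · rintro i ⟨s, hs⟩
      have h1 : A i = dvec (p s) (m s) := by
        funext j
        rw [hA, Matrix.of_apply, hs, Sum.elim_inl]
      have h2 := CI5_zprod x hx (p s) (m s)
      rw [hrel s] at h2
      have h3 : mon x (m s) ≠ 0 := Finset.prod_ne_zero_iff.mpr fun i _ => pow_ne_zero _ (hx i)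
      rw [h1]
      have h4 : (1 - ∏ i, x i ^ (dvec (p s) (m s) i)) * mon x (m s) = 0 := by
        rw [sub_mul, one_mul, ← h2, sub_self]
      rcases mul_eq_zero.1 h4 with h5 | h5
      · exact (sub_eq_zero.1 h5).symm
      · exact absurd h5 h3
    · have h1 : latt r ≤ latt (fun s : {i | ∃ s, e i = Sum.inl s} => A s) := by
        unfold latt
        refine AddSubgroup.closure_mono ?_
        rintro _ ⟨s, rfl⟩
        refine ⟨⟨e.symm (Sum.inl s), s, e.apply_symm_apply _⟩, ?_⟩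
        funext j
        show A (e.symm (Sum.inl s)) j = r s j
        rw [hA, Matrix.of_apply, e.apply_symm_apply, Sum.elim_inl]
      exact h1 hN1
  have hα : ∀ t, ∃ α : ℂ, x (da t) = α * x (db t) ∧ |Real.log ‖α‖| ≤ M * Real.log 2 := by
    intro t
    rcases hdx t with h | h
    · refine ⟨_, h, (CI3 _ M hM0 (hroot t)).1 ?_⟩
      intro h0
      rw [h0, zero_mul] at h
      exact hx _ h
    · refine ⟨_, h, (CI3 _ M hM0 (hroot t)).2 ?_⟩
      intro h0
      rw [h0, zero_mul] at h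
      exact hx _ h
  choose α hα1 hα2 using hα
  -- the square system
  let p' : ι → ι → ℕ := fun i => Sum.elim p (fun t => Pi.single (da t) 1) (e i)
  let m' : ι → ι → ℕ := fun i => Sum.elim m (fun t => Pi.single (db t) 1) (e i)
  let D' : ι → ℕ := fun i => Sum.elim D (fun _ => 1) (e i)
  let α' : ι → ℂ := fun i => Sum.elim (fun _ => 1) α (e i)
  have hdv : Matrix.of (fun s j => dvec (p' s) (m' s) j) = A := by
    ext i j
    rw [hA, Matrix.of_apply, Matrix.of_apply]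
    show dvec (Sum.elim p (fun t => Pi.single (da t) 1) (e i))
      (Sum.elim m (fun t => Pi.single (db t) 1) (e i)) j = _
    rcases e i with s | t
    · rfl
    · show dvec (Pi.single (da t) 1) (Pi.single (db t) 1) j = d t j
      rw [CI5_dvec_single, hdab t]
  have hC := CI1 x hx p' m' D' (by
      intro i
      show 1 ≤ Sum.elim D (fun _ => 1) (e i)
      rcases e i with s | t
      · exact hD s
      · exact le_refl _) (by
      intro i
      show deg (Sum.elim p (fun t => Pi.single (da t) 1) (e i)) ≤ Sum.elim D (fun _ => 1) (e i)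
      rcases e i with s | t
      · exact hp s
      · exact (CI5_deg_single _).le) (by
      intro i
      show deg (Sum.elim m (fun t => Pi.single (db t) 1) (e i)) ≤ Sum.elim D (fun _ => 1) (e i)
      rcases e i with s | t
      · exact hm s
      · exact (CI5_deg_single _).le) α' (by
      intro i
      show mon x (Sum.elim p (fun t => Pi.single (da t) 1) (e i)) =
        Sum.elim (fun _ => 1) α (e i) * mon x (Sum.elim m (fun t => Pi.single (db t) 1) (e i))
      rcases e i with s | t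
      · show mon x (p s) = 1 * mon x (m s)
        rw [one_mul, hrel s]
      · show mon x (Pi.single (da t) 1) = α t * mon x (Pi.single (db t) 1)
        rw [CI5_mon_single, CI5_mon_single, hα1 t]) v
  rw [hdv] at hC
  have hprod : ∏ i, (D' i : ℝ) = ∏ s, (D s : ℝ) := by
    have h1 : ∏ i, (D' i : ℝ) = ∏ q : Fin ρ ⊕ Fin (Fintype.card ι - ρ),
        ((Sum.elim D (fun _ => 1) q : ℕ) : ℝ) :=
      Fintype.prod_equiv e _ _ fun i => rfl
    rw [h1, Fintype.prod_sum_type]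
    simp
  have hDnn : 0 ≤ ∏ s, (D s : ℝ) := Finset.prod_nonneg fun s _ => Nat.cast_nonneg _
  have hsum : ∑ i, (∏ s', (D' s' : ℝ)) * |Real.log ‖α' i‖| ≤
      ((Fintype.card ι - ρ : ℕ) : ℝ) * (∏ s, (D s : ℝ)) * Real.log 2 * M := by
    rw [hprod]
    have h1 : ∑ i, (∏ s, (D s : ℝ)) * |Real.log ‖α' i‖| =
        ∑ q : Fin ρ ⊕ Fin (Fintype.card ι - ρ), (∏ s, (D s : ℝ)) *
          |Real.log ‖(Sum.elim (fun _ => 1) α q : ℂ)‖| :=
      Fintype.sum_equiv e _ _ fun i => rfl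
    rw [h1, Fintype.sum_sum_type]
    have h2 : ∑ s : Fin ρ, (∏ s, (D s : ℝ)) *
        |Real.log ‖(Sum.elim (fun _ => 1) α (Sum.inl s : Fin ρ ⊕ Fin (Fintype.card ι - ρ)) : ℂ)‖|
        = 0 := by
      refine Finset.sum_eq_zero fun s _ => ?_
      rw [Sum.elim_inl, norm_one, Real.log_one, abs_zero, mul_zero]
    rw [h2, zero_add]
    calc ∑ t : Fin (Fintype.card ι - ρ), (∏ s, (D s : ℝ)) *
        |Real.log ‖(Sum.elim (fun _ => 1) α (Sum.inr t : Fin ρ ⊕ Fin (Fintype.card ι - ρ)) : ℂ)‖|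
        ≤ ∑ t : Fin (Fintype.card ι - ρ), (∏ s, (D s : ℝ)) * (M * Real.log 2) := by
          refine Finset.sum_le_sum fun t _ => ?_
          rw [Sum.elim_inr]
          exact mul_le_mul_of_nonneg_left (hα2 t) hDnn
      _ = ((Fintype.card ι - ρ : ℕ) : ℝ) * (∏ s, (D s : ℝ)) * Real.log 2 * M := by
          rw [Finset.sum_const, Finset.card_univ, Fintype.card_fin, nsmul_eq_mul]
          ring
  have hMabs : |(A.det : ℝ)| = (M : ℝ) := by
    rw [hM, Nat.cast_natAbs, Int.cast_abs]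
  rw [hMabs] at hC
  have hMpos : (0 : ℝ) < M := by exact_mod_cast hM0
  exact le_of_mul_le_mul_right (hC.trans hsum) hMpos

end H58D
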