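import Pool.Agent.Lib.H58D.Defs

/-! Chunk D1 (size M).  A square matrix all of whose rows are of the form `e_a - e_b`, `e_a`, `-e_b` or `0` has determinant in `{-1, 0, 1}`.

Proof.  Induction on `n`.  `n = 0`: determinant `1`.  If some row is `0` the determinant is `0`.  If some row has exactly one nonzero entry `±1` in column `j`, expand along this row
(`Matrix.det_succ_row`): the determinant is `±` the determinant of the minor (delete the row and column `j`), whose rows are again of this form (restrict, deleted column dropped:
`some j ↦ none`, other columns renamed by `Fin.succAbove`), so the absolute value is `≤ 1`.  Otherwise all rows are `e_a - e_b` with `a ≠ b`, the sum of the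
entries of each row is `0`, so `A.mulVec 1 = 0` and the determinant is `0` (`Matrix.exists_mulVec_eq_zero_iff`; `n ≥ 1`). -/

namespace H58D

private theorem D1_opt {n : ℕ} (x : Fin (n + 1)) (a : Option (Fin (n + 1))) :
    ∃ a' : Option (Fin n), ∀ j, (a = some (x.succAbove j) ↔ a' = some j) := by
  rcases a with _ | y
  · exact ⟨none, fun j => by simp⟩
  · rcases Fin.eq_self_or_eq_succAbove x y with h | ⟨z, h⟩
    · refine ⟨none, fun j => ?_⟩
      constructor
      · intro h1
        have h2 : y = x.succAbove j := Option.some.inj h1
        rw [h] at h2
        exact absurd h2.symm (Fin.succAbove_ne x j)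
      · intro h1
        exact absurd h1 (by simp)
    · refine ⟨some z, fun j => ?_⟩
      constructor
      · intro h1
        have h2 : y = x.succAbove j := Option.some.inj h1
        rw [h] at h2
        rw [Fin.succAbove_right_injective h2]
      · intro h1
        have h2 : z = j := Option.some.inj h1
        rw [h, h2]

private theorem D1_exp {n : ℕ} (A : Matrix (Fin (n + 1)) (Fin (n + 1)) ℤ) (i x : Fin (n + 1))
    (e : ℤ) (he : |e| ≤ 1) (hA : ∀ j, A i j = e * (if x = j then 1 else 0))
    (hm : |(A.submatrix i.succAbove x.succAbove).det| ≤ 1) : |A.det| ≤ 1 := by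
  rw [Matrix.det_succ_row A i, Finset.sum_eq_single x]
  · rw [hA x, if_pos rfl, mul_one, abs_mul, abs_mul, abs_pow, abs_neg, abs_one, one_pow, one_mul]
    calc |e| * |(A.submatrix i.succAbove x.succAbove).det| ≤ 1 * 1 :=
          mul_le_mul he hm (abs_nonneg _) zero_le_one
      _ = 1 := one_mul 1
  · intro j _ hj
    rw [hA j, if_neg (Ne.symm hj)]
    ring
  · intro h
    exact absurd (Finset.mem_univ x) h

theorem D1 (n : ℕ) (A : Matrix (Fin n) (Fin n) ℤ)
    (h : ∀ i, ∃ a b : Option (Fin n), ∀ j,
      A i j = (if a = some j then 1 else 0) - (if b = some j then 1 else 0)) :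
    |A.det| ≤ 1 := by
  induction n with
  | zero => simp
  | succ n ih =>
    by_cases H : ∀ i, ∑ j, A i j = 0
    · have h0 : A.det = 0 := by
        rw [← Matrix.exists_mulVec_eq_zero_iff]
        refine ⟨fun _ => 1, ?_, ?_⟩
        · intro h1
          have h2 := congrFun h1 0
          simp at h2
        · funext i
          have h3 : (A.mulVec fun _ => 1) i = ∑ j, A i j := by
            simp [Matrix.mulVec, dotProduct]
          rw [h3, H i]
          rfl
      rw [h0]
      simp
    · push Not at H
      obtain ⟨i, hi⟩ := H
      have hminor : ∀ x : Fin (n + 1), |(A.submatrix i.succAbove x.succAbove).det| ≤ 1 := by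
        intro x
        refine ih _ (fun i' => ?_)
        obtain ⟨a, b, hab⟩ := h (i.succAbove i')
        obtain ⟨a', ha'⟩ := D1_opt x a
        obtain ⟨b', hb'⟩ := D1_opt x b
        refine ⟨a', b', fun j => ?_⟩
        rw [Matrix.submatrix_apply, hab]
        simp only [ha', hb']
      obtain ⟨a, b, hab⟩ := h i
      rcases a with _ | x
      · rcases b with _ | y
        · exact absurd (by simp [hab]) hi
        · refine D1_exp A i y (-1) (by simp) (fun j => ?_) (hminor y)
          rw [hab j]
          by_cases hj : y = j
          · subst hj; simp
          · simp [hj]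
      · rcases b with _ | y
        · refine D1_exp A i x 1 (by simp) (fun j => ?_) (hminor x)
          rw [hab j]
          by_cases hj : x = j
          · subst hj; simp
          · simp [hj]
        · refine absurd ?_ hi
          simp only [hab, Finset.sum_sub_distrib]
          simp

end H58D
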