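import Pool.Agent.Lib.H58D.D1

/-! Chunk D2 (size M).  Schinzel type inequality for integer determinants.

Proof.  By reindexing we may take the index type `Fin n`.  Since `deg (p s) ≤ D s` there is `a s : Fin (D s) → Option n` with
`p s j = #{l | a s l = some j}` for all `j`; similarly `b s` for `m s`.  So row `s` is the sum over `l : Fin (D s)` of the rows `R(s,l)`, `R(s,l) j = [a s l = some j] - [b s l = some j]`.
Multilinearity (`Matrix.det` as `MultilinearMap` in the rows, `MultilinearMap.map_sum`, index `(s : n) → Fin (D s)`) gives
`det = Σ_f det (R(s, f s))_s`, each of absolute value `≤ 1` by `D1`, and there are `∏ D s` functions `f`. -/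

namespace H58D

private theorem D2_aux {n : Type*} [Fintype n] [DecidableEq n] :
    ∀ (D : ℕ) (u : n → ℕ), deg u ≤ D →
      ∃ a : Fin D → Option n, ∀ j, (u j : ℤ) = ∑ l, (if a l = some j then 1 else 0) := by
  intro D
  induction D with
  | zero =>
    intro u hu
    refine ⟨fun _ => none, fun j => ?_⟩
    have h0 : deg u = 0 := Nat.le_zero.mp hu
    have : u j = 0 := by
      unfold deg at h0
      exact (Finset.sum_eq_zero_iff.mp h0) j (Finset.mem_univ j)
    simp [this]
  | succ D ih =>
    intro u hu
    by_cases h : ∃ j0, 0 < u j0
    · obtain ⟨j0, hj0⟩ := h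
      have hdeg : deg (Function.update u j0 (u j0 - 1)) ≤ D := by
        have h1 : deg (Function.update u j0 (u j0 - 1)) + 1 = deg u := by
          unfold deg
          rw [Finset.sum_update_of_mem (Finset.mem_univ j0),
            Finset.sum_eq_add_sum_sdiff_singleton_of_mem (Finset.mem_univ j0) u]
          omega
        omega
      obtain ⟨a, ha⟩ := ih _ hdeg
      refine ⟨Fin.cons (some j0) a, fun j => ?_⟩
      rw [Fin.sum_univ_succ]
      simp only [Fin.cons_zero, Fin.cons_succ]
      rw [← ha j]
      by_cases hj : j0 = j
      · subst hj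
        simp only [if_true, Function.update_self]
        omega
      · have hne : (some j0 : Option n) ≠ some j := fun hh => hj (Option.some.inj hh)
        rw [if_neg hne, Function.update_of_ne (Ne.symm hj)]
        ring
    · push Not at h
      refine ⟨fun _ => none, fun j => ?_⟩
      have : u j = 0 := Nat.le_zero.mp (h j)
      simp [this]

private theorem D2_row {n : Type*} [Fintype n] [DecidableEq n] (a b : n → Option n) :
    |(Matrix.of (fun s j => ((if a s = some j then 1 else 0) -
      (if b s = some j then 1 else 0) : ℤ))).det| ≤ 1 := by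
  let e : n ≃ Fin (Fintype.card n) := Fintype.equivFin n
  have hre := Matrix.det_reindex_self e (Matrix.of (fun s j => ((if a s = some j then 1 else 0) -
      (if b s = some j then 1 else 0) : ℤ)))
  rw [← hre]
  apply D1
  intro i
  refine ⟨(a (e.symm i)).map e, (b (e.symm i)).map e, fun j => ?_⟩
  have key : ∀ o : Option n, (o.map e = some j) ↔ (o = some (e.symm j)) := by
    intro o
    cases o with
    | none => simp
    | some x =>
      simp only [Option.map_some, Option.some.injEq]
      exact ⟨fun h => by rw [← h]; simp, fun h => by rw [h]; simp⟩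
  simp only [Matrix.reindex_apply, Matrix.submatrix_apply, Matrix.of_apply, key]

theorem D2 {n : Type*} [Fintype n] [DecidableEq n] (p m : n → n → ℕ) (D : n → ℕ)
    (hp : ∀ s, deg (p s) ≤ D s) (hm : ∀ s, deg (m s) ≤ D s) :
    |(Matrix.of (fun s j => dvec (p s) (m s) j)).det| ≤ ∏ s, (D s : ℤ) := by
  classical
  choose a ha using fun s => D2_aux (D s) (p s) (hp s)
  choose b hb using fun s => D2_aux (D s) (m s) (hm s)
  have hM : (Matrix.of (fun s j => dvec (p s) (m s) j)) =
      Matrix.of (fun s => ∑ l : Fin (D s), (fun j => ((if a s l = some j then 1 else 0) -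
        (if b s l = some j then 1 else 0) : ℤ))) := by
    ext s j
    simp only [Matrix.of_apply, dvec, Finset.sum_apply, Finset.sum_sub_distrib]
    rw [ha s j, hb s j]
  have hdet : (Matrix.of (fun s j => dvec (p s) (m s) j)).det =
      ∑ f : ((s : n) → Fin (D s)), (Matrix.of (fun s j => ((if a s (f s) = some j then 1 else 0) -
        (if b s (f s) = some j then 1 else 0) : ℤ))).det := by
    rw [hM]
    exact (Matrix.detRowAlternating (n := n) (R := ℤ)).toMultilinearMap.map_sum
      (fun s l => (fun j => ((if a s l = some j then 1 else 0) -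
        (if b s l = some j then 1 else 0) : ℤ)))
  rw [hdet]
  refine (Finset.abs_sum_le_sum_abs _ _).trans ?_
  refine (Finset.sum_le_sum (fun f _ => D2_row (fun s => a s (f s)) (fun s => b s (f s)))).trans ?_
  simp

end H58D
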