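import Mathlib

/-! Definitions for `MP_dafae9_al` (see `PROOF.md` in this folder). -/

namespace H58D

/-- Degree of an exponent vector. -/
def deg {ι : Type*} [Fintype ι] (u : ι → ℕ) : ℕ := ∑ i, u i

/-- The monomial `y^u`. -/
def mon {ι : Type*} {B : Type*} [Fintype ι] [CommMonoid B] (y : ι → B) (u : ι → ℕ) : B :=
  ∏ i, y i ^ u i

/-- The integer vector `p - m`. -/
def dvec {ι : Type*} (p m : ι → ℕ) : ι → ℤ := fun i => (p i : ℤ) - (m i : ℤ)

/-- The lattice generated by a family of integer vectors. -/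
def latt {ι κ : Type*} (r : κ → ι → ℤ) : AddSubgroup (ι → ℤ) := AddSubgroup.closure (Set.range r)

/-- `u` is torsion modulo `Λ`. -/
def Tors {ι : Type*} (Λ : AddSubgroup (ι → ℤ)) (u : ι → ℤ) : Prop := ∃ n : ℕ, 0 < n ∧ n • u ∈ Λ

/-- The lattice `L_N(y)`: integer span of the monomials of degree at most `N`. -/
def lat {ι : Type*} {B : Type*} [Fintype ι] [CommRing B] (y : ι → B) (N : ℕ) : Submodule ℤ B :=
  Submodule.span ℤ {b | ∃ u : ι → ℕ, deg u ≤ N ∧ b = mon y u}

/-- The rank of `L_N(y)`. -/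
noncomputable def rk {ι : Type*} {B : Type*} [Fintype ι] [CommRing B] (y : ι → B) (N : ℕ) : ℕ :=
  Module.finrank ℤ (lat y N)

/-- The monomials of degree at most `N` inside `L_N(y)`. -/
def monSet {ι : Type*} {B : Type*} [Fintype ι] [CommRing B] (y : ι → B) (N : ℕ) : Set (lat y N) :=
  {b | ∃ u : ι → ℕ, deg u ≤ N ∧ (b : B) = mon y u}

/-- The largest index of the span of a tuple (of length the rank) of elements of `S`
(dependent tuples have index `0`). -/
noncomputable def wS {L : Type*} [AddCommGroup L] (S : Set L) : ℕ :=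
  sSup {d | ∃ v : Fin (Module.finrank ℤ L) → L, (∀ s, v s ∈ S) ∧
    d = (Submodule.span ℤ (Set.range v)).toAddSubgroup.index}

/-- The weight `W(y, N)`. -/
noncomputable def wt {ι : Type*} {B : Type*} [Fintype ι] [CommRing B] (y : ι → B) (N : ℕ) : ℕ :=
  wS (monSet y N)

/-- `x` is an integer combination of elements of `S` with `ℓ¹`-norm at most `C`. -/
def L1le {L : Type*} [AddCommGroup L] (S : Set L) (C : ℕ) (x : L) : Prop :=
  ∃ c : L →₀ ℤ, (↑c.support : Set L) ⊆ S ∧ x = c.sum (fun s a => a • s) ∧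
    c.sum (fun _ a => a.natAbs) ≤ C

/-- The classes in `ℤ^ι / Λ` of the exponent vectors of degree at most `N`. -/
def gset {ι : Type*} [Fintype ι] (Λ : AddSubgroup (ι → ℤ)) (N : ℕ) : Set ((ι → ℤ) ⧸ Λ) :=
  {c | ∃ u : ι → ℕ, deg u ≤ N ∧ c = QuotientAddGroup.mk (fun i => (u i : ℤ))}

/-- The number of these classes. -/
noncomputable def cnt {ι : Type*} [Fintype ι] (Λ : AddSubgroup (ι → ℤ)) (N : ℕ) : ℕ :=
  (gset Λ N).ncard

/-- The ideal of the point `x` in `ℂ[X]`. -/
noncomputable def mx {ι : Type*} (x : ι → ℂ) : Ideal (MvPolynomial ι ℂ) :=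
  RingHom.ker (MvPolynomial.eval x)

/-- The binomial `X^p - X^m`. -/
noncomputable def bin {ι : Type*} [Fintype ι] (p m : ι → ℕ) : MvPolynomial ι ℂ :=
  mon MvPolynomial.X p - mon MvPolynomial.X m

/-- The trinomial `X_i + X_j - X_k`. -/
noncomputable def tri {ι : Type*} (t : ι × ι × ι) : MvPolynomial ι ℂ :=
  MvPolynomial.X t.1 + MvPolynomial.X t.2.1 - MvPolynomial.X t.2.2

/-- Unit vector in `ℤ^ι`. -/
def ev {ι : Type*} [DecidableEq ι] (i : ι) : ι → ℤ := Pi.single i 1

end H58D
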