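import Pool.Agent.Lib.H58D.Defs

/-! Chunk L1 (size M).  The index of the span of a family of `finrank` elements is the absolute value of its determinant.

Proof.  If `v` is linearly independent, `Basis.span` gives a basis of the submodule `span (range v)` indexed by `κ`, and
`AddSubgroup.index_eq_natAbs_det` (or `Submodule.natAbs_det_basis_change`) gives the claim.  If `v` is dependent, the determinant is `0`
(`Basis.det_ne_zero`-type facts: over `ℚ`, or `Matrix.exists_vecMul_eq_zero_iff`), and the span has rank `< finrank L`, so the quotient is infinite and the index is `0`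
(for instance: the quotient has positive rank, hence is infinite). -/

namespace H58D

theorem L1 {L : Type*} [AddCommGroup L] {κ : Type*} [Fintype κ] [DecidableEq κ]
    (b : Module.Basis κ ℤ L) (v : κ → L) :
    (Submodule.span ℤ (Set.range v)).toAddSubgroup.index = (b.det v).natAbs := by
  by_cases h : b.det v = 0
  · rw [h, Int.natAbs_zero]
    by_contra hidx
    have hmem : ∀ x : L, (Submodule.span ℤ (Set.range v)).toAddSubgroup.index • x ∈
        Submodule.span ℤ (Set.range v) := by
      intro x
      have h1 := (Submodule.span ℤ (Set.range v)).toAddSubgroup.nsmul_index_mem x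
      exact h1
    have hf : ∀ i, ∃ c : κ → ℤ, ∑ j, c j • v j =
        (Submodule.span ℤ (Set.range v)).toAddSubgroup.index • b i := by
      intro i
      exact (Submodule.mem_span_range_iff_exists_fun ℤ).1 (hmem (b i))
    choose c hc using hf
    have hmul : (b.toMatrix v) * (Matrix.of fun j i => c i j) =
        ((Submodule.span ℤ (Set.range v)).toAddSubgroup.index : ℤ) • (1 : Matrix κ κ ℤ) := by
      ext i k
      rw [Matrix.mul_apply]
      have h2 := congrArg (fun x => b.repr x i) (hc k)
      simp only [map_sum, map_smul, map_nsmul, Finsupp.coe_finsetSum, Finset.sum_apply,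
        Finsupp.coe_smul, Pi.smul_apply, smul_eq_mul, Module.Basis.repr_self] at h2
      simp only [Module.Basis.toMatrix_apply, Matrix.of_apply, Matrix.smul_apply, smul_eq_mul]
      rw [Matrix.one_apply]
      have h3 : ∑ j, (b.repr (v j)) i * c k j = ∑ j, c k j * (b.repr (v j)) i :=
        Finset.sum_congr rfl fun j _ => mul_comm _ _
      rw [h3, h2]
      rw [nsmul_eq_mul]
      rw [Finsupp.single_apply]
      by_cases hik : i = k
      · rw [if_pos hik.symm, if_pos hik]
      · rw [if_neg (fun e => hik e.symm), if_neg hik]
    have hdet := congrArg Matrix.det hmul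
    rw [Matrix.det_mul, ← Module.Basis.det_apply, h, zero_mul, Matrix.det_smul, Matrix.det_one,
      mul_one] at hdet
    have h5 := pow_ne_zero (Fintype.card κ)
      (show ((Submodule.span ℤ (Set.range v)).toAddSubgroup.index : ℤ) ≠ 0 from
        Int.natCast_ne_zero.2 hidx)
    exact h5 hdet.symm
  · have hli : LinearIndependent ℤ v := by
      by_contra hn
      exact h (AlternatingMap.map_linearDependent b.det v hn)
    have h6 := AddSubgroup.index_eq_natAbs_det b (Submodule.span ℤ (Set.range v)).toAddSubgroup
      (Module.Basis.span hli)
    rw [h6]
    have h7 : (fun i => ((Module.Basis.span hli i : Submodule.span ℤ (Set.range v)) : L)) = v := by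
      funext i
      exact congrArg Subtype.val (Module.Basis.span_apply hli i)
    exact congrArg (fun w => (b.det w).natAbs) h7

end H58D
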