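import Pool.Agent.Lib.H58D.Defs

/-! Chunk S4 (size S).  Monotonicity of the rank.

Proof.  `lat y N ≤ lat y (N+1)` (generators), both finitely generated and torsion free, `Submodule.finrank_mono`-type lemma (over the domain `ℤ`; the larger module is finite). -/

namespace H58D

private theorem S4_fin {ι : Type*} [Fintype ι] (N : ℕ) :
    Set.Finite {u : ι → ℕ | deg u ≤ N} := by
  classical
  refine Set.Finite.subset (Set.Finite.pi (fun _ : ι => Set.finite_Iic N)) ?_
  intro u hu
  simp only [Set.mem_ofPred_eq, deg] at hu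
  simp only [Set.mem_pi, Set.mem_univ, Set.mem_Iic, forall_const]
  intro i
  exact le_trans (Finset.single_le_sum (fun j _ => Nat.zero_le (u j)) (Finset.mem_univ i)) hu

theorem S4 {ι : Type*} [Fintype ι] {B : Type*} [CommRing B] [IsDomain B] [CharZero B]
    (y : ι → B) (N : ℕ) : rk y N ≤ rk y (N + 1) := by
  have hle : lat y N ≤ lat y (N + 1) := by
    refine Submodule.span_mono ?_
    rintro b ⟨u, hu, rfl⟩
    exact ⟨u, Nat.le_succ_of_le hu, rfl⟩
  have hfin : Set.Finite {b : B | ∃ u : ι → ℕ, deg u ≤ N + 1 ∧ b = mon y u} := by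
    refine Set.Finite.subset ((S4_fin (ι := ι) (N + 1)).image (mon y)) ?_
    rintro b ⟨u, hu, rfl⟩
    exact ⟨u, hu, rfl⟩
  have : Module.Finite ℤ (lat y (N + 1)) := by
    rw [lat]
    exact Module.Finite.span_of_finite ℤ hfin
  exact Submodule.finrank_mono hle

end H58D
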