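import Pool.Agent.Lib.H58D.S0
import Pool.Agent.Lib.H58D.L1
import Pool.Agent.Lib.H58D.S4

/-! Chunk E1 (size M).  End of the machine, one place.

Proof.  The ranks `rk x N` are nondecreasing (`lat x N ≤ lat x (N+1)`) and bounded, so constant `= r` for `N ≥ N₀`.  Choose monomials `u_1, ..., u_r` of degree `≤ N₀` in `x` which are
linearly independent over `ℤ` (as elements of `ℂ`; `L0b` for `monSet x N₀`).  Let `N ≥ N₀` and `z = (x v)^N`, a monomial of degree `N`.  The `r+1` elements `u_1..u_r, z` of `lat x N`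
(rank `r`) are dependent: `c₀ z = Σ c_s u_s` with integers, `c₀ ≠ 0`.  So `z = Σ (c_s/c₀) u_s`, hence some `s` has `|c_s/c₀| ≥ |z| / Σ_s |u_s|` (if `r ≥ 1`).
The tuple `u` with `u_s` replaced by `z` has determinant `(c_s/c₀) * det u` in any basis of `lat x N`, so its index is `|c_s/c₀| * index(u) ≥ |c_s/c₀|` (`L1`; the index of `u` is a positive
integer).  `L0a`: `wt x N ≥ |x v|^N / Σ|u_s|`.  So `C' = log (Σ|u_s|)` works for `N ≥ N₀` (if `x v ≠ 0`; if `x v = 0` then `Real.log 0 = 0` and everything is trivial because `wt ≥ 1`);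
enlarge `C'` for the finitely many `N < N₀` (there `log wt ≥ 0`). -/

namespace H58D

/-- the ranks are eventually constant -/
private theorem e1_const {ι : Type*} [Fintype ι] (x : ι → ℂ) (R : ℕ) (hR : ∀ N, rk x N ≤ R) :
    ∃ N₀, ∀ N, N₀ ≤ N → rk x N = rk x N₀ := by
  have hmono : Monotone (rk x) := monotone_nat_of_le_succ fun N => S4 x N
  have hbdd : BddAbove (Set.range (rk x)) := ⟨R, by rintro _ ⟨N, rfl⟩; exact hR N⟩
  have hne : (Set.range (rk x)).Nonempty := ⟨_, ⟨0, rfl⟩⟩
  obtain ⟨N₀, hN₀⟩ := Nat.sSup_mem hne hbdd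
  refine ⟨N₀, fun N hN => le_antisymm ?_ (hmono hN)⟩
  rw [hN₀]
  exact le_csSup hbdd ⟨N, rfl⟩

private theorem e1_mon_single {ι : Type*} [Fintype ι] [DecidableEq ι] {B : Type*} [CommRing B]
    (y : ι → B) (i : ι) (k : ℕ) : mon y (Pi.single i k) = y i ^ k := by
  unfold mon
  rw [Finset.prod_eq_single i]
  · rw [Pi.single_eq_same]
  · intro j _ hj
    rw [Pi.single_eq_of_ne hj, pow_zero]
  · intro h
    exact absurd (Finset.mem_univ i) h

private theorem e1_deg_single {ι : Type*} [Fintype ι] [DecidableEq ι] (i : ι) (k : ℕ) :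
    deg (Pi.single i k : ι → ℕ) = k := by
  unfold deg
  rw [Finset.sum_eq_single i]
  · rw [Pi.single_eq_same]
  · intro j _ hj
    rw [Pi.single_eq_of_ne hj]
  · intro h
    exact absurd (Finset.mem_univ i) h

/-- Cramer's rule: the main inequality for one `N`. -/
private theorem e1_cramer {ι : Type*} [Fintype ι] [DecidableEq ι] (x : ι → ℂ) (N a : ℕ)
    (ha : rk x N = a) (u : Fin a → ℂ) (hu : ∀ s, ∃ e : ι → ℕ, deg e ≤ N ∧ u s = mon x e)
    (hind : LinearIndependent ℤ u) (z : ℂ) (hz : ∃ e : ι → ℕ, deg e ≤ N ∧ z = mon x e) :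
    ‖z‖ ≤ (wt x N : ℝ) * ∑ s, ‖u s‖ := by
  have h1 := S0_fin x N
  have h2 := S0_free x N
  have hcard : Module.finrank ℤ (lat x N) = a := ha
  let b : Module.Basis (Fin a) ℤ (lat x N) := Module.finBasisOfFinrankEq ℤ _ hcard
  have hu' : ∀ s, u s ∈ lat x N := by
    intro s
    obtain ⟨e, he, hte⟩ := hu s
    exact Submodule.subset_span ⟨e, he, hte⟩
  have hz' : z ∈ lat x N := by
    obtain ⟨e, he, hte⟩ := hz
    exact Submodule.subset_span ⟨e, he, hte⟩
  let U : Fin a → lat x N := fun s => ⟨u s, hu' s⟩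
  let Z : lat x N := ⟨z, hz'⟩
  let A : Matrix (Fin a) (Fin a) ℤ := b.toMatrix U
  have hAdet : A.det ≠ 0 := by
    intro h0
    have hUind : LinearIndependent ℤ U := by
      have : LinearIndependent ℤ ((lat x N).subtype ∘ U) := hind
      exact LinearIndependent.of_comp _ this
    obtain ⟨c, hc, hc0⟩ := Matrix.exists_mulVec_eq_zero_iff.2 h0
    have h3 : ∑ s, c s • U s = 0 := by
      apply b.repr.injective
      ext i
      rw [map_sum, map_zero, Finsupp.finsetSum_apply]
      have h4 := congrFun hc0 i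
      rw [Matrix.mulVec, dotProduct] at h4
      simp only [map_smul, Finsupp.smul_apply, smul_eq_mul, Finsupp.zero_apply]
      have h4' : ∑ t, A i t * c t = 0 := h4
      rw [← h4']
      refine Finset.sum_congr rfl fun s _ => ?_
      rw [mul_comm]
      rfl
    exact hc (funext fun s => Fintype.linearIndependent_iff.1 hUind c h3 s)
  -- the Cramer identity
  have hcr : ∑ s, (A.cramer (fun i => b.repr Z i) s) • U s = A.det • Z := by
    apply b.repr.injective
    ext i
    rw [map_sum, Finsupp.finsetSum_apply, map_smul, Finsupp.smul_apply, smul_eq_mul]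
    have h4 := congrFun (Matrix.mulVec_cramer A (fun i => b.repr Z i)) i
    rw [Matrix.mulVec, dotProduct] at h4
    simp only [Pi.smul_apply, smul_eq_mul] at h4
    rw [← h4]
    refine Finset.sum_congr rfl fun s _ => ?_
    rw [map_smul, Finsupp.smul_apply, smul_eq_mul, mul_comm]
    rfl
  have hcr2 : ∑ s, ((A.cramer (fun i => b.repr Z i) s : ℤ) : ℂ) * u s = (A.det : ℂ) * z := by
    have h5 := congrArg (fun w : lat x N => (w : ℂ)) hcr
    simp only [AddSubmonoidClass.coe_finsetSum, Submodule.coe_smul, zsmul_eq_mul] at h5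
    exact h5
  -- every entry is bounded by the weight
  have hent : ∀ s, |((A.cramer (fun i => b.repr Z i) s : ℤ) : ℝ)| ≤ wt x N := by
    intro s
    have h6 : A.cramer (fun i => b.repr Z i) s = b.det (Function.update U s Z) := by
      rw [Matrix.cramer_apply, Module.Basis.det_apply]
      congr 1
      ext i j
      rw [Matrix.updateCol_apply, Module.Basis.toMatrix_apply]
      by_cases hj : j = s
      · subst hj
        rw [if_pos rfl, Function.update_self]
      · rw [if_neg hj, Function.update_of_ne hj]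
        rfl
    have h7 := L1 b (Function.update U s Z)
    have hmemS : ∀ t, Function.update U s Z t ∈ monSet x N := by
      intro t
      by_cases ht : t = s
      · subst ht
        rw [Function.update_self]
        exact hz
      · rw [Function.update_of_ne ht]
        exact hu t
    have h8 : (Submodule.span ℤ (Set.range (Function.update U s Z))).toAddSubgroup.index
        ≤ wt x N := by
      have h9 := L0a (monSet x N) (S0_finite x N)
        (fun t : Fin (Module.finrank ℤ (lat x N)) => Function.update U s Z (Fin.cast hcard t))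
        (fun t => hmemS _)
      have h10 : Set.range (fun t : Fin (Module.finrank ℤ (lat x N)) =>
          Function.update U s Z (Fin.cast hcard t)) = Set.range (Function.update U s Z) := by
        have : (fun t : Fin (Module.finrank ℤ (lat x N)) =>
          Function.update U s Z (Fin.cast hcard t)) = Function.update U s Z ∘ (finCongr hcard) := rfl
        rw [this, EquivLike.range_comp]
      rw [h10] at h9
      exact h9
    rw [h7, ← h6] at h8
    rw [← Int.cast_abs, ← Int.natCast_natAbs]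
    exact_mod_cast h8
  have hdet1 : (1 : ℝ) ≤ ‖(A.det : ℂ)‖ := by
    rw [Complex.norm_intCast]
    exact_mod_cast Int.one_le_abs hAdet
  calc ‖z‖ ≤ ‖(A.det : ℂ)‖ * ‖z‖ := le_mul_of_one_le_left (norm_nonneg _) hdet1
    _ = ‖∑ s, ((A.cramer (fun i => b.repr Z i) s : ℤ) : ℂ) * u s‖ := by rw [hcr2, norm_mul]
    _ ≤ ∑ s, ‖((A.cramer (fun i => b.repr Z i) s : ℤ) : ℂ) * u s‖ := norm_sum_le _ _
    _ ≤ ∑ s, (wt x N : ℝ) * ‖u s‖ := by
        refine Finset.sum_le_sum fun s _ => ?_
        rw [norm_mul, Complex.norm_intCast]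
        exact mul_le_mul_of_nonneg_right (hent s) (norm_nonneg _)
    _ = (wt x N : ℝ) * ∑ s, ‖u s‖ := by rw [Finset.mul_sum]

theorem E1 {ι : Type*} [Fintype ι] [DecidableEq ι] (x : ι → ℂ) (R : ℕ) (hR : ∀ N, rk x N ≤ R)
    (v : ι) :
    ∃ C' : ℝ, ∀ N : ℕ, Real.log ‖x v‖ * N ≤ Real.log (wt x N) + C' := by
  obtain ⟨N₀, hN₀⟩ := e1_const x R hR
  have h1 := S0_fin x N₀
  have h2 := S0_free x N₀
  obtain ⟨w, hwS, hwind, -, -⟩ := L0b (monSet x N₀) (S0_finite x N₀) (S0_span x N₀)
  set u : Fin (rk x N₀) → ℂ := fun s => ((w s : lat x N₀) : ℂ) with hu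
  have huind : LinearIndependent ℤ u :=
    hwind.map' (lat x N₀).subtype (Submodule.ker_subtype _)
  set U : ℝ := ∑ s, ‖u s‖ with hU
  have hlog : ∀ N, 0 ≤ Real.log (wt x N) := fun N => Real.log_natCast_nonneg _
  refine ⟨|Real.log U| + |Real.log ‖x v‖| * N₀, fun N => ?_⟩
  by_cases hx : x v = 0
  · rw [hx, norm_zero, Real.log_zero, zero_mul]
    have := hlog N
    positivity
  by_cases hN : N₀ ≤ N
  · have key := e1_cramer x N (rk x N₀) (hN₀ N hN) u (fun s => by
      obtain ⟨e, he, hes⟩ := hwS s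
      exact ⟨e, he.trans hN, hes⟩) huind (x v ^ N)
      ⟨Pi.single v N, (e1_deg_single v N).le, (e1_mon_single x v N).symm⟩
    have hpos : 0 < ‖x v ^ N‖ := norm_pos_iff.2 (pow_ne_zero _ hx)
    have hwt : 0 < (wt x N : ℝ) := by exact_mod_cast (S0_pos x N).2
    have hUpos : 0 < U := by
      have h3 := hpos.trans_le key
      exact (pos_iff_pos_of_mul_pos h3).1 hwt
    have h4 := Real.log_le_log hpos key
    rw [Real.log_mul hwt.ne' hUpos.ne', norm_pow, Real.log_pow] at h4
    have h5 : Real.log U ≤ |Real.log U| := le_abs_self _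
    have h6 : 0 ≤ |Real.log ‖x v‖| * (N₀ : ℝ) := by positivity
    linarith [mul_comm (Real.log ‖x v‖) (N : ℝ)]
  · have hN' : (N : ℝ) ≤ N₀ := by exact_mod_cast (not_le.1 hN).le
    have h5 : Real.log ‖x v‖ * N ≤ |Real.log ‖x v‖| * N₀ := by
      calc Real.log ‖x v‖ * N ≤ |Real.log ‖x v‖| * N :=
            mul_le_mul_of_nonneg_right (le_abs_self _) (Nat.cast_nonneg _)
        _ ≤ |Real.log ‖x v‖| * N₀ := mul_le_mul_of_nonneg_left hN' (abs_nonneg _)
    have := hlog N
    have h7 := abs_nonneg (Real.log U)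
    linarith

end H58D
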