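import Pool.Agent.Lib.H58D.Defs

/-! Chunk K1 (size S/M).  Linear algebra over `ℤ` for the relation lattice `Λ = latt r`.

`K1a`: if `r` is linearly independent and a homomorphism `ℓ` kills `Λ` but not everything, then `ρ < card ι`.
Proof: otherwise the `r s` are `card ι` independent vectors, their span has finite index (some `n > 0` with `n • u ∈ Λ` for all `u`, e.g. the determinant and Cramer's rule),
so `n * ℓ u = 0` for all `u`.
`K1b`: if `u` is not torsion modulo `Λ` there is a homomorphism which kills `Λ` and not `u`.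
Proof: over `ℚ`: `u` is not in the `ℚ`-span `V` of the `r s` (clear denominators), so there is a linear functional `f : (ι → ℚ) → ℚ` with `f V = 0`, `f u = 1`
(`Submodule.exists_le_ker_of_notMem` or similar); multiply by a common denominator of the values `f (e_i)`.
`K1c`: with `k` independent vectors of `ℤ^ι` there is a nonzero homomorphism which kills them if and only if `k < card ι` (here: if).  Proof: the `ℚ`-span of the vectors
is a proper subspace (dimension `k < card ι`), take a nonzero functional killing it, clear denominators. -/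

namespace H58D

theorem K1a {ι : Type*} [Fintype ι] [DecidableEq ι] (ρ : ℕ) (r : Fin ρ → ι → ℤ)
    (hr : LinearIndependent ℤ r) (ℓ : (ι → ℤ) →+ ℤ) (hℓ : ∀ v ∈ latt r, ℓ v = 0)
    (hne : ∃ u, ℓ u ≠ 0) : ρ < Fintype.card ι := by
  obtain ⟨u, hu⟩ := hne
  have h1 : LinearIndependent ℤ (Fin.cons u r : Fin (ρ + 1) → ι → ℤ) := by
    refine LinearIndependent.finCons' u r hr ?_
    intro c y hy hcy
    have h2 : y ∈ latt r := by
      rw [← Submodule.mem_toAddSubgroup, Submodule.span_int_eq_addSubgroupClosure] at hy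
      exact hy
    have h4 := congrArg ℓ hcy
    rw [map_add, map_zsmul, hℓ _ h2, map_zero, add_zero, smul_eq_mul] at h4
    exact (mul_eq_zero.1 h4).resolve_right hu
  have h2 := h1.fintype_card_le_finrank
  rw [Module.finrank_pi, Fintype.card_fin] at h2
  omega

theorem K1b {ι κ : Type*} [Fintype ι] [DecidableEq ι] [Finite κ] (r : κ → ι → ℤ) (u : ι → ℤ)
    (hu : ¬ Tors (latt r) u) :
    ∃ ℓ : (ι → ℤ) →+ ℤ, (∀ v ∈ latt r, ℓ v = 0) ∧ ℓ u ≠ 0 := by
  let L : Submodule ℤ (ι → ℤ) := AddSubgroup.toIntSubmodule (latt r)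
  let Q := (ι → ℤ) ⧸ L
  let T := Submodule.torsion ℤ Q
  let g : (ι → ℤ) →ₗ[ℤ] (Q ⧸ T) := T.mkQ.comp L.mkQ
  have hg : g u ≠ 0 := by
    intro h
    have h1 : L.mkQ u ∈ T := by
      rw [← Submodule.ker_mkQ T]
      exact h
    obtain ⟨a, ha⟩ := (Submodule.mem_torsion_iff _).1 h1
    have h2 : (a : ℤ) • u ∈ latt r := by
      have h3 : L.mkQ ((a : ℤ) • u) = 0 := by
        rw [map_smul]
        exact ha
      have h4 : (a : ℤ) • u ∈ L := by
        rw [← Submodule.ker_mkQ L]
        exact h3
      exact h4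
    refine hu ⟨(a : ℤ).natAbs, Int.natAbs_pos.2 (nonZeroDivisors.coe_ne_zero a), ?_⟩
    have h5 : (((a : ℤ).natAbs : ℤ)) • u ∈ latt r := by
      rcases Int.natAbs_eq (a : ℤ) with h | h
      · rw [← h]
        exact h2
      · have h6 : ((a : ℤ).natAbs : ℤ) = -(a : ℤ) := by omega
        rw [h6, neg_smul]
        exact (latt r).neg_mem h2
    rwa [natCast_zsmul] at h5
  have hfin : Module.Finite ℤ (Q ⧸ T) := inferInstance
  let b := Module.Free.chooseBasis ℤ (Q ⧸ T)
  have h1 : b.repr (g u) ≠ 0 := by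
    intro h
    exact hg ((LinearEquiv.map_eq_zero_iff b.repr).1 h)
  obtain ⟨i, hi⟩ := Finsupp.ne_iff.1 h1
  refine ⟨((b.coord i).comp g).toAddMonoidHom, ?_, ?_⟩
  · intro v hv
    have h2 : L.mkQ v = 0 := by
      rw [Submodule.mkQ_apply, Submodule.Quotient.mk_eq_zero]
      exact hv
    have h3 : g v = 0 := by
      change T.mkQ (L.mkQ v) = 0
      rw [h2, map_zero]
    change b.coord i (g v) = 0
    rw [h3, map_zero]
  · exact hi

theorem K1c {ι κ : Type*} [Fintype ι] [DecidableEq ι] [Fintype κ] (r : κ → ι → ℤ)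
    (hκ : Fintype.card κ < Fintype.card ι) :
    ∃ ℓ : (ι → ℤ) →+ ℤ, (∀ v ∈ latt r, ℓ v = 0) ∧ ∃ i, ℓ (ev i) ≠ 0 := by
  by_contra hcon
  push Not at hcon
  have h1 : ∀ i : ι, Tors (latt r) (ev i) := by
    intro i
    by_contra h
    obtain ⟨ℓ, h2, h3⟩ := K1b r (ev i) h
    exact h3 (hcon ℓ h2 i)
  choose n hn0 hn using h1
  let L : Submodule ℤ (ι → ℤ) := Submodule.span ℤ (Set.range r)
  have hmem : ∀ i, n i • ev i ∈ L := by
    intro i
    change _ ∈ Submodule.span ℤ (Set.range r)
    rw [← Submodule.mem_toAddSubgroup, Submodule.span_int_eq_addSubgroupClosure]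
    exact hn i
  let w : ι → L := fun i => ⟨n i • ev i, hmem i⟩
  have hw : LinearIndependent ℤ w := by
    refine LinearIndependent.of_comp L.subtype ?_
    rw [Fintype.linearIndependent_iff]
    intro g hg j
    have h2 := congrFun hg j
    rw [Finset.sum_apply, Finset.sum_eq_single j] at h2
    · have h3 : (g j • (L.subtype ∘ w) j) j = g j * (n j : ℤ) := by
        change g j * (n j • ev j) j = _
        simp [ev]
      rw [h3] at h2
      have h4 : (n j : ℤ) ≠ 0 := by exact_mod_cast (hn0 j).ne'
      exact (mul_eq_zero.1 h2).resolve_right h4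
    · intro i _ hij
      change g i * (n i • ev i) j = 0
      simp [ev, hij.symm]
    · intro h
      exact absurd (Finset.mem_univ j) h
  have h2 := hw.fintype_card_le_finrank
  have h3 : Module.finrank ℤ L ≤ Fintype.card κ := finrank_range_le_card (R := ℤ) r
  omega

end H58D
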