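import Pool.Agent.Lib.H58D.TDefs
import Pool.Agent.Lib.H58D.K1
import Pool.Agent.Lib.H58D.D2

/-! Chunk TG1 (size M).  A real functional with a dominating term of maximal `ψ`.

Proof.  By `K1b` there are homomorphisms `f_(l,l') : (ι → ℤ) →+ ℤ` killing `latt r` with `f_(l,l') (a l - a l') ≠ 0` for `l ≠ l'`.  Some integer combination
`ℓ₀` of the three of them takes three different values on `a 0, a 1, a 2` (for `ℓ₀ = f_01 + t f_02 + t² f_12` each of the three differences is a nonzero polynomial in `t`; choose an integer `t` avoiding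
the finitely many zeros).  Let `ψ₀ : (ι → ℤ) →+ ℤ` (`ψ` composed with the quotient map).  For a large integer `K` the values of `ℓ₁ = K ψ₀ + ℓ₀` on the `a l` are different and the largest is attained
at an `l0` with `ψ₀ (a l0)` maximal (`K > 2 max |ℓ₀ (a l)|`).  Then `ℓ = 2 ℓ₁` works since `exp (ℓ (a l)) ≤ exp (ℓ (a l0) - 2)` for `l ≠ l0` and `2 exp (-2) < 1`.  It kills `latt r`, so it factors through
the quotient `QuotientAddGroup.lift`. -/

namespace H58D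

private theorem TG1_step {G : Type*} [AddCommGroup G] (S : Finset G) (w : G) (f g : G →+ ℤ)
    (hf : ∀ u ∈ S, f u ≠ 0) (hg : g w ≠ 0) :
    ∃ h : G →+ ℤ, (∀ u ∈ S, h u ≠ 0) ∧ h w ≠ 0 := by
  by_cases hw : f w = 0
  · let K : ℤ := 1 + ∑ u ∈ S, |g u|
    refine ⟨K • f + g, ?_, ?_⟩
    · intro u hu h0
      have h1 : |g u| ≤ ∑ u ∈ S, |g u| := Finset.single_le_sum (fun i _ => abs_nonneg (g i)) hu
      have h2 : K * f u + g u = 0 := by
        have := h0
        simpa using this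
      have h3 : K * f u = - g u := by linarith
      have h4 : |K| * |f u| = |g u| := by rw [← abs_mul, h3, abs_neg]
      have h5 : 1 ≤ |f u| := Int.one_le_abs (hf u hu)
      have h6 : |g u| < K := by
        change |g u| < 1 + ∑ u ∈ S, |g u|
        linarith
      have h7 : K ≤ |K| := le_abs_self K
      have h8 : |K| ≤ |K| * |f u| := le_mul_of_one_le_right (abs_nonneg K) h5
      linarith
    · intro h0
      have h2 : K * f w + g w = 0 := by
        have := h0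
        simpa using this
      rw [hw, mul_zero, zero_add] at h2
      exact hg h2
  · exact ⟨f, hf, hw⟩

private theorem TG1_all {G : Type*} [AddCommGroup G] (S : Finset G)
    (hS : ∀ u ∈ S, ∃ g : G →+ ℤ, g u ≠ 0) : ∃ h : G →+ ℤ, ∀ u ∈ S, h u ≠ 0 := by
  classical
  induction S using Finset.induction_on with
  | empty => exact ⟨0, fun u hu => absurd hu (Finset.notMem_empty u)⟩
  | insert w S _ ih =>
    obtain ⟨f, hf⟩ := ih (fun u hu => hS u (Finset.mem_insert_of_mem hu))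
    obtain ⟨g, hg⟩ := hS w (Finset.mem_insert_self w S)
    obtain ⟨h, h1, h2⟩ := TG1_step S w f g hf hg
    refine ⟨h, fun u hu => ?_⟩
    rcases Finset.mem_insert.1 hu with rfl | hu
    · exact h2
    · exact h1 u hu

private theorem TG1_main {G : Type*} [AddCommGroup G] (x : Fin 3 → G) (ψ ℓ₀ : G →+ ℤ)
    (hsep : ∀ l l', l ≠ l' → ℓ₀ (x l) ≠ ℓ₀ (x l')) :
    ∃ (l0 : Fin 3) (ℓ : G →+ ℝ), (∀ l, ψ (x l) ≤ ψ (x l0)) ∧
      ∑ l ∈ Finset.univ.erase l0, Real.exp (ℓ (x l)) < Real.exp (ℓ (x l0)) := by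
  let K : ℤ := 1 + 2 * ∑ l, |ℓ₀ (x l)|
  let ℓ₁ : G →+ ℤ := K • ψ + ℓ₀
  have hℓ₁ : ∀ u, ℓ₁ u = K * ψ u + ℓ₀ u := fun u => by simp [ℓ₁]
  have hb : ∀ l, |ℓ₀ (x l)| ≤ ∑ l, |ℓ₀ (x l)| := fun l =>
    Finset.single_le_sum (f := fun l => |ℓ₀ (x l)|) (fun i _ => abs_nonneg _) (Finset.mem_univ l)
  have hd : ∀ l l', ℓ₀ (x l) - ℓ₀ (x l') < K := by
    intro l l'
    have h1 := hb l
    have h2 := hb l'
    have h3 := le_abs_self (ℓ₀ (x l))
    have h4 := neg_abs_le (ℓ₀ (x l'))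
    change _ < 1 + 2 * ∑ l, |ℓ₀ (x l)|
    linarith
  obtain ⟨l0, hl0⟩ := Finite.exists_max (fun l => ℓ₁ (x l))
  have hψ : ∀ l, ψ (x l) ≤ ψ (x l0) := by
    intro l
    by_contra hcon
    push Not at hcon
    have h1 := hl0 l
    simp only [hℓ₁] at h1
    have h2 := hd l0 l
    have hK : 0 ≤ K := by
      have : 0 ≤ ∑ l, |ℓ₀ (x l)| := Finset.sum_nonneg (fun i _ => abs_nonneg _)
      change 0 ≤ 1 + 2 * ∑ l, |ℓ₀ (x l)|
      linarith
    have h3 : K * (ψ (x l0) + 1) ≤ K * ψ (x l) := mul_le_mul_of_nonneg_left hcon hK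
    linarith
  have hne : ∀ l, l ≠ l0 → ℓ₁ (x l) + 1 ≤ ℓ₁ (x l0) := by
    intro l hl
    have h1 := hl0 l
    rcases lt_or_eq_of_le h1 with h | h
    · exact h
    · exfalso
      simp only [hℓ₁] at h
      have h2 := hd l0 l
      have h3 := hψ l
      rcases lt_or_eq_of_le h3 with h4 | h4
      · have hK : 0 ≤ K := by
          have : 0 ≤ ∑ l, |ℓ₀ (x l)| := Finset.sum_nonneg (fun i _ => abs_nonneg _)
          change 0 ≤ 1 + 2 * ∑ l, |ℓ₀ (x l)|
          linarith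
        have h5 : K * (ψ (x l) + 1) ≤ K * ψ (x l0) := mul_le_mul_of_nonneg_left h4 hK
        have h6 := hd l l0
        linarith
      · rw [h4] at h
        exact hsep l l0 hl (by linarith)
  refine ⟨l0, (Int.castAddHom ℝ).comp (2 • ℓ₁), hψ, ?_⟩
  have hval : ∀ u, ((Int.castAddHom ℝ).comp (2 • ℓ₁)) u = 2 * (ℓ₁ u : ℝ) := by
    intro u
    simp
  simp only [hval]
  have hterm : ∀ l ∈ Finset.univ.erase l0, Real.exp (2 * (ℓ₁ (x l) : ℝ)) ≤
      Real.exp (2 * (ℓ₁ (x l0) : ℝ) - 2) := by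
    intro l hl
    apply Real.exp_le_exp.2
    have h1 := hne l (Finset.ne_of_mem_erase hl)
    have h2 : (ℓ₁ (x l) : ℝ) + 1 ≤ (ℓ₁ (x l0) : ℝ) := by exact_mod_cast h1
    linarith
  refine (Finset.sum_le_sum hterm).trans_lt ?_
  rw [Finset.sum_const, Finset.card_erase_of_mem (Finset.mem_univ l0), Finset.card_univ,
    Fintype.card_fin, Real.exp_sub, nsmul_eq_mul]
  have h2 : (3 : ℝ) ≤ Real.exp 2 := by
    have := Real.add_one_le_exp (2 : ℝ)
    linarith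
  have h3 : 0 < Real.exp (2 * (ℓ₁ (x l0) : ℝ)) := Real.exp_pos _
  rw [mul_div_assoc', div_lt_iff₀ (by linarith)]
  push_cast
  nlinarith

theorem TG1 {ι κ : Type*} [Fintype ι] [DecidableEq ι] [Finite κ] (r : κ → ι → ℤ)
    (a : Fin 3 → (ι → ℤ)) (ha : ∀ l l', l ≠ l' → ¬ Tors (latt r) (a l - a l'))
    (ψ : ((ι → ℤ) ⧸ latt r) →+ ℤ) :
    ∃ (l0 : Fin 3) (ℓ : ((ι → ℤ) ⧸ latt r) →+ ℝ),
      (∀ l, ψ (QuotientAddGroup.mk (a l)) ≤ ψ (QuotientAddGroup.mk (a l0))) ∧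
      ∑ l ∈ Finset.univ.erase l0, Real.exp (ℓ (QuotientAddGroup.mk (a l))) <
        Real.exp (ℓ (QuotientAddGroup.mk (a l0))) := by
  classical
  let x : Fin 3 → ((ι → ℤ) ⧸ latt r) := fun l => QuotientAddGroup.mk (a l)
  let S : Finset ((ι → ℤ) ⧸ latt r) :=
    (Finset.univ.filter (fun q : Fin 3 × Fin 3 => q.1 ≠ q.2)).image (fun q => x q.1 - x q.2)
  have hS : ∀ u ∈ S, ∃ g : ((ι → ℤ) ⧸ latt r) →+ ℤ, g u ≠ 0 := by
    intro u hu
    obtain ⟨q, hq, rfl⟩ := Finset.mem_image.1 hu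
    obtain ⟨g, h1, h2⟩ := K1b r (a q.1 - a q.2) (ha q.1 q.2 (Finset.mem_filter.1 hq).2)
    refine ⟨QuotientAddGroup.lift (latt r) g h1, ?_⟩
    have h3 : QuotientAddGroup.lift (latt r) g h1 (x q.1 - x q.2) = g (a q.1 - a q.2) := rfl
    rw [h3]
    exact h2
  obtain ⟨ℓ₀, hℓ₀⟩ := TG1_all S hS
  refine TG1_main x ψ ℓ₀ ?_
  intro l l' hll h
  refine hℓ₀ (x l - x l') ?_ ?_
  · exact Finset.mem_image.2 ⟨(l, l'), Finset.mem_filter.2 ⟨Finset.mem_univ _, hll⟩, rfl⟩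
  · rw [map_sub, h, sub_self]

end H58D
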