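import Pool.Agent.Lib.H58D.TDefs
import Pool.Agent.Lib.H58D.K1
import Pool.Agent.Lib.H58D.D2

/-! Chunk TG2 (size M/L).  The number of classes modulo `z = [M e_v]` in a window.

Proof.  `Λ = latt (fun s => dvec (p s) (m s))`, `𝒢 = (ι → ℤ) ⧸ Λ`, `z = mk (M • ev v)`, `w = dvec pw mw`, `c = |ψ (mk w)| > 0`.  `ψ` induces `ψ₀ : (ι → ℤ) →+ ℤ` killing `Λ` and `ev v`.
(1) The `card ι = ρ + 2` vectors `dvec (p s) (m s)` (`s : Fin ρ`), `M • ev v`, `w` are linearly independent: in a relation apply `ψ₀` to see that the coefficient of `w` is `0`, then the coefficient of `M • ev v` is `0`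
because `ev v` is not torsion modulo `Λ`, then use `hind`.  Let `A` be the square matrix of these rows (choose a bijection `ι ≃ Fin ρ ⊕ Fin 2`).  By `D2` (`M • ev v = dvec (Pi.single v M) 0`, bound `M`; `w` bound `1`)
`|det A| ≤ M * ∏ D`.  The subgroup `Γ` of `ι → ℤ` spanned by the rows has index `|det A|` (`AddSubgroup.index_eq_natAbs_det` or `Submodule.natAbs_det_basis_change`), in particular finite.
(2) `Γ` is the preimage of `⟨z, mk w⟩ ⊆ 𝒢`, so the group `𝒬' = (𝒢 ⧸ zmultiples z) ⧸ ⟨w⟩` is finite of order `|det A|`.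
(3) The map from `CC z ψ k` to `𝒬'` is injective for `k ≤ c`: two classes `q, q'` in `CC z ψ k` with `q - q' = n • [w]` have `ψ`-values differing by `n ψ (w)`, of absolute value `< k ≤ c`, so `n = 0`.
So `CC z ψ k` is finite with at most `|det A| ≤ M ∏ D` elements. -/

namespace H58D

private theorem TG2_mem {ι κ : Type*} (r : κ → ι → ℤ) (y : ι → ℤ)
    (hy : y ∈ Submodule.span ℤ (Set.range r)) : y ∈ latt r := by
  rw [← Submodule.mem_toAddSubgroup, Submodule.span_int_eq_addSubgroupClosure] at hy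
  exact hy

private theorem TG2_mk0 {ι : Type*} (Λ : AddSubgroup (ι → ℤ)) (y : ι → ℤ) (hy : y ∈ Λ) :
    (QuotientAddGroup.mk y : (ι → ℤ) ⧸ Λ) = 0 :=
  (QuotientAddGroup.eq_zero_iff y).2 hy

private theorem TG2_tors {ι : Type*} (Λ : AddSubgroup (ι → ℤ)) (u : ι → ℤ) (M : ℕ) (hM : 1 ≤ M)
    (hu : ¬ Tors Λ u) (c : ℤ) (hc : c • (M • u) ∈ Λ) : c = 0 := by
  by_contra h0
  refine hu ⟨c.natAbs * M, Nat.mul_pos (Int.natAbs_pos.2 h0) hM, ?_⟩
  have h5 : ((c.natAbs : ℤ)) • (M • u) ∈ Λ := by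
    rcases Int.natAbs_eq c with h | h
    · rw [← h]
      exact hc
    · have h6 : (c.natAbs : ℤ) = -c := by omega
      rw [h6, neg_smul]
      exact Λ.neg_mem hc
  rw [natCast_zsmul] at h5
  rwa [mul_smul]

private theorem TG2_indep {ι : Type*} [Fintype ι] [DecidableEq ι] (ρ : ℕ) (r : Fin ρ → ι → ℤ)
    (hr : LinearIndependent ℤ r) (u w : ι → ℤ) (M : ℕ) (hM : 1 ≤ M)
    (hu : ¬ Tors (latt r) u) (ψ : ((ι → ℤ) ⧸ latt r) →+ ℤ)
    (hψ : ψ (QuotientAddGroup.mk u) = 0) (hw : ψ (QuotientAddGroup.mk w) ≠ 0) :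
    LinearIndependent ℤ (Fin.cons w (Fin.cons (M • u) r : Fin (ρ + 1) → ι → ℤ) :
      Fin (ρ + 2) → ι → ℤ) := by
  have h1 : LinearIndependent ℤ (Fin.cons (M • u) r : Fin (ρ + 1) → ι → ℤ) := by
    refine LinearIndependent.finCons' (M • u) r hr ?_
    intro c y hy hcy
    have h2 : y ∈ latt r := TG2_mem r y hy
    have h3 : c • (M • u) = -y := eq_neg_of_add_eq_zero_left hcy
    exact TG2_tors (latt r) u M hM hu c (h3 ▸ (latt r).neg_mem h2)
  refine LinearIndependent.finCons' w _ h1 ?_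
  intro c y hy hcy
  rw [Fin.range_cons] at hy
  obtain ⟨a, z, hz, hyz⟩ := Submodule.mem_span_insert.1 hy
  have h2 : z ∈ latt r := TG2_mem r z hz
  have h4 := congrArg (fun x => ψ (QuotientAddGroup.mk x)) hcy
  simp only [QuotientAddGroup.mk_add, QuotientAddGroup.mk_zsmul, map_add, map_zsmul, hyz,
    QuotientAddGroup.mk_nsmul, map_nsmul, hψ, TG2_mk0 _ z h2, QuotientAddGroup.mk_zero,
    map_zero, smul_zero, add_zero] at h4
  rw [smul_eq_mul] at h4
  exact (mul_eq_zero.1 h4).resolve_right hw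

private theorem TG2_det {ι : Type*} [Fintype ι] [DecidableEq ι] (R : ι → ι → ℤ)
    (hR : LinearIndependent ℤ R) : (Matrix.of R).det ≠ 0 := by
  intro h
  obtain ⟨v, hv0, hv⟩ := Matrix.exists_vecMul_eq_zero_iff.2 h
  apply hv0
  have h1 := Fintype.linearIndependent_iff.1 hR v ?_
  · funext i
    exact h1 i
  · funext j
    have h2 := congrFun hv j
    rw [Finset.sum_apply]
    simp only [Matrix.vecMul, dotProduct, Matrix.of_apply, Pi.zero_apply] at h2
    simpa [Pi.smul_apply, smul_eq_mul] using h2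

private theorem TG2_card {ι : Type*} [Fintype ι] [DecidableEq ι] (R : ι → ι → ℤ)
    (hR : LinearIndependent ℤ R) :
    Nat.card ((ι → ℤ) ⧸ Submodule.span ℤ (Set.range R)) = (Matrix.of R).det.natAbs := by
  rw [← Submodule.natAbs_det_basis_change (Pi.basisFun ℤ ι) _ (Module.Basis.span hR)]
  have h1 : ((fun x : Submodule.span ℤ (Set.range R) => (x : ι → ℤ)) ∘
      ⇑(Module.Basis.span hR)) = R := by
    funext i
    change ((Module.Basis.span hR i : Submodule.span ℤ (Set.range R)) : ι → ℤ) = R i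
    rw [Module.Basis.span_apply hR i]
  rw [h1, Pi.basisFun_det]
  rfl

private theorem TG2_main {ι : Type*} [Fintype ι] [DecidableEq ι] (ρ : ℕ)
    (hρ : ρ + 2 = Fintype.card ι) (r : Fin ρ → ι → ℤ)
    (p m : Fin ρ → ι → ℕ) (hr : ∀ s, r s = dvec (p s) (m s)) (D : Fin ρ → ℕ)
    (hp : ∀ s, deg (p s) ≤ D s) (hm : ∀ s, deg (m s) ≤ D s)
    (hind : LinearIndependent ℤ r) (v : ι)
    (hv : ¬ Tors (latt r) (ev v)) (M : ℕ) (hM : 1 ≤ M)
    (ψ : ((ι → ℤ) ⧸ latt r) →+ ℤ)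
    (hψ : ψ (QuotientAddGroup.mk (ev v)) = 0) (pw mw : ι → ℕ) (hpw : deg pw ≤ 1)
    (hmw : deg mw ≤ 1) (hw : ψ (QuotientAddGroup.mk (dvec pw mw)) ≠ 0) (k : ℕ)
    (hk : (k : ℤ) ≤ |ψ (QuotientAddGroup.mk (dvec pw mw))|) :
    (CC (QuotientAddGroup.mk (M • ev v) : (ι → ℤ) ⧸ latt r) ψ k).Finite ∧
      Nat.card (CC (QuotientAddGroup.mk (M • ev v) : (ι → ℤ) ⧸ latt r) ψ k)
        ≤ M * ∏ s, D s := by
  classical
  have hI := TG2_indep ρ r hind (ev v) (dvec pw mw) M hM hv ψ hψ hw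
  set R0 : Fin (ρ + 2) → ι → ℤ :=
    Fin.cons (dvec pw mw) (Fin.cons (M • ev v) r : Fin (ρ + 1) → ι → ℤ) with hR0
  let e : ι ≃ Fin (ρ + 2) := Fintype.equivFinOfCardEq hρ.symm
  have hR : LinearIndependent ℤ (R0 ∘ e) := hI.comp _ e.injective
  have hdet0 := TG2_det (R0 ∘ e) hR
  have hcard := TG2_card (R0 ∘ e) hR
  have hrange : Set.range (R0 ∘ e) = Set.range R0 := e.surjective.range_comp R0
  -- the determinant bound
  let PP : Fin (ρ + 2) → ι → ℕ :=
    Fin.cons pw (Fin.cons (Pi.single v M) p : Fin (ρ + 1) → ι → ℕ)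
  let MM : Fin (ρ + 2) → ι → ℕ :=
    Fin.cons mw (Fin.cons 0 m : Fin (ρ + 1) → ι → ℕ)
  let DD : Fin (ρ + 2) → ℕ := Fin.cons 1 (Fin.cons M D : Fin (ρ + 1) → ℕ)
  have hPP : ∀ s, deg (PP s) ≤ DD s := by
    intro s
    refine Fin.cases ?_ (fun s => Fin.cases ?_ (fun s => ?_) s) s
    · exact hpw
    · change deg (Pi.single v M) ≤ M
      rw [deg, Finset.sum_pi_single']
      simp
    · exact hp s
  have hMM : ∀ s, deg (MM s) ≤ DD s := by
    intro s
    refine Fin.cases ?_ (fun s => Fin.cases ?_ (fun s => ?_) s) s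
    · exact hmw
    · change deg (0 : ι → ℕ) ≤ M
      simp [deg]
    · exact hm s
  have hrow : ∀ s, R0 s = dvec (PP s) (MM s) := by
    intro s
    refine Fin.cases ?_ (fun s => Fin.cases ?_ (fun s => ?_) s) s
    · rfl
    · change M • ev v = dvec (Pi.single v M) 0
      funext j
      by_cases h : j = v
      · subst h
        simp [ev, dvec]
      · simp [ev, dvec, Pi.single_eq_of_ne h]
    · exact hr s
  have hD2 := D2 (fun i => PP (e i)) (fun i => MM (e i)) (fun i => DD (e i))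
    (fun i => hPP (e i)) (fun i => hMM (e i))
  have hmat : (Matrix.of (fun s j => dvec (PP (e s)) (MM (e s)) j)) = Matrix.of (R0 ∘ e) := by
    ext s j
    simp only [Matrix.of_apply, Function.comp_apply, hrow]
  rw [hmat] at hD2
  have hprod : ∏ i, (DD (e i) : ℤ) = ((M * ∏ s, D s : ℕ) : ℤ) := by
    rw [Equiv.prod_comp e (fun s => (DD s : ℤ)), Fin.prod_univ_succ, Fin.prod_univ_succ]
    simp [DD]
  rw [hprod] at hD2
  have hnat : (Matrix.of (R0 ∘ e)).det.natAbs ≤ M * ∏ s, D s := by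
    have h9 := hD2
    rw [← Int.natCast_natAbs] at h9
    exact Int.ofNat_le.1 h9
  -- finiteness
  have hfin : Finite ((ι → ℤ) ⧸ Submodule.span ℤ (Set.range (R0 ∘ e))) := by
    apply Nat.finite_of_card_ne_zero
    rw [hcard]
    exact Int.natAbs_ne_zero.2 hdet0
  -- the injection
  have hchoose : ∀ q : CC (QuotientAddGroup.mk (M • ev v) : (ι → ℤ) ⧸ latt r) ψ k,
      ∃ x : ι → ℤ, (QuotientAddGroup.mk (QuotientAddGroup.mk x : (ι → ℤ) ⧸ latt r) = q.1) ∧
        0 ≤ ψ (QuotientAddGroup.mk x) ∧ ψ (QuotientAddGroup.mk x) < k := by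
    rintro ⟨q, u, hu, h0, h1⟩
    obtain ⟨x, rfl⟩ := QuotientAddGroup.mk_surjective u
    exact ⟨x, hu, h0, h1⟩
  choose X hX hX0 hX1 using hchoose
  let f : CC (QuotientAddGroup.mk (M • ev v) : (ι → ℤ) ⧸ latt r) ψ k →
      ((ι → ℤ) ⧸ Submodule.span ℤ (Set.range (R0 ∘ e))) := fun q => Submodule.Quotient.mk (X q)
  have hf : Function.Injective f := by
    intro q q' hqq
    have h1 : X q - X q' ∈ Submodule.span ℤ (Set.range (R0 ∘ e)) :=
      (Submodule.Quotient.eq _).1 hqq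
    rw [hrange, hR0, Fin.range_cons] at h1
    obtain ⟨a, y, hy, h2⟩ := Submodule.mem_span_insert.1 h1
    rw [Fin.range_cons] at hy
    obtain ⟨b, z, hz, h3⟩ := Submodule.mem_span_insert.1 hy
    have h4 : z ∈ latt r := TG2_mem r z hz
    rw [h3] at h2
    have h5 : ψ (QuotientAddGroup.mk (X q)) - ψ (QuotientAddGroup.mk (X q')) =
        a * ψ (QuotientAddGroup.mk (dvec pw mw)) := by
      have h6 := congrArg (fun x => ψ (QuotientAddGroup.mk x)) h2
      simp only [QuotientAddGroup.mk_add, QuotientAddGroup.mk_sub, QuotientAddGroup.mk_zsmul,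
        map_add, map_sub, map_zsmul, QuotientAddGroup.mk_nsmul, map_nsmul, hψ, TG2_mk0 _ z h4,
        smul_zero, add_zero] at h6
      rw [smul_eq_mul] at h6
      exact h6
    have ha : a = 0 := by
      by_contra ha
      have h7 : |ψ (QuotientAddGroup.mk (X q)) - ψ (QuotientAddGroup.mk (X q'))| < k := by
        have := hX0 q
        have := hX0 q'
        have := hX1 q
        have := hX1 q'
        rw [abs_lt]
        constructor <;> linarith
      rw [h5, abs_mul] at h7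
      have h8 : 1 ≤ |a| := Int.one_le_abs ha
      have h9 : |ψ (QuotientAddGroup.mk (dvec pw mw))| ≤ |a| * |ψ (QuotientAddGroup.mk (dvec pw mw))| :=
        le_mul_of_one_le_left (abs_nonneg _) h8
      exact absurd (lt_of_le_of_lt h9 h7) (not_lt.2 hk)
    rw [ha, zero_smul, zero_add] at h2
    apply Subtype.ext
    rw [← hX q, ← hX q', QuotientAddGroup.eq_iff_sub_mem, ← QuotientAddGroup.mk_sub, h2]
    rw [QuotientAddGroup.mk_add, TG2_mk0 _ z h4, add_zero, QuotientAddGroup.mk_zsmul]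
    exact AddSubgroup.zsmul_mem_zmultiples _ _
  have hfin2 : Finite (CC (QuotientAddGroup.mk (M • ev v) : (ι → ℤ) ⧸ latt r) ψ k) :=
    Finite.of_injective f hf
  refine ⟨Set.toFinite _, ?_⟩
  calc Nat.card (CC (QuotientAddGroup.mk (M • ev v) : (ι → ℤ) ⧸ latt r) ψ k)
      ≤ Nat.card ((ι → ℤ) ⧸ Submodule.span ℤ (Set.range (R0 ∘ e))) :=
        Nat.card_le_card_of_injective f hf
    _ = (Matrix.of (R0 ∘ e)).det.natAbs := hcard
    _ ≤ M * ∏ s, D s := hnat

theorem TG2 {ι : Type*} [Fintype ι] [DecidableEq ι] (ρ : ℕ) (hρ : ρ + 2 = Fintype.card ι)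
    (p m : Fin ρ → ι → ℕ) (D : Fin ρ → ℕ)
    (hp : ∀ s, deg (p s) ≤ D s) (hm : ∀ s, deg (m s) ≤ D s)
    (hind : LinearIndependent ℤ (fun s => dvec (p s) (m s))) (v : ι)
    (hv : ¬ Tors (latt (fun s => dvec (p s) (m s))) (ev v)) (M : ℕ) (hM : 1 ≤ M)
    (ψ : ((ι → ℤ) ⧸ latt (fun s => dvec (p s) (m s))) →+ ℤ)
    (hψ : ψ (QuotientAddGroup.mk (ev v)) = 0) (pw mw : ι → ℕ) (hpw : deg pw ≤ 1)
    (hmw : deg mw ≤ 1) (hw : ψ (QuotientAddGroup.mk (dvec pw mw)) ≠ 0) (k : ℕ)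
    (hk : (k : ℤ) ≤ |ψ (QuotientAddGroup.mk (dvec pw mw))|) :
    (CC (QuotientAddGroup.mk (M • ev v)) ψ k).Finite ∧
      Nat.card (CC (QuotientAddGroup.mk (M • ev v) : (ι → ℤ) ⧸ latt (fun s => dvec (p s) (m s))) ψ k)
        ≤ M * ∏ s, D s := by
  exact TG2_main ρ hρ _ p m (fun s => rfl) D hp hm hind v hv M hM ψ hψ pw mw hpw hmw hw k hk

end H58D
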