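import Pool.Agent.Lib.H58D.K1

/-! Chunk TG3 (size S/M).  Existence of `ψ`, and choice of `M`.

Proof.  `TG3a`: `K1c` for the `ρ + 1 < card ι` vectors `r s` and `ev v` (index type `Option (Fin ρ)` or `Fin ρ ⊕ Unit`) gives `ℓ` killing them with `ℓ (ev i) ≠ 0` for some `i`; it factors through the quotient by `latt r`.
`TG3b`: `g = ev v` has infinite order in `𝒢`.  For each `h` of the finite set `F` of nonzero elements there is at most one integer `n_h` with `h = n_h • g`, and `n_h ≠ 0`.  Take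
`M = 1 + Σ |n_h|`: then `h = n • (M • g)` would give `n_h = n M`, `n ≠ 0`, `|n_h| ≥ M`, contradiction. -/

namespace H58D

theorem TG3a {ι : Type*} [Fintype ι] [DecidableEq ι] (ρ : ℕ) (hρ : ρ + 1 < Fintype.card ι)
    (r : Fin ρ → ι → ℤ) (v : ι) :
    ∃ ψ : ((ι → ℤ) ⧸ latt r) →+ ℤ, ψ (QuotientAddGroup.mk (ev v)) = 0 ∧
      ∃ i, ψ (QuotientAddGroup.mk (ev i)) ≠ 0 := by
  let r' : Option (Fin ρ) → ι → ℤ := fun o => o.elim (ev v) r
  obtain ⟨ℓ, hℓ, i, hi⟩ := K1c r' (by rw [Fintype.card_option, Fintype.card_fin]; exact hρ)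
  have h1 : ∀ w ∈ latt r, ℓ w = 0 := by
    intro w hw
    refine hℓ w ?_
    refine (AddSubgroup.closure_mono ?_) hw
    rintro _ ⟨s, rfl⟩
    exact ⟨some s, rfl⟩
  have h2 : ℓ (ev v) = 0 := hℓ _ (AddSubgroup.subset_closure ⟨none, rfl⟩)
  exact ⟨QuotientAddGroup.lift (latt r) ℓ h1, h2, i, hi⟩

theorem TG3b {𝒢 : Type*} [AddCommGroup 𝒢] (g : 𝒢) (hg : ∀ n : ℕ, 0 < n → n • g ≠ 0)
    (F : Set 𝒢) (hF : F.Finite) (h0 : ∀ h ∈ F, h ≠ 0) :
    ∃ M : ℕ, 1 ≤ M ∧ ∀ h ∈ F, ∀ n : ℤ, h ≠ n • (M • g) := by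
  classical
  have hz : ∀ n : ℤ, n • g = 0 → n = 0 := by
    intro n hn
    by_contra hne
    have h1 : n.natAbs • g = 0 := by
      rcases Int.natAbs_eq n with h | h
      · rw [h, natCast_zsmul] at hn
        exact hn
      · rw [h, neg_smul, neg_eq_zero, natCast_zsmul] at hn
        exact hn
    exact hg _ (Int.natAbs_pos.2 hne) h1
  let c : 𝒢 → ℤ := fun h => if hh : ∃ n : ℤ, h = n • g then hh.choose else 0
  refine ⟨1 + ∑ h ∈ hF.toFinset, (c h).natAbs, Nat.le_add_right _ _, ?_⟩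
  intro h hh n hn
  have h1 : (c h).natAbs ≤ ∑ h ∈ hF.toFinset, (c h).natAbs :=
    Finset.single_le_sum (f := fun h => (c h).natAbs) (fun _ _ => Nat.zero_le _) (hF.mem_toFinset.2 hh)
  rw [← natCast_zsmul, smul_smul] at hn
  have hex : ∃ n : ℤ, h = n • g := ⟨_, hn⟩
  have h2 : c h = hex.choose := dif_pos hex
  have h3 : h = c h • g := by
    rw [h2]
    exact hex.choose_spec
  have h4 : (n * ((1 + ∑ h ∈ hF.toFinset, (c h).natAbs : ℕ) : ℤ) - c h) • g = 0 := by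
    rw [sub_smul, ← hn, ← h3, sub_self]
  have h5 := hz _ h4
  have h6 : c h ≠ 0 := by
    intro h7
    rw [h7, zero_smul] at h3
    exact h0 h hh h3
  have h7 : (c h).natAbs = n.natAbs * (1 + ∑ h ∈ hF.toFinset, (c h).natAbs) := by
    rw [show c h = n * ((1 + ∑ h ∈ hF.toFinset, (c h).natAbs : ℕ) : ℤ) by omega, Int.natAbs_mul,
      Int.natAbs_natCast]
  have h8 : n.natAbs ≠ 0 := by
    intro h9
    rw [h9, zero_mul] at h7
    exact h6 (Int.natAbs_eq_zero.1 h7)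
  have h9 : 1 * (1 + ∑ h ∈ hF.toFinset, (c h).natAbs) ≤ n.natAbs * (1 + ∑ h ∈ hF.toFinset, (c h).natAbs) :=
    Nat.mul_le_mul_right _ (Nat.one_le_iff_ne_zero.2 h8)
  omega

end H58D
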