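import Pool.Agent.Lib.H58D.Defs

/-! Chunk TL (size M).  A local domain in which the coordinates are units.

Proof.  `R = MvPolynomial ι ℂ`, `R' = R ⧸ P` (a domain), `𝔪 = (mx x).map (mk P)` = kernel of the induced evaluation `R' → ℂ` (well defined because `P ≤ mx x`), a maximal (prime) ideal.
`B = Localization.AtPrime 𝔪` (a domain, `R' → B` is injective), `y i` = image of `X i`, a unit because its class is not in `𝔪` (`x i ≠ 0`).  The evaluation `R' → ℂ` maps the complement of `𝔪` to nonzero numbers, so it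
extends to `lam : B → ℂ` (`IsLocalization.lift`), a `ℂ`-algebra homomorphism with `lam (y i) = x i`.  `aeval y f` is the image of `f` under `R → R' → B`, so it is `0` iff `f ∈ P`. -/

namespace H58D

theorem TL {ι : Type} [Fintype ι] [DecidableEq ι] (x : ι → ℂ) (hx : ∀ i, x i ≠ 0)
    (P : Ideal (MvPolynomial ι ℂ)) (hP : P.IsPrime) (hPx : P ≤ mx x) :
    ∃ (B : Type) (_ : CommRing B) (_ : IsDomain B) (_ : Algebra ℂ B) (y : ι → Bˣ)
      (lam : B →ₐ[ℂ] ℂ), (∀ i, lam (y i : B) = x i) ∧
        ∀ f : MvPolynomial ι ℂ, MvPolynomial.aeval (fun i => ((y i : Bˣ) : B)) f = 0 ↔ f ∈ P := by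
  classical
  have hPp : P.IsPrime := hP
  have hdom : IsDomain (MvPolynomial ι ℂ ⧸ P) := Ideal.Quotient.isDomain P
  have h0 : ∀ f : MvPolynomial ι ℂ, f ∈ P → (MvPolynomial.aeval x : MvPolynomial ι ℂ →ₐ[ℂ] ℂ) f = 0 := by
    intro f hf
    have h1 : MvPolynomial.eval x f = 0 := hPx hf
    rw [MvPolynomial.aeval_eq_eval]
    exact h1
  let ev : (MvPolynomial ι ℂ ⧸ P) →ₐ[ℂ] ℂ :=
    Ideal.Quotient.liftₐ P (MvPolynomial.aeval x : MvPolynomial ι ℂ →ₐ[ℂ] ℂ) h0
  have hev : ∀ f : MvPolynomial ι ℂ, ev (Ideal.Quotient.mk P f)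
      = (MvPolynomial.aeval x : MvPolynomial ι ℂ →ₐ[ℂ] ℂ) f := by
    intro f
    exact Ideal.Quotient.liftₐ_apply P _ h0 _
  let M : Submonoid (MvPolynomial ι ℂ ⧸ P) := (nonZeroDivisors ℂ).comap (ev : _ →* ℂ)
  have hMne : ∀ r ∈ M, ev r ≠ 0 := by
    intro r hr
    exact nonZeroDivisors.ne_zero hr
  have hM : M ≤ nonZeroDivisors (MvPolynomial ι ℂ ⧸ P) := by
    intro r hr
    refine mem_nonZeroDivisors_of_ne_zero ?_
    intro h
    apply hMne r hr
    rw [h, map_zero]
  have hB : IsDomain (Localization M) := IsLocalization.isDomain_localization hM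
  let lam : Localization M →ₐ[ℂ] ℂ := IsLocalization.liftAlgHom (M := M) (S := Localization M)
    (f := ev) (fun r => IsUnit.mk0 _ (hMne r r.2))
  have hlam : ∀ r : MvPolynomial ι ℂ ⧸ P, lam (algebraMap _ (Localization M) r) = ev r := by
    intro r
    exact IsLocalization.lift_eq (fun r => IsUnit.mk0 _ (hMne r r.2)) r
  have hXM : ∀ i, (Ideal.Quotient.mk P (MvPolynomial.X i)) ∈ M := by
    intro i
    refine mem_nonZeroDivisors_of_ne_zero ?_
    change ev (Ideal.Quotient.mk P (MvPolynomial.X i)) ≠ 0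
    rw [hev, MvPolynomial.aeval_X]
    exact hx i
  let y : ι → (Localization M)ˣ := fun i =>
    (IsLocalization.map_units (Localization M) (⟨_, hXM i⟩ : M)).unit
  have hy : ∀ i, ((y i : (Localization M)ˣ) : Localization M)
      = algebraMap _ (Localization M) (Ideal.Quotient.mk P (MvPolynomial.X i)) := fun i => rfl
  refine ⟨Localization M, inferInstance, hB, inferInstance, y, lam, ?_, ?_⟩
  · intro i
    rw [hy, hlam, hev, MvPolynomial.aeval_X]
  · intro f
    have hhom : (MvPolynomial.aeval (fun i => ((y i : (Localization M)ˣ) : Localization M)) :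
        MvPolynomial ι ℂ →ₐ[ℂ] Localization M) =
        (IsScalarTower.toAlgHom ℂ (MvPolynomial ι ℂ ⧸ P) (Localization M)).comp
          (Ideal.Quotient.mkₐ ℂ P) := by
      apply MvPolynomial.algHom_ext
      intro i
      rw [MvPolynomial.aeval_X, hy]
      rfl
    have hval : MvPolynomial.aeval (fun i => ((y i : (Localization M)ˣ) : Localization M)) f
        = algebraMap _ (Localization M) (Ideal.Quotient.mk P f) := by
      rw [hhom]
      rfl
    rw [hval]
    constructor
    · intro h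
      have h1 : algebraMap (MvPolynomial ι ℂ ⧸ P) (Localization M) (Ideal.Quotient.mk P f)
          = algebraMap (MvPolynomial ι ℂ ⧸ P) (Localization M) (0 : MvPolynomial ι ℂ ⧸ P) := by
        rw [h, map_zero]
      have h2 := IsLocalization.injective (Localization M) hM h1
      exact Ideal.Quotient.eq_zero_iff_mem.1 h2
    · intro h
      rw [Ideal.Quotient.eq_zero_iff_mem.2 h, map_zero]

end H58D
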