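import Pool.Agent.Lib.H58D.TT
import Pool.Agent.Lib.H58D.TG1
import Pool.Agent.Lib.H58D.TG2
import Pool.Agent.Lib.H58D.TG3
import Pool.Agent.Lib.H58D.TL

/-! Chunk T9 (size M/L).  The exact bound for `card ι = ρ + 2`.

Proof.  `Λ = latt (..)`, `𝒢 = (ι → ℤ) ⧸ Λ`.  `B, y, lam` from `TL`.  From `hb`: `mon y (p s) = mon y (m s)` in `B`, so `u ↦ ∏ (y i)^(u i) ∈ Bˣ` kills `Λ` and gives `φ : 𝒢 → B` with
`φ 0 = 1`, `φ (u+v) = φ u φ v`, `φ (mk (ev i)) = y i`, `lam (φ (mk u)) = ∏ x_i^(u_i)`.  `φ(T₁) := y i1 + y j1 - y k1 = 0`, `φ(T₂) := y t2.1 + y t2.2.1 - y t2.2.2 ≠ 0`, `lam φ(T₂) = 0`.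
If `ev v` is torsion: `(x v)^N = 1`, so `log ‖x v‖ = 0`, done.  Otherwise:
`ψ'` from `TG3a` (`r s = dvec (p s) (m s)`), `a' = ![ev i1, ev j1, ev k1]`, `b' = ![ev t2.1, ev t2.2.1, ev t2.2.2]`, `κa = κb = ![1, 1, -1]`.
In `𝒢`: `mk (b' 0) ≠ mk (b' 2)` and `mk (b' 1) ≠ mk (b' 2)`: otherwise `x t2.1 = x t2.2.2` and `x t2.2.1 = 0`.  Doubling case: `mk (b' 0) = mk (b' 1)`.
`ψ = ψ'` or `-ψ'` such that in the doubling case `ψ (b' 0) ≤ ψ (b' 2)`.  `l1` = `0` in the doubling case, otherwise an index with `ψ (b' l1)` minimal.  `TG1` (for this `ψ`): `l0`, `ℓ`.  `la` = an index with `ψ (a' la)` minimal.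
`M` from `TG3b` for `g = mk (ev v)` and `F` = the nonzero ones among the differences `mk (a' l) - mk (a' l')` (nonzero for `l ≠ l'` because not torsion) and `mk (b' l) - mk (b' l')`.  `z = mk (M • ev v) = M • g`.
`a l = mk (a' l) - mk (a' la)`, `b l = mk (b' l) - mk (b' l1)`.  `w1 = (ψ (a l0)).toNat`, `w2 = max_l (ψ (b l)).toNat`, `k1 = if w1 = 0 then max w2 1 else w2`.
(`ℓ` of `TG1` satisfies the inequality for `a` too: divide by `exp (ℓ (mk (a' la)))`.)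
`TG2`: `(CC z ψ w1)` and `(CC z ψ k1)` are finite with `Nat.card ≤ M ∏ D`: for `w1 > 0` use `w = a' l0 - a' la` (`dvec` of two unit exponent vectors); for `k1 = w2 > 0` use `w = b' l - b' l1` with `ψ (b l) = w2`;
for `k = 0` the set is empty; for `k1 = 1`, `w2 = 0` use `w = ev i = dvec (Pi.single i 1) 0` with `ψ (mk (ev i)) ≠ 0`.
`TT` (with `φ`, `lam`; `Σ κa φ (a l) = φ (-mk (a' la)) (y i1 + y j1 - y k1) = 0` etc.) gives, as `lam (φ z) = (x v)^M`: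
`‖x v‖^(2M) ≤ 3^(M ∏ D) (3+√5)^(M ∏ D) = (9+3√5)^(M ∏ D) ≤ 16^(M ∏ D)`.  Take logarithms: `2 M log ‖x v‖ ≤ 4 M (∏ D) log 2`. -/
namespace H58D

private theorem T9_phi {ι κ : Type*} [Fintype ι] [DecidableEq ι] {B : Type*} [CommRing B]
    (y : ι → Bˣ) (r : κ → ι → ℤ) (hr : ∀ s, ∏ i, (y i) ^ (r s i) = 1) :
    ∃ φ : ((ι → ℤ) ⧸ latt r) → B, φ 0 = 1 ∧ (∀ u v, φ (u + v) = φ u * φ v) ∧
      ∀ i, φ (QuotientAddGroup.mk (ev i)) = (y i : B) := by
  let Φ : (ι → ℤ) →+ Additive Bˣ :=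
    { toFun := fun u => Additive.ofMul (∏ i, (y i) ^ (u i))
      map_zero' := by simp
      map_add' := by
        intro u w
        rw [← ofMul_mul, ← Finset.prod_mul_distrib]
        congr 1
        refine Finset.prod_congr rfl (fun i _ => ?_)
        rw [Pi.add_apply, zpow_add] }
  have hΦ : ∀ u, Φ u = Additive.ofMul (∏ i, (y i) ^ (u i)) := fun _ => rfl
  have hker : latt r ≤ Φ.ker := by
    unfold latt
    rw [AddSubgroup.closure_le]
    rintro _ ⟨s, rfl⟩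
    show Φ (r s) = 0
    rw [hΦ, hr s]
    rfl
  let Ψ : ((ι → ℤ) ⧸ latt r) →+ Additive Bˣ := QuotientAddGroup.lift (latt r) Φ hker
  refine ⟨fun g => ((Additive.toMul (Ψ g) : Bˣ) : B), ?_, ?_, ?_⟩
  · show ((Additive.toMul (Ψ 0) : Bˣ) : B) = 1
    rw [map_zero]
    rfl
  · intro u w
    show ((Additive.toMul (Ψ (u + w)) : Bˣ) : B) = _
    rw [map_add]
    rfl
  · intro j
    show ((Additive.toMul (Ψ (QuotientAddGroup.mk (ev j))) : Bˣ) : B) = _
    have h1 : Ψ (QuotientAddGroup.mk (ev j)) = Φ (ev j) := rfl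
    rw [h1, hΦ, toMul_ofMul]
    congr 1
    rw [Finset.prod_eq_single j]
    · rw [ev, Pi.single_eq_same, zpow_one]
    · intro i _ hij
      rw [ev, Pi.single_eq_of_ne hij, zpow_zero]
    · intro hn
      exact absurd (Finset.mem_univ j) hn

private theorem T9_pow {𝒢 : Type*} [AddCommGroup 𝒢] {B : Type*} [CommRing B] (φ : 𝒢 → B)
    (hφ0 : φ 0 = 1) (hφ : ∀ u v, φ (u + v) = φ u * φ v) (g : 𝒢) (n : ℕ) :
    φ (n • g) = φ g ^ n := by
  induction n with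
  | zero => rw [zero_smul, hφ0, pow_zero]
  | succ n ih => rw [succ_nsmul, hφ, ih, pow_succ]

private theorem T9_CC0 {𝒢 : Type*} [AddCommGroup 𝒢] (z : 𝒢) (ψ : 𝒢 →+ ℤ) :
    CC z ψ 0 = ∅ := by
  rw [Set.eq_empty_iff_forall_notMem]
  rintro q ⟨u, _, h0, h1⟩
  simp at h1
  omega

private theorem T9_dom {𝒢 : Type*} [AddCommGroup 𝒢] (α : Fin 3 → 𝒢) (la l0 : Fin 3) (ℓ : 𝒢 →+ ℝ)
    (h : ∑ l ∈ Finset.univ.erase l0, Real.exp (ℓ (α l)) < Real.exp (ℓ (α l0))) :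
    ∑ l ∈ Finset.univ.erase l0, Real.exp (ℓ (α l - α la)) < Real.exp (ℓ (α l0 - α la)) := by
  have h1 : ∀ l, Real.exp (ℓ (α l - α la)) = Real.exp (ℓ (α l)) / Real.exp (ℓ (α la)) := by
    intro l
    rw [map_sub, Real.exp_sub]
  simp only [h1]
  rw [← Finset.sum_div]
  exact div_lt_div_of_pos_right h (Real.exp_pos _)

private theorem T9_sum {𝒢 : Type*} [AddCommGroup 𝒢] {B : Type*} [CommRing B] (φ : 𝒢 → B)
    (hφ : ∀ u v, φ (u + v) = φ u * φ v) (β : Fin 3 → 𝒢) (w : 𝒢) :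
    ∑ l, (((![1, 1, -1] : Fin 3 → ℤ) l : ℤ) : B) * φ (β l - w) =
      (φ (β 0) + φ (β 1) - φ (β 2)) * φ (-w) := by
  rw [Fin.sum_univ_three]
  simp only [sub_eq_add_neg, hφ]
  simp
  ring

private theorem T9_final (X : ℝ) (a b c : ℕ) (ha : a ≤ c) (hb : b ≤ c)
    (h : X ≤ 3 ^ a * (3 + Real.sqrt 5) ^ b) : X ≤ 16 ^ c := by
  have h5 : Real.sqrt 5 ≤ 7 / 3 := by
    rw [Real.sqrt_le_left (by norm_num)]
    norm_num
  have h50 : 0 ≤ Real.sqrt 5 := Real.sqrt_nonneg 5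
  calc X ≤ 3 ^ a * (3 + Real.sqrt 5) ^ b := h
    _ ≤ 3 ^ c * (3 + Real.sqrt 5) ^ c := by
        refine mul_le_mul ?_ ?_ (by positivity) (by positivity)
        · exact pow_le_pow_right₀ (by norm_num) ha
        · exact pow_le_pow_right₀ (by linarith) hb
    _ = (3 * (3 + Real.sqrt 5)) ^ c := by rw [mul_pow]
    _ ≤ 16 ^ c := by
        refine pow_le_pow_left₀ (by positivity) ?_ c
        linarith

private theorem T9_abs {𝒢 : Type*} [AddCommGroup 𝒢] (g : 𝒢) (hg : ∀ n : ℕ, 0 < n → n • g ≠ 0)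
    (ψ' : 𝒢 →+ ℤ) (hψ' : ψ' g = 0) (α β : Fin 3 → 𝒢) (W : Set 𝒢)
    (hWα : ∀ l l', α l - α l' ∈ W) (hWβ : ∀ l l', β l - β l' ∈ W) (hW : ∃ w ∈ W, ψ' w ≠ 0)
    (hα : ∀ l l', l ≠ l' → α l ≠ α l') (hβ0 : β 0 ≠ β 2) (hβ1 : β 1 ≠ β 2)
    (hdom : ∀ ψ : 𝒢 →+ ℤ, ∃ (l0 : Fin 3) (ℓ : 𝒢 →+ ℝ), (∀ l, ψ (α l) ≤ ψ (α l0)) ∧
      ∑ l ∈ Finset.univ.erase l0, Real.exp (ℓ (α l)) < Real.exp (ℓ (α l0)))
    (Dp : ℕ)
    (hcard : ∀ M : ℕ, 1 ≤ M → ∀ ψ : 𝒢 →+ ℤ, ψ g = 0 → ∀ w ∈ W, ψ w ≠ 0 → ∀ k : ℕ,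
      (k : ℤ) ≤ |ψ w| → (CC (M • g) ψ k).Finite ∧ Nat.card (CC (M • g) ψ k) ≤ M * Dp)
    {B : Type*} [CommRing B] [IsDomain B] (φ : 𝒢 → B) (hφ0 : φ 0 = 1)
    (hφ : ∀ u v, φ (u + v) = φ u * φ v) (lam : B →+* ℂ)
    (hTa : φ (α 0) + φ (α 1) - φ (α 2) = 0) (hTb : φ (β 0) + φ (β 1) - φ (β 2) ≠ 0)
    (hTb0 : lam (φ (β 0) + φ (β 1) - φ (β 2)) = 0) :
    ∃ M : ℕ, 1 ≤ M ∧ ‖lam (φ g)‖ ^ (2 * M) ≤ 16 ^ (M * Dp) := by
  -- the sign of `ψ`
  obtain ⟨ψ, hψ, hWψ, hβψ⟩ : ∃ ψ : 𝒢 →+ ℤ, ψ g = 0 ∧ (∃ w ∈ W, ψ w ≠ 0) ∧ ψ (β 0) ≤ ψ (β 2) := by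
    by_cases h : ψ' (β 0) ≤ ψ' (β 2)
    · exact ⟨ψ', hψ', hW, h⟩
    · refine ⟨-ψ', ?_, ?_, ?_⟩
      · rw [AddMonoidHom.neg_apply, hψ', neg_zero]
      · obtain ⟨w, hw, hw0⟩ := hW
        refine ⟨w, hw, ?_⟩
        rw [AddMonoidHom.neg_apply]
        exact neg_ne_zero.mpr hw0
      · rw [AddMonoidHom.neg_apply, AddMonoidHom.neg_apply]
        linarith
  obtain ⟨l0, ℓ, hl0, hℓ⟩ := hdom ψ
  obtain ⟨la, hla⟩ := Finite.exists_min (fun l => ψ (α l))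
  obtain ⟨l1, hl1, hdbl⟩ : ∃ l1 : Fin 3, (∀ l, ψ (β l1) ≤ ψ (β l)) ∧ (β 0 = β 1 → l1 = 0) := by
    by_cases h : β 0 = β 1
    · refine ⟨0, ?_, fun _ => rfl⟩
      intro l
      fin_cases l
      · exact le_rfl
      · show ψ (β 0) ≤ ψ (β 1)
        rw [h]
      · exact hβψ
    · obtain ⟨l1, hl1⟩ := Finite.exists_min (fun l => ψ (β l))
      exact ⟨l1, hl1, fun h' => absurd h' h⟩
  obtain ⟨l2, hl2⟩ := Finite.exists_max (fun l => ψ (β l))
  -- the choice of `M`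
  have hFfin : ({h | h ≠ 0 ∧ ((∃ l l', h = α l - α l') ∨ (∃ l l', h = β l - β l'))} :
      Set 𝒢).Finite := by
    refine Set.Finite.subset ((Set.finite_range (fun q : Fin 3 × Fin 3 => α q.1 - α q.2)).union
      (Set.finite_range (fun q : Fin 3 × Fin 3 => β q.1 - β q.2))) ?_
    rintro h ⟨_, ⟨l, l', hh⟩ | ⟨l, l', hh⟩⟩
    · exact Or.inl ⟨(l, l'), hh.symm⟩
    · exact Or.inr ⟨(l, l'), hh.symm⟩
  obtain ⟨M, hM, hMF⟩ := TG3b g hg _ hFfin (fun h hh => hh.1)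
  have hψz : ψ (M • g) = 0 := by rw [map_nsmul, hψ, smul_zero]
  have hnna : ∀ l, 0 ≤ ψ (α l - α la) := by
    intro l
    rw [map_sub]
    have := hla l
    linarith
  have hnnb : ∀ l, 0 ≤ ψ (β l - β l1) := by
    intro l
    rw [map_sub]
    have := hl1 l
    linarith
  obtain ⟨w1, hw1⟩ : ∃ w1 : ℕ, ψ (α l0 - α la) = w1 := ⟨_, (Int.toNat_of_nonneg (hnna l0)).symm⟩
  obtain ⟨w2, hw2⟩ : ∃ w2 : ℕ, ψ (β l2 - β l1) = w2 := ⟨_, (Int.toNat_of_nonneg (hnnb l2)).symm⟩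
  -- the number of classes
  have hc1 : (CC (M • g) ψ w1).Finite ∧ Nat.card (CC (M • g) ψ w1) ≤ M * Dp := by
    by_cases h0 : w1 = 0
    · rw [h0, T9_CC0]
      exact ⟨Set.finite_empty, by simp⟩
    · refine hcard M hM ψ hψ _ (hWα l0 la) ?_ w1 ?_
      · rw [hw1]; exact_mod_cast h0
      · rw [hw1]; simp
  obtain ⟨k1, hk1, hk1w, hc2⟩ : ∃ k1 : ℕ, 0 < k1 + w1 ∧ w2 ≤ k1 ∧
      (CC (M • g) ψ k1).Finite ∧ Nat.card (CC (M • g) ψ k1) ≤ M * Dp := by
    by_cases h2 : w2 = 0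
    · by_cases h1 : w1 = 0
      · refine ⟨1, by omega, by omega, ?_⟩
        obtain ⟨w, hw, hw0⟩ := hWψ
        refine hcard M hM ψ hψ w hw hw0 1 ?_
        exact_mod_cast Int.one_le_abs hw0
      · refine ⟨0, by omega, by omega, ?_⟩
        rw [T9_CC0]
        exact ⟨Set.finite_empty, by simp⟩
    · refine ⟨w2, by omega, le_rfl, ?_⟩
      refine hcard M hM ψ hψ _ (hWβ l2 l1) ?_ w2 ?_
      · rw [hw2]; exact_mod_cast h2
      · rw [hw2]; simp
  refine ⟨M, hM, ?_⟩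
  have hκ : ∀ l, (![1, 1, -1] : Fin 3 → ℤ) l = 1 ∨ (![1, 1, -1] : Fin 3 → ℤ) l = -1 := by
    decide
  have hTT := TT (M • g) ψ hψz (fun l => α l - α la) (fun l => β l - β l1) ![1, 1, -1] ![1, 1, -1]
    hκ hκ l0 l1 k1 w1 hk1 hc2.1 hc1.1
    (fun l => ⟨hnna l, by
      rw [← hw1, map_sub, map_sub]
      have := hl0 l
      linarith⟩) hw1
    (fun l => ⟨hnnb l, by
      have h3 : ψ (β l - β l1) ≤ w2 := by
        rw [← hw2, map_sub, map_sub]
        have := hl2 l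
        linarith
      have h4 : (w2 : ℤ) ≤ k1 := by exact_mod_cast hk1w
      linarith⟩)
    (by show ψ (β l1 - β l1) = 0; rw [sub_self, map_zero])
    (by
      intro l l' hne n
      have h3 : (α l - α la) - (α l' - α la) = α l - α l' := by abel
      show (α l - α la) - (α l' - α la) ≠ n • (M • g)
      rw [h3]
      exact hMF _ ⟨sub_ne_zero.mpr (hα l l' hne), Or.inl ⟨l, l', rfl⟩⟩ n)
    (by
      have h3 : ∀ l l' : Fin 3, (β l - β l1) - (β l' - β l1) = β l - β l' := by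
        intro l l'; abel
      by_cases hd : β 0 = β 1
      · right
        have hl10 : l1 = 0 := hdbl hd
        subst hl10
        refine ⟨1, by decide, ?_, rfl, ?_⟩
        · show β 1 - β 0 = β 0 - β 0
          rw [hd]
        · intro l3 h30 h31 n
          have h32 : l3 = 2 := by
            fin_cases l3
            · exact absurd rfl h30
            · exact absurd rfl h31
            · rfl
          subst h32
          show (β 2 - β 0) - (β 0 - β 0) ≠ n • (M • g)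
          rw [h3]
          exact hMF _ ⟨sub_ne_zero.mpr hβ0.symm, Or.inr ⟨2, 0, rfl⟩⟩ n
      · left
        intro l l' hne n
        show (β l - β l1) - (β l' - β l1) ≠ n • (M • g)
        rw [h3]
        refine hMF _ ⟨sub_ne_zero.mpr ?_, Or.inr ⟨l, l', rfl⟩⟩ n
        fin_cases l <;> fin_cases l'
        · exact absurd rfl hne
        · exact hd
        · exact hβ0
        · exact fun h => hd h.symm
        · exact absurd rfl hne
        · exact hβ1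
        · exact hβ0.symm
        · exact hβ1.symm
        · exact absurd rfl hne)
    ℓ (T9_dom α la l0 ℓ hℓ) φ hφ0 hφ lam
    (by rw [T9_sum φ hφ α (α la), hTa, zero_mul])
    (by
      rw [T9_sum φ hφ β (β l1)]
      refine mul_ne_zero hTb ?_
      intro h0
      have h1 : φ (β l1 + -β l1) = φ (β l1) * φ (-β l1) := hφ _ _
      rw [h0, mul_zero, add_neg_cancel, hφ0] at h1
      exact one_ne_zero h1)
    (by rw [T9_sum φ hφ β (β l1), map_mul, hTb0, zero_mul])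
  have hpow : ‖lam (φ (M • g))‖ ^ 2 = ‖lam (φ g)‖ ^ (2 * M) := by
    rw [T9_pow φ hφ0 hφ g M, map_pow, norm_pow, ← pow_mul, mul_comm]
  rw [hpow] at hTT
  exact T9_final _ _ _ _ hc2.2 hc1.2 hTT

theorem T9 {ι : Type} [Fintype ι] [DecidableEq ι] (x : ι → ℂ) (hx : ∀ i, x i ≠ 0) (ρ : ℕ)
    (hρ : ρ + 2 = Fintype.card ι) (p m : Fin ρ → ι → ℕ) (D : Fin ρ → ℕ) (hD : ∀ s, 1 ≤ D s)
    (hp : ∀ s, deg (p s) ≤ D s) (hm : ∀ s, deg (m s) ≤ D s)
    (hind : LinearIndependent ℤ (fun s => dvec (p s) (m s)))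
    (P : Ideal (MvPolynomial ι ℂ)) (hP : P.IsPrime) (hPx : P ≤ mx x)
    (hb : ∀ s, bin (p s) (m s) ∈ P) (i1 j1 k1 : ι) (hT1 : tri (i1, j1, k1) ∈ P)
    (hN1 : ¬ Tors (latt (fun s => dvec (p s) (m s))) (ev i1 - ev j1))
    (hN2 : ¬ Tors (latt (fun s => dvec (p s) (m s))) (ev i1 - ev k1))
    (hN3 : ¬ Tors (latt (fun s => dvec (p s) (m s))) (ev j1 - ev k1))
    (t2 : ι × ι × ι) (hT2 : tri t2 ∉ P) (hT2x : x t2.1 + x t2.2.1 = x t2.2.2) (v : ι) :
    Real.log ‖x v‖ ≤ 2 * (∏ s, (D s : ℝ)) * Real.log 2 := by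
  obtain ⟨B, iB1, iB2, iB3, y, lam, hlam, hker⟩ := TL x hx P hP hPx
  have hmon : ∀ u : ι → ℕ, MvPolynomial.aeval (fun i => ((y i : Bˣ) : B))
      (mon MvPolynomial.X u : MvPolynomial ι ℂ) = ((∏ i, y i ^ u i : Bˣ) : B) := by
    intro u
    unfold mon
    rw [map_prod, Units.coe_prod]
    refine Finset.prod_congr rfl (fun i _ => ?_)
    rw [map_pow, MvPolynomial.aeval_X, Units.val_pow_eq_pow_val]
  have hr : ∀ s, ∏ i, (y i) ^ (dvec (p s) (m s) i) = 1 := by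
    intro s
    have h1 := (hker _).mpr (hb s)
    rw [bin, map_sub, hmon, hmon, sub_eq_zero] at h1
    have h2 : (∏ i, y i ^ p s i : Bˣ) = ∏ i, y i ^ m s i := Units.ext h1
    have h3 : ∏ i, (y i) ^ (dvec (p s) (m s) i) = (∏ i, y i ^ p s i) * (∏ i, y i ^ m s i)⁻¹ := by
      rw [← Finset.prod_inv_distrib, ← Finset.prod_mul_distrib]
      refine Finset.prod_congr rfl (fun i _ => ?_)
      rw [dvec, zpow_sub, zpow_natCast, zpow_natCast]
    rw [h3, h2, mul_inv_cancel]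
  obtain ⟨φ, hφ0, hφ, hφy⟩ := T9_phi y (fun s => dvec (p s) (m s)) hr
  have hlv : ‖lam (φ (QuotientAddGroup.mk (ev v)))‖ = ‖x v‖ := by rw [hφy, hlam]
  have hD0 : 0 ≤ (∏ s, (D s : ℝ)) := Finset.prod_nonneg (fun s _ => by positivity)
  have hl2 : 0 < Real.log 2 := Real.log_pos (by norm_num)
  by_cases hv : Tors (latt (fun s => dvec (p s) (m s))) (ev v)
  · obtain ⟨N, hN, hNv⟩ := hv
    have h1 : N • (QuotientAddGroup.mk (ev v) :
        (ι → ℤ) ⧸ latt (fun s => dvec (p s) (m s))) = 0 := by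
      rw [← QuotientAddGroup.mk_nsmul, QuotientAddGroup.eq_zero_iff]
      exact hNv
    have h2 := T9_pow φ hφ0 hφ (QuotientAddGroup.mk (ev v)) N
    rw [h1, hφ0] at h2
    have h3 : ‖x v‖ ^ N = 1 := by
      rw [← hlv, ← norm_pow, ← map_pow, ← h2, map_one, norm_one]
    have h4 : ‖x v‖ = 1 := (pow_eq_one_iff_of_nonneg (norm_nonneg _) hN.ne').mp h3
    rw [h4, Real.log_one]
    positivity
  · obtain ⟨ψ', hψ', hψi⟩ := TG3a ρ (by omega) (fun s => dvec (p s) (m s)) v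
    have hNN : ∀ l l' : Fin 3, l ≠ l' → ¬ Tors (latt (fun s => dvec (p s) (m s)))
        (ev ((![i1, j1, k1] : Fin 3 → ι) l) - ev ((![i1, j1, k1] : Fin 3 → ι) l')) := by
      have hsymm : ∀ u w : ι → ℤ, ¬ Tors (latt (fun s => dvec (p s) (m s))) (u - w) →
          ¬ Tors (latt (fun s => dvec (p s) (m s))) (w - u) := by
        rintro u w h ⟨n, hn, hn'⟩
        refine h ⟨n, hn, ?_⟩
        have h3 := (latt (fun s => dvec (p s) (m s))).neg_mem hn'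
        rwa [← smul_neg, neg_sub] at h3
      intro l l' hne
      fin_cases l <;> fin_cases l'
      · exact absurd rfl hne
      · exact hN1
      · exact hN2
      · exact hsymm _ _ hN1
      · exact absurd rfl hne
      · exact hN3
      · exact hsymm _ _ hN2
      · exact hsymm _ _ hN3
      · exact absurd rfl hne
    have hg : ∀ n : ℕ, 0 < n → n • (QuotientAddGroup.mk (ev v) :
        (ι → ℤ) ⧸ latt (fun s => dvec (p s) (m s))) ≠ 0 := by
      intro n hn h0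
      rw [← QuotientAddGroup.mk_nsmul, QuotientAddGroup.eq_zero_iff] at h0
      exact hv ⟨n, hn, h0⟩
    have hdeg : ∀ i : ι, deg (Pi.single i 1 : ι → ℕ) ≤ 1 := by
      intro i
      unfold deg
      rw [Finset.sum_pi_single']
      simp
    have hdv : ∀ i j : ι, dvec (Pi.single i 1) (Pi.single j 1) = ev i - ev j := by
      intro i j
      funext k
      simp only [dvec, ev, Pi.sub_apply, Pi.single_apply]
      push_cast
      rfl
    have hdv0 : ∀ i : ι, dvec (Pi.single i 1) 0 = ev i := by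
      intro i
      funext k
      simp only [dvec, ev, Pi.single_apply, Pi.zero_apply]
      push_cast
      simp
    have hinj : ∀ i j : ι, (QuotientAddGroup.mk (ev i) :
        (ι → ℤ) ⧸ latt (fun s => dvec (p s) (m s))) = QuotientAddGroup.mk (ev j) → x i = x j := by
      intro i j hij
      rw [← hlam i, ← hlam j, ← hφy i, ← hφy j, hij]
    have hTaP := (hker _).mpr hT1
    have hTbP : MvPolynomial.aeval (fun i => ((y i : Bˣ) : B)) (tri t2) ≠ 0 :=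
      fun h => hT2 ((hker _).mp h)
    simp only [tri, map_sub, map_add, MvPolynomial.aeval_X] at hTaP hTbP
    obtain ⟨M, hM, hfin⟩ := T9_abs (QuotientAddGroup.mk (ev v) :
        (ι → ℤ) ⧸ latt (fun s => dvec (p s) (m s))) hg ψ' hψ'
      (fun l => QuotientAddGroup.mk (ev ((![i1, j1, k1] : Fin 3 → ι) l)))
      (fun l => QuotientAddGroup.mk (ev ((![t2.1, t2.2.1, t2.2.2] : Fin 3 → ι) l)))
      {w | ∃ pw mw : ι → ℕ, deg pw ≤ 1 ∧ deg mw ≤ 1 ∧ w = QuotientAddGroup.mk (dvec pw mw)}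
      (fun l l' => ⟨Pi.single _ 1, Pi.single _ 1, hdeg _, hdeg _, by
        rw [hdv]; exact (QuotientAddGroup.mk_sub _ _ _).symm⟩)
      (fun l l' => ⟨Pi.single _ 1, Pi.single _ 1, hdeg _, hdeg _, by
        rw [hdv]; exact (QuotientAddGroup.mk_sub _ _ _).symm⟩)
      (by
        obtain ⟨i, hi⟩ := hψi
        exact ⟨_, ⟨Pi.single i 1, 0, hdeg i, by simp [deg], by rw [hdv0]⟩, hi⟩)
      (by
        intro l l' hne h
        have h2 := (QuotientAddGroup.eq_iff_sub_mem).mp h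
        exact hNN l l' hne ⟨1, one_pos, by rw [one_smul]; exact h2⟩)
      (by
        intro h
        have h2 : x t2.1 = x t2.2.2 := hinj _ _ h
        rw [h2] at hT2x
        exact hx t2.2.1 (by linear_combination hT2x))
      (by
        intro h
        have h2 : x t2.2.1 = x t2.2.2 := hinj _ _ h
        rw [h2] at hT2x
        exact hx t2.1 (by linear_combination hT2x))
      (fun ψ => TG1 (fun s => dvec (p s) (m s)) (fun l => ev ((![i1, j1, k1] : Fin 3 → ι) l))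
        hNN ψ)
      (∏ s, D s)
      (by
        rintro M hM ψ hψ w ⟨pw, mw, hpw, hmw, rfl⟩ hw k hk
        exact TG2 ρ hρ p m D hp hm hind v hv M hM ψ hψ pw mw hpw hmw hw k hk)
      φ hφ0 hφ (lam : B →+* ℂ)
      (by
        show φ (QuotientAddGroup.mk (ev i1)) + φ (QuotientAddGroup.mk (ev j1)) -
          φ (QuotientAddGroup.mk (ev k1)) = 0
        rw [hφy, hφy, hφy]
        exact hTaP)
      (by
        show φ (QuotientAddGroup.mk (ev t2.1)) + φ (QuotientAddGroup.mk (ev t2.2.1)) -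
          φ (QuotientAddGroup.mk (ev t2.2.2)) ≠ 0
        rw [hφy, hφy, hφy]
        exact hTbP)
      (by
        show lam (φ (QuotientAddGroup.mk (ev t2.1)) + φ (QuotientAddGroup.mk (ev t2.2.1)) -
          φ (QuotientAddGroup.mk (ev t2.2.2))) = 0
        rw [hφy, hφy, hφy, map_sub, map_add, hlam, hlam, hlam, hT2x, sub_self])
    have hfin2 : ‖x v‖ ^ (2 * M) ≤ 16 ^ (M * ∏ s, D s) := by
      rw [← hlv]
      exact hfin
    have hpos : 0 < ‖x v‖ := norm_pos_iff.mpr (hx v)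
    have hlog := Real.log_le_log (by positivity) hfin2
    rw [Real.log_pow, Real.log_pow] at hlog
    have h16 : Real.log 16 = 4 * Real.log 2 := by
      rw [show (16 : ℝ) = 2 ^ 4 by norm_num, Real.log_pow]
      push_cast
      ring
    rw [h16] at hlog
    push_cast at hlog
    have hM0 : (0 : ℝ) < M := by exact_mod_cast hM
    have h5 : (M : ℝ) * Real.log ‖x v‖ ≤ M * (2 * (∏ s, (D s : ℝ)) * Real.log 2) := by
      nlinarith [hlog]
    exact le_of_mul_le_mul_left h5 hM0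

end H58D
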