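import Pool.Agent.Lib.H58D.MM
import Pool.Agent.Lib.H58D.E1
import Pool.Agent.Lib.H58D.CI5
import Pool.Agent.Lib.H58D.T9
import Pool.Agent.Lib.H58D.K1

/-! Chunk MB (size M).  The exact bound for the coordinates (assembly of the cases).

Proof.  `Λ = latt (..)`, `σ = card ι - ρ`, `Q = ∏ D ≥ 1`.
Case I: every `t ∈ 𝒯` has a torsion difference: `CI5` gives `log ‖x v‖ ≤ σ Q log 2`, and `σ ≤ 2^σ / 2` for every natural `σ` (`σ = 0`: `0 ≤ 1/2`; `σ + 1 ≤ 2^σ`).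
Case II: some `t = (i,j,k) ∈ 𝒯` has three nontorsion differences.  `K1b` for `ev i - ev k` gives `ℓ` with `ℓ (ev i) ≠ ℓ (ev k)`; `K1a`: `ρ < card ι`.  None of the differences is in `Λ` (they would be torsion).
If `σ = 2`: `P3` with `P2`, `T1 = tri t`, `𝒯' = tri '' 𝒯`, `b s = bin (p s) (m s)`, `n - ρ = 2` gives a prime `P 1 ≤ mx x` containing the `bin`s and `tri t` and a triple `t2 ∈ 𝒯` with `tri t2 ∉ P 1`;
`T9`: `log ‖x v‖ ≤ 2 Q log 2 = 2^2 Q (log 2 / 2)`.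
If `σ ≠ 2` (`σ ≥ 1`): `MM` with `κ = 3`: bounded rank, so `E1` gives `C'` with `log ‖x v‖ N ≤ log (wt x N) + C'`, hence `log ‖x v‖ ≤ Q ((log 3)/2 + (σ - 1) log 3) = Q (σ - 1/2) log 3`, and
`(σ - 1/2) log 3 ≤ 2^(σ-1) log 2` for `σ = 1` (`√3 ≤ 2`), `σ = 3` (`3^5 = 243 ≤ 256 = 2^8`), `σ = 4` (`3^7 = 2187 ≤ 2^16`), and by induction for `σ ≥ 4`
(in the form `3^(2σ-1) ≤ 2^(2^σ)`: `3^(2σ+1) = 9 * 3^(2σ-1) ≤ 16 * 2^(2^σ) ≤ 2^(2^(σ+1))`). -/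

namespace H58D

private theorem MB_two_mul (σ : ℕ) : 2 * σ ≤ 2 ^ σ := by
  cases σ with
  | zero => norm_num
  | succ s =>
    have h : s < 2 ^ s := Nat.lt_two_pow_self
    rw [pow_succ]
    omega

private theorem MB_pow (s : ℕ) (hs : 2 ≤ s) : 3 ^ (2 * s + 1) ≤ 2 ^ (2 ^ (s + 1)) := by
  induction s, hs using Nat.le_induction with
  | base => norm_num
  | succ n hn ih =>
    have h1 : 3 ^ (2 * (n + 1) + 1) = 9 * 3 ^ (2 * n + 1) := by ring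
    have h2 : 2 ^ (2 ^ (n + 1 + 1)) = 2 ^ (2 ^ (n + 1)) * 2 ^ (2 ^ (n + 1)) := by
      rw [← pow_add]
      congr 1
      rw [pow_succ 2 (n + 1)]
      omega
    have h3 : 9 ≤ 2 ^ (2 ^ (n + 1)) := by
      have h4 : 8 ≤ 2 ^ (n + 1) := by
        calc 8 = 2 ^ 3 := by norm_num
          _ ≤ 2 ^ (n + 1) := Nat.pow_le_pow_right (by norm_num) (by omega)
      calc 9 ≤ 2 ^ 8 := by norm_num
        _ ≤ 2 ^ (2 ^ (n + 1)) := Nat.pow_le_pow_right (by norm_num) h4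
    rw [h1, h2]
    exact Nat.mul_le_mul h3 ih

private theorem MB_log (s : ℕ) (hs : s ≠ 1) :
    Real.log 3 / 2 + (s : ℝ) * Real.log 3 ≤ 2 ^ (s + 1) * (Real.log 2 / 2) := by
  have h1 : (3 : ℕ) ^ (2 * s + 1) ≤ 2 ^ (2 ^ (s + 1)) := by
    rcases Nat.lt_or_ge s 2 with h | h
    · have h0 : s = 0 := by omega
      subst h0
      norm_num
    · exact MB_pow s h
  have h2 : ((3 : ℝ)) ^ (2 * s + 1) ≤ 2 ^ (2 ^ (s + 1)) := by exact_mod_cast h1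
  have h3 := Real.log_le_log (by positivity) h2
  rw [Real.log_pow, Real.log_pow] at h3
  push_cast at h3
  linarith

private theorem MB_eval_mon {ι : Type*} [Fintype ι] (x : ι → ℂ) (u : ι → ℕ) :
    MvPolynomial.eval x (mon MvPolynomial.X u) = mon x u := by
  simp only [mon, map_prod, map_pow, MvPolynomial.eval_X]

theorem MB {ι : Type} [Fintype ι] [DecidableEq ι] (x : ι → ℂ) (hx : ∀ i, x i ≠ 0) (ρ : ℕ)
    (p m : Fin ρ → ι → ℕ) (D : Fin ρ → ℕ) (hD : ∀ s, 1 ≤ D s)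
    (hp : ∀ s, deg (p s) ≤ D s) (hm : ∀ s, deg (m s) ≤ D s)
    (hrel : ∀ s, mon x (p s) = mon x (m s))
    (hind : LinearIndependent ℤ (fun s => dvec (p s) (m s)))
    (𝒯 : Set (ι × ι × ι)) (h𝒯 : ∀ t ∈ 𝒯, x t.1 + x t.2.1 = x t.2.2)
    (iso : ∀ P : Ideal (MvPolynomial ι ℂ), P.IsPrime → P ≤ mx x →
      (∀ s, bin (p s) (m s) ∈ P) → (∀ t ∈ 𝒯, tri t ∈ P) → P = mx x)
    (hcos : ∀ ℓ : (ι → ℤ) →+ ℤ, (∀ s, ℓ (dvec (p s) (m s)) = 0) →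
      (∀ t ∈ 𝒯, ℓ (ev t.1) = ℓ (ev t.2.1) ∧ ℓ (ev t.2.1) = ℓ (ev t.2.2)) → ℓ = 0)
    (v : ι) :
    Real.log ‖x v‖ ≤ (2 : ℝ) ^ (Fintype.card ι - ρ) * (∏ s, (D s : ℝ)) * (Real.log 2 / 2) := by
  classical
  have hQ : (0 : ℝ) ≤ ∏ s, (D s : ℝ) := Finset.prod_nonneg fun s _ => Nat.cast_nonneg _
  have hlog2 : 0 ≤ Real.log 2 := Real.log_nonneg (by norm_num)
  by_cases hN : ∀ t ∈ 𝒯, Tors (latt (fun s => dvec (p s) (m s))) (ev t.1 - ev t.2.1) ∨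
      Tors (latt (fun s => dvec (p s) (m s))) (ev t.1 - ev t.2.2) ∨
      Tors (latt (fun s => dvec (p s) (m s))) (ev t.2.1 - ev t.2.2)
  · have h1 := CI5 x hx ρ p m D hD hp hm hrel hind 𝒯 h𝒯 hcos hN v
    refine h1.trans ?_
    have h2 : (2 : ℝ) * ((Fintype.card ι - ρ : ℕ) : ℝ) ≤ 2 ^ (Fintype.card ι - ρ) := by
      exact_mod_cast MB_two_mul (Fintype.card ι - ρ)
    have h3 : 0 ≤ (∏ s, (D s : ℝ)) * (Real.log 2 / 2) := mul_nonneg hQ (by linarith)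
    have h4 := mul_le_mul_of_nonneg_right h2 h3
    calc ((Fintype.card ι - ρ : ℕ) : ℝ) * (∏ s, (D s : ℝ)) * Real.log 2
        = 2 * ((Fintype.card ι - ρ : ℕ) : ℝ) * ((∏ s, (D s : ℝ)) * (Real.log 2 / 2)) := by ring
      _ ≤ 2 ^ (Fintype.card ι - ρ) * ((∏ s, (D s : ℝ)) * (Real.log 2 / 2)) := h4
      _ = _ := by ring
  · push Not at hN
    obtain ⟨t, ht, hN1, hN2, hN3⟩ := hN
    obtain ⟨ℓ, hℓ, hℓne⟩ := K1b _ _ hN2
    have hρ : ρ < Fintype.card ι := K1a ρ _ hind ℓ hℓ ⟨_, hℓne⟩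
    by_cases hσ : Fintype.card ι - ρ = 2
    · obtain ⟨c, hc, hl⟩ := P2 x
      have hbmx : ∀ s, bin (p s) (m s) ∈ mx x := by
        intro s
        rw [mx, RingHom.mem_ker, bin, map_sub, MB_eval_mon, MB_eval_mon, hrel, sub_self]
      have hTmx : ∀ t : ι × ι × ι, x t.1 + x t.2.1 = x t.2.2 → tri t ∈ mx x := by
        intro t ht
        rw [mx, RingHom.mem_ker, tri, map_sub, map_add, MvPolynomial.eval_X, MvPolynomial.eval_X,
          MvPolynomial.eval_X, ht, sub_self]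
      obtain ⟨P, hPp, hPle, hPb, hPT, hPk, hPs⟩ := P3 (mx x) (Fintype.card ι) ρ (by omega) c hc hl
        (fun s => bin (p s) (m s)) hbmx (tri '' 𝒯)
        (by rintro _ ⟨t, ht, rfl⟩; exact hTmx t (h𝒯 t ht)) (tri t) (hTmx t (h𝒯 t ht))
        (fun Q hQ hle hb hT' => iso Q hQ hle hb (fun t ht => hT' _ ⟨t, ht, rfl⟩))
      obtain ⟨_, T, ⟨t2, ht2, rfl⟩, hTn, _⟩ := hPs 1 le_rfl (by omega)
      obtain ⟨i, j, k⟩ := t
      have h1 := T9 x hx ρ (by omega) p m D hD hp hm hind (P 1) (hPp 1) (hPle 1) hPb i j k hPT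
        hN1 hN2 hN3 t2 hTn (h𝒯 t2 ht2) v
      rw [hσ]
      refine h1.trans (le_of_eq ?_)
      ring
    · obtain ⟨i, j, k⟩ := t
      have hnl : ∀ u : ι → ℤ, ¬ Tors (latt (fun s => dvec (p s) (m s))) u →
          u ∉ latt (fun s => dvec (p s) (m s)) := fun u hu hmem =>
        hu ⟨1, one_pos, by rwa [one_smul]⟩
      obtain ⟨⟨R, hR⟩, hMM⟩ := MM x hx ρ p m D hp hm hrel hind 𝒯 h𝒯 iso i j k (h𝒯 _ ht) ℓ hℓ
        (by
          rintro ⟨h1, h2⟩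
          apply hℓne
          show ℓ (ev i - ev k) = 0
          rw [map_sub, h1, h2, sub_self]) 3
        (Or.inr ⟨rfl, hnl _ hN1, hnl _ hN2, hnl _ hN3⟩)
      obtain ⟨C', hC'⟩ := E1 x R hR v
      have h1 := hMM _ C' hC'
      obtain ⟨s, hs⟩ : ∃ s, Fintype.card ι - ρ = s + 1 := ⟨Fintype.card ι - ρ - 1, by omega⟩
      rw [hs] at h1 ⊢
      have h2 := MB_log s (by omega)
      refine h1.trans ?_
      have h3 := mul_le_mul_of_nonneg_left h2 hQ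
      calc (∏ s, (D s : ℝ)) * (Real.log ((3 : ℕ) : ℝ) / 2 +
            (((s + 1 : ℕ) : ℝ) - 1) * Real.log 3)
          = (∏ s, (D s : ℝ)) * (Real.log 3 / 2 + (s : ℝ) * Real.log 3) := by
            push_cast
            ring
        _ ≤ (∏ s, (D s : ℝ)) * (2 ^ (s + 1) * (Real.log 2 / 2)) := h3
        _ = _ := by ring

end H58D
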