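import Pool.Agent.Lib.H58D.SYS
import Pool.Agent.Lib.H58D.MB

/-! Chunk FA (size M).  Statement (ii) (for any distinguished index `i0`), from `SYS` with `d = 0` and `MB`.

Proof.  If `x i = 0` the bound is clear.  Otherwise `SYS` with `d = 0` (empty `jj`, `pp`) and `MB` for `y`, `v = ⟨i, _⟩`:
`log ‖x i‖ ≤ 2^(card ι - ρ) (∏ D) (log 2 / 2)`, `2 ∏ D ≤ 2^ρ`, `ρ ≤ card ι ≤ n` (independent family; if truncated subtraction matters use `hind`), `card ι ≥ 1`.  So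
`log ‖x i‖ ≤ 2^(card ι) log 2 / 4 ≤ 2^n log 2/4 = 2^(n-2) log 2` (real exponent), exponentiate: `‖x i‖ ≤ 2^(2^(n-2))` (`Real.rpow`). -/

namespace H58D

theorem FA (n : ℕ) (S : Set (Eqn n)) (i0 : Fin n) (hi0 : Eqn.one i0 ∈ S) (hfin : (Sol S).Finite)
    (x : Fin n → ℂ) (hx : x ∈ Sol S) (i : Fin n) :
    ‖x i‖ ≤ (2 : ℝ) ^ ((2 : ℝ) ^ ((n : ℝ) - 2)) := by
  by_cases hxi : x i = 0
  · rw [hxi, norm_zero]
    positivity
  have hfin' : {z : Fin n → ℂ | z ∈ Sol S ∧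
      ∀ s : Fin 0, z ((fun s : Fin 0 => (Fin.elim0 s : Fin n)) s) =
        x ((fun s : Fin 0 => (Fin.elim0 s : Fin n)) s)}.Finite :=
    hfin.subset (fun z hz => hz.1)
  obtain ⟨ρ, p, m, D, 𝒯, hD, hp, hm, hrel, hind, hT, iso, hcos, hprod⟩ :=
    SYS n S x hx i0 hi0 0 (fun s => (Fin.elim0 s : Fin n)) (fun a => Fin.elim0 a)
      (fun s => Fin.elim0 s) (fun s => (Fin.elim0 s : ℕ)) (fun s => Fin.elim0 s)
      (fun s => Fin.elim0 s) hfin'
  have h1 := MB (fun i : {i : Fin n // x i ≠ 0} => x i) (fun i => i.2) ρ p m D hD hp hm hrel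
    hind 𝒯 hT iso hcos ⟨i, hxi⟩
  have hcard : Fintype.card {i : Fin n // x i ≠ 0} ≤ n := by
    have := Fintype.card_subtype_le (fun i : Fin n => x i ≠ 0)
    rwa [Fintype.card_fin] at this
  have hρ : ρ ≤ Fintype.card {i : Fin n // x i ≠ 0} := by
    have := hind.fintype_card_le_finrank
    rwa [Fintype.card_fin, Module.finrank_fintype_fun_eq_card] at this
  have hprod' : (∏ s, D s) * 2 ≤ 2 ^ ρ := by
    simpa using hprod
  have h2 : (∏ s, (D s : ℝ)) * 2 ≤ 2 ^ ρ := by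
    exact_mod_cast hprod'
  have hl2 : (0 : ℝ) < Real.log 2 := Real.log_pos (by norm_num)
  have h3 : (2 : ℝ) ^ (Fintype.card {i : Fin n // x i ≠ 0} - ρ) * (∏ s, (D s : ℝ)) * 2 ≤ 2 ^ n := by
    calc (2 : ℝ) ^ (Fintype.card {i : Fin n // x i ≠ 0} - ρ) * (∏ s, (D s : ℝ)) * 2
        = (2 : ℝ) ^ (Fintype.card {i : Fin n // x i ≠ 0} - ρ) * ((∏ s, (D s : ℝ)) * 2) := by ring
      _ ≤ (2 : ℝ) ^ (Fintype.card {i : Fin n // x i ≠ 0} - ρ) * 2 ^ ρ :=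
          mul_le_mul_of_nonneg_left h2 (by positivity)
      _ = 2 ^ (Fintype.card {i : Fin n // x i ≠ 0}) := by
          rw [← pow_add, Nat.sub_add_cancel hρ]
      _ ≤ 2 ^ n := pow_le_pow_right₀ (by norm_num) hcard
  have h4 : Real.log ‖x i‖ ≤ 2 ^ n * (Real.log 2 / 4) := by
    refine le_trans h1 ?_
    nlinarith [h3, hl2]
  have hpos : 0 < ‖x i‖ := norm_pos_iff.2 hxi
  have h5 : (2 : ℝ) ^ ((n : ℝ) - 2) = 2 ^ n / 4 := by
    rw [Real.rpow_sub (by norm_num), Real.rpow_natCast]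
    norm_num
  rw [h5, Real.rpow_def_of_pos (by norm_num)]
  calc ‖x i‖ = Real.exp (Real.log ‖x i‖) := (Real.exp_log hpos).symm
    _ ≤ Real.exp (Real.log 2 * (2 ^ n / 4)) := by
        apply Real.exp_le_exp.2
        calc Real.log ‖x i‖ ≤ 2 ^ n * (Real.log 2 / 4) := h4
          _ = Real.log 2 * (2 ^ n / 4) := by ring

end H58D
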