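import Mathlib

/-!
# Values of a coordinate on an algebraic set; the relations in a prime ideal
(MP_dafae9_al, `PROOF.md`)
-/

set_option autoImplicit false

namespace Pool.Agent.Lib.H58D.Pre44

open MvPolynomial

section values

variable {K ι : Type*} [Field K] [IsAlgClosed K] [Finite ι]

/-- the values of the coordinate `j` on the zeros of an ideal -/
def vals (I : Ideal (MvPolynomial ι K)) (j : ι) : Set K :=
  {c | ∃ z : ι → K, (∀ f ∈ I, aeval z f = 0) ∧ z j = c}

/-- a proper prime ideal has a zero -/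
theorem exists_zero (Q : Ideal (MvPolynomial ι K)) (hQ : Q.IsPrime) :
    ∃ z : ι → K, ∀ f ∈ Q, aeval z f = 0 := by
  have h1 := IsPrime.vanishingIdeal_zeroLocus (K := K) Q
  by_contra hcon
  have h2 : zeroLocus K Q = ∅ := by
    refine Set.eq_empty_iff_forall_notMem.mpr fun z hz => hcon ⟨z, fun f hf => hz f hf⟩
  rw [h2, vanishingIdeal_empty] at h1
  exact hQ.ne_top h1.symm

theorem vals_prime (P : Ideal (MvPolynomial ι K)) [P.IsPrime] (j : ι) (hinf : (vals P j).Infinite) :
    ((vals P j)ᶜ).Finite := by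
  let A := MvPolynomial ι K ⧸ P
  let φ : Polynomial K →ₐ[K] A := Polynomial.aeval (Ideal.Quotient.mk P (X j))
  have hφ : ∀ g : Polynomial K, φ g = Ideal.Quotient.mk P (Polynomial.aeval (X j) g) := by
    intro g
    have : φ = (Ideal.Quotient.mkₐ K P).comp (Polynomial.aeval (X j)) := by
      refine Polynomial.algHom_ext ?_
      simp [φ]
    rw [this]
    rfl
  have hinj : Function.Injective φ := by
    rw [injective_iff_map_eq_zero]
    intro g hg
    by_contra hg0
    refine hinf ((g.rootSet_finite K).subset ?_)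
    rintro c ⟨z, hz, rfl⟩
    rw [hφ, Ideal.Quotient.eq_zero_iff_mem] at hg
    have h1 := hz _ hg
    rw [Polynomial.mem_rootSet]
    refine ⟨hg0, ?_⟩
    rw [← Polynomial.aeval_algHom_apply, aeval_X] at h1
    exact h1
  let _ : Algebra (Polynomial K) A := φ.toRingHom.toAlgebra
  have hmap : ∀ g, algebraMap (Polynomial K) A g = φ g := fun g => rfl
  have : IsScalarTower K (Polynomial K) A := IsScalarTower.of_algebraMap_eq fun c => by
    rw [hmap, Polynomial.algebraMap_apply, Algebra.algebraMap_self, RingHom.id_apply,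
      ← Polynomial.algebraMap_eq, AlgHom.commutes]
  have : Algebra.FiniteType (Polynomial K) A := Algebra.FiniteType.of_restrictScalars_finiteType K _ _
  have : Algebra.FinitePresentation (Polynomial K) A := Algebra.FinitePresentation.of_finiteType.mp
    inferInstance
  have : FaithfulSMul (Polynomial K) A := (faithfulSMul_iff_algebraMap_injective _ _).mpr hinj
  have : Module.Flat (Polynomial K) A := by
    rw [Module.Flat.flat_iff_torsion_eq_bot_of_isBezout, ← Submodule.isTorsionFree_iff_torsion_eq_bot]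
    infer_instance
  have hopen := PrimeSpectrum.isOpenMap_comap_of_hasGoingDown_of_finitePresentation
    (R := Polynomial K) (S := A)
  have hU := hopen.isOpen_range
  obtain ⟨g, hg⟩ : ∃ g : Polynomial K, g ≠ 0 ∧
      (PrimeSpectrum.basicOpen g : Set (PrimeSpectrum (Polynomial K))) ⊆
        Set.range (PrimeSpectrum.comap (algebraMap (Polynomial K) A)) := by
    have hmem : PrimeSpectrum.comap (algebraMap (Polynomial K) A) ⟨⊥, Ideal.isPrime_bot⟩ ∈
        Set.range (PrimeSpectrum.comap (algebraMap (Polynomial K) A)) := ⟨_, rfl⟩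
    obtain ⟨_, ⟨g, rfl⟩, h1, h2⟩ :=
      PrimeSpectrum.isTopologicalBasis_basic_opens.exists_subset_of_mem_open hmem hU
    refine ⟨g, ?_, h2⟩
    rintro rfl
    simp at h1
  refine ((g.rootSet_finite K)).subset fun c hc => ?_
  rw [Polynomial.mem_rootSet]
  refine ⟨hg.1, ?_⟩
  by_contra hgc
  apply hc
  let q : PrimeSpectrum (Polynomial K) := ⟨Ideal.span {Polynomial.X - Polynomial.C c}, by
    rw [Ideal.span_singleton_prime (Polynomial.X_sub_C_ne_zero c)]
    exact Polynomial.prime_X_sub_C c⟩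
  have hq : q ∈ (PrimeSpectrum.basicOpen g : Set (PrimeSpectrum (Polynomial K))) := by
    change g ∉ q.asIdeal
    rw [Ideal.mem_span_singleton, Polynomial.dvd_iff_isRoot]
    exact hgc
  obtain ⟨Q, hQ⟩ := hg.2 hq
  have h1 : algebraMap (Polynomial K) A (Polynomial.X - Polynomial.C c) ∈ Q.asIdeal := by
    have h2 : Polynomial.X - Polynomial.C c ∈ q.asIdeal := Ideal.mem_span_singleton_self _
    rw [← hQ] at h2
    exact h2
  let Q' : Ideal (MvPolynomial ι K) := Q.asIdeal.comap (Ideal.Quotient.mk P)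
  have hQ' : Q'.IsPrime := Ideal.comap_isPrime _ _
  obtain ⟨z, hz⟩ := exists_zero Q' hQ'
  refine ⟨z, fun f hf => hz f ?_, ?_⟩
  · change Ideal.Quotient.mk P f ∈ Q.asIdeal
    rw [Ideal.Quotient.eq_zero_iff_mem.mpr hf]
    exact Q.asIdeal.zero_mem
  · have h3 : (X j - C c : MvPolynomial ι K) ∈ Q' := by
      change Ideal.Quotient.mk P (X j - C c) ∈ Q.asIdeal
      rw [hmap, hφ] at h1
      simpa using h1
    have h4 := hz _ h3
    rw [map_sub, aeval_X, aeval_C, sub_eq_zero] at h4
    exact h4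

/-- **A coordinate which takes infinitely many values on an algebraic set takes all but finitely
many values.** -/
theorem vals_cofinite (I : Ideal (MvPolynomial ι K)) (j : ι) (hinf : (vals I j).Infinite) :
    ((vals I j)ᶜ).Finite := by
  have hfin : I.minimalPrimes.Finite := I.finite_minimalPrimes_of_isNoetherianRing
  have hsub : vals I j ⊆ ⋃ P ∈ I.minimalPrimes, vals P j := by
    rintro c ⟨z, hz, rfl⟩
    have hprime : (RingHom.ker (aeval z : MvPolynomial ι K →ₐ[K] K)).IsPrime := RingHom.ker_isPrime _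
    have hle : I ≤ RingHom.ker (aeval z : MvPolynomial ι K →ₐ[K] K) := fun f hf => hz f hf
    obtain ⟨P, hP, hPle⟩ := Ideal.exists_minimalPrimes_le hle
    exact Set.mem_biUnion hP ⟨z, fun f hf => hPle hf, rfl⟩
  obtain ⟨P, hP, hPinf⟩ : ∃ P ∈ I.minimalPrimes, (vals P j).Infinite := by
    by_contra hcon
    push Not at hcon
    exact hinf ((hfin.biUnion fun P hP => hcon P hP).subset hsub)
  have : P.IsPrime := hP.1.1
  refine (vals_prime P j hPinf).subset (Set.compl_subset_compl.mpr ?_)
  rintro c ⟨z, hz, rfl⟩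
  exact ⟨z, fun f hf => hz f (hP.1.2 hf), rfl⟩

end values

section relations

variable {ι : Type*} [Fintype ι]

/-- the vectors `u` with `y ^ u = 1` form a group -/
theorem prod_zpow_eq_one {F : Type*} [Field F] (y : ι → F) (hy : ∀ i, y i ≠ 0) (r : Set (ι → ℤ))
    (hr : ∀ a ∈ r, ∏ i, y i ^ a i = 1) (u : ι → ℤ) (hu : u ∈ AddSubgroup.closure r) :
    ∏ i, y i ^ u i = 1 := by
  induction hu using AddSubgroup.closure_induction with
  | mem a ha => exact hr a ha
  | zero => simp
  | add a b _ _ h1 h2 =>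
    simp only [Pi.add_apply]
    rw [Finset.prod_congr rfl fun i _ => zpow_add₀ (hy i) (a i) (b i), Finset.prod_mul_distrib, h1, h2,
      one_mul]
  | neg a _ h1 =>
    simp only [Pi.neg_apply, zpow_neg]
    rw [Finset.prod_inv_distrib, h1, inv_one]

/-- a root of unity in an extension of an algebraically closed field lies in this field -/
theorem mem_range_of_pow_eq_one {K F : Type*} [Field K] [IsAlgClosed K] [Field F] [Algebra K F]
    (w : F) (N : ℕ) (hN : 0 < N) (hw : w ^ N = 1) : ∃ ω : K, algebraMap K F ω = w := by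
  have hint : IsIntegral K w := by
    refine ⟨Polynomial.X ^ N - 1, Polynomial.monic_X_pow_sub_C 1 hN.ne', ?_⟩
    simp [hw]
  have h1 := IsAlgClosed.degree_eq_one_of_irreducible K (minpoly.irreducible hint)
  exact minpoly.mem_range_of_degree_eq_one K w h1

/-- **The relations in a prime ideal.**  Let the prime ideal `P` be contained in the ideal of the
point `x`, whose coordinates do not vanish, and let it contain the binomials `X ^ p s - X ^ m s`.
If `N (u - v)` lies in the group generated by the vectors `p s - m s` and `x ^ u = c x ^ v` then `P`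
contains `X ^ u - c X ^ v`. -/
theorem rel_mem {K : Type*} [Field K] [IsAlgClosed K] (P : Ideal (MvPolynomial ι K)) [P.IsPrime]
    (x : ι → K) (hx : ∀ i, x i ≠ 0)
    (hP : P ≤ RingHom.ker (aeval x : MvPolynomial ι K →ₐ[K] K)) {κ : Type*} (p m : κ → ι → ℕ)
    (hb : ∀ s, (∏ i, X i ^ p s i - ∏ i, X i ^ m s i : MvPolynomial ι K) ∈ P)
    (u v : ι → ℕ) (N : ℕ) (hN : 0 < N)
    (hmem : (fun i => (N : ℤ) * ((u i : ℤ) - v i)) ∈
      AddSubgroup.closure (Set.range fun s => fun i => (p s i : ℤ) - m s i))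
    (c : K) (hc : ∏ i, x i ^ u i = c * ∏ i, x i ^ v i) :
    (∏ i, X i ^ u i - C c * ∏ i, X i ^ v i : MvPolynomial ι K) ∈ P := by
  let A := MvPolynomial ι K ⧸ P
  let F := FractionRing A
  let θ : MvPolynomial ι K →ₐ[K] F := (Algebra.algHom K A F).comp (Ideal.Quotient.mkₐ K P)
  have hθ : ∀ f, θ f = 0 ↔ f ∈ P := by
    intro f
    have h1 : θ f = algebraMap A F (Ideal.Quotient.mk P f) := rfl
    rw [h1, map_eq_zero_iff _ (IsFractionRing.injective A F), Ideal.Quotient.eq_zero_iff_mem]
  let y : ι → F := fun i => θ (X i)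
  have hy : ∀ i, y i ≠ 0 := by
    intro i h
    have h1 := hP ((hθ _).mp h)
    rw [RingHom.mem_ker, aeval_X] at h1
    exact hx i h1
  have hmon : ∀ a : ι → ℕ, θ (∏ i, X i ^ a i) = ∏ i, y i ^ a i := by
    intro a
    rw [map_prod]
    exact Finset.prod_congr rfl fun i _ => map_pow _ _ _
  have hz : ∀ a b : ι → ℕ, ∏ i, y i ^ ((a i : ℤ) - b i) = (∏ i, y i ^ a i) / ∏ i, y i ^ b i := by
    intro a b
    rw [← Finset.prod_div_distrib]
    refine Finset.prod_congr rfl fun i _ => ?_
    rw [zpow_sub₀ (hy i), zpow_natCast, zpow_natCast]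
  have hne : ∀ a : ι → ℕ, ∏ i, y i ^ a i ≠ 0 := fun a =>
    Finset.prod_ne_zero_iff.mpr fun i _ => pow_ne_zero _ (hy i)
  have h1 := prod_zpow_eq_one y hy _ (by
    rintro _ ⟨s, rfl⟩
    have h2 := (hθ _).mpr (hb s)
    rw [map_sub, hmon, hmon, sub_eq_zero] at h2
    change ∏ i, y i ^ ((p s i : ℤ) - m s i) = 1
    rw [hz, h2, div_self (hne _)]) _ hmem
  let w : F := (∏ i, y i ^ u i) / ∏ i, y i ^ v i
  have hw : w ^ N = 1 := by
    rw [← h1]
    change ((∏ i, y i ^ u i) / ∏ i, y i ^ v i) ^ N = ∏ i, y i ^ ((N : ℤ) * ((u i : ℤ) - v i))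
    rw [← hz, ← Finset.prod_pow]
    refine Finset.prod_congr rfl fun i _ => ?_
    rw [mul_comm, zpow_mul, zpow_natCast]
  obtain ⟨ω, hω⟩ := mem_range_of_pow_eq_one (K := K) w N hN hw
  have h2 : (∏ i, X i ^ u i - C ω * ∏ i, X i ^ v i : MvPolynomial ι K) ∈ P := by
    rw [← hθ, map_sub, map_mul, hmon, hmon, ← algebraMap_eq, AlgHom.commutes, hω, sub_eq_zero,
      div_mul_cancel₀ _ (hne _)]
  have h3 := hP h2
  rw [RingHom.mem_ker, map_sub, map_mul, aeval_C, map_prod, map_prod] at h3
  simp only [map_pow, aeval_X] at h3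
  rw [hc, ← sub_mul, mul_eq_zero, sub_eq_zero] at h3
  rcases h3 with h3 | h3
  · rw [h3]
    exact h2
  · exact absurd h3 (Finset.prod_ne_zero_iff.mpr fun i _ => pow_ne_zero _ (hx i))

end relations

end Pool.Agent.Lib.H58D.Pre44
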