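import Pool.Agent.Lib.H58D.Sys
import Pool.Agent.Lib.H58D.Pre44b

/-! The greedy choice of coordinates, primes and roots of unity (section 4 of `PROOF.md`). -/

namespace H58D

open Pool.Agent.Lib.H58D.Pre44

/-- the polynomial of an equation -/
noncomputable def eqPoly {n : ℕ} : Eqn n → MvPolynomial (Fin n) ℂ
  | Eqn.one i => MvPolynomial.X i - 1
  | Eqn.add i j k => MvPolynomial.X i + MvPolynomial.X j - MvPolynomial.X k
  | Eqn.mul i j k => MvPolynomial.X i * MvPolynomial.X j - MvPolynomial.X k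

theorem holds_iff {n : ℕ} (z : Fin n → ℂ) (e : Eqn n) :
    Holds z e ↔ MvPolynomial.aeval z (eqPoly e) = 0 := by
  cases e <;> simp [Holds, eqPoly, sub_eq_zero]

/-- the ideal of the system with some coordinates fixed -/
noncomputable def fixIdeal {n d : ℕ} (S : Set (Eqn n)) (jj : Fin d → Fin n) (ζ : Fin d → ℂ) :
    Ideal (MvPolynomial (Fin n) ℂ) :=
  Ideal.span (eqPoly '' S ∪ Set.range fun s => MvPolynomial.X (jj s) - MvPolynomial.C (ζ s))

theorem mem_fix_iff {n d : ℕ} (S : Set (Eqn n)) (jj : Fin d → Fin n) (ζ : Fin d → ℂ)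
    (z : Fin n → ℂ) : (∀ f ∈ fixIdeal S jj ζ, MvPolynomial.aeval z f = 0) ↔
      z ∈ Sol S ∧ ∀ s, z (jj s) = ζ s := by
  constructor
  · intro h
    refine ⟨fun e he => (holds_iff z e).mpr (h _ (Ideal.subset_span (Or.inl ⟨e, he, rfl⟩))),
      fun s => ?_⟩
    have := h _ (Ideal.subset_span (Or.inr ⟨s, rfl⟩))
    simpa [sub_eq_zero] using this
  · rintro ⟨h1, h2⟩ f hf
    have hle : fixIdeal S jj ζ ≤ RingHom.ker (MvPolynomial.aeval z : MvPolynomial (Fin n) ℂ →ₐ[ℂ] ℂ) := by
      rw [fixIdeal, Ideal.span_le]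
      rintro g (⟨e, he, rfl⟩ | ⟨s, rfl⟩)
      · exact (holds_iff z e).mp (h1 e he)
      · change MvPolynomial.aeval z _ = 0
        simp [h2 s]
    exact hle hf

/-- **The greedy choice.** -/
theorem greedy (n : ℕ) (S : Set (Eqn n)) (hS : (Sol S).Nonempty) (i0 : Fin n)
    (hi0 : Eqn.one i0 ∈ S) (Y : ℕ) :
    ∃ (d : ℕ) (jj : Fin d → Fin n) (pp : Fin d → ℕ) (x : Fin n → ℂ),
      Function.Injective jj ∧ (∀ s, jj s ≠ i0) ∧ (∀ s, (pp s).Prime ∧ Y < pp s) ∧
        Function.Injective pp ∧ x ∈ Sol S ∧ (∀ s, IsPrimitiveRoot (x (jj s)) (pp s)) ∧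
          {z : Fin n → ℂ | z ∈ Sol S ∧ ∀ s, z (jj s) = x (jj s)}.Finite := by
  classical
  have main : ∀ k d : ℕ, n ≤ d + k → ∀ (jj : Fin d → Fin n) (pp : Fin d → ℕ) (ζ : Fin d → ℂ),
      Function.Injective jj → (∀ s, jj s ≠ i0) → (∀ s, (pp s).Prime ∧ Y < pp s) →
      Function.Injective pp → (∀ s, IsPrimitiveRoot (ζ s) (pp s)) →
      {z : Fin n → ℂ | z ∈ Sol S ∧ ∀ s, z (jj s) = ζ s}.Nonempty →
      ∃ (d : ℕ) (jj : Fin d → Fin n) (pp : Fin d → ℕ) (x : Fin n → ℂ),
        Function.Injective jj ∧ (∀ s, jj s ≠ i0) ∧ (∀ s, (pp s).Prime ∧ Y < pp s) ∧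
          Function.Injective pp ∧ x ∈ Sol S ∧ (∀ s, IsPrimitiveRoot (x (jj s)) (pp s)) ∧
            {z : Fin n → ℂ | z ∈ Sol S ∧ ∀ s, z (jj s) = x (jj s)}.Finite := by
    intro k
    induction k with
    | zero =>
      intro d hd jj pp ζ hjj hj0 _ _ _ _
      exfalso
      have h1 : Function.Injective (Fin.cons i0 jj : Fin (d + 1) → Fin n) :=
        Fin.cons_injective_iff.mpr ⟨fun ⟨s, hs⟩ => hj0 s hs, hjj⟩
      have h2 := Fintype.card_le_of_injective _ h1
      rw [Fintype.card_fin, Fintype.card_fin] at h2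
      omega
    | succ k ih =>
      intro d hd jj pp ζ hjj hj0 hpp hppi hζ hne
      by_cases hfin : {z : Fin n → ℂ | z ∈ Sol S ∧ ∀ s, z (jj s) = ζ s}.Finite
      · obtain ⟨x, hx, hxζ⟩ := hne
        refine ⟨d, jj, pp, x, hjj, hj0, hpp, hppi, hx, fun s => by rw [hxζ s]; exact hζ s, ?_⟩
        have : {z : Fin n → ℂ | z ∈ Sol S ∧ ∀ s, z (jj s) = x (jj s)} =
            {z : Fin n → ℂ | z ∈ Sol S ∧ ∀ s, z (jj s) = ζ s} := by
          ext z
          simp only [Set.mem_setOf_eq, hxζ]
        rw [this]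
        exact hfin
      · -- a coordinate with infinitely many values
        obtain ⟨j, hj⟩ : ∃ j, (vals (fixIdeal S jj ζ) j).Infinite := by
          by_contra hcon
          push Not at hcon
          apply hfin
          refine (Set.Finite.pi' (fun j => hcon j)).subset ?_
          rintro z ⟨hz1, hz2⟩
          intro j
          exact ⟨z, (mem_fix_iff S jj ζ z).mpr ⟨hz1, hz2⟩, rfl⟩
        have hcof := vals_cofinite _ j hj
        have hconst : ∀ (i : Fin n) (c : ℂ),
            (∀ z : Fin n → ℂ, z ∈ Sol S ∧ (∀ s, z (jj s) = ζ s) → z i = c) → j ≠ i := by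
          rintro i c hc rfl
          refine hj ((Set.finite_singleton c).subset ?_)
          rintro _ ⟨z, hz, rfl⟩
          exact hc z ((mem_fix_iff S jj ζ z).mp hz)
        have hji0 : j ≠ i0 := hconst i0 1 fun z hz => hz.1 _ hi0
        have hjjs : ∀ s, j ≠ jj s := fun s => hconst (jj s) (ζ s) fun z hz => hz.2 s
        -- a prime with a primitive root of unity among the values
        obtain ⟨p, hp, hpY, hpval⟩ : ∃ p : ℕ, p.Prime ∧ (Y < p ∧ ∀ s, pp s < p) ∧
            Complex.exp (2 * Real.pi * Complex.I / p) ∈ vals (fixIdeal S jj ζ) j := by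
          by_contra hcon
          push Not at hcon
          let B : ℕ := Y + ∑ s, pp s
          have hB : ∀ p : ℕ, B < p → Y < p ∧ ∀ s, pp s < p := by
            intro p hp
            refine ⟨by omega, fun s => ?_⟩
            have := Finset.single_le_sum (f := pp) (fun i _ => Nat.zero_le _) (Finset.mem_univ s)
            omega
          have hinf : {p : ℕ | p.Prime ∧ B < p}.Infinite := by
            have := Nat.infinite_setOf_prime.diff (Set.finite_le_nat B)
            refine this.mono ?_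
            rintro p ⟨h1, h2⟩
            exact ⟨h1, not_le.mp h2⟩
          have hmaps : ∀ p ∈ {p : ℕ | p.Prime ∧ B < p},
              Complex.exp (2 * Real.pi * Complex.I / p) ∈ (vals (fixIdeal S jj ζ) j)ᶜ :=
            fun p hp => hcon p hp.1 (hB p hp.2)
          have hinj : Set.InjOn (fun p : ℕ => Complex.exp (2 * Real.pi * Complex.I / p))
              {p : ℕ | p.Prime ∧ B < p} := by
            intro p hp q hq hpq
            have h1 := Complex.isPrimitiveRoot_exp p hp.1.ne_zero
            have h2 := Complex.isPrimitiveRoot_exp q hq.1.ne_zero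
            simp only at hpq
            rw [hpq] at h1
            exact h1.unique h2
          exact Set.not_infinite.mpr hcof (Set.infinite_of_injOn_mapsTo hinj hmaps hinf)
        obtain ⟨z, hz, hzj⟩ := hpval
        have hz' := (mem_fix_iff S jj ζ z).mp hz
        refine ih (d + 1) (by omega) (Fin.cons j jj) (Fin.cons p pp)
          (Fin.cons (Complex.exp (2 * Real.pi * Complex.I / p)) ζ) ?_ ?_ ?_ ?_ ?_ ?_
        · exact Fin.cons_injective_iff.mpr ⟨fun ⟨s, hs⟩ => hjjs s hs.symm, hjj⟩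
        · exact fun s => Fin.cases (by simpa using hji0) (fun s => by simpa using hj0 s) s
        · exact fun s => Fin.cases (by simpa using ⟨hp, hpY.1⟩) (fun s => by simpa using hpp s) s
        · exact Fin.cons_injective_iff.mpr ⟨fun ⟨s, hs⟩ => (hpY.2 s).ne hs, hppi⟩
        · intro s
          refine Fin.cases ?_ (fun s => ?_) s
          · simpa using Complex.isPrimitiveRoot_exp p hp.ne_zero
          · simpa using hζ s
        · refine ⟨z, hz'.1, fun s => ?_⟩
          refine Fin.cases ?_ (fun s => ?_) s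
          · simpa using hzj
          · simpa using hz'.2 s
  obtain ⟨x, hx⟩ := hS
  exact main n 0 (by omega) Fin.elim0 Fin.elim0 Fin.elim0 (fun s => s.elim0) (fun s => s.elim0)
    (fun s => s.elim0) (fun s => s.elim0) (fun s => s.elim0) ⟨x, hx, fun s => s.elim0⟩

end H58D
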