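import Pool.Agent.Lib.H58D.FA
import Pool.Agent.Lib.H58D.Pre44b
import Pool.Agent.Lib.H58D.Y44

/-! Chunk FQ (size M).  Bounded systems are finite; for a maximal system the bound of Q1 holds iff the system has finitely many solutions.

`BF`.  Proof.  Suppose `Sol S` is infinite.  Then some coordinate `j` takes infinitely many values on `Sol S` (a subset of a product of finitely many finite sets is finite).
`Sol S` is the zero set of an ideal `I` of `MvPolynomial (Fin n) ℂ` (see `holds_iff`, `mem_fix_iff` in `Y44.lean` with `d = 0`), so by `Pre44.vals_cofinite` the coordinate `j` takes all but finitely many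
complex values, so it is unbounded, contradiction.
`FQ`.  Proof.  `→`: `BF`.  `←`: let `Sol S` be finite, `x ∈ Sol S`.  If `Eqn.one i0 ∈ S` for some `i0`, use `FA`.  Otherwise `0` satisfies all equations of `S`
(`0 + 0 = 0`, `0 * 0 = 0`), so for every `i` the system `S ∪ {Eqn.add i i i}` has the solution `0` and is contained in `EE n`; by maximality `Eqn.add i i i ∈ S`, so
`x i + x i = x i`, `x i = 0` and the bound holds. -/

namespace H58D

/-- `S` is a maximal consistent subsystem of `E_n`. -/
def MaxSys (n : ℕ) (S : Set (Eqn n)) : Prop :=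
  S ⊆ EE n ∧ (Sol S).Nonempty ∧ ∀ S' : Set (Eqn n), S ⊂ S' → S' ⊆ EE n → ¬ (Sol S').Nonempty

theorem BF {n : ℕ} (S : Set (Eqn n)) (R : ℝ) (hR : ∀ x ∈ Sol S, ∀ i, ‖x i‖ ≤ R) :
    (Sol S).Finite := by
  classical
  by_contra hnf
  let jj : Fin 0 → Fin n := fun s => Fin.elim0 s
  let ζ : Fin 0 → ℂ := fun s => Fin.elim0 s
  obtain ⟨j, hj⟩ : ∃ j, (Pool.Agent.Lib.H58D.Pre44.vals (fixIdeal S jj ζ) j).Infinite := by
    by_contra hcon
    push Not at hcon
    apply hnf
    refine (Set.Finite.pi' (fun j => hcon j)).subset ?_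
    intro z hz j
    exact ⟨z, (mem_fix_iff S jj ζ z).mpr ⟨hz, fun s => Fin.elim0 s⟩, rfl⟩
  have hcof := Pool.Agent.Lib.H58D.Pre44.vals_cofinite _ j hj
  have hinf : ((Pool.Agent.Lib.H58D.Pre44.vals (fixIdeal S jj ζ) j)ᶜ).Infinite := by
    refine Set.infinite_of_injective_forall_mem
      (f := fun m : ℕ => (((|R| + 1 + (m : ℝ)) : ℝ) : ℂ)) ?_ ?_
    · intro a b hab
      have h1 : |R| + 1 + (a : ℝ) = |R| + 1 + (b : ℝ) := Complex.ofReal_injective hab
      have h2 : (a : ℝ) = b := by linarith
      exact_mod_cast h2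
    · rintro m ⟨z, hz, hzj⟩
      have h1 := ((mem_fix_iff S jj ζ z).mp hz).1
      have h2 := hR z h1 j
      rw [hzj, Complex.norm_real, Real.norm_eq_abs] at h2
      have h3 : (0 : ℝ) ≤ |R| := abs_nonneg R
      have h4 : (0 : ℝ) ≤ (m : ℝ) := Nat.cast_nonneg m
      rw [abs_of_nonneg (by linarith)] at h2
      have h5 := le_abs_self R
      linarith
  exact hinf hcof

theorem FQ (n : ℕ) (S : Set (Eqn n)) (hS : MaxSys n S) :
    (∀ x ∈ Sol S, ∀ i, ‖x i‖ ≤ (2 : ℝ) ^ ((2 : ℝ) ^ ((n : ℝ) - 2))) ↔ (Sol S).Finite := by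
  classical
  constructor
  · intro h
    exact BF S _ h
  · intro hfin x hx i
    by_cases h1 : ∃ i0, Eqn.one i0 ∈ S
    · obtain ⟨i0, hi0⟩ := h1
      exact FA n S i0 hi0 hfin x hx i
    · push Not at h1
      have hmem : Eqn.add i i i ∈ S := by
        by_contra hni
        refine hS.2.2 (insert (Eqn.add i i i) S) (Set.ssubset_insert hni) ?_ ?_
        · rintro e (rfl | he)
          · exact le_refl i
          · exact hS.1 he
        · refine ⟨fun _ => 0, ?_⟩
          rintro e (rfl | he)
          · show (0 : ℂ) + 0 = 0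
            norm_num
          · cases e with
            | one k => exact absurd he (h1 k)
            | add a b c =>
              show (0 : ℂ) + 0 = 0
              norm_num
            | mul a b c =>
              show (0 : ℂ) * 0 = 0
              norm_num
      have h2 : x i + x i = x i := hx _ hmem
      have h3 : x i = 0 := by
        have := congrArg (fun t => t - x i) h2
        simpa using this
      rw [h3, norm_zero]
      positivity

end H58D
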