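import Pool.Agent.Lib.H58D.Defs

/-! Chunk G1 (size S).  In a domain the monomials only depend on the class of the exponent modulo the lattice of relations.

Proof.  Let `F = FractionRing B`, `g : (ι → ℤ) → F`, `g u = ∏ i, (y i : F) ^ (u i)` (`zpow`, all `y i ≠ 0`).  `g (u + v) = g u * g v`, `g (-u) = (g u)⁻¹`.
The set of `v` with `g v = 1` is an additive subgroup; it contains `dvec (p s) (m s)` by `h`, hence all of `latt`.  So
`g (dvec u u') = 1`, i.e. `mon y u = mon y u'` in `F`, hence in `B`. -/

namespace H58D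

theorem G1 {ι : Type*} [Fintype ι] {B : Type*} [CommRing B] [IsDomain B] (y : ι → B)
    (hy : ∀ i, y i ≠ 0) {κ : Type*} (p m : κ → ι → ℕ) (h : ∀ s, mon y (p s) = mon y (m s))
    (u u' : ι → ℕ) (huu : dvec u u' ∈ latt (fun s => dvec (p s) (m s))) :
    mon y u = mon y u' := by
  let F := FractionRing B
  let f : ι → F := fun i => algebraMap B F (y i)
  have hinj : Function.Injective (algebraMap B F) := IsFractionRing.injective B F
  have hf : ∀ i, f i ≠ 0 := fun i h0 => hy i (hinj (by rw [map_zero]; exact h0))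
  let g : (ι → ℤ) → F := fun v => ∏ i, f i ^ (v i)
  have hmon : ∀ w : ι → ℕ, algebraMap B F (mon y w) = ∏ i, f i ^ (w i) := by
    intro w
    simp only [mon, map_prod, map_pow]
    rfl
  have hne : ∀ w : ι → ℕ, algebraMap B F (mon y w) ≠ 0 := by
    intro w
    rw [hmon w]
    exact Finset.prod_ne_zero_iff.2 fun i _ => pow_ne_zero _ (hf i)
  have hgd : ∀ a b : ι → ℕ, g (dvec a b) = algebraMap B F (mon y a) / algebraMap B F (mon y b) := by
    intro a b
    rw [hmon, hmon, ← Finset.prod_div_distrib]
    refine Finset.prod_congr rfl fun i _ => ?_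
    simp only [dvec]
    rw [zpow_sub₀ (hf i), zpow_natCast, zpow_natCast]
  have hadd : ∀ v w : ι → ℤ, g (v + w) = g v * g w := by
    intro v w
    simp only [g, ← Finset.prod_mul_distrib, Pi.add_apply]
    exact Finset.prod_congr rfl fun i _ => zpow_add₀ (hf i) _ _
  have hneg : ∀ v : ι → ℤ, g (-v) = (g v)⁻¹ := by
    intro v
    refine eq_inv_of_mul_eq_one_left ?_
    rw [← hadd, neg_add_cancel]
    simp [g]
  have hzero : g 0 = 1 := by
    simp [g]
  have key : ∀ v ∈ latt (fun s => dvec (p s) (m s)), g v = 1 := by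
    intro v hv
    refine AddSubgroup.closure_induction (p := fun v _ => g v = 1) ?_ ?_ ?_ ?_ hv
    · rintro _ ⟨s, rfl⟩
      change g (dvec (p s) (m s)) = 1
      rw [hgd, h s]
      exact div_self (hne _)
    · exact hzero
    · intro a b _ _ ha hb
      rw [hadd, ha, hb, one_mul]
    · intro a _ ha
      rw [hneg, ha, inv_one]
  have h1 := key _ huu
  rw [hgd, div_eq_one_iff_eq (hne _)] at h1
  exact hinj h1

end H58D
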