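import Pool.Agent.Lib.H58D.Defs

/-! Chunk L0 (size M).  Basic facts on `wS`.

Proof.  The set in the definition of `wS` is the image of the finite set of tuples of elements of the finite set `S`, so it is finite and bounded:
`L0a` is `le_csSup`.  `L0b`: `S` spans `L`, so it contains a maximal linearly independent subset, which has `finrank ℤ L` elements
(e.g. pass to `ℚ ⊗ L` or use `Module.finrank` facts; `exists_linearIndependent` works over the domain `ℤ`: a maximal linearly independent subset `I` of `S`
has `L ⧸ span I` torsion, so `finrank (span I) = finrank L`); enumerate it as `v : Fin (finrank ℤ L) → L`.  The quotient `L ⧸ span (range v)` is finitely generated and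
torsion, hence finite, so the index is positive.  As the `sSup` of a nonempty finite set of naturals is attained, there is a tuple with index `= wS S ≥ 1`; this tuple is linearly
independent since otherwise the span has smaller rank and infinite index (index `0`). -/

namespace H58D

private theorem L0_finite {L : Type*} [AddCommGroup L] (S : Set L) (hfin : S.Finite) :
    {d | ∃ v : Fin (Module.finrank ℤ L) → L, (∀ s, v s ∈ S) ∧
      d = (Submodule.span ℤ (Set.range v)).toAddSubgroup.index}.Finite := by
  have h1 : {v : Fin (Module.finrank ℤ L) → L | ∀ s, v s ∈ S}.Finite := by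
    have h2 := Set.Finite.pi (fun _ : Fin (Module.finrank ℤ L) => hfin)
    refine h2.subset ?_
    intro v hv
    rw [Set.mem_univ_pi]
    exact hv
  refine (h1.image (fun v => (Submodule.span ℤ (Set.range v)).toAddSubgroup.index)).subset ?_
  rintro d ⟨v, hv, rfl⟩
  exact ⟨v, hv, rfl⟩

theorem L0a {L : Type*} [AddCommGroup L] (S : Set L) (hfin : S.Finite)
    (v : Fin (Module.finrank ℤ L) → L) (hv : ∀ s, v s ∈ S) :
    (Submodule.span ℤ (Set.range v)).toAddSubgroup.index ≤ wS S := by
  unfold wS
  exact le_csSup (L0_finite S hfin).bddAbove ⟨v, hv, rfl⟩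

/-- A tuple of the right length with a span of finite index is linearly independent. -/
private theorem L0_indep {L : Type*} [AddCommGroup L] [Module.Free ℤ L] [Module.Finite ℤ L]
    (v : Fin (Module.finrank ℤ L) → L)
    (h : (Submodule.span ℤ (Set.range v)).toAddSubgroup.index ≠ 0) : LinearIndependent ℤ v := by
  have hfq : Finite (L ⧸ Submodule.span ℤ (Set.range v)) := by
    have h1 : Finite (L ⧸ (Submodule.span ℤ (Set.range v)).toAddSubgroup) :=
      Nat.finite_of_card_ne_zero h
    exact h1
  have hr : Module.finrank ℤ (Submodule.span ℤ (Set.range v)) = Module.finrank ℤ L :=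
    (Submodule.finiteQuotient_iff _).mp hfq
  let b := Module.finBasisOfFinrankEq ℤ (Submodule.span ℤ (Set.range v)) hr
  let f : (Fin (Module.finrank ℤ L) → ℤ) →ₗ[ℤ] Submodule.span ℤ (Set.range v) :=
    (Fintype.linearCombination ℤ v).codRestrict _ (by
      intro c
      rw [Fintype.linearCombination_apply]
      exact Submodule.sum_mem _ (fun i _ => Submodule.smul_mem _ _
        (Submodule.subset_span (Set.mem_range_self i))))
  have hf : Function.Surjective f := by
    rintro ⟨x, hx⟩
    rw [← Fintype.range_linearCombination ℤ v] at hx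
    obtain ⟨c, rfl⟩ := hx
    exact ⟨c, rfl⟩
  have hi : Function.Injective f :=
    OrzechProperty.injective_of_surjective_of_injective (b.equivFun.symm : _ →ₗ[ℤ] _) f
      b.equivFun.symm.injective hf
  rw [Fintype.linearIndependent_iff]
  intro g hg i
  have h0 : f g = 0 := by
    apply Subtype.ext
    change Fintype.linearCombination ℤ v g = 0
    rw [Fintype.linearCombination_apply]
    exact hg
  have h1 : g = 0 := hi (by rw [h0, map_zero])
  rw [h1]
  rfl

theorem L0b {L : Type*} [AddCommGroup L] [Module.Free ℤ L] [Module.Finite ℤ L] (S : Set L)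
    (hfin : S.Finite) (hspan : Submodule.span ℤ S = ⊤) :
    ∃ v : Fin (Module.finrank ℤ L) → L, (∀ s, v s ∈ S) ∧ LinearIndependent ℤ v ∧
      (Submodule.span ℤ (Set.range v)).toAddSubgroup.index = wS S ∧ 0 < wS S := by
  obtain ⟨I, hI, hmax⟩ := exists_maximal_linearIndepOn ℤ (fun s : S => (s : L))
  have hSfin : Finite S := hfin
  have hIfin : Finite I := inferInstance
  have := Fintype.ofFinite I
  set N : Submodule ℤ L := Submodule.span ℤ ((fun s : S => (s : L)) '' I) with hN
  have htor : ∀ x : L, ∃ a : ℤ, a ≠ 0 ∧ a • x ∈ N := by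
    intro x
    have hx : x ∈ Submodule.span ℤ S := by rw [hspan]; exact Submodule.mem_top
    induction hx using Submodule.span_induction with
    | mem x hx =>
      by_cases hm : (⟨x, hx⟩ : S) ∈ I
      · exact ⟨1, one_ne_zero, by
          rw [one_smul]
          exact Submodule.subset_span ⟨⟨x, hx⟩, hm, rfl⟩⟩
      · obtain ⟨a, ha, ha'⟩ := hmax ⟨x, hx⟩ hm
        exact ⟨a, ha, ha'⟩
    | zero => exact ⟨1, one_ne_zero, by rw [smul_zero]; exact N.zero_mem⟩
    | add x y _ _ hx hy =>
      obtain ⟨a, ha, hax⟩ := hx
      obtain ⟨b, hb, hby⟩ := hy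
      refine ⟨a * b, mul_ne_zero ha hb, ?_⟩
      rw [smul_add]
      refine N.add_mem ?_ ?_
      · rw [mul_comm, mul_smul]
        exact N.smul_mem _ hax
      · rw [mul_smul]
        exact N.smul_mem _ hby
    | smul c x _ hx =>
      obtain ⟨a, ha, hax⟩ := hx
      refine ⟨a, ha, ?_⟩
      rw [smul_comm]
      exact N.smul_mem _ hax
  have hfq : Finite (L ⧸ N) := by
    refine Module.finite_of_fg_torsion (L ⧸ N) ?_
    intro q
    obtain ⟨x, rfl⟩ := Submodule.Quotient.mk_surjective N q
    obtain ⟨a, ha, hax⟩ := htor x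
    refine ⟨⟨a, mem_nonZeroDivisors_of_ne_zero ha⟩, ?_⟩
    change a • (Submodule.Quotient.mk x : L ⧸ N) = 0
    rw [← Submodule.Quotient.mk_smul, Submodule.Quotient.mk_eq_zero]
    exact hax
  have hr : Module.finrank ℤ N = Module.finrank ℤ L := (Submodule.finiteQuotient_iff _).mp hfq
  have hind : LinearIndependent ℤ (fun i : I => ((i : S) : L)) := hI
  have hrange : Set.range (fun i : I => ((i : S) : L)) = (fun s : S => (s : L)) '' I := by
    ext x
    simp
  have hcard : Fintype.card I = Module.finrank ℤ L := by
    rw [← hr, hN, ← hrange, finrank_span_eq_card hind]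
  let e : Fin (Module.finrank ℤ L) ≃ I := (Fintype.equivFinOfCardEq hcard).symm
  have hrange2 : Set.range (fun i => ((e i : S) : L)) = (fun s : S => (s : L)) '' I := by
    rw [← hrange]
    exact e.surjective.range_comp (fun i : I => ((i : S) : L))
  have hidx : (Submodule.span ℤ (Set.range (fun i => ((e i : S) : L)))).toAddSubgroup.index ≠ 0 := by
    rw [hrange2]
    have h1 : Finite (L ⧸ N.toAddSubgroup) := hfq
    exact Nat.card_ne_zero.mpr ⟨inferInstance, h1⟩
  have hle := L0a S hfin (fun i => ((e i : S) : L)) (fun i => (e i : S).2)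
  have hpos : 0 < wS S := lt_of_lt_of_le (Nat.pos_of_ne_zero hidx) hle
  have hmem : wS S ∈ {d | ∃ v : Fin (Module.finrank ℤ L) → L, (∀ s, v s ∈ S) ∧
      d = (Submodule.span ℤ (Set.range v)).toAddSubgroup.index} := by
    unfold wS
    exact Nat.sSup_mem ⟨_, ⟨fun i => ((e i : S) : L), fun i => (e i : S).2, rfl⟩⟩
      (L0_finite S hfin).bddAbove
  obtain ⟨v, hv, hvi⟩ := hmem
  refine ⟨v, hv, L0_indep v ?_, hvi.symm, hpos⟩
  rw [← hvi]
  exact hpos.ne'

end H58D
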