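import Pool.Agent.Lib.H58D.L0
import Pool.Agent.Lib.H58D.L1

/-! Chunk L2 (size M).  Multilinear expansion.

Proof.  Let `r = finrank ℤ L`, `κ ≃ Fin r`; it suffices to treat `κ = Fin r` (reindex; the span of the range does not change).
Let `b` be a basis of `L` indexed by `Fin r` (`Module.finBasis`).  By `L1` the index is `|b.det v|`.
Write `v j = Σ_s c_j(s) s` with `c_j` finitely supported in `S` and `Σ_s |c_j(s)| ≤ C j`.  Multilinearity (`MultilinearMap.map_sum` /
`MultilinearMap.map_sum_finset`, with `b.det` as a multilinear map) gives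
`b.det v = Σ_{choice f} (Π_j c_j(f j)) b.det (f)`, and `|b.det f| = index ≤ wS S` by `L1` and `L0a`.  So
`|b.det v| ≤ Σ_f Π_j |c_j (f j)| · wS S = Π_j (Σ_s |c_j s|) · wS S ≤ Π_j C j · wS S` (`Finset.prod_univ_sum`).
(Alternatively induct on the number of `j` replaced.) -/

namespace H58D

theorem L2 {L : Type*} [AddCommGroup L] [Module.Free ℤ L] [Module.Finite ℤ L] (S : Set L)
    (hfin : S.Finite) {κ : Type*} [Fintype κ] (hκ : Fintype.card κ = Module.finrank ℤ L)
    (v : κ → L) (C : κ → ℕ) (hv : ∀ j, L1le S (C j) (v j)) :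
    (Submodule.span ℤ (Set.range v)).toAddSubgroup.index ≤ (∏ j, C j) * wS S := by
  classical
  choose c hcS hcv hcC using hv
  have e : Fin (Module.finrank ℤ L) ≃ κ := (Fintype.equivFinOfCardEq hκ).symm
  have b : Module.Basis κ ℤ L := (Module.finBasis ℤ L).reindex e
  rw [L1 b v]
  have hkey : ∀ w : κ → L, (∀ j, w j ∈ S) → (b.det w).natAbs ≤ wS S := by
    intro w hw
    rw [← L1 b w]
    have h := L0a S hfin (w ∘ e) (fun s => hw _)
    rwa [Set.range_comp, e.surjective.range_eq, Set.image_univ] at h
  have hexp : b.det v =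
      ∑ r ∈ Fintype.piFinset (fun j => (c j).support), (∏ j, c j (r j)) * b.det r := by
    have h1 : v = fun j => ∑ s ∈ (c j).support, c j s • s := by
      funext j
      exact hcv j
    have h2 : b.det v = b.det.toMultilinearMap (fun j => ∑ s ∈ (c j).support, c j s • s) := by
      rw [← h1]
      rfl
    rw [h2, MultilinearMap.map_sum_finset]
    refine Finset.sum_congr rfl (fun r _ => ?_)
    rw [MultilinearMap.map_smul_univ]
    rfl
  rw [hexp]
  calc (∑ r ∈ Fintype.piFinset (fun j => (c j).support), (∏ j, c j (r j)) * b.det r).natAbs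
      ≤ ∑ r ∈ Fintype.piFinset (fun j => (c j).support),
          ((∏ j, c j (r j)) * b.det r).natAbs := by
        have h3 := Finset.abs_sum_le_sum_abs
          (fun r => (∏ j, c j (r j)) * b.det r) (Fintype.piFinset (fun j => (c j).support))
        zify
        exact h3
    _ ≤ ∑ r ∈ Fintype.piFinset (fun j => (c j).support),
          (∏ j, (c j (r j)).natAbs) * wS S := by
        refine Finset.sum_le_sum (fun r hr => ?_)
        rw [Int.natAbs_mul]
        have h4 : (∏ j, c j (r j)).natAbs = ∏ j, (c j (r j)).natAbs :=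
          map_prod Int.natAbsHom _ _
        rw [h4]
        refine Nat.mul_le_mul_left _ (hkey r (fun j => hcS j ?_))
        exact (Fintype.mem_piFinset.mp hr) j
    _ = (∏ j, ∑ s ∈ (c j).support, (c j s).natAbs) * wS S := by
        rw [Finset.prod_univ_sum, Finset.sum_mul]
    _ ≤ (∏ j, C j) * wS S := by
        refine Nat.mul_le_mul_right _ (Finset.prod_le_prod' (fun j _ => hcC j))

end H58D
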