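import Pool.Agent.Lib.H58D.Defs

/-! Chunk L3 (size M).  Lower bound for the index of `⟨τw, e, u⟩`.

Proof.  `K = ker π`, `H = span (range of the combined family) ⊆ L`, `H₁ = span (τw, e) ⊆ K`, `H' = span (π u) ⊆ L'`.
(i) `π(H) = H'`, and `H ∩ K = H₁`: if `h = Σ a τw + Σ b e + Σ c u ∈ K` then `Σ c π u = 0`, so `c = 0` as `π ∘ u` is independent.
So `[L : H] = [L' : H'] · [K : H₁]` (`AddSubgroup` index formulas: `[L:H] = [L : H+K] [H+K : H]`, `[L : H + K] = [L' : H']` by surjectivity, `[H+K : H] = [K : H ∩ K]`;
for instance `AddSubgroup.index_map`, `AddSubgroup.relIndex_sup_right`, `AddSubgroup.relIndex_inf_mul_relIndex`...).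
(ii) `M ⧸ span w → K ⧸ H₁` induced by `τ` is injective: if `τ z = Σ a τ w + Σ b e`, multiply by `N ≥ 1` with `N z ∈ span w`
(`w` is independent with `finrank M` elements, so the quotient is torsion), then independence of `(τ w, e)` gives `N b = 0`, `b = 0`, and `z = Σ a w` by injectivity of `τ`.
(iii) All indices are finite (nonzero): `[L : H]` is nonzero because the combined family is linearly independent (by (i)) and has `finrank L` members.  So
`[K : H₁] ≥ [M : span w]` and the claim follows.
It may be easier to do everything with `Nat.card` of quotients, or with determinants in adapted bases. -/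

namespace H58D

/-- A linearly independent family with as many members as the rank spans a submodule of finite index. -/
private theorem L3_finite {A : Type*} [AddCommGroup A] [Module.Free ℤ A] [Module.Finite ℤ A]
    {ι : Type*} [Fintype ι] (v : ι → A) (hv : LinearIndependent ℤ v)
    (hc : Fintype.card ι = Module.finrank ℤ A) :
    (Submodule.span ℤ (Set.range v)).toAddSubgroup.index ≠ 0 := by
  have h1 : Module.finrank ℤ (Submodule.span ℤ (Set.range v)) = Module.finrank ℤ A := by
    rw [finrank_span_eq_card hv, hc]
  have h2 : Finite (A ⧸ Submodule.span ℤ (Set.range v)) :=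
    Submodule.finiteQuotientOfFreeOfRankEq _ h1
  have h3 : Finite (A ⧸ (Submodule.span ℤ (Set.range v)).toAddSubgroup) := h2
  exact AddSubgroup.index_ne_zero_of_finite

theorem L3 {L L' M : Type*} [AddCommGroup L] [AddCommGroup L'] [AddCommGroup M]
    [Module.Free ℤ L] [Module.Finite ℤ L] [Module.Free ℤ L'] [Module.Finite ℤ L']
    [Module.Free ℤ M] [Module.Finite ℤ M]
    (π : L →ₗ[ℤ] L') (hπ : Function.Surjective π) (τ : M →ₗ[ℤ] L) (hτ : Function.Injective τ)
    (hπτ : ∀ z, π (τ z) = 0) (c : ℕ)
    (hcard : Module.finrank ℤ M + c + Module.finrank ℤ L' = Module.finrank ℤ L)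
    (w : Fin (Module.finrank ℤ M) → M) (hw : LinearIndependent ℤ w)
    (e : Fin c → L) (he : ∀ j, π (e j) = 0)
    (hind : LinearIndependent ℤ (Sum.elim (fun s => τ (w s)) e))
    (u : Fin (Module.finrank ℤ L') → L) (hu : LinearIndependent ℤ (fun s => π (u s))) :
    (Submodule.span ℤ (Set.range w)).toAddSubgroup.index *
        (Submodule.span ℤ (Set.range (fun s => π (u s)))).toAddSubgroup.index ≤
      (Submodule.span ℤ (Set.range
        (Sum.elim (Sum.elim (fun s => τ (w s)) e) u))).toAddSubgroup.index := by
  classical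
  set W := (Submodule.span ℤ (Set.range w)).toAddSubgroup with hW
  set U := (Submodule.span ℤ (Set.range (fun s => π (u s)))).toAddSubgroup with hU
  set v : (Fin (Module.finrank ℤ M) ⊕ Fin c) ⊕ Fin (Module.finrank ℤ L') → L :=
    Sum.elim (Sum.elim (fun s => τ (w s)) e) u with hv
  set HS := Submodule.span ℤ (Set.range v) with hHS
  set H := HS.toAddSubgroup with hH
  have hv1 : LinearIndependent ℤ v := by
    rw [Fintype.linearIndependent_iff]
    intro g hg
    have h1 : ∑ i, g (Sum.inl i) • v (Sum.inl i) + ∑ s, g (Sum.inr s) • v (Sum.inr s) = 0 := by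
      rw [Fintype.sum_sum_type] at hg
      exact hg
    have h2 : ∀ i, π (v (Sum.inl i)) = 0 := by
      intro i
      rcases i with i | i
      · exact hπτ _
      · exact he _
    have h3 : ∑ s, g (Sum.inr s) • π (u s) = 0 := by
      have := congrArg π h1
      simp only [map_add, map_sum, map_smul, h2, smul_zero, Finset.sum_const_zero, zero_add,
        map_zero] at this
      exact this
    have h4 : ∀ s, g (Sum.inr s) = 0 := Fintype.linearIndependent_iff.1 hu _ h3
    have h5 : ∑ i, g (Sum.inl i) • Sum.elim (fun s => τ (w s)) e i = 0 := by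
      have : ∑ s, g (Sum.inr s) • v (Sum.inr s) = 0 :=
        Finset.sum_eq_zero fun s _ => by rw [h4 s, zero_smul]
      rw [this, add_zero] at h1
      exact h1
    have h6 : ∀ i, g (Sum.inl i) = 0 :=
      Fintype.linearIndependent_iff.1 hind (fun i => g (Sum.inl i)) h5
    intro i
    rcases i with i | i
    · exact h6 i
    · exact h4 i
  have hHne : H.index ≠ 0 := by
    refine L3_finite v hv1 ?_
    simp only [Fintype.card_sum, Fintype.card_fin]
    exact hcard
  have hWne : W.index ≠ 0 := L3_finite w hw (by simp)
  -- image of H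
  have hmap : H.map (π : L →+ L') = U := by
    have h1 : (Submodule.map π HS).toAddSubgroup = U := by
      congr 1
      rw [hHS, Submodule.map_span]
      apply le_antisymm
      · rw [Submodule.span_le]
        rintro _ ⟨_, ⟨i, rfl⟩, rfl⟩
        rcases i with (i | i) | i
        · have : π (v (Sum.inl (Sum.inl i))) = 0 := hπτ _
          rw [this]
          exact Submodule.zero_mem _
        · have : π (v (Sum.inl (Sum.inr i))) = 0 := he _
          rw [this]
          exact Submodule.zero_mem _
        · exact Submodule.subset_span ⟨i, rfl⟩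
      · apply Submodule.span_mono
        rintro _ ⟨i, rfl⟩
        exact ⟨u i, ⟨Sum.inr i, rfl⟩, rfl⟩
    rw [← h1]
    rfl
  have hker : (π : L →+ L').range = ⊤ := by
    rw [AddMonoidHom.range_eq_top]
    exact hπ
  have hU2 : U.index = (H ⊔ (π : L →+ L').ker).index := by
    rw [← hmap, AddSubgroup.index_map, hker, AddSubgroup.index_top, mul_one]
  have h3 : H.relIndex (H ⊔ (π : L →+ L').ker) * (H ⊔ (π : L →+ L').ker).index = H.index :=
    AddSubgroup.relIndex_mul_index le_sup_left
  have h4 : H.relIndex (H ⊔ (π : L →+ L').ker) = H.relIndex (π : L →+ L').ker := by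
    rw [sup_comm]
    exact AddSubgroup.relIndex_sup_right _ _
  rw [h4, ← hU2] at h3
  have hrel : H.relIndex (π : L →+ L').ker ≠ 0 := by
    intro h
    rw [h, zero_mul] at h3
    exact hHne h3.symm
  have h5 : H.relIndex (τ : M →+ L).range ≤ H.relIndex (π : L →+ L').ker := by
    refine AddSubgroup.relIndex_le_of_le_right ?_ hrel
    rintro _ ⟨z, rfl⟩
    exact hπτ z
  have h5' : H.relIndex (τ : M →+ L).range ≠ 0 := fun h =>
    hHne (AddSubgroup.index_eq_zero_of_relIndex_eq_zero h)
  have h8 : H.comap (τ : M →+ L) ≤ W := by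
    intro z hz
    have hz1 : τ z ∈ HS := hz
    rw [hHS, Submodule.mem_span_range_iff_exists_fun] at hz1
    obtain ⟨g, hg⟩ := hz1
    rw [Fintype.sum_sum_type] at hg
    have h2 : ∀ i, π (v (Sum.inl i)) = 0 := by
      intro i
      rcases i with i | i
      · exact hπτ _
      · exact he _
    have h3 : ∑ s, g (Sum.inr s) • π (u s) = 0 := by
      have := congrArg π hg
      simp only [map_add, map_sum, map_smul, h2, smul_zero, Finset.sum_const_zero, zero_add,
        hπτ] at this
      exact this
    have h4 : ∀ s, g (Sum.inr s) = 0 := Fintype.linearIndependent_iff.1 hu _ h3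
    have h5 : ∑ s, g (Sum.inr s) • v (Sum.inr s) = 0 :=
      Finset.sum_eq_zero fun s _ => by rw [h4 s, zero_smul]
    rw [h5, add_zero, Fintype.sum_sum_type] at hg
    -- multiply by the index of W
    set N : ℕ := W.index with hN
    have h6 : N • z ∈ W := AddSubgroup.nsmul_index_mem W z
    have h6' : N • z ∈ Submodule.span ℤ (Set.range w) := h6
    rw [Submodule.mem_span_range_iff_exists_fun] at h6'
    obtain ⟨d, hd⟩ := h6'
    have h7 : ∑ i, ((N : ℤ) * g (Sum.inl i) - Sum.elim d (fun _ => 0) i) •
        Sum.elim (fun s => τ (w s)) e i = 0 := by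
      have h8 : ∑ s, d s • τ (w s) = N • τ z := by
        rw [← map_nsmul, ← hd, map_sum]
        simp only [map_smul]
      rw [Fintype.sum_sum_type]
      simp only [Sum.elim_inl, Sum.elim_inr, sub_zero]
      simp only [sub_smul, Finset.sum_sub_distrib, mul_smul, ← Finset.smul_sum]
      rw [h8, ← hg]
      simp only [hv, Sum.elim_inl, Sum.elim_inr, smul_add, natCast_zsmul]
      abel
    have h8 := Fintype.linearIndependent_iff.1 hind _ h7
    have h9 : ∀ j, g (Sum.inl (Sum.inr j)) = 0 := by
      intro j
      have := h8 (Sum.inr j)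
      simp only [Sum.elim_inr, sub_zero] at this
      rcases mul_eq_zero.1 this with h | h
      · exact absurd (by exact_mod_cast h) hWne
      · exact h
    have h10 : ∑ j, g (Sum.inl (Sum.inr j)) • v (Sum.inl (Sum.inr j)) = 0 :=
      Finset.sum_eq_zero fun s _ => by rw [h9 s, zero_smul]
    rw [h10, add_zero] at hg
    have h11 : z = ∑ s, g (Sum.inl (Sum.inl s)) • w s := by
      apply hτ
      rw [← hg, map_sum]
      simp only [map_smul]
      rfl
    rw [h11]
    exact Submodule.sum_mem _ fun s _ => Submodule.smul_mem _ _ (Submodule.subset_span ⟨s, rfl⟩)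
  have h9 : W.index ≤ (H.comap (τ : M →+ L)).index := by
    have h10 : (H.comap (τ : M →+ L)).relIndex W * W.index = (H.comap (τ : M →+ L)).index :=
      AddSubgroup.relIndex_mul_index h8
    rw [AddSubgroup.index_comap] at h10 ⊢
    rw [← h10]
    refine Nat.le_mul_of_pos_left _ (Nat.pos_of_ne_zero ?_)
    intro h
    rw [h, zero_mul] at h10
    exact h5' h10.symm
  rw [AddSubgroup.index_comap] at h9
  calc W.index * U.index ≤ H.relIndex (π : L →+ L').ker * U.index :=
        Nat.mul_le_mul_right _ (h9.trans h5)
    _ = H.index := h3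

end H58D
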