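import Pool.Agent.Lib.H58D.Defs

/-! Chunk L4 (size M).  Choice of the extra elements.

Proof.  `K = ker π` is free of rank `finrank L - finrank L'` (rank-nullity, `π` onto).  The submodule `K₀ = range τ` has rank `finrank M` (`τ` injective).
Among the subsets of `E` which are linearly independent modulo `K₀ ⊗ ℚ` choose a maximal one (their size is bounded by the rank); it has `c` elements `e 1, ..., e c`, where
`finrank M + c = finrank K` because by `hker` the span of `K₀` and `E` has finite index in `K` (torsion quotient).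
Precisely, work in the quotient `L ⧸ K₀` (a f.g. abelian group): choose a maximal subset of the image of `E` which is `ℤ`-linearly independent there;
every element of the image of `K` is torsion modulo its span, so its size is `finrank (K ⧸ K₀) = finrank K - finrank M`.
If `w` is independent in `M` then `(τ w, e)` is independent: a relation `Σ a τ w + Σ b e = 0` gives `Σ b e ∈ K₀`, so `b = 0` by independence in the quotient, then
`a = 0` by injectivity of `τ`.  (Everything can also be done over `ℚ` after tensoring.) -/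

namespace H58D

private theorem L4_tors_mem {L : Type*} [AddCommGroup L] (N : Submodule ℤ L) (x : L) :
    x ∈ Submodule.comap N.mkQ (Submodule.torsion ℤ (L ⧸ N)) ↔ ∃ n : ℤ, n ≠ 0 ∧ n • x ∈ N := by
  rw [Submodule.mem_comap, Submodule.mem_torsion_iff]
  constructor
  · rintro ⟨a, ha⟩
    refine ⟨a, nonZeroDivisors.ne_zero a.2, ?_⟩
    have h2 : N.mkQ ((a : ℤ) • x) = 0 := by
      rw [map_smul]; exact ha
    rwa [← LinearMap.mem_ker, Submodule.ker_mkQ] at h2
  · rintro ⟨n, hn, h⟩
    refine ⟨⟨n, mem_nonZeroDivisors_of_ne_zero hn⟩, ?_⟩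
    have h2 : N.mkQ (n • x) = 0 := by rwa [← LinearMap.mem_ker, Submodule.ker_mkQ]
    rw [map_smul] at h2
    exact h2

private theorem L4_finrank_eq {L : Type*} [AddCommGroup L] [Module.Finite ℤ L]
    (N K : Submodule ℤ L) (hNK : N ≤ K) (h : ∀ k ∈ K, ∃ n : ℤ, n ≠ 0 ∧ n • k ∈ N) :
    Module.finrank ℤ N = Module.finrank ℤ K := by
  have h1 := Submodule.finrank_quotient_add_finrank (N.submoduleOf K)
  have h2 : Module.finrank ℤ (N.submoduleOf K) = Module.finrank ℤ N :=
    LinearEquiv.finrank_eq (Submodule.submoduleOfEquivOfLe hNK)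
  have h3 : Module.IsTorsion ℤ (K ⧸ N.submoduleOf K) := by
    intro x
    obtain ⟨k, rfl⟩ := Submodule.Quotient.mk_surjective _ x
    obtain ⟨n, hn, hk⟩ := h k k.2
    refine ⟨⟨n, mem_nonZeroDivisors_of_ne_zero hn⟩, ?_⟩
    change n • (Submodule.Quotient.mk k : K ⧸ N.submoduleOf K) = 0
    rw [← Submodule.Quotient.mk_smul, Submodule.Quotient.mk_eq_zero]
    exact hk
  have h4 := h3.finrank_eq_zero
  omega

theorem L4 {L L' M : Type*} [AddCommGroup L] [AddCommGroup L'] [AddCommGroup M]
    [Module.Free ℤ L] [Module.Finite ℤ L] [Module.Free ℤ L'] [Module.Finite ℤ L']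
    [Module.Free ℤ M] [Module.Finite ℤ M]
    (π : L →ₗ[ℤ] L') (hπ : Function.Surjective π) (τ : M →ₗ[ℤ] L) (hτ : Function.Injective τ)
    (hπτ : ∀ z, π (τ z) = 0) (E : Set L) (hE : ∀ e ∈ E, π e = 0)
    (hker : ∀ k, π k = 0 → ∃ n : ℤ, n ≠ 0 ∧ n • k ∈ LinearMap.range τ ⊔ Submodule.span ℤ E) :
    ∃ (c : ℕ) (e : Fin c → L), (∀ j, e j ∈ E) ∧
      Module.finrank ℤ M + c + Module.finrank ℤ L' = Module.finrank ℤ L ∧
      ∀ (w : Fin (Module.finrank ℤ M) → M), LinearIndependent ℤ w →
        LinearIndependent ℤ (Sum.elim (fun s => τ (w s)) e) := by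
  classical
  obtain ⟨s, hs, hmax⟩ := exists_maximal_linearIndepOn ℤ
    (fun x : E => (LinearMap.range τ).mkQ (x : L))
  have hsfin : Finite s := LinearIndependent.finite_of_isNoetherian hs
  have : Fintype s := Fintype.ofFinite s
  let eq : Fin (Fintype.card s) ≃ s := (Fintype.equivFin s).symm
  let e : Fin (Fintype.card s) → L := fun j => ((eq j : s) : E)
  have heE : ∀ j, e j ∈ E := fun j => ((eq j : s) : E).2
  have heq : LinearIndependent ℤ (fun j => (LinearMap.range τ).mkQ (e j)) :=
    LinearIndependent.comp hs eq eq.injective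
  have hLI : ∀ (w : Fin (Module.finrank ℤ M) → M), LinearIndependent ℤ w →
        LinearIndependent ℤ (Sum.elim (fun s => τ (w s)) e) := by
    intro w hw
    have hf : LinearIndependent ℤ (fun t => (⟨τ (w t), LinearMap.mem_range_self τ _⟩ :
        LinearMap.range τ)) := by
      have h1 : LinearIndependent ℤ ((LinearMap.range τ).subtype ∘
          fun t => (⟨τ (w t), LinearMap.mem_range_self τ _⟩ : LinearMap.range τ)) := by
        exact hw.map' τ (LinearMap.ker_eq_bot.2 hτ)
      exact LinearIndependent.of_comp _ h1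
    exact LinearIndependent.sumElim_of_quotient hf e heq
  refine ⟨Fintype.card s, e, heE, ?_, hLI⟩
  let b := Module.finBasis ℤ M
  have hF := hLI b b.linearIndependent
  set F := Sum.elim (fun t => τ (b t)) e with hFdef
  set N := Submodule.span ℤ (Set.range F) with hN
  have hcard : Module.finrank ℤ N = Module.finrank ℤ M + Fintype.card s := by
    rw [hN, finrank_span_eq_card hF]
    simp
  have hNK : N ≤ LinearMap.ker π := by
    rw [hN, Submodule.span_le]
    rintro x ⟨t, rfl⟩
    rcases t with t | t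
    · exact hπτ _
    · exact hE _ (heE t)
  have hτN : LinearMap.range τ ≤ N := by
    rintro x ⟨m, rfl⟩
    have h1 : m ∈ Submodule.span ℤ (Set.range b) := by rw [b.span_eq]; trivial
    have h2 : τ m ∈ Submodule.map τ (Submodule.span ℤ (Set.range b)) := ⟨m, h1, rfl⟩
    rw [Submodule.map_span] at h2
    refine Submodule.span_mono ?_ h2
    rintro y ⟨z, ⟨t, rfl⟩, rfl⟩
    exact ⟨Sum.inl t, rfl⟩
  have heN : ∀ j, e j ∈ N := fun j => Submodule.subset_span ⟨Sum.inr j, rfl⟩
  have hsN : ∀ y ∈ s, (y : L) ∈ N := by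
    intro y hy
    have := heN (eq.symm ⟨y, hy⟩)
    simpa [e] using this
  have hT : LinearMap.range τ ⊔ Submodule.span ℤ E ≤
      Submodule.comap N.mkQ (Submodule.torsion ℤ (L ⧸ N)) := by
    refine sup_le ?_ ?_
    · intro x hx
      rw [L4_tors_mem]
      exact ⟨1, one_ne_zero, by rw [one_smul]; exact hτN hx⟩
    · rw [Submodule.span_le]
      intro x hx
      rw [SetLike.mem_coe, L4_tors_mem]
      by_cases hxs : (⟨x, hx⟩ : E) ∈ s
      · exact ⟨1, one_ne_zero, by rw [one_smul]; exact hsN _ hxs⟩
      · obtain ⟨a, ha, hmem⟩ := hmax _ hxs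
        refine ⟨a, ha, ?_⟩
        have h1 : (LinearMap.range τ).mkQ (a • x) ∈ Submodule.map (LinearMap.range τ).mkQ
            (Submodule.span ℤ ((fun y : E => (y : L)) '' s)) := by
          rw [Submodule.map_span, map_smul]
          refine Submodule.span_mono ?_ hmem
          rintro _ ⟨y, hy, rfl⟩
          exact ⟨y, ⟨y, hy, rfl⟩, rfl⟩
        obtain ⟨z, hz, hz2⟩ := h1
        have h3 : z - a • x ∈ LinearMap.range τ := by
          rw [← Submodule.ker_mkQ (LinearMap.range τ), LinearMap.mem_ker, map_sub, hz2, sub_self]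
        have h4 : z ∈ N := by
          refine Submodule.span_le.2 ?_ hz
          rintro _ ⟨y, hy, rfl⟩
          exact hsN y hy
        have h5 := N.sub_mem h4 (hτN h3)
        rwa [sub_sub_cancel] at h5
  have hKN : Module.finrank ℤ N = Module.finrank ℤ (LinearMap.ker π) := by
    refine L4_finrank_eq N _ hNK ?_
    intro k hk
    obtain ⟨n, hn, hk2⟩ := hker k hk
    obtain ⟨n', hn', hk3⟩ := (L4_tors_mem N _).1 (hT hk2)
    refine ⟨n' * n, mul_ne_zero hn' hn, ?_⟩
    rw [mul_smul]
    exact hk3
  have hrn := Submodule.finrank_quotient_add_finrank (LinearMap.ker π)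
  have hq : Module.finrank ℤ (L ⧸ LinearMap.ker π) = Module.finrank ℤ L' :=
    LinearEquiv.finrank_eq (LinearMap.quotKerEquivOfSurjective π hπ)
  omega

end H58D
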