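import Pool.Agent.Lib.H58D.L2
import Pool.Agent.Lib.H58D.L3
import Pool.Agent.Lib.H58D.L4

/-! Chunk L5 (size S/M).  The abstract lattice step: assemble `L0, L2, L3, L4`.

Proof.  `L4` gives `c` and `e` (so `c = finrank L - finrank M - finrank L'`).  `L0b` for `SM` gives an independent tuple `w` in `SM` with index `wS SM`, `L0b` for `S'` an
independent tuple `u'` in `S'` with index `wS S'`; lift: `u s ∈ S`, `π (u s) = u' s`.  By `L4`, `(τ w, e)` is independent.  `L3`:
`wS SM * wS S' ≤ index of the combined family`.  `L2` for the combined family (index type `(Fin _ ⊕ Fin c) ⊕ Fin _`, card = `finrank L`)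
with the constants `3`, `C`, `1` (`u s ∈ S` has `L1le S 1`): index `≤ 3^(finrank M) * C^c * wS S`. -/

namespace H58D

private theorem L5_one {L : Type*} [AddCommGroup L] (S : Set L) {s : L} (hs : s ∈ S) :
    L1le S 1 s := by
  classical
  refine ⟨Finsupp.single s 1, ?_, ?_, ?_⟩
  · intro x hx
    have hx' := Finsupp.support_single_subset hx
    rw [Finset.mem_singleton] at hx'
    rw [hx']
    exact hs
  · rw [Finsupp.sum_single_index (by simp)]
    simp
  · rw [Finsupp.sum_single_index (by simp)]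
    simp

theorem L5 {L L' M : Type*} [AddCommGroup L] [AddCommGroup L'] [AddCommGroup M]
    [Module.Free ℤ L] [Module.Finite ℤ L] [Module.Free ℤ L'] [Module.Finite ℤ L']
    [Module.Free ℤ M] [Module.Finite ℤ M]
    (S : Set L) (hS : S.Finite) (S' : Set L') (hS'f : S'.Finite)
    (hS's : Submodule.span ℤ S' = ⊤) (SM : Set M) (hSM : SM.Finite)
    (hSMs : Submodule.span ℤ SM = ⊤)
    (π : L →ₗ[ℤ] L') (hπ : Function.Surjective π) (hS' : ∀ s' ∈ S', ∃ s ∈ S, π s = s')
    (τ : M →ₗ[ℤ] L) (hτ : Function.Injective τ) (hπτ : ∀ z, π (τ z) = 0)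
    (hT : ∀ w ∈ SM, L1le S 3 (τ w)) (C : ℕ) (E : Set L)
    (hE : ∀ e ∈ E, π e = 0 ∧ L1le S C e)
    (hker : ∀ k, π k = 0 → ∃ n : ℤ, n ≠ 0 ∧ n • k ∈ LinearMap.range τ ⊔ Submodule.span ℤ E) :
    Module.finrank ℤ L' + Module.finrank ℤ M ≤ Module.finrank ℤ L ∧
      wS S' * wS SM ≤ 3 ^ (Module.finrank ℤ M) *
        C ^ (Module.finrank ℤ L - Module.finrank ℤ M - Module.finrank ℤ L') * wS S := by
  classical
  obtain ⟨c, e, heE, hcard, hind⟩ := L4 π hπ τ hτ hπτ E (fun e he => (hE e he).1) hker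
  obtain ⟨w, hwS, hwi, hwx, -⟩ := L0b SM hSM hSMs
  obtain ⟨u', hu'S, hu'i, hu'x, -⟩ := L0b S' hS'f hS's
  choose u huS huπ using fun s => hS' (u' s) (hu'S s)
  have hπu : (fun s => π (u s)) = u' := funext huπ
  have h3 := L3 π hπ τ hτ hπτ c hcard w hwi e (fun j => (hE _ (heE j)).1) (hind w hwi) u
    (by rw [hπu]; exact hu'i)
  rw [hπu, hwx, hu'x] at h3
  have h2 := L2 S hS (κ := (Fin (Module.finrank ℤ M) ⊕ Fin c) ⊕ Fin (Module.finrank ℤ L'))
    (by simp [hcard]) (Sum.elim (Sum.elim (fun s => τ (w s)) e) u)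
    (Sum.elim (Sum.elim (fun _ => 3) (fun _ => C)) (fun _ => 1))
    (by
      rintro ((j | j) | j)
      · exact hT _ (hwS j)
      · exact (hE _ (heE j)).2
      · exact L5_one S (huS j))
  have hprod : (∏ j : (Fin (Module.finrank ℤ M) ⊕ Fin c) ⊕ Fin (Module.finrank ℤ L'),
      (Sum.elim (Sum.elim (fun _ => 3) (fun _ => C)) (fun _ => 1) j : ℕ)) =
      3 ^ (Module.finrank ℤ M) * C ^ c := by
    rw [Fintype.prod_sum_type, Fintype.prod_sum_type]
    simp
  rw [hprod] at h2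
  have hc : Module.finrank ℤ L - Module.finrank ℤ M - Module.finrank ℤ L' = c := by omega
  refine ⟨by omega, ?_⟩
  rw [hc, mul_comm (wS S') (wS SM)]
  exact h3.trans h2

end H58D
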