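import Pool.Agent.Lib.H58D.Defs

/-! Chunk L6 (size M).  Hadamard's inequality: real, integer and complex form.

Proof.  Real form: for `E = EuclideanSpace ℝ (Fin n)` with its standard orientation, `Orientation.abs_volumeForm_apply_le` says `|vol v| ≤ ∏ ‖v i‖` and the
volume form in the standard orthonormal basis is the determinant (`Orientation.volumeForm_robust` / `OrthonormalBasis.volumeForm...`).  Reindex from `X` to `Fin n`.
Integer form: cast to `ℝ` and square.  Complex form: e.g. Gram-Schmidt as in Mathlib's proof of `abs_volumeForm_apply_le`; or induction; or: `|det A|² = det (A A*)` and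
for a positive semidefinite hermitian matrix `det H ≤ ∏ H i i` (if Mathlib has it); or the real form for the `2n × 2n` real matrix of the complex map, whose determinant is
`|det A|²` and whose `2n` rows have norms `‖A i‖` twice. -/

namespace H58D

private theorem L6_fin {𝕜 : Type*} [RCLike 𝕜] {n : ℕ} (A : Matrix (Fin n) (Fin n) 𝕜) :
    ‖A.det‖ ^ 2 ≤ ∏ i, ∑ j, ‖A i j‖ ^ 2 := by
  let f : Fin n → EuclideanSpace 𝕜 (Fin n) := fun i => WithLp.toLp 2 (A i)
  have hd : Module.finrank 𝕜 (EuclideanSpace 𝕜 (Fin n)) = Fintype.card (Fin n) := by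
    simp
  let b := InnerProductSpace.gramSchmidtOrthonormalBasis hd f
  let e := EuclideanSpace.basisFun (Fin n) 𝕜
  have h1 : A.det = e.toBasis.det f := by
    rw [Module.Basis.det_apply, ← Matrix.det_transpose]
    congr 1
  have h2 : e.toBasis.det f = e.toBasis.det b * b.toBasis.det f := by
    rw [Module.Basis.det_apply, Module.Basis.det_apply, Module.Basis.det_apply, ← Matrix.det_mul]
    congr 1
    exact (Module.Basis.toMatrix_mul_toMatrix (b := e.toBasis) (b' := b.toBasis) f).symm
  have h3 : ‖e.toBasis.det b‖ = 1 := OrthonormalBasis.det_to_matrix_orthonormalBasis e b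
  have h4 : b.toBasis.det f = ∏ i, inner 𝕜 (b i) (f i) :=
    InnerProductSpace.gramSchmidtOrthonormalBasis_det hd f
  have h5 : ‖A.det‖ ≤ ∏ i, ‖f i‖ := by
    rw [h1, h2, norm_mul, h3, one_mul, h4, norm_prod]
    refine Finset.prod_le_prod (fun i _ => norm_nonneg _) (fun i _ => ?_)
    refine (norm_inner_le_norm (b i) (f i)).trans (le_of_eq ?_)
    rw [b.orthonormal.1 i, one_mul]
  calc ‖A.det‖ ^ 2 ≤ (∏ i, ‖f i‖) ^ 2 := by gcongr
    _ = ∏ i, ∑ j, ‖A i j‖ ^ 2 := by
        rw [← Finset.prod_pow]
        refine Finset.prod_congr rfl (fun i _ => ?_)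
        rw [EuclideanSpace.norm_sq_eq]

theorem L6complex {X : Type*} [Fintype X] [DecidableEq X] (A : Matrix X X ℂ) :
    ‖A.det‖ ^ 2 ≤ ∏ i, ∑ j, ‖A i j‖ ^ 2 := by
  have h := L6_fin (A.submatrix (Fintype.equivFin X).symm (Fintype.equivFin X).symm)
  rw [Matrix.det_submatrix_equiv_self] at h
  refine h.trans (le_of_eq ?_)
  rw [← Equiv.prod_comp (Fintype.equivFin X).symm]
  refine Finset.prod_congr rfl (fun i _ => ?_)
  rw [← Equiv.sum_comp (Fintype.equivFin X).symm]
  rfl

theorem L6real {X : Type*} [Fintype X] [DecidableEq X] (A : Matrix X X ℝ) :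
    (A.det) ^ 2 ≤ ∏ i, ∑ j, (A i j) ^ 2 := by
  have h := L6_fin (A.submatrix (Fintype.equivFin X).symm (Fintype.equivFin X).symm)
  rw [Matrix.det_submatrix_equiv_self, Real.norm_eq_abs, sq_abs] at h
  refine h.trans (le_of_eq ?_)
  rw [← Equiv.prod_comp (Fintype.equivFin X).symm]
  refine Finset.prod_congr rfl (fun i _ => ?_)
  rw [← Equiv.sum_comp (Fintype.equivFin X).symm]
  refine Finset.sum_congr rfl (fun j _ => ?_)
  rw [Matrix.submatrix_apply, Real.norm_eq_abs, sq_abs]

theorem L6int {X : Type*} [Fintype X] [DecidableEq X] (A : Matrix X X ℤ) :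
    (A.det) ^ 2 ≤ ∏ i, ∑ j, (A i j) ^ 2 := by
  have h := L6real (A.map (Int.castRingHom ℝ))
  have hd : (A.map (Int.castRingHom ℝ)).det = ((A.det : ℤ) : ℝ) := by
    have := (Int.castRingHom ℝ).map_det A
    rw [RingHom.mapMatrix_apply] at this
    rw [← this]
    rfl
  rw [hd] at h
  simp only [Matrix.map_apply, eq_intCast] at h
  exact_mod_cast h

end H58D
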