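import Pool.Agent.Lib.H58D.L0
import Pool.Agent.Lib.H58D.L1
import Pool.Agent.Lib.H58D.L3
import Pool.Agent.Lib.H58D.L4
import Pool.Agent.Lib.H58D.L6

/-! Chunk L7 (size M).  The abstract first step (Hadamard): `L` has a basis `b` indexed by `X` and `S = range b`.

Proof.  `L4` gives `c`, `e` with `finrank M + c + finrank L' = finrank L = card X`.  `L0b` for `S'`: independent tuple `u'` in
`S'` with index `wS S'`; lift to `u s = b (c_s)`.  Take `w = bM` (a basis: independent, its span is `⊤`, index `1`).  `L3`: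
`wS S' ≤ index of the combined family`.  By `L1` with the basis `b` (reindexed) the index is the absolute value of the determinant of the square integer
matrix with the coordinate rows of `τ (bM j)`, `e j`, `u j`; by `L6int` its square is `≤ κ^(finrank M) * (C^2)^c * 1`
(`L1le (range b) C e` gives `Σ_c |repr e c| ≤ C`, hence `Σ_c (repr e c)^2 ≤ C^2`). -/

namespace H58D

private theorem L7_e {X : Type*} [Fintype X] [DecidableEq X] {L : Type*} [AddCommGroup L]
    (b : Module.Basis X ℤ L) (C : ℕ) (x : L) (hx : L1le (Set.range b) C x) :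
    ∑ c, (b.repr x c) ^ 2 ≤ ((C ^ 2 : ℕ) : ℤ) := by
  classical
  obtain ⟨a, haS, hax, haC⟩ := hx
  have h1 : ∀ c, b.repr x c = ∑ s ∈ a.support, a s * b.repr s c := by
    intro c
    rw [hax, Finsupp.sum, map_sum, Finsupp.finsetSum_apply]
    refine Finset.sum_congr rfl (fun s _ => ?_)
    rw [map_smul, Finsupp.smul_apply, smul_eq_mul]
  have h2 : ∀ s ∈ a.support, ∑ c, |b.repr s c| = 1 := by
    intro s hs
    obtain ⟨y, rfl⟩ := haS hs
    rw [b.repr_self]
    rw [Finset.sum_eq_single y]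
    · simp
    · intro z _ hz
      rw [Finsupp.single_eq_of_ne hz]
      simp
    · simp
  have h3 : ∑ c, |b.repr x c| ≤ (C : ℤ) := by
    calc ∑ c, |b.repr x c| ≤ ∑ c, ∑ s ∈ a.support, |a s| * |b.repr s c| := by
          refine Finset.sum_le_sum (fun c _ => ?_)
          rw [h1 c]
          refine (Finset.abs_sum_le_sum_abs _ _).trans (Finset.sum_le_sum (fun s _ => ?_))
          rw [abs_mul]
      _ = ∑ s ∈ a.support, |a s| * ∑ c, |b.repr s c| := by
          rw [Finset.sum_comm]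
          refine Finset.sum_congr rfl (fun s _ => ?_)
          rw [Finset.mul_sum]
      _ = ∑ s ∈ a.support, |a s| := by
          refine Finset.sum_congr rfl (fun s hs => ?_)
          rw [h2 s hs, mul_one]
      _ ≤ (C : ℤ) := by
          have h4 : ((a.sum (fun _ t => t.natAbs) : ℕ) : ℤ) ≤ (C : ℤ) := by exact_mod_cast haC
          rw [Finsupp.sum] at h4
          push_cast at h4
          exact h4
  have h0 : 0 ≤ ∑ c, |b.repr x c| := Finset.sum_nonneg (fun _ _ => abs_nonneg _)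
  calc ∑ c, (b.repr x c) ^ 2 ≤ ∑ c, |b.repr x c| * ∑ c', |b.repr x c'| := by
        refine Finset.sum_le_sum (fun c _ => ?_)
        rw [← sq_abs, sq]
        refine mul_le_mul_of_nonneg_left ?_ (abs_nonneg _)
        exact Finset.single_le_sum (f := fun c' => |b.repr x c'|)
          (fun _ _ => abs_nonneg _) (Finset.mem_univ c)
    _ = (∑ c, |b.repr x c|) * ∑ c', |b.repr x c'| := by rw [Finset.sum_mul]
    _ ≤ (C : ℤ) * C := mul_le_mul h3 h3 h0 (by positivity)
    _ = ((C ^ 2 : ℕ) : ℤ) := by push_cast; ring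

private theorem L7_one {X : Type*} [Fintype X] [DecidableEq X] {L : Type*} [AddCommGroup L]
    (b : Module.Basis X ℤ L) (y : X) : ∑ c, (b.repr (b y) c) ^ 2 = 1 := by
  rw [b.repr_self, Finset.sum_eq_single y]
  · simp
  · intro z _ hz
    rw [Finsupp.single_eq_of_ne hz]
    simp
  · simp

private theorem L7_det {X κ : Type*} [Fintype X] [DecidableEq X] [Fintype κ] [DecidableEq κ]
    {L : Type*} [AddCommGroup L] (b : Module.Basis X ℤ L) (φ : κ ≃ X) (v : κ → L) :
    (((Submodule.span ℤ (Set.range v)).toAddSubgroup.index : ℕ) : ℤ) ^ 2 ≤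
      ∏ j, ∑ c, (b.repr (v j) c) ^ 2 := by
  have h1 := L1 (b.reindex φ.symm) v
  rw [h1]
  have h2 : ((((b.reindex φ.symm).det v).natAbs : ℕ) : ℤ) ^ 2 = ((b.reindex φ.symm).det v) ^ 2 :=
    Int.natAbs_sq _
  rw [h2, Module.Basis.det_apply, ← Matrix.det_transpose]
  refine (L6int _).trans (le_of_eq ?_)
  refine Finset.prod_congr rfl (fun j _ => ?_)
  rw [← Equiv.sum_comp φ]
  refine Finset.sum_congr rfl (fun i _ => ?_)
  rw [Matrix.transpose_apply, Module.Basis.toMatrix_apply, Module.Basis.repr_reindex_apply,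
    Equiv.symm_symm]

theorem L7 {X : Type*} [Fintype X] [DecidableEq X] {L L' M : Type*} [AddCommGroup L]
    [AddCommGroup L'] [AddCommGroup M] [Module.Free ℤ L'] [Module.Finite ℤ L']
    [Module.Free ℤ M] [Module.Finite ℤ M] (b : Module.Basis X ℤ L)
    (S' : Set L') (hS'f : S'.Finite) (hS's : Submodule.span ℤ S' = ⊤)
    (π : L →ₗ[ℤ] L') (hπ : Function.Surjective π)
    (hS' : ∀ s' ∈ S', ∃ c : X, π (b c) = s')
    (τ : M →ₗ[ℤ] L) (hτ : Function.Injective τ) (hπτ : ∀ z, π (τ z) = 0)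
    (bM : Module.Basis (Fin (Module.finrank ℤ M)) ℤ M) (κ : ℕ)
    (hκ : ∀ j, ∑ c, (b.repr (τ (bM j)) c) ^ 2 ≤ (κ : ℤ)) (C : ℕ) (E : Set L)
    (hE : ∀ e ∈ E, π e = 0 ∧ L1le (Set.range b) C e)
    (hker : ∀ k, π k = 0 → ∃ n : ℤ, n ≠ 0 ∧ n • k ∈ LinearMap.range τ ⊔ Submodule.span ℤ E) :
    Module.finrank ℤ L' + Module.finrank ℤ M ≤ Fintype.card X ∧
      (wS S') ^ 2 ≤ κ ^ (Module.finrank ℤ M) *
        (C ^ 2) ^ (Fintype.card X - Module.finrank ℤ M - Module.finrank ℤ L') := by
  classical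
  have hfree : Module.Free ℤ L := Module.Free.of_basis b
  have hfin : Module.Finite ℤ L := Module.Finite.of_basis b
  have hX : Module.finrank ℤ L = Fintype.card X := Module.finrank_eq_card_basis b
  obtain ⟨c, e, heE, hcard, hind⟩ := L4 π hπ τ hτ hπτ E (fun e he => (hE e he).1) hker
  obtain ⟨u', hu'S, hu'i, hu'x, -⟩ := L0b S' hS'f hS's
  choose u hu using fun s => hS' (u' s) (hu'S s)
  have hπu : (fun s => π (b (u s))) = u' := funext hu
  have h3 := L3 π hπ τ hτ hπτ c hcard bM bM.linearIndependent e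
    (fun j => (hE _ (heE j)).1) (hind bM bM.linearIndependent) (fun s => b (u s))
    (by rw [hπu]; exact hu'i)
  rw [hπu, hu'x, bM.span_eq] at h3
  have h4 : ((⊤ : Submodule ℤ M).toAddSubgroup).index = 1 := AddSubgroup.index_top
  rw [h4, one_mul] at h3
  have hc : Fintype.card X - Module.finrank ℤ M - Module.finrank ℤ L' = c := by omega
  refine ⟨by omega, ?_⟩
  rw [hc]
  have φ : ((Fin (Module.finrank ℤ M) ⊕ Fin c) ⊕ Fin (Module.finrank ℤ L')) ≃ X :=
    Fintype.equivOfCardEq (by simp; omega)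
  have h5 := L7_det b φ (Sum.elim (Sum.elim (fun s => τ (bM s)) e) (fun s => b (u s)))
  have h6 : (∏ j, ∑ x, (b.repr ((Sum.elim (Sum.elim (fun s => τ (bM s)) e)
      (fun s => b (u s))) j) x) ^ 2) ≤
      (κ : ℤ) ^ (Module.finrank ℤ M) * ((C ^ 2 : ℕ) : ℤ) ^ c := by
    rw [Fintype.prod_sum_type, Fintype.prod_sum_type]
    have e1 : ∏ j : Fin (Module.finrank ℤ M), ∑ x, (b.repr ((Sum.elim (Sum.elim
        (fun s => τ (bM s)) e) (fun s => b (u s))) (Sum.inl (Sum.inl j))) x) ^ 2 ≤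
        (κ : ℤ) ^ (Module.finrank ℤ M) := by
      refine (Finset.prod_le_prod (fun _ _ => Finset.sum_nonneg (fun _ _ => sq_nonneg _))
        (fun j _ => hκ j)).trans (le_of_eq ?_)
      rw [Finset.prod_const, Finset.card_univ, Fintype.card_fin]
    have e2 : ∏ j : Fin c, ∑ x, (b.repr ((Sum.elim (Sum.elim
        (fun s => τ (bM s)) e) (fun s => b (u s))) (Sum.inl (Sum.inr j))) x) ^ 2 ≤
        ((C ^ 2 : ℕ) : ℤ) ^ c := by
      refine (Finset.prod_le_prod (fun _ _ => Finset.sum_nonneg (fun _ _ => sq_nonneg _))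
        (fun j _ => L7_e b C (e j) (hE _ (heE j)).2)).trans (le_of_eq ?_)
      rw [Finset.prod_const, Finset.card_univ, Fintype.card_fin]
    have e3 : ∏ j : Fin (Module.finrank ℤ L'), ∑ x, (b.repr ((Sum.elim (Sum.elim
        (fun s => τ (bM s)) e) (fun s => b (u s))) (Sum.inr j)) x) ^ 2 = 1 := by
      refine Finset.prod_eq_one (fun j _ => ?_)
      exact L7_one b (u j)
    rw [e3, mul_one]
    refine mul_le_mul e1 e2 ?_ (by positivity)
    exact Finset.prod_nonneg (fun _ _ => Finset.sum_nonneg (fun _ _ => sq_nonneg _))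
  have h7 : ((wS S' : ℕ) : ℤ) ^ 2 ≤ (((Submodule.span ℤ (Set.range (Sum.elim (Sum.elim
      (fun s => τ (bM s)) e) (fun s => b (u s))))).toAddSubgroup.index : ℕ) : ℤ) ^ 2 := by
    have : ((wS S' : ℕ) : ℤ) ≤ (((Submodule.span ℤ (Set.range (Sum.elim (Sum.elim
      (fun s => τ (bM s)) e) (fun s => b (u s))))).toAddSubgroup.index : ℕ) : ℤ) := by
      exact_mod_cast h3
    exact pow_le_pow_left₀ (by positivity) this 2
  have h8 := (h7.trans h5).trans h6
  exact_mod_cast h8

end H58D
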