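import Pool.Agent.Lib.H58D.P1

/-! Chunk P3 (size M).  The chain of primes `P 1 ≤ P 2 ≤ ... ≤ P k = m`.

Proof.  Let `n = c.length`.  First, by induction on `s ≤ ρ` with `P1`, there is a chain of primes of length `n - s` ending in `m` whose head
contains `b 0, ..., b (s-1)` (use the ideal `P` of `P1` to keep the old elements: `P :=` the old head).  One more application with `T1` gives a chain
`c₁` of length `n - ρ - 1` with head containing all `b s` and `T1`, last `= m`.  Then by induction on `t ≥ 1` choose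
chains `c_t` of length `n - ρ - t` for `1 ≤ t ≤ k := n - ρ`, with `c_t.last.asIdeal = m` and heads increasing:
if `t < k` the length of `c_t` is positive, so `c_t.head < c_t.last`, hence `c_t.head.asIdeal ≠ m`; by `iso` there is `T ∈ 𝒯` not in
`c_t.head.asIdeal`; apply `P1` with `P := c_t.head.asIdeal` and this `T`.  For `t = k` the length is `0`, so head `=` last `= m`.
Put `P t = (c_t).head.asIdeal` for `1 ≤ t ≤ k` and `P t = m` for the other `t`. -/

namespace H58D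

private theorem P3_start {R : Type*} [CommRing R] [IsNoetherianRing R] (m : Ideal R) (n ρ : ℕ)
    (hρ : ρ + 1 ≤ n)
    (c : LTSeries (PrimeSpectrum R)) (hc : c.length = n) (hl : c.last.asIdeal = m)
    (b : Fin ρ → R) (hb : ∀ s, b s ∈ m) (s : ℕ) (hs : s ≤ ρ) :
    ∃ c' : LTSeries (PrimeSpectrum R), c'.length = n - s ∧ c'.last.asIdeal = m ∧
      ∀ i : Fin ρ, i.val < s → b i ∈ c'.head.asIdeal := by
  induction s with
  | zero => exact ⟨c, by omega, hl, fun i hi => absurd hi (Nat.not_lt_zero _)⟩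
  | succ s ih =>
    obtain ⟨c', h1, h2, h3⟩ := ih (by omega)
    obtain ⟨c'', g1, g2, g3, g4⟩ := P1 m (b ⟨s, by omega⟩) (hb _) c'.head.asIdeal (n - s - 1) c'
      (by omega) le_rfl h2
    refine ⟨c'', by omega, g4, fun i hi => ?_⟩
    rcases Nat.lt_succ_iff_lt_or_eq.1 hi with h | h
    · exact g2 (h3 i h)
    · have : i = ⟨s, by omega⟩ := Fin.ext h
      rw [this]
      exact g3

private theorem P3_chain {R : Type*} [CommRing R] [IsNoetherianRing R] (m : Ideal R)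
    (hm : m.IsPrime) (𝒯 : Set R) (h𝒯 : ∀ T ∈ 𝒯, T ∈ m) (ρ : ℕ) (b : Fin ρ → R)
    (iso : ∀ P : Ideal R, P.IsPrime → P ≤ m → (∀ s, b s ∈ P) → (∀ T ∈ 𝒯, T ∈ P) → P = m)
    (l : ℕ) : ∀ c : LTSeries (PrimeSpectrum R), c.length = l → c.last.asIdeal = m →
      (∀ s, b s ∈ c.head.asIdeal) →
      ∃ P : ℕ → Ideal R, (∀ t, (P t).IsPrime) ∧ (∀ t, P t ≤ m) ∧ P 0 = c.head.asIdeal ∧
        P l = m ∧ ∀ t, t < l → P t ≤ P (t + 1) ∧ ∃ T ∈ 𝒯, T ∉ P t ∧ T ∈ P (t + 1) := by
  induction l with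
  | zero =>
    intro c hc hl _
    refine ⟨fun _ => m, fun _ => hm, fun _ => le_rfl, ?_, rfl, fun t ht =>
      absurd ht (Nat.not_lt_zero _)⟩
    have : c.head = c.last := by
      unfold RelSeries.head RelSeries.last
      congr 1
      ext
      simp [hc]
    rw [this, hl]
  | succ l ih =>
    intro c hc hl hb
    have hlt : c.head < c.last := by
      refine c.strictMono ?_
      rw [Fin.lt_def, Fin.val_last]
      show 0 < c.length
      omega
    have hle : c.head.asIdeal ≤ m := by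
      rw [← hl]
      exact hlt.le
    have hne : c.head.asIdeal ≠ m := by
      intro h
      exact hlt.ne (PrimeSpectrum.ext (h.trans hl.symm))
    have hT : ∃ T ∈ 𝒯, T ∉ c.head.asIdeal := by
      by_contra h
      push Not at h
      exact hne (iso _ c.head.isPrime hle hb h)
    obtain ⟨T, hT𝒯, hT⟩ := hT
    obtain ⟨c', g1, g2, g3, g4⟩ := P1 m T (h𝒯 T hT𝒯) c.head.asIdeal l c hc le_rfl hl
    obtain ⟨P, p1, p2, p3, p4, p5⟩ := ih c' g1 g4 fun s => g2 (hb s)
    refine ⟨fun t => Nat.casesOn t c.head.asIdeal P, ?_, ?_, rfl, p4, ?_⟩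
    · intro t
      cases t with
      | zero => exact c.head.isPrime
      | succ t => exact p1 t
    · intro t
      cases t with
      | zero => exact hle
      | succ t => exact p2 t
    · intro t ht
      cases t with
      | zero =>
        show c.head.asIdeal ≤ P 0 ∧ ∃ T ∈ 𝒯, T ∉ c.head.asIdeal ∧ T ∈ P 0
        rw [p3]
        exact ⟨g2, T, hT𝒯, hT, g3⟩
      | succ t => exact p5 t (by omega)

theorem P3 {R : Type*} [CommRing R] [IsNoetherianRing R] (m : Ideal R) (n ρ : ℕ)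
    (hρ : ρ + 1 ≤ n)
    (c : LTSeries (PrimeSpectrum R)) (hc : c.length = n) (hl : c.last.asIdeal = m)
    (b : Fin ρ → R) (hb : ∀ s, b s ∈ m) (𝒯 : Set R) (h𝒯 : ∀ T ∈ 𝒯, T ∈ m)
    (T1 : R) (hT1 : T1 ∈ m)
    (iso : ∀ P : Ideal R, P.IsPrime → P ≤ m → (∀ s, b s ∈ P) → (∀ T ∈ 𝒯, T ∈ P) → P = m) :
    ∃ P : ℕ → Ideal R, (∀ t, (P t).IsPrime) ∧ (∀ t, P t ≤ m) ∧ (∀ s, b s ∈ P 1) ∧
      T1 ∈ P 1 ∧ P (n - ρ) = m ∧
      ∀ t, 1 ≤ t → t < n - ρ → P t ≤ P (t + 1) ∧ ∃ T ∈ 𝒯, T ∉ P t ∧ T ∈ P (t + 1) := by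
  have hm : m.IsPrime := by
    rw [← hl]
    exact c.last.isPrime
  obtain ⟨c', h1, h2, h3⟩ := P3_start m n ρ hρ c hc hl b hb ρ le_rfl
  obtain ⟨c₁, g1, g2, g3, g4⟩ := P1 m T1 hT1 c'.head.asIdeal (n - ρ - 1) c' (by omega) le_rfl h2
  obtain ⟨P, p1, p2, p3, p4, p5⟩ := P3_chain m hm 𝒯 h𝒯 ρ b iso (n - ρ - 1) c₁ g1 g4
    fun s => g2 (h3 s s.isLt)
  refine ⟨fun t => P (t - 1), fun t => p1 _, fun t => p2 _, ?_, ?_, p4, ?_⟩
  · intro s
    show b s ∈ P 0
    rw [p3]
    exact g2 (h3 s s.isLt)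
  · show T1 ∈ P 0
    rw [p3]
    exact g3
  · intro t ht ht'
    have := p5 (t - 1) (by omega)
    have e : t - 1 + 1 = t + 1 - 1 := by omega
    rw [e] at this
    exact this

end H58D
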