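import Pool.Agent.Lib.H58D.L0

/-! Chunk S0 (size M).  Basic facts on `lat`, `rk`, `monSet`, `wt`.

Proof.  There are finitely many exponent vectors of degree `≤ N` (`Set.Finite`, each coordinate is `≤ N`), so `monSet` is finite; it spans `lat y N` by definition
(`Submodule.span_span_coe_preimage`-type lemma; the set in the definition of `lat` is the image of `monSet`).  `lat y N` is finitely generated; a finitely generated
torsion free `ℤ`-module is free (`Module.free_of_finite_type_torsion_free'` / instance; a domain of characteristic zero is torsion free over `ℤ`).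
`N = 0`: `deg u ≤ 0` means `u = 0`, `mon y 0 = 1`, so `lat y 0 = span {1}` has rank `1` with basis `1`, and the only tuple has index `1`.
`0 < rk y N` as `1 ∈ lat y N` is not torsion; `0 < wt y N` by `L0b`. -/

namespace H58D

private theorem s0_mon_zero {ι : Type*} [Fintype ι] {B : Type*} [CommRing B] (y : ι → B) :
    mon y 0 = 1 := by
  simp [mon]

private theorem s0_one_mem {ι : Type*} [Fintype ι] {B : Type*} [CommRing B] (y : ι → B) (N : ℕ) :
    (1 : B) ∈ lat y N :=
  Submodule.subset_span ⟨0, by simp [deg], (s0_mon_zero y).symm⟩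

private theorem s0_set_zero {ι : Type*} [Fintype ι] {B : Type*} [CommRing B] (y : ι → B) :
    {b | ∃ u : ι → ℕ, deg u ≤ 0 ∧ b = mon y u} = {(1 : B)} := by
  ext b
  constructor
  · rintro ⟨u, hu, rfl⟩
    have h : u = 0 := by
      funext i
      have h1 : u i ≤ ∑ j, u j := Finset.single_le_sum (fun _ _ => Nat.zero_le _)
        (Finset.mem_univ i)
      have h2 : ∑ j, u j ≤ 0 := hu
      simp only [Pi.zero_apply]
      omega
    rw [h, s0_mon_zero]
    rfl
  · intro h
    rw [Set.mem_singleton_iff] at h
    exact ⟨0, by simp [deg], by rw [h, s0_mon_zero]⟩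

theorem S0_finite {ι : Type*} [Fintype ι] {B : Type*} [CommRing B] (y : ι → B) (N : ℕ) :
    (monSet y N).Finite := by
  classical
  have h1 : {u : ι → ℕ | deg u ≤ N}.Finite := by
    refine (Set.finite_Iic (fun _ : ι => N)).subset fun u hu i => ?_
    have h2 : u i ≤ ∑ j, u j := Finset.single_le_sum (fun _ _ => Nat.zero_le _)
      (Finset.mem_univ i)
    exact h2.trans hu
  have h3 := (h1.image (mon y)).preimage (f := ((↑) : lat y N → B))
    Subtype.val_injective.injOn
  refine h3.subset ?_
  rintro b ⟨u, hu, hb⟩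
  exact ⟨u, hu, hb.symm⟩

theorem S0_span {ι : Type*} [Fintype ι] {B : Type*} [CommRing B] (y : ι → B) (N : ℕ) :
    Submodule.span ℤ (monSet y N) = ⊤ :=
  Submodule.span_span_coe_preimage

theorem S0_fin {ι : Type*} [Fintype ι] {B : Type*} [CommRing B] (y : ι → B) (N : ℕ) :
    Module.Finite ℤ (lat y N) :=
  ⟨⟨(S0_finite y N).toFinset, by rw [Set.Finite.coe_toFinset, S0_span]⟩⟩

theorem S0_free {ι : Type*} [Fintype ι] {B : Type*} [CommRing B] [IsDomain B] [CharZero B]
    (y : ι → B) (N : ℕ) : Module.Free ℤ (lat y N) := by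
  have := S0_fin y N
  infer_instance

theorem S0_zero {ι : Type*} [Fintype ι] {B : Type*} [CommRing B] [IsDomain B] [CharZero B]
    (y : ι → B) : rk y 0 = 1 ∧ wt y 0 = 1 := by
  have h1 : lat y 0 = Submodule.span ℤ {(1 : B)} := by
    rw [lat, s0_set_zero]
  have h2 : rk y 0 = 1 := by
    rw [rk, h1, ← LinearEquiv.finrank_eq (LinearEquiv.toSpanNonzeroSingleton ℤ B 1 one_ne_zero)]
    exact Module.finrank_self ℤ
  refine ⟨h2, ?_⟩
  have h3 : monSet y 0 = {⟨1, s0_one_mem y 0⟩} := by
    ext b
    have h4 := Set.ext_iff.1 (s0_set_zero y) (b : B)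
    constructor
    · intro hb
      exact Subtype.ext (h4.1 hb)
    · intro hb
      exact h4.2 (congrArg Subtype.val hb)
  have h5 : {d | ∃ v : Fin (Module.finrank ℤ (lat y 0)) → lat y 0, (∀ s, v s ∈ monSet y 0) ∧
      d = (Submodule.span ℤ (Set.range v)).toAddSubgroup.index} = {1} := by
    have hr : Module.finrank ℤ (lat y 0) = 1 := h2
    have hne : Nonempty (Fin (Module.finrank ℤ (lat y 0))) := ⟨⟨0, by omega⟩⟩
    have key : ∀ v : Fin (Module.finrank ℤ (lat y 0)) → lat y 0, (∀ s, v s ∈ monSet y 0) →
        (Submodule.span ℤ (Set.range v)).toAddSubgroup.index = 1 := by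
      intro v hv
      have h6 : Set.range v = monSet y 0 := by
        rw [h3]
        ext b
        constructor
        · rintro ⟨s, rfl⟩
          have := hv s
          rwa [h3] at this
        · intro hb
          obtain ⟨s⟩ := hne
          refine ⟨s, ?_⟩
          have h7 := hv s
          rw [h3] at h7
          exact h7.trans hb.symm
      rw [h6, S0_span]
      exact AddSubgroup.index_top
    ext d
    constructor
    · rintro ⟨v, hv, rfl⟩
      exact key v hv
    · intro hd
      refine ⟨fun _ => ⟨1, s0_one_mem y 0⟩, fun s => by rw [h3]; rfl, ?_⟩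
      rw [key _ (fun s => by rw [h3]; rfl)]
      exact hd
  rw [wt, wS, h5]
  exact csSup_singleton 1

theorem S0_pos {ι : Type*} [Fintype ι] {B : Type*} [CommRing B] [IsDomain B] [CharZero B]
    (y : ι → B) (N : ℕ) : 0 < rk y N ∧ 0 < wt y N := by
  have h1 := S0_fin y N
  have h2 := S0_free y N
  have h3 : Nontrivial (lat y N) := by
    refine ⟨⟨⟨1, s0_one_mem y N⟩, 0, fun h => ?_⟩⟩
    exact one_ne_zero (congrArg Subtype.val h)
  refine ⟨Module.finrank_pos, ?_⟩
  obtain ⟨v, _, _, _, hv⟩ := L0b (monSet y N) (S0_finite y N) (S0_span y N)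
  exact hv

end H58D
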