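import Pool.Agent.Lib.H58D.L5
import Pool.Agent.Lib.H58D.B2
import Pool.Agent.Lib.H58D.S0

/-! Chunk S2 (size M).  The step inequality for `f : B → B'` and a trinomial which dies in `B'`.

Proof.  `C` from `B2` (for `y` and `f`).  Fix `N`.  Apply `L5` with `L = lat y (N+1)`, `L' = lat (f ∘ y) (N+1)`, `M = lat y N`, `S = monSet y (N+1)`, `S' = monSet (f∘y) (N+1)`,
`SM = monSet y N`; `π` = restriction of `f` (it maps the generators onto the generators, so it is well defined and onto; the monomial `mon (f∘y) u` is the image of `mon y u`);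
`τ` = multiplication by `T = y i + y j - y k`: it maps `lat y N` to `lat y (N+1)` because `y_i * mon y u = mon y (u + e_i)`; injective as `B` is a domain and `T ≠ 0`;
`π (τ z) = f T * f z = 0`; `τ` of a monomial is `mon + mon - mon`, so `L1le S 3`.  `E` = the set in `B2` for `N+1`; `hker` with `n = 1`.  The instances are `S0_free`, `S0_fin`
(use `haveI`). -/

namespace H58D

private theorem s2_mon_add {ι : Type*} {B : Type*} [Fintype ι] [CommMonoid B] (y : ι → B)
    (u v : ι → ℕ) : mon y (u + v) = mon y u * mon y v := by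
  unfold mon
  rw [← Finset.prod_mul_distrib]
  refine Finset.prod_congr rfl (fun i _ => ?_)
  rw [Pi.add_apply, pow_add]

private theorem s2_mon_single {ι : Type*} {B : Type*} [Fintype ι] [DecidableEq ι] [CommMonoid B]
    (y : ι → B) (u : ι → ℕ) (i : ι) : mon y (u + Pi.single i 1) = y i * mon y u := by
  rw [s2_mon_add, mul_comm]
  have h : mon y (Pi.single i 1) = y i := by
    unfold mon
    rw [Finset.prod_eq_single i]
    · simp
    · intro b _ hb
      simp [Pi.single_eq_of_ne hb]
    · intro h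
      exact absurd (Finset.mem_univ i) h
  rw [h]

private theorem s2_deg_single {ι : Type*} [Fintype ι] [DecidableEq ι] (u : ι → ℕ) (i : ι) :
    deg (u + Pi.single i 1) = deg u + 1 := by
  unfold deg
  have h : ∑ j, (u + Pi.single i 1 : ι → ℕ) j = ∑ j, u j + ∑ j, (Pi.single i 1 : ι → ℕ) j := by
    rw [← Finset.sum_add_distrib]
    rfl
  have h2 : ∑ j, (Pi.single i 1 : ι → ℕ) j = 1 := by
    rw [Finset.sum_eq_single i]
    · simp
    · intro b _ hb
      simp [Pi.single_eq_of_ne hb]
    · intro h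
      exact absurd (Finset.mem_univ i) h
  rw [h, h2]

private theorem s2_L1_add {L : Type*} [AddCommGroup L] {S : Set L} {C C' : ℕ} {x x' : L}
    (h : L1le S C x) (h' : L1le S C' x') : L1le S (C + C') (x + x') := by
  classical
  obtain ⟨c, hc1, hc2, hc3⟩ := h
  obtain ⟨d, hd1, hd2, hd3⟩ := h'
  refine ⟨c + d, ?_, ?_, ?_⟩
  · intro a ha
    have ha1 := Finsupp.support_add (Finset.mem_coe.1 ha)
    rcases Finset.mem_union.1 ha1 with h1 | h1
    · exact hc1 (Finset.mem_coe.2 h1)
    · exact hd1 (Finset.mem_coe.2 h1)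
  · rw [hc2, hd2, Finsupp.sum_add_index']
    · intro a
      exact zero_smul ℤ a
    · intro a b1 b2
      exact add_smul b1 b2 a
  · have e1 : (c + d).sum (fun _ a => a.natAbs) =
        ∑ a ∈ c.support ∪ d.support, (c a + d a).natAbs := by
      rw [Finsupp.sum_of_support_subset (c + d) Finsupp.support_add (fun _ a => a.natAbs)
        (fun _ _ => rfl)]
      rfl
    have e2 : c.sum (fun _ a => a.natAbs) = ∑ a ∈ c.support ∪ d.support, (c a).natAbs :=
      Finsupp.sum_of_support_subset c Finset.subset_union_left (fun _ a => a.natAbs)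
        (fun _ _ => rfl)
    have e3 : d.sum (fun _ a => a.natAbs) = ∑ a ∈ c.support ∪ d.support, (d a).natAbs :=
      Finsupp.sum_of_support_subset d Finset.subset_union_right (fun _ a => a.natAbs)
        (fun _ _ => rfl)
    rw [e2] at hc3
    rw [e3] at hd3
    rw [e1]
    calc ∑ a ∈ c.support ∪ d.support, (c a + d a).natAbs
        ≤ ∑ a ∈ c.support ∪ d.support, ((c a).natAbs + (d a).natAbs) :=
          Finset.sum_le_sum (fun a _ => Int.natAbs_add_le _ _)
      _ = ∑ a ∈ c.support ∪ d.support, (c a).natAbs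
          + ∑ a ∈ c.support ∪ d.support, (d a).natAbs := Finset.sum_add_distrib
      _ ≤ C + C' := Nat.add_le_add hc3 hd3

private theorem s2_L1_single {L : Type*} [AddCommGroup L] {S : Set L} {s : L} (hs : s ∈ S)
    (a : ℤ) : L1le S a.natAbs (a • s) := by
  classical
  refine ⟨Finsupp.single s a, ?_, ?_, ?_⟩
  · intro b hb
    have h1 := Finsupp.support_single_subset (Finset.mem_coe.1 hb)
    rw [Finset.mem_singleton] at h1
    rw [h1]
    exact hs
  · rw [Finsupp.sum_single_index]
    exact zero_smul ℤ s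
  · rw [Finsupp.sum_single_index]
    rfl

theorem S2 {ι : Type*} [Fintype ι] [DecidableEq ι] {B B' : Type*} [CommRing B] [IsDomain B]
    [CharZero B] [CommRing B'] [IsDomain B'] [CharZero B'] (y : ι → B) (f : B →+* B')
    (i j k : ι) (hT0 : f (y i) + f (y j) = f (y k)) (hTne : y i + y j - y k ≠ 0) :
    ∃ C : ℕ, 1 ≤ C ∧ ∀ N : ℕ,
      rk (fun i => f (y i)) (N + 1) + rk y N ≤ rk y (N + 1) ∧
      wt (fun i => f (y i)) (N + 1) * wt y N ≤
        3 ^ (rk y N) * C ^ (rk y (N + 1) - rk y N - rk (fun i => f (y i)) (N + 1)) *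
          wt y (N + 1) := by
  classical
  obtain ⟨C, hC1, hC⟩ := B2 y f
  refine ⟨C, hC1, fun N => ?_⟩
  -- monomials
  have hfmon : ∀ u : ι → ℕ, f (mon y u) = mon (fun i => f (y i)) u := by
    intro u
    unfold mon
    rw [map_prod]
    refine Finset.prod_congr rfl (fun i _ => ?_)
    rw [map_pow]
  have hmem : ∀ (n : ℕ) (u : ι → ℕ), deg u ≤ n → mon y u ∈ lat y n := by
    intro n u hu
    exact Submodule.subset_span ⟨u, hu, rfl⟩
  have hmem' : ∀ (n : ℕ) (u : ι → ℕ), deg u ≤ n →
      mon (fun i => f (y i)) u ∈ lat (fun i => f (y i)) n := by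
    intro n u hu
    exact Submodule.subset_span ⟨u, hu, rfl⟩
  -- the map π
  let fl : B →ₗ[ℤ] B' := f.toAddMonoidHom.toIntLinearMap
  have hfl : ∀ b, fl b = f b := fun b => rfl
  have hmap : ∀ x ∈ lat y (N + 1), fl x ∈ lat (fun i => f (y i)) (N + 1) := by
    have h : lat y (N + 1) ≤ Submodule.comap fl (lat (fun i => f (y i)) (N + 1)) := by
      refine Submodule.span_le.2 ?_
      rintro b ⟨u, hu, rfl⟩
      change fl (mon y u) ∈ lat (fun i => f (y i)) (N + 1)
      rw [hfl, hfmon]
      exact hmem' _ u hu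
    intro x hx
    exact h hx
  let π : lat y (N + 1) →ₗ[ℤ] lat (fun i => f (y i)) (N + 1) := fl.restrict hmap
  have hπv : ∀ x : lat y (N + 1), ((π x : lat (fun i => f (y i)) (N + 1)) : B') = f (x : B) :=
    fun x => rfl
  have hsur : Function.Surjective π := by
    have h : lat (fun i => f (y i)) (N + 1) ≤ Submodule.map fl (lat y (N + 1)) := by
      refine Submodule.span_le.2 ?_
      rintro b ⟨u, hu, rfl⟩
      exact ⟨mon y u, hmem _ u hu, hfmon u⟩
    intro b
    obtain ⟨x, hx, hxb⟩ := h b.2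
    refine ⟨⟨x, hx⟩, ?_⟩
    apply Subtype.ext
    exact hxb
  have hS' : ∀ s' ∈ monSet (fun i => f (y i)) (N + 1), ∃ s ∈ monSet y (N + 1), π s = s' := by
    rintro s' ⟨u, hu, hs'⟩
    refine ⟨⟨mon y u, hmem _ u hu⟩, ⟨u, hu, rfl⟩, ?_⟩
    apply Subtype.ext
    rw [hs']
    exact hfmon u
  -- the map τ
  have hmul : ∀ (u : ι → ℕ) (a : ι), deg u ≤ N → y a * mon y u ∈ lat y (N + 1) := by
    intro u a hu
    rw [← s2_mon_single]
    refine hmem _ _ ?_
    rw [s2_deg_single]
    omega
  have hmapT : ∀ x ∈ lat y N,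
      (LinearMap.mulLeft ℤ (y i + y j - y k)) x ∈ lat y (N + 1) := by
    have h : lat y N ≤ Submodule.comap (LinearMap.mulLeft ℤ (y i + y j - y k))
        (lat y (N + 1)) := by
      refine Submodule.span_le.2 ?_
      rintro b ⟨u, hu, rfl⟩
      change (y i + y j - y k) * mon y u ∈ lat y (N + 1)
      have e : (y i + y j - y k) * mon y u
          = y i * mon y u + y j * mon y u - y k * mon y u := by ring
      rw [e]
      exact Submodule.sub_mem _ (Submodule.add_mem _ (hmul u i hu) (hmul u j hu)) (hmul u k hu)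
    intro x hx
    exact h hx
  let τ : lat y N →ₗ[ℤ] lat y (N + 1) :=
    (LinearMap.mulLeft ℤ (y i + y j - y k)).restrict hmapT
  have hτv : ∀ x : lat y N, ((τ x : lat y (N + 1)) : B) = (y i + y j - y k) * (x : B) :=
    fun x => rfl
  have hτinj : Function.Injective τ := by
    intro a b hab
    apply Subtype.ext
    have h1 : ((τ a : lat y (N + 1)) : B) = ((τ b : lat y (N + 1)) : B) := by rw [hab]
    rw [hτv, hτv] at h1
    exact mul_left_cancel₀ hTne h1
  have hπτ : ∀ z, π (τ z) = 0 := by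
    intro z
    apply Subtype.ext
    rw [hπv, hτv, map_mul, map_sub, map_add, hT0, sub_self, zero_mul]
    rfl
  have hT : ∀ w ∈ monSet y N, L1le (monSet y (N + 1)) 3 (τ w) := by
    rintro w ⟨u, hu, hw⟩
    have hm : ∀ a : ι, (⟨y a * mon y u, hmul u a hu⟩ : lat y (N + 1)) ∈ monSet y (N + 1) := by
      intro a
      refine ⟨u + Pi.single a 1, ?_, ?_⟩
      · rw [s2_deg_single]
        omega
      · rw [s2_mon_single]
    have h3 := s2_L1_add (s2_L1_add (s2_L1_single (hm i) 1) (s2_L1_single (hm j) 1))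
      (s2_L1_single (hm k) (-1))
    have e : (1 : ℤ) • (⟨y i * mon y u, hmul u i hu⟩ : lat y (N + 1))
        + (1 : ℤ) • (⟨y j * mon y u, hmul u j hu⟩ : lat y (N + 1))
        + (-1 : ℤ) • (⟨y k * mon y u, hmul u k hu⟩ : lat y (N + 1)) = τ w := by
      rw [one_smul, one_smul, neg_smul, one_smul]
      apply Subtype.ext
      rw [hτv, hw]
      change y i * mon y u + y j * mon y u + -(y k * mon y u) = _
      ring
    rw [e] at h3
    exact h3
  have hE : ∀ e ∈ {e : lat y (N + 1) | f (e : B) = 0 ∧ L1le (monSet y (N + 1)) C e},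
      π e = 0 ∧ L1le (monSet y (N + 1)) C e := by
    rintro e ⟨he1, he2⟩
    refine ⟨?_, he2⟩
    apply Subtype.ext
    rw [hπv, he1]
    rfl
  have hker : ∀ k : lat y (N + 1), π k = 0 → ∃ n : ℤ, n ≠ 0 ∧
      n • k ∈ LinearMap.range τ ⊔ Submodule.span ℤ
        {e : lat y (N + 1) | f (e : B) = 0 ∧ L1le (monSet y (N + 1)) C e} := by
    intro k hk
    refine ⟨1, one_ne_zero, ?_⟩
    rw [one_smul]
    refine Submodule.mem_sup_right (hC (N + 1) k ?_)
    rw [← hπv, hk]
    rfl
  have i1 := S0_free y (N + 1)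
  have i2 := S0_fin y (N + 1)
  have i3 := S0_free (fun i => f (y i)) (N + 1)
  have i4 := S0_fin (fun i => f (y i)) (N + 1)
  have i5 := S0_free y N
  have i6 := S0_fin y N
  exact L5 (monSet y (N + 1)) (S0_finite y (N + 1)) (monSet (fun i => f (y i)) (N + 1))
    (S0_finite (fun i => f (y i)) (N + 1)) (S0_span (fun i => f (y i)) (N + 1))
    (monSet y N) (S0_finite y N) (S0_span y N) π hsur hS' τ hτinj hπτ hT C
    {e : lat y (N + 1) | f (e : B) = 0 ∧ L1le (monSet y (N + 1)) C e} hE hker

end H58D
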