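import Pool.Agent.Lib.H58D.R1

/-! Chunk R2 (size M).  `T = [e_i] + [e_j] - [e_k]` is not a zero divisor in `ℤ[𝒢]`.

Proof.  `ℓ` induces a homomorphism `λ : 𝒢 → ℤ`.  Let `f ≠ 0`, finitely supported.  The three values `λ[e_i], λ[e_j], λ[e_k]` are not all equal, so the maximum or the minimum
of the three is attained by exactly one of them; replacing `ℓ` by `-ℓ` we may assume it is the maximum, attained only at `[e_a]`, `a ∈ {i,j,k}`, coefficient `ε = ±1`.
Let `μ = max λ` on the support of `f` (nonempty) and `c₀` in the support with `λ c₀ = μ`.  The coefficient of `T * f` at `c₀ + [e_a]` is `ε f(c₀)` plus `± f(c₀ + [e_a] - [e_b])` for the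
other two terms `b`; these arguments have `λ`-value `μ + λ[e_a] - λ[e_b] > μ`, so they are not in the support.  So the coefficient is `± f c₀ ≠ 0`. -/

namespace H58D

private theorem R2_core {G : Type*} [AddCommGroup G] (lam : G →+ ℤ) (a b c : G) (α β γ : ℤ)
    (hα : α ≠ 0) (hab : lam b < lam a) (hac : lam c < lam a)
    (f : AddMonoidAlgebra ℤ G)
    (hf : (AddMonoidAlgebra.single a α + (AddMonoidAlgebra.single b β + AddMonoidAlgebra.single c γ)) * f = 0) :
    f = 0 := by
  classical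
  by_contra hne
  have hsupp : f.coeff.support.Nonempty := by
    rw [Finset.nonempty_iff_ne_empty]
    intro h
    apply hne
    apply AddMonoidAlgebra.coeff_injective
    rw [Finsupp.support_eq_empty] at h
    rw [h]
    rfl
  obtain ⟨c₀, hc₀, hmax⟩ := Finset.exists_max_image f.coeff.support lam hsupp
  have hout : ∀ x, lam x < lam a → f.coeff (-x + (a + c₀)) = 0 := by
    intro x hx
    by_contra h
    have h1 := hmax _ (Finsupp.mem_support_iff.mpr h)
    rw [map_add, map_add, map_neg] at h1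
    omega
  have h2 : ((AddMonoidAlgebra.single a α + (AddMonoidAlgebra.single b β + AddMonoidAlgebra.single c γ)) * f).coeff (a + c₀) = 0 := by
    rw [hf]
    rfl
  rw [add_mul, add_mul, AddMonoidAlgebra.coeff_add, AddMonoidAlgebra.coeff_add, Finsupp.add_apply, Finsupp.add_apply,
    AddMonoidAlgebra.coeff_single_mul_apply, AddMonoidAlgebra.coeff_single_mul_apply,
    AddMonoidAlgebra.coeff_single_mul_apply, hout b hab, hout c hac, neg_add_cancel_left, mul_zero, mul_zero,
    add_zero, add_zero] at h2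
  rcases mul_eq_zero.mp h2 with h3 | h3
  · exact hα h3
  · exact (Finsupp.mem_support_iff.mp hc₀) h3

private theorem R2_three {G : Type*} [AddCommGroup G] (lam : G →+ ℤ) (a b c : G) (α β γ : ℤ)
    (hα : α ≠ 0) (hβ : β ≠ 0) (hγ : γ ≠ 0) (hne : ¬ (lam a = lam b ∧ lam b = lam c))
    (f : AddMonoidAlgebra ℤ G)
    (hf : (AddMonoidAlgebra.single a α + (AddMonoidAlgebra.single b β + AddMonoidAlgebra.single c γ)) * f = 0) :
    f = 0 := by
  have hb : (AddMonoidAlgebra.single b β + (AddMonoidAlgebra.single c γ + AddMonoidAlgebra.single a α)) * f = 0 := by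
    rw [← hf]
    congr 1
    abel
  have hc : (AddMonoidAlgebra.single c γ + (AddMonoidAlgebra.single a α + AddMonoidAlgebra.single b β)) * f = 0 := by
    rw [← hf]
    congr 1
    abel
  have key : (lam b < lam a ∧ lam c < lam a) ∨ (lam c < lam b ∧ lam a < lam b) ∨ (lam a < lam c ∧ lam b < lam c) ∨
      (lam a < lam b ∧ lam a < lam c) ∨ (lam b < lam c ∧ lam b < lam a) ∨ (lam c < lam a ∧ lam c < lam b) := by
    omega
  rcases key with h | h | h | h | h | h
  · exact R2_core lam a b c α β γ hα h.1 h.2 f hf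
  · exact R2_core lam b c a β γ α hβ h.1 h.2 f hb
  · exact R2_core lam c a b γ α β hγ h.1 h.2 f hc
  · exact R2_core (-lam) a b c α β γ hα (neg_lt_neg h.1) (neg_lt_neg h.2) f hf
  · exact R2_core (-lam) b c a β γ α hβ (neg_lt_neg h.1) (neg_lt_neg h.2) f hb
  · exact R2_core (-lam) c a b γ α β hγ (neg_lt_neg h.1) (neg_lt_neg h.2) f hc

theorem R2 {ι : Type*} [Fintype ι] [DecidableEq ι] (Λ : AddSubgroup (ι → ℤ)) (i j k : ι)
    (ℓ : (ι → ℤ) →+ ℤ) (hℓ : ∀ v ∈ Λ, ℓ v = 0)
    (hne : ¬ (ℓ (ev i) = ℓ (ev j) ∧ ℓ (ev j) = ℓ (ev k)))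
    (f : AddMonoidAlgebra ℤ ((ι → ℤ) ⧸ Λ)) (hf : (gy Λ i + gy Λ j - gy Λ k) * f = 0) :
    f = 0 := by
  have hf2 : ((AddMonoidAlgebra.single (QuotientAddGroup.mk (ev i)) 1 : AddMonoidAlgebra ℤ ((ι → ℤ) ⧸ Λ)) +
      (AddMonoidAlgebra.single (QuotientAddGroup.mk (ev j)) 1 +
        AddMonoidAlgebra.single (QuotientAddGroup.mk (ev k)) (-1))) * f = 0 := by
    rw [← hf]
    congr 1
    rw [AddMonoidAlgebra.single_neg, ← add_assoc, ← sub_eq_add_neg]
    rfl
  exact R2_three (QuotientAddGroup.lift Λ ℓ hℓ) _ _ _ 1 1 (-1) (by norm_num) (by norm_num) (by norm_num)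
    (by exact hne) f hf2

end H58D
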