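import Pool.Agent.Lib.H58D.R1

/-! Chunk R3 (size S/M).  The row norms of multiplication by `T` in the bases of `R1_basis`.

Proof.  `T * single c 1 = single (c+[e_i]) 1 + single (c+[e_j]) 1 - single (c+[e_k]) 1`.  Its coordinate function in the basis `b'` is the function
`x ↦ [x = c+[e_i]] + [x = c+[e_j]] - [x = c+[e_k]]` (compare coefficients: `b'.repr v x` is the coefficient of `v` at `x`, since `v = Σ (b'.repr v x) • b' x`).
If the three classes are distinct the sum of squares is `3`; in general a sum of three vectors of norm `1` has norm² `≤ 9`. -/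

namespace H58D

private theorem R3_delta {G : Type*} (S : Set G) [Fintype S] (a : G)
    [∀ x : S, Decidable (a = (x : G))] :
    ∑ x : S, (if a = (x : G) then (1 : ℤ) else 0) ≤ 1 := by
  rw [Finset.sum_boole]
  have h : (Finset.univ.filter fun x : S => a = (x : G)).card ≤ 1 := by
    rw [Finset.card_le_one]
    intro x hx y hy
    have h1 := (Finset.mem_filter.mp hx).2
    have h2 := (Finset.mem_filter.mp hy).2
    exact Subtype.ext (h1.symm.trans h2)
  exact_mod_cast h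

private theorem R3_repr {G : Type*} (a x : G) [Decidable (a = x)] :
    (AddMonoidAlgebra.basis G ℤ).repr (AddMonoidAlgebra.single a 1 : AddMonoidAlgebra ℤ G) x =
      if a = x then (1 : ℤ) else 0 := by
  classical
  have h : (AddMonoidAlgebra.single a 1 : AddMonoidAlgebra ℤ G) = (AddMonoidAlgebra.basis G ℤ) a :=
    (AddMonoidAlgebra.basis_apply ℤ a).symm
  rw [h, Module.Basis.repr_self]
  by_cases hax : a = x
  · rw [if_pos hax, hax, Finsupp.single_eq_same]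
  · rw [if_neg hax, Finsupp.single_eq_of_ne (fun h => hax h.symm)]

private theorem R3_alg (p q r : ℤ) : (p + q - r) ^ 2 ≤ 3 * (p ^ 2 + q ^ 2 + r ^ 2) := by
  nlinarith [sq_nonneg (p - q), sq_nonneg (p + r), sq_nonneg (q + r)]


theorem R3 {ι : Type*} [Fintype ι] [DecidableEq ι] (Λ : AddSubgroup (ι → ℤ)) (N : ℕ)
    [Fintype (gset Λ (N + 1))] (b' : Module.Basis (gset Λ (N + 1)) ℤ (lat (gy Λ) (N + 1)))
    (hb' : ∀ c : gset Λ (N + 1), ((b' c : lat (gy Λ) (N + 1)) :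
      AddMonoidAlgebra ℤ ((ι → ℤ) ⧸ Λ)) = AddMonoidAlgebra.single (c : (ι → ℤ) ⧸ Λ) 1)
    (i j k : ι) (κ : ℕ) (hκ : κ = 9 ∨ (κ = 3 ∧ ev i - ev j ∉ Λ ∧ ev i - ev k ∉ Λ ∧ ev j - ev k ∉ Λ))
    (c : (ι → ℤ) ⧸ Λ) (v : lat (gy Λ) (N + 1))
    (hv : (v : AddMonoidAlgebra ℤ ((ι → ℤ) ⧸ Λ)) =
      (gy Λ i + gy Λ j - gy Λ k) * AddMonoidAlgebra.single c 1) :
    ∑ x, (b'.repr v x) ^ 2 ≤ (κ : ℤ) := by
  classical
  have hsum : (v : AddMonoidAlgebra ℤ ((ι → ℤ) ⧸ Λ)) =
      ∑ x, (b'.repr v x) • (AddMonoidAlgebra.single (x : (ι → ℤ) ⧸ Λ) 1 :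
        AddMonoidAlgebra ℤ ((ι → ℤ) ⧸ Λ)) := by
    have h := congrArg (fun w : lat (gy Λ) (N + 1) => (w : AddMonoidAlgebra ℤ ((ι → ℤ) ⧸ Λ)))
      (b'.sum_repr v)
    rw [← h]
    show ((∑ x, (b'.repr v x) • b' x : lat (gy Λ) (N + 1)) :
      AddMonoidAlgebra ℤ ((ι → ℤ) ⧸ Λ)) = _
    rw [Submodule.coe_sum]
    refine Finset.sum_congr rfl fun x _ => ?_
    rw [Submodule.coe_smul, hb' x]
  set a : ι → (ι → ℤ) ⧸ Λ := fun l => (QuotientAddGroup.mk (ev l) : (ι → ℤ) ⧸ Λ) + c with ha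
  have hv2 : (v : AddMonoidAlgebra ℤ ((ι → ℤ) ⧸ Λ)) =
      AddMonoidAlgebra.single (a i) 1 + AddMonoidAlgebra.single (a j) 1 -
        AddMonoidAlgebra.single (a k) 1 := by
    rw [hv, sub_mul, add_mul]
    unfold gy
    rw [AddMonoidAlgebra.single_mul_single, AddMonoidAlgebra.single_mul_single,
      AddMonoidAlgebra.single_mul_single, mul_one]
  have hco : ∀ x : gset Λ (N + 1), b'.repr v x =
      (if a i = (x : (ι → ℤ) ⧸ Λ) then (1 : ℤ) else 0) +
      (if a j = (x : (ι → ℤ) ⧸ Λ) then (1 : ℤ) else 0) -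
      (if a k = (x : (ι → ℤ) ⧸ Λ) then (1 : ℤ) else 0) := by
    intro x
    have h1 := congrArg (fun w => (AddMonoidAlgebra.basis ((ι → ℤ) ⧸ Λ) ℤ).repr w
      (x : (ι → ℤ) ⧸ Λ)) hsum
    have h2 := congrArg (fun w => (AddMonoidAlgebra.basis ((ι → ℤ) ⧸ Λ) ℤ).repr w
      (x : (ι → ℤ) ⧸ Λ)) hv2
    simp only [map_sub, map_add, Finsupp.sub_apply, Finsupp.add_apply, R3_repr] at h2
    simp only [map_sum, map_smul, Finsupp.finset_sum_apply, Finsupp.smul_apply, R3_repr] at h1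
    rw [← h2, h1, Finset.sum_eq_single x]
    · simp
    · intro y _ hy
      have : (y : (ι → ℤ) ⧸ Λ) ≠ (x : (ι → ℤ) ⧸ Λ) := fun h => hy (Subtype.ext h)
      rw [if_neg this, smul_zero]
    · intro h
      exact absurd (Finset.mem_univ x) h
  have hle : ∀ l : ι, ∑ x : gset Λ (N + 1),
      (if a l = (x : (ι → ℤ) ⧸ Λ) then (1 : ℤ) else 0) ≤ 1 := fun l => R3_delta _ (a l)
  have hsq : ∀ (l : ι) (x : gset Λ (N + 1)),
      (if a l = (x : (ι → ℤ) ⧸ Λ) then (1 : ℤ) else 0) ^ 2 =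
      (if a l = (x : (ι → ℤ) ⧸ Λ) then (1 : ℤ) else 0) := by
    intro l x
    by_cases h : a l = (x : (ι → ℤ) ⧸ Λ)
    · rw [if_pos h]; norm_num
    · rw [if_neg h]; norm_num
  rcases hκ with h9 | ⟨h3, hij, hik, hjk⟩
  · have hstep : ∑ x, (b'.repr v x) ^ 2 ≤ ∑ x : gset Λ (N + 1), 3 *
        ((if a i = (x : (ι → ℤ) ⧸ Λ) then (1 : ℤ) else 0) +
        (if a j = (x : (ι → ℤ) ⧸ Λ) then (1 : ℤ) else 0) +
        (if a k = (x : (ι → ℤ) ⧸ Λ) then (1 : ℤ) else 0)) := by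
      refine Finset.sum_le_sum fun x _ => ?_
      rw [hco x]
      refine le_trans (R3_alg _ _ _) ?_
      rw [hsq i x, hsq j x, hsq k x]
    rw [← Finset.mul_sum, Finset.sum_add_distrib, Finset.sum_add_distrib] at hstep
    have h1 := hle i
    have h2 := hle j
    have h4 := hle k
    rw [h9]
    push_cast
    linarith
  · have hne : ∀ l m : ι, ev l - ev m ∉ Λ → a l ≠ a m := by
      intro l m hlm h
      apply hlm
      have h1 : (QuotientAddGroup.mk (ev l) : (ι → ℤ) ⧸ Λ) = QuotientAddGroup.mk (ev m) :=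
        add_right_cancel h
      have h2 := (QuotientAddGroup.eq (s := Λ)).mp h1.symm
      rw [sub_eq_add_neg, add_comm]
      exact h2
    have hstep : ∑ x, (b'.repr v x) ^ 2 ≤ ∑ x : gset Λ (N + 1),
        ((if a i = (x : (ι → ℤ) ⧸ Λ) then (1 : ℤ) else 0) +
        (if a j = (x : (ι → ℤ) ⧸ Λ) then (1 : ℤ) else 0) +
        (if a k = (x : (ι → ℤ) ⧸ Λ) then (1 : ℤ) else 0)) := by
      refine Finset.sum_le_sum fun x _ => ?_
      rw [hco x]
      have n1 := hne i j hij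
      have n2 := hne i k hik
      have n3 := hne j k hjk
      by_cases e1 : a i = (x : (ι → ℤ) ⧸ Λ)
      · have e2 : ¬ a j = (x : (ι → ℤ) ⧸ Λ) := fun h => n1 (e1.trans h.symm)
        have e3 : ¬ a k = (x : (ι → ℤ) ⧸ Λ) := fun h => n2 (e1.trans h.symm)
        rw [if_pos e1, if_neg e2, if_neg e3]; norm_num
      · by_cases e2 : a j = (x : (ι → ℤ) ⧸ Λ)
        · have e3 : ¬ a k = (x : (ι → ℤ) ⧸ Λ) := fun h => n3 (e2.trans h.symm)
          rw [if_neg e1, if_pos e2, if_neg e3]; norm_num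
        · by_cases e3 : a k = (x : (ι → ℤ) ⧸ Λ)
          · rw [if_neg e1, if_neg e2, if_pos e3]; norm_num
          · rw [if_neg e1, if_neg e2, if_neg e3]; norm_num
    rw [Finset.sum_add_distrib, Finset.sum_add_distrib] at hstep
    have h1 := hle i
    have h2 := hle j
    have h4 := hle k
    rw [h3]
    push_cast
    linarith

end H58D
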