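import Pool.Agent.Lib.H58D.Defs

/-! Chunk S1 (size S/M).  Rank and weight do not change under an injective ring homomorphism.

Proof.  `g` (as a `ℤ`-linear map) restricts to a linear isomorphism `e : lat y N ≃ₗ lat (g ∘ y) N` with `e (mon y u) = mon (g ∘ y) u` (`map_prod`, `map_pow`), because it maps the
generating set onto the generating set.  So the ranks agree (`LinearEquiv.finrank_eq`) and `e` maps `monSet y N` onto `monSet (g ∘ y) N`.  A tuple `v` and its image `e ∘ v` have spans
that correspond under `e`, so they have the same index (`AddSubgroup.index_map_equiv`, or via `Submodule.map`).  Take the `sSup` of equal sets (mind the cast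
`Fin (finrank ..)`: use the equality of ranks, `Fin.cast`/`finCongr`; the span of the range does not change under reindexing). -/

namespace H58D

private lemma S1_sub {L L' : Type*} [AddCommGroup L] [AddCommGroup L'] (e : L ≃ₗ[ℤ] L')
    (S : Set L) (S' : Set L') (hS : ∀ x ∈ S, e x ∈ S') (d : ℕ)
    (h : ∃ v : Fin (Module.finrank ℤ L) → L, (∀ s, v s ∈ S) ∧
      d = (Submodule.span ℤ (Set.range v)).toAddSubgroup.index) :
    ∃ v : Fin (Module.finrank ℤ L') → L', (∀ s, v s ∈ S') ∧
      d = (Submodule.span ℤ (Set.range v)).toAddSubgroup.index := by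
  obtain ⟨v, hv, rfl⟩ := h
  have hr : Module.finrank ℤ L' = Module.finrank ℤ L := e.finrank_eq.symm
  refine ⟨fun s => e (v (Fin.cast hr s)), fun s => hS _ (hv _), ?_⟩
  have h1 : Set.range (fun s => e (v (Fin.cast hr s))) = e '' Set.range v := by
    ext x
    constructor
    · rintro ⟨s, rfl⟩
      exact ⟨v (Fin.cast hr s), ⟨_, rfl⟩, rfl⟩
    · rintro ⟨_, ⟨s, rfl⟩, rfl⟩
      exact ⟨Fin.cast hr.symm s, by simp⟩
  have h2 : (Submodule.span ℤ (Set.range fun s => e (v (Fin.cast hr s)))).toAddSubgroup =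
      AddSubgroup.map (e.toAddEquiv : L →+ L') (Submodule.span ℤ (Set.range v)).toAddSubgroup := by
    rw [h1]
    have h3 : Submodule.span ℤ (e '' Set.range v) =
        Submodule.map (e : L →ₗ[ℤ] L') (Submodule.span ℤ (Set.range v)) :=
      (Submodule.map_span (e : L →ₗ[ℤ] L') (Set.range v)).symm
    rw [h3]
    ext x
    constructor
    · rintro ⟨z, hz, rfl⟩
      exact ⟨z, hz, rfl⟩
    · rintro ⟨z, hz, rfl⟩
      exact ⟨z, hz, rfl⟩
  rw [h2, AddSubgroup.index_map_equiv]

private lemma S1_wS {L L' : Type*} [AddCommGroup L] [AddCommGroup L'] (e : L ≃ₗ[ℤ] L')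
    (S : Set L) (S' : Set L') (hS : ∀ x ∈ S, e x ∈ S') (hS' : ∀ x ∈ S', e.symm x ∈ S) :
    wS S' = wS S := by
  unfold wS
  congr 1
  ext d
  exact ⟨S1_sub e.symm S' S hS' d, S1_sub e S S' hS d⟩

private lemma S1_mon {ι : Type*} [Fintype ι] {B B'' : Type*} [CommRing B] [CommRing B'']
    (y : ι → B) (g : B →+* B'') (u : ι → ℕ) :
    g (mon y u) = mon (fun i => g (y i)) u := by
  simp [mon, map_prod, map_pow]

private lemma S1_map {ι : Type*} [Fintype ι] {B B'' : Type*} [CommRing B] [CommRing B'']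
    (y : ι → B) (g : B →+* B'') (N : ℕ) :
    (lat y N).map g.toAddMonoidHom.toIntLinearMap = lat (fun i => g (y i)) N := by
  unfold lat
  rw [Submodule.map_span]
  congr 1
  ext b
  constructor
  · rintro ⟨_, ⟨u, hu, rfl⟩, rfl⟩
    exact ⟨u, hu, S1_mon y g u⟩
  · rintro ⟨u, hu, rfl⟩
    exact ⟨mon y u, ⟨u, hu, rfl⟩, S1_mon y g u⟩

theorem S1 {ι : Type*} [Fintype ι] {B B'' : Type*} [CommRing B] [CommRing B''] (y : ι → B)
    (g : B →+* B'') (hg : Function.Injective g) (N : ℕ) :
    rk (fun i => g (y i)) N = rk y N ∧ wt (fun i => g (y i)) N = wt y N := by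
  have hinj : Function.Injective g.toAddMonoidHom.toIntLinearMap := hg
  let e : lat y N ≃ₗ[ℤ] lat (fun i => g (y i)) N :=
    (Submodule.equivMapOfInjective g.toAddMonoidHom.toIntLinearMap hinj (lat y N)).trans
      (LinearEquiv.ofEq _ _ (S1_map y g N))
  have he : ∀ x : lat y N, ((e x : lat (fun i => g (y i)) N) : B'') = g (x : B) := fun x => rfl
  refine ⟨e.finrank_eq.symm, ?_⟩
  unfold wt
  refine S1_wS e _ _ ?_ ?_
  · rintro x ⟨u, hu, hx⟩
    exact ⟨u, hu, by rw [he, hx, S1_mon]⟩
  · rintro x ⟨u, hu, hx⟩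
    refine ⟨u, hu, ?_⟩
    apply hg
    rw [S1_mon, ← hx, ← he, e.apply_symm_apply]

end H58D
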