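import Pool.Agent.Lib.H58D.L7
import Pool.Agent.Lib.H58D.B2
import Pool.Agent.Lib.H58D.S0
import Pool.Agent.Lib.H58D.S1
import Pool.Agent.Lib.H58D.R2
import Pool.Agent.Lib.H58D.R3
import Pool.Agent.Lib.H58D.G1

/-! Chunk S3 (size M).  The first step inequality.

Proof.  `Λ = latt (..)`.  Let `F = FractionRing B'` (a field of characteristic zero) and `z i = algebraMap (y' i) ≠ 0`.  By `S1` (injective `algebraMap`) we may replace `y'` by `z`.
The homomorphism `(ι → ℤ) → Fˣ`, `u ↦ ∏ (z i)^(u i)`, kills the generators `dvec (p s) (m s)` of `Λ`, hence `Λ`; so there is a ring homomorphism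
`f : AddMonoidAlgebra ℤ ((ι → ℤ) ⧸ Λ) → F` with `f (gy Λ i) = z i` (`AddMonoidAlgebra.lift`, `QuotientAddGroup.lift`).  `C` from `B2` for `gy Λ` and `f`.
Fix `N` and apply `L7` with `X = gset Λ (N+1)` (`Fintype` from `R1_finite`), `L = lat (gy Λ) (N+1)`, `b` from `R1_basis`, `L' = lat z (N+1)`, `S' = monSet z (N+1)`,
`M = lat (gy Λ) N` with the basis `bM` of `R1_basis` reindexed by `Fin (finrank M)`, `π` = restriction of `f` (as in `S2`), `τ` = multiplication by `T = gy i + gy j - gy k`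
(maps `lat _ N` to `lat _ (N+1)`, injective by `R2`, `π τ = 0` because `f T = 0`), `hκ` from `R3`, `E` from `B2` (`monSet (gy Λ) (N+1) = range b` by `R1_mon`).
`finrank M = cnt Λ N`, `card X = cnt Λ (N+1)` (`Module.finrank_eq_card_basis`, `Set.ncard_eq_toFinset_card'`). -/

namespace H58D

private noncomputable def S3_hom {ι : Type*} [Fintype ι] {F : Type*} [Field F] (zu : ι → Fˣ) :
    (ι → ℤ) →+ Additive Fˣ where
  toFun u := Additive.ofMul (∏ i, zu i ^ (u i))
  map_zero' := by simp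
  map_add' u v := by
    simp only [Pi.add_apply, zpow_add, Finset.prod_mul_distrib]
    rfl

private theorem S3_ring {ι : Type*} [Fintype ι] [DecidableEq ι] {F : Type*} [Field F]
    {κ' : Type*} (z : ι → F) (hz : ∀ i, z i ≠ 0) (p m : κ' → ι → ℕ)
    (hrel : ∀ s, mon z (p s) = mon z (m s)) :
    ∃ f : AddMonoidAlgebra ℤ ((ι → ℤ) ⧸ latt (fun s => dvec (p s) (m s))) →+* F,
      ∀ i, f (gy (latt (fun s => dvec (p s) (m s))) i) = z i := by
  have hk : latt (fun s => dvec (p s) (m s)) ≤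
      (S3_hom (fun i => Units.mk0 (z i) (hz i))).ker := by
    rw [latt, AddSubgroup.closure_le]
    rintro _ ⟨s, rfl⟩
    rw [SetLike.mem_coe, AddMonoidHom.mem_ker]
    change Additive.ofMul (∏ i, (Units.mk0 (z i) (hz i)) ^ (dvec (p s) (m s) i)) = 0
    rw [ofMul_eq_zero]
    have h1 : ∏ i, (Units.mk0 (z i) (hz i)) ^ (dvec (p s) (m s) i) =
        (∏ i, (Units.mk0 (z i) (hz i)) ^ (p s i)) / ∏ i, (Units.mk0 (z i) (hz i)) ^ (m s i) := by
      rw [← Finset.prod_div_distrib]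
      refine Finset.prod_congr rfl fun i _ => ?_
      rw [dvec, zpow_sub, zpow_natCast, zpow_natCast, div_eq_mul_inv]
    rw [h1, div_eq_one]
    ext
    have h2 := hrel s
    rw [mon, mon] at h2
    simpa using h2
  refine ⟨((AddMonoidAlgebra.lift ℤ F ((ι → ℤ) ⧸ latt (fun s => dvec (p s) (m s)))
    ((Units.coeHom F).comp (AddMonoidHom.toMultiplicativeLeft (QuotientAddGroup.lift _
      (S3_hom (fun i => Units.mk0 (z i) (hz i))) hk)))) :
      AddMonoidAlgebra ℤ ((ι → ℤ) ⧸ latt (fun s => dvec (p s) (m s))) →+* F), fun i => ?_⟩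
  have h3 : (AddMonoidAlgebra.lift ℤ F ((ι → ℤ) ⧸ latt (fun s => dvec (p s) (m s)))
    ((Units.coeHom F).comp (AddMonoidHom.toMultiplicativeLeft (QuotientAddGroup.lift _
      (S3_hom (fun i => Units.mk0 (z i) (hz i))) hk))))
      (gy (latt (fun s => dvec (p s) (m s))) i) = z i := by
    rw [gy, AddMonoidAlgebra.lift_single, one_smul]
    change ((∏ j, (Units.mk0 (z j) (hz j)) ^ (ev i j) : Fˣ) : F) = z i
    rw [Finset.prod_eq_single i]
    · simp [ev]
    · intro j _ hj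
      simp [ev, hj]
    · intro h
      exact absurd (Finset.mem_univ i) h
  exact h3

private theorem S3_map_mon {ι : Type*} [Fintype ι] {B B' : Type*} [CommRing B] [CommRing B']
    (f : B →+* B') (y : ι → B) (z : ι → B') (h : ∀ i, f (y i) = z i) (u : ι → ℕ) :
    f (mon y u) = mon z u := by
  rw [mon, mon, map_prod]
  exact Finset.prod_congr rfl fun i _ => by rw [map_pow, h]

private theorem S3_map_lat {ι : Type*} [Fintype ι] {B B' : Type*} [CommRing B] [CommRing B']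
    (f : B →+* B') (y : ι → B) (z : ι → B') (h : ∀ i, f (y i) = z i) (N : ℕ) :
    Submodule.map f.toAddMonoidHom.toIntLinearMap (lat y N) = lat z N := by
  rw [lat, lat, Submodule.map_span]
  congr 1
  ext x
  constructor
  · rintro ⟨_, ⟨u, hu, rfl⟩, rfl⟩
    exact ⟨u, hu, S3_map_mon f y z h u⟩
  · rintro ⟨u, hu, rfl⟩
    exact ⟨mon y u, ⟨u, hu, rfl⟩, S3_map_mon f y z h u⟩

private theorem S3_mul_mon {ι : Type*} [Fintype ι] [DecidableEq ι] {B : Type*} [CommRing B]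
    (y : ι → B) (i : ι) (u : ι → ℕ) :
    y i * mon y u = mon y (u + Pi.single i 1) ∧ deg (u + Pi.single i 1) = deg u + 1 := by
  constructor
  · rw [mon, mon]
    simp only [Pi.add_apply, pow_add, Finset.prod_mul_distrib]
    have h : ∏ j, y j ^ ((Pi.single i 1 : ι → ℕ) j) = y i := by
      rw [Finset.prod_eq_single i]
      · simp
      · intro j _ hj
        simp [hj]
      · intro h
        exact absurd (Finset.mem_univ i) h
    rw [h, mul_comm]
  · rw [deg, deg]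
    simp only [Pi.add_apply, Finset.sum_add_distrib]
    congr 1
    rw [Finset.sum_eq_single i]
    · simp
    · intro j _ hj
      simp [hj]
    · intro h
      exact absurd (Finset.mem_univ i) h

private theorem S3_mul_lat {ι : Type*} [Fintype ι] [DecidableEq ι] {B : Type*} [CommRing B]
    (y : ι → B) (i j k : ι) (N : ℕ) (x : B) (hx : x ∈ lat y N) :
    (y i + y j - y k) * x ∈ lat y (N + 1) := by
  rw [lat] at hx
  induction hx using Submodule.span_induction with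
  | mem x hx =>
    obtain ⟨u, hu, rfl⟩ := hx
    rw [sub_mul, add_mul, (S3_mul_mon y i u).1, (S3_mul_mon y j u).1, (S3_mul_mon y k u).1]
    refine sub_mem (add_mem ?_ ?_) ?_
    · exact Submodule.subset_span ⟨_, by rw [(S3_mul_mon y i u).2]; omega, rfl⟩
    · exact Submodule.subset_span ⟨_, by rw [(S3_mul_mon y j u).2]; omega, rfl⟩
    · exact Submodule.subset_span ⟨_, by rw [(S3_mul_mon y k u).2]; omega, rfl⟩
  | zero => rw [mul_zero]; exact zero_mem _
  | add x x' _ _ h h' => rw [mul_add]; exact add_mem h h'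
  | smul a x _ h => rw [mul_smul_comm]; exact Submodule.smul_mem _ _ h

theorem S3 {ι : Type*} [Fintype ι] [DecidableEq ι] {B' : Type*} [CommRing B'] [IsDomain B']
    [CharZero B'] (y' : ι → B') (hy' : ∀ i, y' i ≠ 0) {κ' : Type*} (p m : κ' → ι → ℕ)
    (hrel : ∀ s, mon y' (p s) = mon y' (m s)) (i j k : ι) (hT : y' i + y' j = y' k)
    (ℓ : (ι → ℤ) →+ ℤ) (hℓ : ∀ v ∈ latt (fun s => dvec (p s) (m s)), ℓ v = 0)
    (hne : ¬ (ℓ (ev i) = ℓ (ev j) ∧ ℓ (ev j) = ℓ (ev k))) (κ : ℕ)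
    (hκ : κ = 9 ∨ (κ = 3 ∧ ev i - ev j ∉ latt (fun s => dvec (p s) (m s)) ∧
      ev i - ev k ∉ latt (fun s => dvec (p s) (m s)) ∧
      ev j - ev k ∉ latt (fun s => dvec (p s) (m s)))) :
    ∃ C : ℕ, 1 ≤ C ∧ ∀ N : ℕ,
      rk y' (N + 1) + cnt (latt (fun s => dvec (p s) (m s))) N ≤
        cnt (latt (fun s => dvec (p s) (m s))) (N + 1) ∧
      (wt y' (N + 1)) ^ 2 ≤ κ ^ (cnt (latt (fun s => dvec (p s) (m s))) N) *
        (C ^ 2) ^ (cnt (latt (fun s => dvec (p s) (m s))) (N + 1) -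
          cnt (latt (fun s => dvec (p s) (m s))) N - rk y' (N + 1)) := by
  classical
  have hinj : Function.Injective (algebraMap B' (FractionRing B')) :=
    IsFractionRing.injective B' (FractionRing B')
  have hS1 := fun N => S1 y' (algebraMap B' (FractionRing B')) hinj N
  set z : ι → FractionRing B' := fun i => algebraMap B' (FractionRing B') (y' i) with hz
  have hz0 : ∀ i, z i ≠ 0 := fun i => by
    rw [hz]
    exact fun h => hy' i ((map_eq_zero_iff _ hinj).1 h)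
  have hrelz : ∀ s, mon z (p s) = mon z (m s) := fun s => by
    rw [← S3_map_mon (algebraMap B' (FractionRing B')) y' z (fun _ => rfl),
      ← S3_map_mon (algebraMap B' (FractionRing B')) y' z (fun _ => rfl), hrel s]
  have hex := S3_ring z hz0 p m hrelz
  set Λ := latt (fun s => dvec (p s) (m s)) with hΛ
  obtain ⟨f, hf⟩ := hex
  obtain ⟨C, hC1, hC⟩ := B2 (gy Λ) f
  refine ⟨C, hC1, fun N => ?_⟩
  haveI hX : Fintype (gset Λ (N + 1)) := (R1_finite Λ (N + 1)).fintype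
  haveI hXN : Fintype (gset Λ N) := (R1_finite Λ N).fintype
  obtain ⟨b, hb⟩ := R1_basis Λ (N + 1)
  obtain ⟨b0, hb0⟩ := R1_basis Λ N
  haveI : Module.Free ℤ (lat (gy Λ) N) := Module.Free.of_basis b0
  haveI : Module.Finite ℤ (lat (gy Λ) N) := S0_fin (gy Λ) N
  haveI : Module.Free ℤ (lat z (N + 1)) := S0_free z (N + 1)
  haveI : Module.Finite ℤ (lat z (N + 1)) := S0_fin z (N + 1)
  have hrN : Module.finrank ℤ (lat (gy Λ) N) = Fintype.card (gset Λ N) :=
    Module.finrank_eq_card_basis b0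
  have hcN : cnt Λ N = Fintype.card (gset Λ N) := by
    rw [cnt, ← Nat.card_coe_set_eq, Nat.card_eq_fintype_card]
  have hcN1 : cnt Λ (N + 1) = Fintype.card (gset Λ (N + 1)) := by
    rw [cnt, ← Nat.card_coe_set_eq, Nat.card_eq_fintype_card]
  let e := (Fintype.equivFinOfCardEq hrN.symm)
  let bM := b0.reindex e
  -- the projection
  have hπmem : ∀ x ∈ lat (gy Λ) (N + 1), f.toAddMonoidHom.toIntLinearMap x ∈ lat z (N + 1) := by
    intro x hx
    rw [← S3_map_lat f (gy Λ) z hf (N + 1)]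
    exact Submodule.mem_map_of_mem hx
  let π : lat (gy Λ) (N + 1) →ₗ[ℤ] lat z (N + 1) :=
    f.toAddMonoidHom.toIntLinearMap.restrict hπmem
  have hπv : ∀ x : lat (gy Λ) (N + 1), ((π x : lat z (N + 1)) : FractionRing B') = f x :=
    fun x => rfl
  have hπs : Function.Surjective π := by
    rintro ⟨x', hx'⟩
    have hx'' := hx'
    rw [← S3_map_lat f (gy Λ) z hf (N + 1)] at hx''
    obtain ⟨x, hx, hxx⟩ := hx''
    exact ⟨⟨x, hx⟩, Subtype.ext hxx⟩
  have hbmon : ∀ (c : gset Λ (N + 1)) (u : ι → ℕ),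
      (c : (ι → ℤ) ⧸ Λ) = QuotientAddGroup.mk (fun i => (u i : ℤ)) →
      ((b c : lat (gy Λ) (N + 1)) : AddMonoidAlgebra ℤ ((ι → ℤ) ⧸ Λ)) = mon (gy Λ) u := by
    intro c u hcu
    rw [hb c, R1_mon, hcu]
  have hS' : ∀ s' ∈ monSet z (N + 1), ∃ c : gset Λ (N + 1), π (b c) = s' := by
    rintro s' ⟨u, hu, hs'⟩
    refine ⟨⟨QuotientAddGroup.mk (fun i => (u i : ℤ)), u, hu, rfl⟩, Subtype.ext ?_⟩
    rw [hπv, hbmon _ u rfl, S3_map_mon f (gy Λ) z hf, hs']
  have hrange : monSet (gy Λ) (N + 1) = Set.range b := by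
    ext x
    constructor
    · rintro ⟨u, hu, hx⟩
      refine ⟨⟨QuotientAddGroup.mk (fun i => (u i : ℤ)), u, hu, rfl⟩, Subtype.ext ?_⟩
      rw [hbmon _ u rfl, hx]
    · rintro ⟨c, rfl⟩
      obtain ⟨u, hu, hcu⟩ := c.2
      exact ⟨u, hu, hbmon c u hcu⟩
  -- multiplication by the trinomial
  have hfT : f (gy Λ i + gy Λ j - gy Λ k) = 0 := by
    rw [map_sub, map_add, hf, hf, hf, hz]
    simp only
    rw [← map_add, hT, sub_self]
  let τ : lat (gy Λ) N →ₗ[ℤ] lat (gy Λ) (N + 1) :=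
    (LinearMap.mulLeft ℤ (gy Λ i + gy Λ j - gy Λ k)).restrict
      (fun x hx => S3_mul_lat (gy Λ) i j k N x hx)
  have hτv : ∀ x : lat (gy Λ) N, ((τ x : lat (gy Λ) (N + 1)) :
      AddMonoidAlgebra ℤ ((ι → ℤ) ⧸ Λ)) = (gy Λ i + gy Λ j - gy Λ k) * x := fun x => rfl
  have hτ : Function.Injective τ := by
    rw [injective_iff_map_eq_zero]
    intro x hx
    have h1 : (gy Λ i + gy Λ j - gy Λ k) * (x : AddMonoidAlgebra ℤ ((ι → ℤ) ⧸ Λ)) = 0 := by
      rw [← hτv, hx]
      rfl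
    exact Subtype.ext (R2 Λ i j k ℓ hℓ hne _ h1)
  have hπτ : ∀ x, π (τ x) = 0 := by
    intro x
    refine Subtype.ext ?_
    rw [hπv, hτv, map_mul, hfT, zero_mul]
    rfl
  have hκ' : ∀ j', ∑ c, (b.repr (τ (bM j')) c) ^ 2 ≤ (κ : ℤ) := by
    intro j'
    refine R3 Λ N b hb i j k κ hκ (e.symm j' : (ι → ℤ) ⧸ Λ) _ ?_
    rw [hτv, Module.Basis.reindex_apply, hb0]
  have hE : ∀ x ∈ {x : lat (gy Λ) (N + 1) | f (x : AddMonoidAlgebra ℤ ((ι → ℤ) ⧸ Λ)) = 0 ∧
      L1le (monSet (gy Λ) (N + 1)) C x}, π x = 0 ∧ L1le (Set.range b) C x := by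
    rintro x ⟨hx1, hx2⟩
    rw [hrange] at hx2
    exact ⟨Subtype.ext hx1, hx2⟩
  have hker : ∀ x, π x = 0 → ∃ n : ℤ, n ≠ 0 ∧ n • x ∈ LinearMap.range τ ⊔
      Submodule.span ℤ {x : lat (gy Λ) (N + 1) |
        f (x : AddMonoidAlgebra ℤ ((ι → ℤ) ⧸ Λ)) = 0 ∧ L1le (monSet (gy Λ) (N + 1)) C x} := by
    intro x hx
    refine ⟨1, one_ne_zero, ?_⟩
    rw [one_smul]
    refine Submodule.mem_sup_right (hC (N + 1) x ?_)
    rw [← hπv, hx]
    rfl
  have h7 := L7 b (monSet z (N + 1)) (S0_finite z (N + 1)) (S0_span z (N + 1)) π hπs hS' τ hτ hπτ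
    bM κ hκ' C _ hE hker
  rw [hrN, ← hcN, ← hcN1] at h7
  have hrk : Module.finrank ℤ (lat z (N + 1)) = rk y' (N + 1) := (hS1 (N + 1)).1
  have hwt : wS (monSet z (N + 1)) = wt y' (N + 1) := (hS1 (N + 1)).2
  rw [hrk, hwt] at h7
  exact h7

end H58D
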