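import Pool.Agent.Lib.H58D.P2
import Pool.Agent.Lib.H58D.P3
import Pool.Agent.Lib.H58D.S2
import Pool.Agent.Lib.H58D.S3
import Pool.Agent.Lib.H58D.S4
import Pool.Agent.Lib.H58D.C4
import Pool.Agent.Lib.H58D.A1
import Pool.Agent.Lib.H58D.K1

/-! Chunk MM (size M/L).  The machine theorem (assembly).

Proof.  `R = MvPolynomial ι ℂ`, `n = card ι`, `ρ < n` by `K1a`.  `P2` gives a chain of length `n` ending in `mx x`.  `P3` with `m = mx x`, `b s = bin (p s) (m s)` (in `mx x` by `hrel`),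
`𝒯' = tri '' 𝒯`, `T1 = tri (i,j,k)` gives primes `P t`, `1 ≤ t ≤ k₀ := n - ρ`, `P k₀ = mx x`.
`B t = R ⧸ P t` (domain, characteristic zero because it is a nontrivial `ℂ`-algebra), `y t i = mk (X i)`; `y t i ≠ 0` as `X i ∉ mx x ⊇ P t`.
`a t N = rk (y t) N`, `w t N = wt (y t) N` (for all `t`).
`h1` of `A1`: `S3` for `y' = y 1` (`bin (p s) (m s) ∈ P 1` gives `hrel`, `tri (i,j,k) ∈ P 1` gives `hT`).
`h2`: for `1 ≤ t < k₀` take `f : B t → B (t+1)` (`Ideal.Quotient.factor`), `f (y t i) = y (t+1) i`, the triple `T` with `tri T ∉ P t`, `∈ P (t+1)`, and `S2`.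
`h0`, `hpos`: `S0`; `hmono`: `S4`.  `hg`: `C4`.  `hg0`: `cnt Λ 0 ≥ 1` (the class of `0`).  `A1` with `n = ρ + k₀` gives the conclusion for `a k₀`, `w k₀`.
Finally `B k₀ = R ⧸ mx x` embeds in `ℂ` by evaluation at `x` (`Ideal.Quotient.lift`/`RingHom.kerLift`, injective) and maps `y k₀ i` to `x i`; `S1`: `rk`, `wt` of `y k₀` and of `x` agree.
(To avoid dependent type trouble state everything for the functions `a w : ℕ → ℕ → ℕ`; `P k₀ = mx x` can be used with `subst`/`rw` inside the final lemma only.) -/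

namespace H58D

private theorem mm_mk_mon {ι : Type*} [Fintype ι] (P : Ideal (MvPolynomial ι ℂ)) (u : ι → ℕ) :
    mon (fun i => Ideal.Quotient.mk P (MvPolynomial.X i)) u =
      Ideal.Quotient.mk P (mon MvPolynomial.X u) := by
  simp only [mon, map_prod, map_pow]

private theorem mm_eval_mon {ι : Type*} [Fintype ι] (x : ι → ℂ) (u : ι → ℕ) :
    MvPolynomial.eval x (mon MvPolynomial.X u) = mon x u := by
  simp only [mon, map_prod, map_pow, MvPolynomial.eval_X]

private theorem mm_charZero {ι : Type*} (P : Ideal (MvPolynomial ι ℂ)) (hP : P.IsPrime) :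
    CharZero (MvPolynomial ι ℂ ⧸ P) := by
  have hd : IsDomain (MvPolynomial ι ℂ ⧸ P) := Ideal.Quotient.isDomain P
  exact charZero_of_injective_algebraMap (algebraMap ℂ (MvPolynomial ι ℂ ⧸ P)).injective

private theorem mm_cnt_zero {ι : Type*} [Fintype ι] (Λ : AddSubgroup (ι → ℤ)) :
    1 ≤ cnt Λ 0 := by
  have h : gset Λ 0 = {QuotientAddGroup.mk (fun _ => (0 : ℤ))} := by
    ext c
    constructor
    · rintro ⟨u, hu, rfl⟩
      have h1 : u = 0 := by
        funext i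
        have h1 : u i ≤ ∑ j, u j := Finset.single_le_sum (fun _ _ => Nat.zero_le _)
          (Finset.mem_univ i)
        have h2 : ∑ j, u j ≤ 0 := hu
        simp only [Pi.zero_apply]
        omega
      subst h1
      simp only [Pi.zero_apply, Nat.cast_zero, Set.mem_singleton_iff]
    · intro hc
      rw [Set.mem_singleton_iff] at hc
      refine ⟨0, by simp [deg], ?_⟩
      rw [hc]
      simp only [Pi.zero_apply, Nat.cast_zero]
  rw [cnt, h, Set.ncard_singleton]

theorem MM {ι : Type*} [Fintype ι] [DecidableEq ι] (x : ι → ℂ) (hx : ∀ i, x i ≠ 0) (ρ : ℕ)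
    (p m : Fin ρ → ι → ℕ) (D : Fin ρ → ℕ)
    (hp : ∀ s, deg (p s) ≤ D s) (hm : ∀ s, deg (m s) ≤ D s)
    (hrel : ∀ s, mon x (p s) = mon x (m s))
    (hind : LinearIndependent ℤ (fun s => dvec (p s) (m s)))
    (𝒯 : Set (ι × ι × ι)) (h𝒯 : ∀ t ∈ 𝒯, x t.1 + x t.2.1 = x t.2.2)
    (iso : ∀ P : Ideal (MvPolynomial ι ℂ), P.IsPrime → P ≤ mx x →
      (∀ s, bin (p s) (m s) ∈ P) → (∀ t ∈ 𝒯, tri t ∈ P) → P = mx x)
    (i j k : ι) (hT : x i + x j = x k)
    (ℓ : (ι → ℤ) →+ ℤ) (hℓ : ∀ v ∈ latt (fun s => dvec (p s) (m s)), ℓ v = 0)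
    (hne : ¬ (ℓ (ev i) = ℓ (ev j) ∧ ℓ (ev j) = ℓ (ev k))) (κ : ℕ)
    (hκ : κ = 9 ∨ (κ = 3 ∧ ev i - ev j ∉ latt (fun s => dvec (p s) (m s)) ∧
      ev i - ev k ∉ latt (fun s => dvec (p s) (m s)) ∧
      ev j - ev k ∉ latt (fun s => dvec (p s) (m s)))) :
    (∃ R : ℕ, ∀ N, rk x N ≤ R) ∧
      ∀ h C' : ℝ, (∀ N : ℕ, h * N ≤ Real.log (wt x N) + C') →
        h ≤ (∏ s, (D s : ℝ)) *
          (Real.log κ / 2 + (((Fintype.card ι - ρ : ℕ) : ℝ) - 1) * Real.log 3) := by
  classical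
  have hnℓ : ∃ u, ℓ u ≠ 0 := by
    by_contra h
    push Not at h
    exact hne ⟨by rw [h, h], by rw [h, h]⟩
  have hρ : ρ < Fintype.card ι := K1a ρ _ hind ℓ hℓ hnℓ
  obtain ⟨c, hc, hl⟩ := P2 x
  have hbmx : ∀ s, bin (p s) (m s) ∈ mx x := by
    intro s
    rw [mx, RingHom.mem_ker, bin, map_sub, mm_eval_mon, mm_eval_mon, hrel, sub_self]
  have hTmx : ∀ t : ι × ι × ι, x t.1 + x t.2.1 = x t.2.2 → tri t ∈ mx x := by
    intro t ht
    rw [mx, RingHom.mem_ker, tri, map_sub, map_add, MvPolynomial.eval_X, MvPolynomial.eval_X,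
      MvPolynomial.eval_X, ht, sub_self]
  obtain ⟨P, hPp, hPle, hPb, hPT, hPk, hPs⟩ := P3 (mx x) (Fintype.card ι) ρ (by omega) c hc hl
    (fun s => bin (p s) (m s)) hbmx (tri '' 𝒯)
    (by rintro _ ⟨t, ht, rfl⟩; exact hTmx t (h𝒯 t ht)) (tri (i, j, k)) (hTmx _ hT)
    (fun Q hQ hle hb hT' => iso Q hQ hle hb (fun t ht => hT' _ ⟨t, ht, rfl⟩))
  have hdom : ∀ t, IsDomain (MvPolynomial ι ℂ ⧸ P t) := fun t => by
    have := hPp t
    exact Ideal.Quotient.isDomain (P t)
  have hch : ∀ t, CharZero (MvPolynomial ι ℂ ⧸ P t) := fun t => mm_charZero (P t) (hPp t)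
  have htri : ∀ (t : ℕ) (T : ι × ι × ι),
      Ideal.Quotient.mk (P t) (tri T) = Ideal.Quotient.mk (P t) (MvPolynomial.X T.1) +
        Ideal.Quotient.mk (P t) (MvPolynomial.X T.2.1) -
        Ideal.Quotient.mk (P t) (MvPolynomial.X T.2.2) := by
    intro t T
    rw [tri, map_sub, map_add]
  have hA := A1 (Fintype.card ι) ρ (Fintype.card ι - ρ) (by omega) (by omega) D
    (cnt (latt (fun s => dvec (p s) (m s)))) (mm_cnt_zero _)
    (fun q hq0 hq1 => C4 ρ p m D hp hm hind q hq0 hq1) κ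
    (by rcases hκ with h | h
        · omega
        · omega)
    (fun t N => rk (fun i => Ideal.Quotient.mk (P t) (MvPolynomial.X i)) N)
    (fun t N => wt (fun i => Ideal.Quotient.mk (P t) (MvPolynomial.X i)) N)
    (fun t _ _ => S0_zero _) (fun t _ _ N => S0_pos _ N) (fun N => S4 _ N)
    (S3 (fun i => Ideal.Quotient.mk (P 1) (MvPolynomial.X i))
      (fun v hv => by
        have h1 : (MvPolynomial.X v : MvPolynomial ι ℂ) ∈ P 1 := Ideal.Quotient.eq_zero_iff_mem.1 hv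
        have h2 := hPle 1 h1
        rw [mx, RingHom.mem_ker, MvPolynomial.eval_X] at h2
        exact hx v h2)
      p m
      (fun s => by
        rw [mm_mk_mon, mm_mk_mon]
        have h1 := Ideal.Quotient.eq_zero_iff_mem.2 (hPb s)
        rw [bin, map_sub, sub_eq_zero] at h1
        exact h1)
      i j k
      (by
        have h1 := Ideal.Quotient.eq_zero_iff_mem.2 hPT
        rw [htri, sub_eq_zero] at h1
        exact h1)
      ℓ hℓ hne κ hκ)
    (fun t ht1 htk => by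
      obtain ⟨hle, T, ⟨T', hT', rfl⟩, hTn, hTm⟩ := hPs t ht1 htk
      have h1 := S2 (fun i => Ideal.Quotient.mk (P t) (MvPolynomial.X i))
        (Ideal.Quotient.factor hle) T'.1 T'.2.1 T'.2.2
        (by
          simp only [Ideal.Quotient.factor_mk]
          have h2 := Ideal.Quotient.eq_zero_iff_mem.2 hTm
          rw [htri, sub_eq_zero] at h2
          exact h2)
        (by
          intro h2
          rw [← htri] at h2
          exact hTn (Ideal.Quotient.eq_zero_iff_mem.1 h2))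
      simp only [Ideal.Quotient.factor_mk] at h1
      exact h1)
  -- comparison with `x`
  have hS : ∀ Q : Ideal (MvPolynomial ι ℂ), Q = mx x → ∀ N,
      rk x N = rk (fun i => Ideal.Quotient.mk Q (MvPolynomial.X i)) N ∧
      wt x N = wt (fun i => Ideal.Quotient.mk Q (MvPolynomial.X i)) N := by
    intro Q hQ N
    subst hQ
    have h1 := S1 (fun i => Ideal.Quotient.mk (mx x) (MvPolynomial.X i))
      (Ideal.Quotient.lift (mx x) (MvPolynomial.eval x) (fun a ha => ha))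
      (RingHom.lift_injective_of_ker_le_ideal (mx x) (fun a ha => ha) (le_refl _)) N
    simp only [Ideal.Quotient.lift_mk, MvPolynomial.eval_X] at h1
    exact h1
  have hS' := hS (P (Fintype.card ι - ρ)) hPk
  refine ⟨?_, ?_⟩
  · obtain ⟨R, hR⟩ := hA.1
    exact ⟨R, fun N => by rw [(hS' N).1]; exact hR N⟩
  · intro h C' hh
    exact hA.2 h C' (fun N => by rw [← (hS' N).2]; exact hh N)

end H58D
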