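import Pool.Agent.Lib.H58D.Defs

/-! Chunk P1 (size S).  Shorten a chain of primes so that it starts in a prime containing `T`.

Proof.  If `j = 0`: take the one element chain `m` (`RelSeries.singleton`); `P ≤ c.head ≤ c.last = m`.  If `j ≥ 1`: as `T ∈ c.last`,
`PrimeSpectrum.exist_ltSeries_mem_one_of_mem_last` gives a chain `q` with the same length, head and last element and
`T ∈ (q 1).asIdeal`.  Take `c' = q.tail` (`RelSeries.tail`, drop the first element): head `q 1 ≥ q 0 = c.head ≥ P`. -/

namespace H58D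

theorem P1 {R : Type*} [CommRing R] [IsNoetherianRing R] (m : Ideal R) (T : R) (hT : T ∈ m)
    (P : Ideal R) (j : ℕ) (c : LTSeries (PrimeSpectrum R)) (hc : c.length = j + 1)
    (hh : P ≤ c.head.asIdeal) (hl : c.last.asIdeal = m) :
    ∃ c' : LTSeries (PrimeSpectrum R), c'.length = j ∧ P ≤ c'.head.asIdeal ∧
      T ∈ c'.head.asIdeal ∧ c'.last.asIdeal = m := by
  obtain ⟨q, hq1, hlen, hhd, hlast⟩ :=
    PrimeSpectrum.exist_ltSeries_mem_one_of_mem_last c (x := T) (by rw [hl]; exact hT)
  have hql : q.length = j + 1 := by rw [← hlen, hc]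
  have hne : q.length ≠ 0 := by omega
  refine ⟨q.tail hne, ?_, ?_, ?_, ?_⟩
  · rw [RelSeries.tail_length]; omega
  · rw [RelSeries.head_tail]
    have h1 : q 0 ≤ q 1 := q.monotone (Fin.zero_le _)
    have h2 : P ≤ (q 0).asIdeal := by
      have : q 0 = c.head := by rw [hhd]; rfl
      rw [this]; exact hh
    exact h2.trans h1
  · rw [RelSeries.head_tail]; exact hq1
  · rw [RelSeries.last_tail, ← hlast, hl]

end H58D
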