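import Mathlib

/-!
# The chain of primes and the Nullstellensatz step (MP_dafae9_al, `PROOF.md`)
-/

set_option autoImplicit false

namespace Pool.Agent.Lib.H58D.Pre44

open MvPolynomial

section chain

variable {R : Type*} [CommRing R] [IsNoetherianRing R]

/-- one more element in the first prime costs one step of the chain -/
theorem step (p : LTSeries (PrimeSpectrum R)) {x : R} (hx : x ∈ p.last.asIdeal) :
    ∃ q : LTSeries (PrimeSpectrum R), x ∈ q.head.asIdeal ∧ p.head ≤ q.head ∧ q.last = p.last ∧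
      p.length ≤ q.length + 1 := by
  obtain ⟨q, hq1, hlen, hhead, hlast⟩ := PrimeSpectrum.exist_ltSeries_mem_one_of_mem_last p hx
  by_cases h0 : q.length = 0
  · refine ⟨p, ?_, le_rfl, rfl, Nat.le_succ _⟩
    have hp0 : p.length = 0 := by omega
    have : p.head = p.last := by
      rw [RelSeries.head, RelSeries.last]
      congr 1
      exact Fin.ext (by simp [hp0])
    rwa [this]
  · refine ⟨q.tail h0, ?_, ?_, ?_, ?_⟩
    · have : (q.tail h0).head = q 1 := by
        rw [RelSeries.head_tail]
      rw [this]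
      exact hq1
    · have : (q.tail h0).head = q 1 := by
        rw [RelSeries.head_tail]
      rw [this, hhead]
      exact LTSeries.head_le q 1
    · rw [RelSeries.last_tail, hlast]
    · rw [RelSeries.tail_length]
      omega

/-- the chain which starts at a given prime -/
theorem build (m : Ideal R) (S : Set R) (hS : ∀ T ∈ S, T ∈ m) (B : Set R)
    (hiso : ∀ P : Ideal R, P.IsPrime → P ≤ m → B ⊆ P → S ⊆ P → P = m) (P₀ : Ideal R) :
    ∀ q : LTSeries (PrimeSpectrum R), q.head.asIdeal = P₀ → q.last.asIdeal = m → B ⊆ P₀ →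
      ∃ (k : ℕ) (P : ℕ → Ideal R), 1 ≤ k ∧ q.length + 1 ≤ k ∧ (∀ t < k, (P t).IsPrime) ∧
        P (k - 1) = m ∧ P 0 = P₀ ∧
        ∀ t, t + 1 < k → P t ≤ P (t + 1) ∧ ∃ T ∈ S, T ∈ P (t + 1) ∧ T ∉ P t := by
  induction P₀ using WellFoundedGT.induction with
  | ind P₀ ih =>
    intro q hq0 hqm hB
    have hle : q.head ≤ q.last := LTSeries.head_le_last q
    have hPm : P₀ ≤ m := by
      rw [← hq0, ← hqm]
      exact hle
    have hprime : P₀.IsPrime := hq0 ▸ q.head.isPrime
    by_cases hP : P₀ = m
    · subst hP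
      refine ⟨1, fun _ => P₀, le_rfl, ?_, fun _ _ => hprime, rfl, rfl, fun t ht => by omega⟩
      have h1 : q.head = q.last := PrimeSpectrum.ext (hq0.trans hqm.symm)
      have h2 : q.length = 0 := by
        by_contra h
        have h3 : (0 : Fin (q.length + 1)) < Fin.last q.length := by
          rw [Fin.lt_def]
          simpa using Nat.pos_of_ne_zero h
        exact (q.strictMono h3).ne h1
      omega
    · obtain ⟨T, hTS, hT⟩ : ∃ T ∈ S, T ∉ P₀ := by
        by_contra hcon
        push Not at hcon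
        exact hP (hiso P₀ hprime hPm hB hcon)
      have hTm : T ∈ q.last.asIdeal := by
        rw [hqm]
        exact hS T hTS
      obtain ⟨q', hq'T, hq'h, hq'l, hq'len⟩ := step q hTm
      have hle' : P₀ ≤ q'.head.asIdeal := by
        rw [← hq0]
        exact hq'h
      have hlt : P₀ < q'.head.asIdeal := by
        refine lt_of_le_of_ne hle' fun h => hT ?_
        rw [h]
        exact hq'T
      obtain ⟨k, P, hk1, hk, hpr, hlast, hP0, hstep⟩ := ih q'.head.asIdeal hlt q' rfl
        (by rw [hq'l, hqm]) (hB.trans hle')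
      refine ⟨k + 1, fun t => Nat.casesOn t P₀ P, by omega, by omega, ?_, ?_, rfl, ?_⟩
      · intro t ht
        cases t with
        | zero => exact hprime
        | succ t => exact hpr t (by omega)
      · obtain ⟨k', rfl⟩ : ∃ k', k = k' + 1 := ⟨k - 1, by omega⟩
        exact hlast
      · intro t ht
        cases t with
        | zero =>
          refine ⟨?_, T, hTS, ?_, hT⟩
          · change P₀ ≤ P 0
            rw [hP0]
            exact hle'
          · change T ∈ P 0
            rw [hP0]
            exact hq'T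
        | succ t => exact hstep t (by omega)

/-- finitely many elements in the first prime -/
theorem steps (m : Ideal R) (n : ℕ) (q : LTSeries (PrimeSpectrum R)) (hqm : q.last.asIdeal = m)
    (hn : n ≤ q.length) (l : List R) (hl : ∀ x ∈ l, x ∈ m) :
    ∃ q' : LTSeries (PrimeSpectrum R), q'.last.asIdeal = m ∧ n ≤ q'.length + l.length ∧
      ∀ x ∈ l, x ∈ q'.head.asIdeal := by
  induction l with
  | nil => exact ⟨q, hqm, by simpa using hn, by simp⟩
  | cons x l ih =>
    obtain ⟨q', h1, h2, h3⟩ := ih fun y hy => hl y (List.mem_cons_of_mem _ hy)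
    have hx : x ∈ q'.last.asIdeal := by
      rw [h1]
      exact hl x List.mem_cons_self
    obtain ⟨q'', hq1, hq2, hq3, hq4⟩ := step q' hx
    refine ⟨q'', by rw [hq3, h1], by rw [List.length_cons]; omega, fun y hy => ?_⟩
    rcases List.mem_cons.mp hy with rfl | hy
    · exact hq1
    · exact hq2 (h3 y hy)

/-- **The chain of primes.** -/
theorem chain (m : Ideal R) (n : ℕ) (q : LTSeries (PrimeSpectrum R)) (hql : q.last.asIdeal = m)
    (hqn : n ≤ q.length) (ρ : ℕ) (b : Fin ρ → R)
    (hb : ∀ s, b s ∈ m) (T₁ : R) (hT₁ : T₁ ∈ m) (S : Set R) (hS : ∀ T ∈ S, T ∈ m)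
    (hiso : ∀ P : Ideal R, P.IsPrime → P ≤ m → (∀ s, b s ∈ P) → (∀ T ∈ S, T ∈ P) → P = m) :
    ∃ (k : ℕ) (P : ℕ → Ideal R), 1 ≤ k ∧ n ≤ ρ + k ∧ (∀ t < k, (P t).IsPrime) ∧ P (k - 1) = m ∧
      (∀ s, b s ∈ P 0) ∧ T₁ ∈ P 0 ∧
      ∀ t, t + 1 < k → P t ≤ P (t + 1) ∧ ∃ T ∈ S, T ∈ P (t + 1) ∧ T ∉ P t := by
  obtain ⟨q', h1, h2, h3⟩ := steps m n q hql hqn (T₁ :: List.ofFn b) (by
    intro x hx
    rcases List.mem_cons.mp hx with rfl | hx
    · exact hT₁
    · obtain ⟨s, rfl⟩ := (List.mem_ofFn' _ _).mp hx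
      exact hb s)
  have hb' : ∀ s, b s ∈ q'.head.asIdeal := fun s =>
    h3 _ (List.mem_cons_of_mem _ ((List.mem_ofFn' _ _).mpr ⟨s, rfl⟩))
  obtain ⟨k, P, hk1, hk, hpr, hlast, hP0, hstep⟩ := build m S hS (Set.range b)
    (fun P hP hle hBP hSP => hiso P hP hle (fun s => hBP ⟨s, rfl⟩) hSP) q'.head.asIdeal q' rfl h1
    (by rintro x ⟨s, rfl⟩; exact hb' s)
  refine ⟨k, P, hk1, ?_, hpr, hlast, fun s => hP0 ▸ hb' s, hP0 ▸ h3 _ List.mem_cons_self, hstep⟩
  rw [List.length_cons, List.length_ofFn] at h2
  omega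

end chain

section point

variable {K ι : Type*} [Field K]

/-- substitution of the coordinates in `s` -/
noncomputable def sub (x : ι → K) (s : Finset ι) [DecidableEq ι] :
    MvPolynomial ι K →ₐ[K] MvPolynomial ι K :=
  aeval fun i => if i ∈ s then C (x i) else X i

theorem sub_X (x : ι → K) (s : Finset ι) [DecidableEq ι] (i : ι) :
    sub x s (X i) = if i ∈ s then C (x i) else X i := by
  rw [sub, aeval_X]

/-- **A chain of primes of length `card ι` which ends in the ideal of a point.** -/
theorem exists_series_point [Fintype ι] (x : ι → K) :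
    ∃ q : LTSeries (PrimeSpectrum (MvPolynomial ι K)),
      q.last.asIdeal = RingHom.ker (aeval x : MvPolynomial ι K →ₐ[K] K) ∧
        q.length = Fintype.card ι := by
  classical
  let e := Fintype.equivFin ι
  let s : ℕ → Finset ι := fun j => Finset.univ.filter fun i => (e i : ℕ) < j
  have hker : ∀ j, (RingHom.ker (sub x (s j))).IsPrime := fun j => RingHom.ker_isPrime _
  have hcomp : ∀ j i, (sub x (s (j + 1))).comp (sub x (s j)) (X i : MvPolynomial ι K) =
      sub x (s (j + 1)) (X i) := by
    intro j i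
    rw [AlgHom.comp_apply, sub_X, sub_X]
    by_cases h : i ∈ s j
    · have h' : i ∈ s (j + 1) := by
        simp only [s, Finset.mem_filter, Finset.mem_univ, true_and] at h ⊢
        omega
      rw [if_pos h, if_pos h', ← algebraMap_eq, AlgHom.commutes]
    · rw [if_neg h, sub_X]
  have hcomp' : ∀ j, (sub x (s (j + 1))).comp (sub x (s j)) = sub x (s (j + 1)) := fun j =>
    algHom_ext (hcomp j)
  have hle : ∀ j, RingHom.ker (sub x (s j)) ≤ RingHom.ker (sub x (s (j + 1))) := by
    intro j f hf
    rw [RingHom.mem_ker] at hf ⊢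
    rw [← hcomp' j, AlgHom.comp_apply, hf, map_zero]
  have hlt : ∀ j, j < Fintype.card ι →
      RingHom.ker (sub x (s j)) < RingHom.ker (sub x (s (j + 1))) := by
    intro j hj
    refine lt_of_le_of_ne (hle j) fun heq => ?_
    let i : ι := e.symm ⟨j, hj⟩
    have hi1 : i ∉ s j := by simp [s, i]
    have hi2 : i ∈ s (j + 1) := by simp [s, i]
    have h1 : (X i - C (x i) : MvPolynomial ι K) ∈ RingHom.ker (sub x (s (j + 1))) := by
      rw [RingHom.mem_ker, map_sub, sub_X, if_pos hi2, ← algebraMap_eq, AlgHom.commutes, sub_self]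
    rw [← heq, RingHom.mem_ker, map_sub, sub_X, if_neg hi1, ← algebraMap_eq, AlgHom.commutes,
      sub_eq_zero, algebraMap_eq] at h1
    have h2 := congrArg (fun f : MvPolynomial ι K => f.coeff (Finsupp.single i 1)) h1
    simp only [coeff_C] at h2
    rw [coeff_X, if_neg (Finsupp.single_ne_zero.mpr one_ne_zero).symm] at h2
    rw [if_pos rfl] at h2
    exact one_ne_zero h2
  let q : LTSeries (PrimeSpectrum (MvPolynomial ι K)) :=
    { length := Fintype.card ι
      toFun := fun j => ⟨RingHom.ker (sub x (s j)), hker j⟩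
      step := fun j => by
        change (⟨_, _⟩ : PrimeSpectrum (MvPolynomial ι K)) < ⟨_, _⟩
        rw [← PrimeSpectrum.asIdeal_lt_asIdeal]
        exact hlt j j.2 }
  refine ⟨q, ?_, rfl⟩
  change RingHom.ker (sub x (s (Fintype.card ι))) = _
  have hfin : ∀ f, sub x (s (Fintype.card ι)) f = C (aeval x f) := by
    intro f
    have : sub x (s (Fintype.card ι)) = (Algebra.ofId K (MvPolynomial ι K)).comp (aeval x) := by
      refine algHom_ext fun i => ?_
      rw [sub_X, if_pos, AlgHom.comp_apply, aeval_X]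
      · rfl
      · simp [s]
    rw [this]
    rfl
  ext f
  rw [RingHom.mem_ker, RingHom.mem_ker, hfin, map_eq_zero_iff _ (C_injective ι K)]

/-- **The Nullstellensatz step**: a prime ideal with finitely many zeros, contained in the ideal
of a point, is the ideal of this point. -/
theorem eq_point_of_finite [IsAlgClosed K] [Finite ι] (P : Ideal (MvPolynomial ι K)) [P.IsPrime]
    (x : ι → K) (hP : P ≤ RingHom.ker (aeval x : MvPolynomial ι K →ₐ[K] K))
    (hfin : {z : ι → K | ∀ f ∈ P, aeval z f = 0}.Finite) :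
    P = RingHom.ker (aeval x : MvPolynomial ι K →ₐ[K] K) := by
  classical
  have hmem : ∀ f : MvPolynomial ι K,
      (∀ z : ι → K, (∀ g ∈ P, aeval z g = 0) → aeval z f = 0) → f ∈ P := by
    intro f hf
    have h1 := IsPrime.vanishingIdeal_zeroLocus (K := K) P
    rw [← h1, mem_vanishingIdeal_iff]
    intro z hz
    exact hf z fun g hg => hz g hg
  have hX : ∀ i, (X i - C (x i) : MvPolynomial ι K) ∈ P := by
    intro i
    have h1 : ∏ z ∈ hfin.toFinset, (X i - C (z i) : MvPolynomial ι K) ∈ P := by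
      refine hmem _ fun z hz => ?_
      rw [map_prod]
      refine Finset.prod_eq_zero (i := z) (hfin.mem_toFinset.mpr hz) ?_
      rw [map_sub, aeval_X, aeval_C, sub_eq_zero]
      rfl
    obtain ⟨z, -, hz⟩ := (Ideal.IsPrime.prod_mem_iff (p := P)).mp h1
    have h2 := hP hz
    rw [RingHom.mem_ker, map_sub, aeval_X, aeval_C, sub_eq_zero] at h2
    rw [h2]
    exact hz
  refine le_antisymm hP fun f hf => hmem f fun z hz => ?_
  have hzx : z = x := by
    funext i
    have := hz _ (hX i)
    rw [map_sub, aeval_X, aeval_C, sub_eq_zero] at this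
    exact this
  rw [hzx]
  exact hf

end point

end Pool.Agent.Lib.H58D.Pre44
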