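import Pool.Agent.Lib.H58D.Defs
import Pool.Agent.Lib.H58D.Pre44

/-! Chunk P2 (size M).  The ideal of a point of `ℂ^ι` is the end of a chain of primes of length `card ι`.

Proof.  Choose an enumeration `e : ι ≃ Fin n`, `n = card ι`.  For `j ≤ n` let `p_j` be the kernel of the ring homomorphism
`φ_j = MvPolynomial.aeval (fun i => if (e i : ℕ) < j then C (x i) else X i) : MvPolynomial ι ℂ → MvPolynomial ι ℂ`.
It is prime because the target is a domain.  `p_j ≤ p_(j+1)`: `φ_(j+1) = φ_(j+1) ∘ φ_j` (check on generators).  Strict: for `e i = j` the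
polynomial `X i - C (x i)` is in `p_(j+1)` but `φ_j` maps it to `X i - C (x i) ≠ 0`.  `p_n` = kernel of `eval x` (up to the injective map `C`).
So `j ↦ p_j` gives an `LTSeries` of length `n` (`LTSeries.mk` with a strictly monotone function `Fin (n+1) → PrimeSpectrum`).
(The chain is in `Pre44`.) -/

namespace H58D

theorem P2 {ι : Type*} [Fintype ι] [DecidableEq ι] (x : ι → ℂ) :
    ∃ c : LTSeries (PrimeSpectrum (MvPolynomial ι ℂ)), c.length = Fintype.card ι ∧
      c.last.asIdeal = mx x := by
  obtain ⟨q, h1, h2⟩ := Pool.Agent.Lib.H58D.Pre44.exists_series_point (K := ℂ) x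
  refine ⟨q, h2, h1.trans ?_⟩
  ext f
  rfl

end H58D
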