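import Pool.Agent.Lib.H58D.Defs

/-! Chunk P4 (size S).  A prime ideal of `ℂ[X]` inside the ideal of the point `x` with a finite zero set is the ideal of `x`.

Proof.  Let `V = zeroLocus ℂ P`, a finite set.  For `i : ι` let `f = ∏_{a ∈ V} (X i - C (a i))`.  It vanishes on `V`, so
`f ∈ vanishingIdeal ℂ (zeroLocus ℂ P) = P.radical = P` (`MvPolynomial.vanishingIdeal_zeroLocus_eq_radical`, `Ideal.IsPrime.radical`).  So some factor
`X i - C (a i)` is in `P ≤ mx x`, evaluate: `a i = x i`.  So `X i - C (x i) ∈ P` for all `i`.  Hence every `f` satisfies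
`f - C (eval x f) ∈ P` (induction on `f`, or the quotient map mod `P` is determined on the generators), so `eval x f = 0` implies `f ∈ P`. -/

namespace H58D

private theorem P4_sub_eval_mem {ι : Type*} (x : ι → ℂ) (P : Ideal (MvPolynomial ι ℂ))
    (h : ∀ i, MvPolynomial.X i - MvPolynomial.C (x i) ∈ P) (f : MvPolynomial ι ℂ) :
    f - MvPolynomial.C (MvPolynomial.eval x f) ∈ P := by
  induction f using MvPolynomial.induction_on with
  | C a => simp
  | add p q hp hq =>
    have e : p + q - MvPolynomial.C (MvPolynomial.eval x (p + q)) =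
        (p - MvPolynomial.C (MvPolynomial.eval x p)) +
          (q - MvPolynomial.C (MvPolynomial.eval x q)) := by
      simp only [map_add]; ring
    rw [e]; exact P.add_mem hp hq
  | mul_X p i hp =>
    have e : p * MvPolynomial.X i - MvPolynomial.C (MvPolynomial.eval x (p * MvPolynomial.X i)) =
        (p - MvPolynomial.C (MvPolynomial.eval x p)) * MvPolynomial.X i +
          MvPolynomial.C (MvPolynomial.eval x p) *
            (MvPolynomial.X i - MvPolynomial.C (x i)) := by
      simp only [map_mul, MvPolynomial.eval_X]; ring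
    rw [e]
    exact P.add_mem (P.mul_mem_right _ hp) (P.mul_mem_left _ (h i))

theorem P4 {ι : Type*} [Fintype ι] [DecidableEq ι] (x : ι → ℂ) (P : Ideal (MvPolynomial ι ℂ))
    (hP : P.IsPrime) (hPx : P ≤ mx x) (hfin : (MvPolynomial.zeroLocus ℂ P).Finite) :
    P = mx x := by
  have hX : ∀ i, MvPolynomial.X i - MvPolynomial.C (x i) ∈ P := by
    intro i
    have hprod : (∏ a ∈ hfin.toFinset,
        (MvPolynomial.X i - MvPolynomial.C (a i) : MvPolynomial ι ℂ)) ∈ P := by
      have h1 : (∏ a ∈ hfin.toFinset,
          (MvPolynomial.X i - MvPolynomial.C (a i) : MvPolynomial ι ℂ)) ∈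
          MvPolynomial.vanishingIdeal ℂ (MvPolynomial.zeroLocus ℂ P) := by
        rw [MvPolynomial.mem_vanishingIdeal_iff]
        intro b hb
        rw [map_prod]
        refine Finset.prod_eq_zero (i := b) (hfin.mem_toFinset.2 hb) ?_
        simp
      rwa [MvPolynomial.vanishingIdeal_zeroLocus_eq_radical, hP.radical] at h1
    obtain ⟨a, _, ha⟩ := (hP.prod_mem_iff).1 hprod
    have hax : MvPolynomial.eval x (MvPolynomial.X i - MvPolynomial.C (a i)) = 0 := hPx ha
    have : x i = a i := by
      simpa [sub_eq_zero] using hax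
    rw [this]
    exact ha
  refine le_antisymm hPx ?_
  intro f hf
  have hf0 : MvPolynomial.eval x f = 0 := hf
  have := P4_sub_eval_mem x P hX f
  rwa [hf0, map_zero, sub_zero] at this

end H58D
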