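import Pool.Agent.Lib.H58D.G1

/-! Chunk P5 (size M).  A relation of `x` which is torsion modulo the chosen relations holds modulo `P`.

Proof.  In the domain `B = MvPolynomial ι ℂ ⧸ P` put `y i = mk (X i)`; `y i ≠ 0` since `X i ∉ mx x` (`x i ≠ 0`).  By `hb`, `mon y (p s) = mon y (m s)`.  By `G1` applied
to `u = N • a`, `u' = N • b` (note `dvec (N•a) (N•b) = N • dvec a b`): `(mon y a)^N = (mon y b)^N`.  `mon y b ≠ 0`.  Over `ℂ` we have
`A^N - B^N = ∏_{ω ∈ nthRoots N 1} (A - ω B)` (for example `Polynomial` factorization of `X^N - 1`, homogenized; or: the polynomial `Z^N - (mon y b)^N` over the domain `B` has the `N`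
roots `ω * mon y b`).  So for some `ω` with `ω^N = 1`: `mon y a = ω * mon y b`, i.e. `mon X a - C ω * mon X b ∈ P ≤ mx x`.  Evaluate at `x`:
`mon x a = ω * mon x b`, and `mon x b ≠ 0`, so `ω = c`. -/

namespace H58D

theorem P5 {ι : Type*} [Fintype ι] [DecidableEq ι] (x : ι → ℂ) (hx : ∀ i, x i ≠ 0)
    (P : Ideal (MvPolynomial ι ℂ)) (hP : P.IsPrime) (hPx : P ≤ mx x)
    {κ : Type*} (p m : κ → ι → ℕ) (hb : ∀ s, bin (p s) (m s) ∈ P)
    (a b : ι → ℕ) (c : ℂ) (hrel : mon x a = c * mon x b) (N : ℕ) (hN : 0 < N)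
    (hab : N • dvec a b ∈ latt (fun s => dvec (p s) (m s))) :
    mon MvPolynomial.X a - MvPolynomial.C c * mon MvPolynomial.X b ∈ P := by
  classical
  haveI : P.IsPrime := hP
  have hinj : Function.Injective ((Ideal.Quotient.mk P).comp (MvPolynomial.C : ℂ →+* MvPolynomial ι ℂ)) :=
    RingHom.injective _
  set f : ℂ →+* (MvPolynomial ι ℂ ⧸ P) := (Ideal.Quotient.mk P).comp (MvPolynomial.C : ℂ →+* MvPolynomial ι ℂ) with hf
  set y : ι → (MvPolynomial ι ℂ ⧸ P) := fun i => Ideal.Quotient.mk P (MvPolynomial.X i) with hy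
  have hmon : ∀ u : ι → ℕ, Ideal.Quotient.mk P (mon MvPolynomial.X u) = mon y u := by
    intro u
    simp only [mon, map_prod, map_pow, hy]
  have hev : ∀ u : ι → ℕ, MvPolynomial.eval x (mon MvPolynomial.X u) = mon x u := by
    intro u
    simp only [mon, map_prod, map_pow, MvPolynomial.eval_X]
  have hy0 : ∀ i, y i ≠ 0 := by
    intro i hi
    have h1 : (MvPolynomial.X i : MvPolynomial ι ℂ) ∈ P := Ideal.Quotient.eq_zero_iff_mem.mp hi
    have h2 := hPx h1
    have h3 : MvPolynomial.eval x (MvPolynomial.X i) = 0 := h2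
    rw [MvPolynomial.eval_X] at h3
    exact hx i h3
  have hbs : ∀ s, mon y (p s) = mon y (m s) := by
    intro s
    have h1 : Ideal.Quotient.mk P (bin (p s) (m s)) = 0 := Ideal.Quotient.eq_zero_iff_mem.mpr (hb s)
    rw [bin, map_sub, hmon, hmon] at h1
    exact sub_eq_zero.mp h1
  have hd : dvec (N • a) (N • b) = N • dvec a b := by
    funext i
    simp only [dvec, Pi.smul_apply, smul_eq_mul, nsmul_eq_mul, Nat.cast_mul]
    ring
  have hG := G1 y hy0 p m hbs (N • a) (N • b) (by rw [hd]; exact hab)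
  have hpow : ∀ u : ι → ℕ, mon y (N • u) = (mon y u) ^ N := by
    intro u
    simp only [mon, Pi.smul_apply, smul_eq_mul]
    rw [← Finset.prod_pow]
    refine Finset.prod_congr rfl (fun i _ => ?_)
    rw [mul_comm, pow_mul]
  rw [hpow, hpow] at hG
  have hprim0 : IsPrimitiveRoot (Complex.exp (2 * Real.pi * Complex.I / N)) N :=
    Complex.isPrimitiveRoot_exp N hN.ne'
  have hprim : IsPrimitiveRoot (f (Complex.exp (2 * Real.pi * Complex.I / N))) N :=
    hprim0.map_of_injective hinj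
  have hprod := hprim.pow_sub_pow_eq_prod_sub_mul (mon y a) (mon y b) hN
  rw [hG, sub_self] at hprod
  obtain ⟨w, hw, hw0⟩ := Finset.prod_eq_zero_iff.mp hprod.symm
  have hwN : w ^ N = 1 := (Polynomial.mem_nthRootsFinset hN 1).mp hw
  haveI : NeZero N := ⟨hN.ne'⟩
  obtain ⟨j, _, hj⟩ := hprim.eq_pow_of_pow_eq_one hwN
  set w' : ℂ := (Complex.exp (2 * Real.pi * Complex.I / N)) ^ j with hw'
  have hfw : f w' = w := by rw [hw', map_pow, hj]
  have hmem : mon MvPolynomial.X a - MvPolynomial.C w' * mon MvPolynomial.X b ∈ P := by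
    rw [← Ideal.Quotient.eq_zero_iff_mem, map_sub, map_mul, hmon, hmon]
    have h1 : Ideal.Quotient.mk P (MvPolynomial.C w') = w := hfw
    rw [h1]
    exact hw0
  have h4 : MvPolynomial.eval x (mon MvPolynomial.X a - MvPolynomial.C w' * mon MvPolynomial.X b) = 0 :=
    hPx hmem
  rw [map_sub, map_mul, hev, hev, MvPolynomial.eval_C, hrel] at h4
  have hxb : mon x b ≠ 0 := by
    simp only [mon]
    exact Finset.prod_ne_zero_iff.mpr (fun i _ => pow_ne_zero _ (hx i))
  have hcw : c = w' := by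
    have h5 : (c - w') * mon x b = 0 := by rw [sub_mul]; exact h4
    rcases mul_eq_zero.mp h5 with h6 | h6
    · exact sub_eq_zero.mp h6
    · exact absurd h6 hxb
  rw [hcw]
  exact hmem

end H58D
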