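/-
H58D (MP_dafae9_al): pure lemmas, helper28.
-/
import Mathlib

namespace Pool.Agent.Lib.H58D.Pre28

open scoped BigOperators
open Matrix
open scoped ComplexOrder

/-! Hadamard's determinant inequality, squared form. -/

theorem hadamard {n : Type*} [Fintype n] [DecidableEq n] (A : Matrix n n ℂ) :
    ‖A.det‖ ^ 2 ≤ ∏ i, ∑ j, ‖A i j‖ ^ 2 := by
  by_cases h0 : ∃ i, ∑ j, ‖A i j‖ ^ 2 = 0
  · obtain ⟨i, hi⟩ := h0
    have hz : ∀ j, A i j = 0 := by
      intro j
      have h1 := (Finset.sum_eq_zero_iff_of_nonneg (fun j _ => by positivity)).1 hi j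
        (Finset.mem_univ j)
      simpa using h1
    rw [Matrix.det_eq_zero_of_row_eq_zero i hz]
    simp only [norm_zero, ne_eq, OfNat.ofNat_ne_zero, not_false_eq_true, zero_pow]
    exact Finset.prod_nonneg fun i _ => Finset.sum_nonneg fun j _ => by positivity
  · push Not at h0
    have hpos : ∀ i, 0 < ∑ j, ‖A i j‖ ^ 2 := fun i =>
      lt_of_le_of_ne (Finset.sum_nonneg fun j _ => by positivity) (Ne.symm (h0 i))
    set r : n → ℝ := fun i => Real.sqrt (∑ j, ‖A i j‖ ^ 2) with hr
    have hrpos : ∀ i, 0 < r i := fun i => Real.sqrt_pos.2 (hpos i)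
    have hrsq : ∀ i, r i ^ 2 = ∑ j, ‖A i j‖ ^ 2 := fun i => Real.sq_sqrt (hpos i).le
    set B : Matrix n n ℂ := Matrix.of fun i j => ((r i)⁻¹ : ℂ) * A i j with hB
    have hdetA : A.det = (∏ i, (r i : ℂ)) * B.det := by
      rw [← Matrix.det_mul_column (fun i => (r i : ℂ)) B]
      congr 1
      ext i j
      simp only [hB, Matrix.of_apply]
      have : (r i : ℂ) ≠ 0 := by exact_mod_cast (hrpos i).ne'
      field_simp
    have hG : (B * Bᴴ).PosSemidef := Matrix.posSemidef_self_mul_conjTranspose B
    have hH := hG.isHermitian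
    have hdet1 : ((‖B.det‖ ^ 2 : ℝ) : ℂ) = ∏ i, (hH.eigenvalues i : ℂ) := by
      have h1 := hH.det_eq_prod_eigenvalues
      rw [Matrix.det_mul, Matrix.det_conjTranspose] at h1
      rw [← Complex.normSq_eq_norm_sq, ← Complex.mul_conj]
      simpa using h1
    have htr : ((Fintype.card n : ℝ) : ℂ) = ∑ i, (hH.eigenvalues i : ℂ) := by
      have h1 := hH.trace_eq_sum_eigenvalues
      have h2 : (B * Bᴴ).trace = ((Fintype.card n : ℝ) : ℂ) := by
        rw [Matrix.trace]
        have : ∀ i, (B * Bᴴ).diag i = 1 := by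
          intro i
          rw [Matrix.diag_apply, Matrix.mul_apply]
          have h3 : ∀ j, B i j * Bᴴ j i = (((r i ^ 2)⁻¹ * ‖A i j‖ ^ 2 : ℝ) : ℂ) := by
            intro j
            rw [Matrix.conjTranspose_apply, hB, Matrix.of_apply]
            have h4 : star ((r i : ℂ)⁻¹ * A i j) = (starRingEnd ℂ) ((r i : ℂ)⁻¹ * A i j) := rfl
            rw [h4, Complex.mul_conj, Complex.normSq_eq_norm_sq, norm_mul, norm_inv,
              Complex.norm_real, Real.norm_eq_abs, abs_of_pos (hrpos i), mul_pow, inv_pow]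
          rw [Finset.sum_congr rfl (fun j _ => h3 j), ← Complex.ofReal_sum, ← Finset.mul_sum,
            hrsq, inv_mul_cancel₀ (hpos i).ne']
          simp
        rw [Finset.sum_congr rfl (fun i _ => this i)]
        simp
      rw [← h2, h1]
      rfl
    have hdet2 : ‖B.det‖ ^ 2 = ∏ i, hH.eigenvalues i := by exact_mod_cast hdet1
    have htr2 : (Fintype.card n : ℝ) = ∑ i, hH.eigenvalues i := by exact_mod_cast htr
    have hle : ‖B.det‖ ^ 2 ≤ 1 := by
      rw [hdet2]
      calc ∏ i, hH.eigenvalues i ≤ ∏ i, Real.exp (hH.eigenvalues i - 1) := by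
            refine Finset.prod_le_prod (fun i _ => hG.eigenvalues_nonneg i) (fun i _ => ?_)
            have := Real.add_one_le_exp (hH.eigenvalues i - 1)
            linarith
        _ = Real.exp (∑ i, (hH.eigenvalues i - 1)) := by rw [Real.exp_sum]
        _ = 1 := by
            rw [Finset.sum_sub_distrib, ← htr2]
            simp
    rw [hdetA, norm_mul, mul_pow]
    have h5 : ‖∏ i, (r i : ℂ)‖ ^ 2 = ∏ i, ∑ j, ‖A i j‖ ^ 2 := by
      rw [norm_prod, ← Finset.prod_pow]
      refine Finset.prod_congr rfl fun i _ => ?_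
      rw [Complex.norm_real, Real.norm_eq_abs, sq_abs, hrsq]
    rw [h5]
    have h6 : 0 ≤ ∏ i, ∑ j, ‖A i j‖ ^ 2 :=
      Finset.prod_nonneg fun i _ => (hpos i).le
    nlinarith

theorem hadamard_int {n : Type*} [Fintype n] [DecidableEq n] (A : Matrix n n ℤ) :
    A.det ^ 2 ≤ ∏ i, ∑ j, (A i j) ^ 2 := by
  have h := Pool.Agent.Lib.H58D.Pre28.hadamard (A.map (fun x : ℤ => (x : ℂ)))
  have h1 : (A.map (fun x : ℤ => (x : ℂ))).det = ((A.det : ℤ) : ℂ) := by
    have := (Int.castRingHom ℂ).map_det A
    rw [RingHom.mapMatrix_apply] at this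
    exact this.symm
  rw [h1] at h
  have h2 : ‖((A.det : ℤ) : ℂ)‖ ^ 2 = ((A.det ^ 2 : ℤ) : ℝ) := by
    rw [Complex.norm_intCast, sq_abs]; push_cast; ring
  rw [h2] at h
  have h3 : ∏ i, ∑ j, ‖(A.map (fun x : ℤ => (x : ℂ))) i j‖ ^ 2
      = ((∏ i, ∑ j, (A i j) ^ 2 : ℤ) : ℝ) := by
    push_cast
    refine Finset.prod_congr rfl fun i _ => Finset.sum_congr rfl fun j _ => ?_
    rw [Matrix.map_apply, Complex.norm_intCast, sq_abs]
  rw [h3] at h
  exact_mod_cast h


/-- the matrix with rows `δ_a - δ_b` -/
private def rowM {n : Type*} [DecidableEq n] (a b : n → Option n) : Matrix n n ℤ :=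
  Matrix.of fun s j => (if a s = some j then (1 : ℤ) else 0) - (if b s = some j then (1 : ℤ) else 0)

private noncomputable def pull {k : ℕ} (j : Fin (k + 1)) (x : Option (Fin (k + 1))) : Option (Fin k) :=
  x.bind fun y => if h : y = j then none else some ((Fin.exists_succAbove_eq (x := y) (y := j) h).choose)

private lemma pull_eq {k : ℕ} (j : Fin (k + 1)) (x : Option (Fin (k + 1))) (l : Fin k) :
    pull j x = some l ↔ x = some (j.succAbove l) := by
  cases x with
  | none => simp [pull]
  | some y =>
    unfold pull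
    simp only [Option.bind_some, Option.some.injEq]
    by_cases h : y = j
    · subst h
      simp only [↓reduceDIte, reduceCtorEq, false_iff]
      exact (Fin.succAbove_ne y l).symm
    · rw [dif_neg h]
      have hs := (Fin.exists_succAbove_eq (x := y) (y := j) h).choose_spec
      constructor
      · intro h2
        simp only [Option.some.injEq] at h2
        rw [← h2, hs]
      · intro h2
        congr 1
        apply Fin.succAbove_right_injective (p := j)
        rw [hs, h2]

private lemma tu_fin (k : ℕ) : ∀ (a b : Fin k → Option (Fin k)), |(rowM a b).det| ≤ 1 := by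
  induction k with
  | zero => intro a b; simp
  | succ k ih =>
    intro a b
    by_cases h : ∀ s, (∑ j, rowM a b s j) = 0
    · have h0 : (rowM a b).det = 0 := by
        rw [← Matrix.exists_mulVec_eq_zero_iff]
        refine ⟨fun _ => 1, ?_, ?_⟩
        · intro h1
          have := congrFun h1 0
          simp at this
        · ext s
          simpa [Matrix.mulVec, dotProduct] using h s
      rw [h0]; simp
    · push Not at h
      obtain ⟨s, hs⟩ := h
      -- the row `s` has exactly one nonzero entry
      have hrow : ∃ j0 : Fin (k + 1), ∃ c : ℤ, |c| ≤ 1 ∧ ∀ j, rowM a b s j = if j = j0 then c else 0 := by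
        cases ha : a s with
        | none =>
          cases hb : b s with
          | none =>
            exfalso; apply hs
            simp [rowM, ha, hb]
          | some y =>
            refine ⟨y, -1, by simp, fun j => ?_⟩
            simp only [rowM, Matrix.of_apply, ha, hb, reduceCtorEq, ↓reduceIte, Option.some.injEq]
            by_cases hj : y = j
            · simp [hj]
            · simp [hj, Ne.symm hj]
        | some x =>
          cases hb : b s with
          | none =>
            refine ⟨x, 1, by simp, fun j => ?_⟩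
            simp only [rowM, Matrix.of_apply, ha, hb, reduceCtorEq, ↓reduceIte, Option.some.injEq]
            by_cases hj : x = j
            · simp [hj]
            · simp [hj, Ne.symm hj]
          | some y =>
            exfalso; apply hs
            simp [rowM, ha, hb]
      obtain ⟨j0, c, hc, hj⟩ := hrow
      rw [Matrix.det_succ_row (rowM a b) s, Finset.sum_eq_single j0]
      · rw [hj j0, if_pos rfl]
        have hsub : (rowM a b).submatrix s.succAbove j0.succAbove
            = rowM (fun i => pull j0 (a (s.succAbove i))) (fun i => pull j0 (b (s.succAbove i))) := by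
          ext i l
          simp only [Matrix.submatrix_apply, rowM, Matrix.of_apply, pull_eq]
        rw [hsub, abs_mul, abs_mul, abs_pow, abs_neg, abs_one, one_pow, one_mul]
        have := ih (fun i => pull j0 (a (s.succAbove i))) (fun i => pull j0 (b (s.succAbove i)))
        calc |c| * _ ≤ 1 * 1 := mul_le_mul hc this (abs_nonneg _) (by norm_num)
          _ = 1 := by norm_num
      · intro j _ hne
        rw [hj j, if_neg hne]
        ring
      · intro h1
        exact absurd (Finset.mem_univ _) h1

/-- rows with at most one `1` and at most one `-1` -/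
theorem tu {n : Type*} [Fintype n] [DecidableEq n] (a b : n → Option n) :
    |(Matrix.of fun s j => (if a s = some j then (1 : ℤ) else 0)
      - (if b s = some j then (1 : ℤ) else 0)).det| ≤ 1 := by
  have e := Fintype.equivFin n
  have h := tu_fin (Fintype.card n) (fun i => (a (e.symm i)).map e) (fun i => (b (e.symm i)).map e)
  have h1 : (Matrix.of fun s j => (if a s = some j then (1 : ℤ) else 0)
      - (if b s = some j then (1 : ℤ) else 0))
      = (rowM (fun i => (a (e.symm i)).map e) (fun i => (b (e.symm i)).map e)).submatrix e e := by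
    ext s j
    simp only [Matrix.submatrix_apply, rowM, Matrix.of_apply, Equiv.symm_apply_apply]
    have key : ∀ x : Option n, (x.map e = some (e j)) ↔ x = some j := by
      intro x
      cases x with
      | none => simp
      | some y => simp
    simp only [key]
  rw [h1, Matrix.det_submatrix_equiv_self]
  exact h

/-- a vector of natural numbers of sum `≤ D` is a sum of `D` rows `δ` or `0`. -/
private lemma exists_opt {n : Type*} [Fintype n] [DecidableEq n] (D : ℕ) :
    ∀ p : n → ℕ, ∑ j, p j ≤ D → ∃ f : Fin D → Option n,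
      ∀ j, (p j : ℤ) = ∑ t, if f t = some j then (1 : ℤ) else 0 := by
  induction D with
  | zero =>
    intro p hp
    refine ⟨fun _ => none, fun j => ?_⟩
    have h1 : ∑ j, p j = 0 := by omega
    have h2 := (Finset.sum_eq_zero_iff.1 h1) j (Finset.mem_univ j)
    simp [h2]
  | succ D ih =>
    intro p hp
    by_cases h : ∃ j0, p j0 ≠ 0
    · obtain ⟨j0, hj0⟩ := h
      obtain ⟨f, hf⟩ := ih (fun j => if j = j0 then p j0 - 1 else p j) (by
        have h1 : ∑ j, (if j = j0 then p j0 - 1 else p j) + 1 = ∑ j, p j := by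
          rw [← Finset.add_sum_erase _ _ (Finset.mem_univ j0),
            ← Finset.add_sum_erase Finset.univ p (Finset.mem_univ j0), if_pos rfl]
          have h2 : ∑ x ∈ Finset.univ.erase j0, (if x = j0 then p j0 - 1 else p x)
              = ∑ x ∈ Finset.univ.erase j0, p x := by
            refine Finset.sum_congr rfl fun x hx => ?_
            rw [if_neg (Finset.ne_of_mem_erase hx)]
          rw [h2]; omega
        omega)
      refine ⟨Fin.cons (some j0) f, fun j => ?_⟩
      rw [Fin.sum_univ_succ]
      simp only [Fin.cons_zero, Fin.cons_succ, Option.some.injEq]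
      rw [← hf j]
      by_cases hj : j = j0
      · subst hj
        simp only [↓reduceIte]
        omega
      · rw [if_neg (Ne.symm hj), if_neg hj]; simp
    · push Not at h
      refine ⟨fun _ => none, fun j => ?_⟩
      simp [h j]

/-- Schinzel type inequality (TU). -/
theorem schinzel {n : Type*} [Fintype n] [DecidableEq n] (p m : n → n → ℕ) (D : n → ℕ)
    (hp : ∀ s, ∑ j, p s j ≤ D s) (hm : ∀ s, ∑ j, m s j ≤ D s) :
    |(Matrix.of fun s j => (p s j : ℤ) - (m s j : ℤ)).det| ≤ ∏ s, (D s : ℤ) := by
  choose f hf using fun s => exists_opt (D s) (p s) (hp s)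
  choose g hg using fun s => exists_opt (D s) (m s) (hm s)
  have h1 : (Matrix.of fun s j => (p s j : ℤ) - (m s j : ℤ))
      = fun s => ∑ t : Fin (D s), fun j => (if f s t = some j then (1 : ℤ) else 0)
        - (if g s t = some j then (1 : ℤ) else 0) := by
    ext s j
    rw [Matrix.of_apply, hf, hg, Finset.sum_apply, ← Finset.sum_sub_distrib]
  have h2 : (Matrix.of fun s j => (p s j : ℤ) - (m s j : ℤ)).det
      = ∑ τ : (∀ s, Fin (D s)), (Matrix.of fun s j => (if f s (τ s) = some j then (1 : ℤ) else 0)
        - (if g s (τ s) = some j then (1 : ℤ) else 0)).det := by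
    rw [h1]
    have := (Matrix.detRowAlternating (n := n) (R := ℤ)).toMultilinearMap.map_sum
      (fun s => fun t : Fin (D s) => (fun j => (if f s t = some j then (1 : ℤ) else 0)
        - (if g s t = some j then (1 : ℤ) else 0) : n → ℤ))
    exact this
  rw [h2]
  calc |∑ τ : (∀ s, Fin (D s)), (Matrix.of fun s j => (if f s (τ s) = some j then (1 : ℤ) else 0)
        - (if g s (τ s) = some j then (1 : ℤ) else 0)).det|
      ≤ ∑ τ : (∀ s, Fin (D s)), |(Matrix.of fun s j => (if f s (τ s) = some j then (1 : ℤ) else 0)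
        - (if g s (τ s) = some j then (1 : ℤ) else 0)).det| := Finset.abs_sum_le_sum_abs _ _
    _ ≤ ∑ τ : (∀ s, Fin (D s)), (1 : ℤ) := Finset.sum_le_sum fun τ _ => tu _ _
    _ = ∏ s, (D s : ℤ) := by
        rw [Finset.sum_const, Finset.card_univ, Fintype.card_pi]
        simp


/-- Root bound by the maximum on the unit circle, integer coefficients. -/
theorem root_le_max (P : Polynomial ℤ) (hP : P ≠ 0) (z : ℂ)
    (hz : Polynomial.aeval z P = 0) (M : ℝ)
    (hM : ∀ w : ℂ, ‖w‖ = 1 → ‖Polynomial.aeval w P‖ ≤ M) : ‖z‖ ≤ M := by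
  set Q : Polynomial ℂ := P.map (Int.castRingHom ℂ) with hQ
  have hinj : Function.Injective (Int.castRingHom ℂ) := Int.cast_injective
  have hQ0 : Q ≠ 0 := (Polynomial.map_ne_zero_iff hinj).2 hP
  have hev : ∀ w : ℂ, Polynomial.aeval w P = Q.eval w := by
    intro w
    rw [hQ, Polynomial.eval_map, Polynomial.aeval_def]
    rfl
  have hM0 : 0 ≤ M := (norm_nonneg _).trans (hM 1 (by simp))
  have hroot : z ∈ Q.roots := by
    rw [Polynomial.mem_roots hQ0, Polynomial.IsRoot.def, ← hev, hz]
  have hlc : 1 ≤ ‖Q.leadingCoeff‖ := by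
    rw [hQ, Polynomial.leadingCoeff_map_of_injective hinj]
    simp only [eq_intCast, Complex.norm_intCast]
    have : P.leadingCoeff ≠ 0 := Polynomial.leadingCoeff_ne_zero.2 hP
    exact_mod_cast Int.one_le_abs this
  have h1 : ‖z‖ ≤ (Q.roots.map (fun a ↦ max 1 ‖a‖)).prod := by
    refine (le_max_right 1 ‖z‖).trans ?_
    have hc : z ::ₘ Q.roots.erase z = Q.roots := Multiset.cons_erase hroot
    rw [← hc, Multiset.map_cons, Multiset.prod_cons]
    have h3 : 1 ≤ ((Q.roots.erase z).map (fun a ↦ max 1 ‖a‖)).prod := by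
      generalize Q.roots.erase z = S
      induction S using Multiset.induction_on with
      | empty => simp
      | cons a S ih =>
        rw [Multiset.map_cons, Multiset.prod_cons]
        exact one_le_mul_of_one_le_of_one_le (le_max_left _ _) ih
    have h4 : (0 : ℝ) ≤ max 1 ‖z‖ := zero_le_one.trans (le_max_left _ _)
    exact le_mul_of_one_le_right h4 h3
  refine h1.trans ((Polynomial.prod_max_one_norm_roots_le_mahlerMeasure_of_one_le_leadingCoeff
    hlc).trans ((Polynomial.mahlerMeasure_le_sqrt_sum_sq_norm_coeff Q).trans ?_))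
  rw [Polynomial.sum_sq_norm_coeff_eq_circleAverage]
  refine Real.sqrt_le_iff.2 ⟨hM0, ?_⟩
  have hci : CircleIntegrable (fun θ : ℂ ↦ ‖Q.eval θ‖ ^ 2) 0 1 := by
    apply ContinuousOn.circleIntegrable zero_le_one
    fun_prop
  refine Real.circleAverage_mono_on_of_le_circle hci ?_
  intro w hw
  have hw1 : ‖w‖ = 1 := by simpa using hw
  have := hM w hw1
  rw [hev] at this
  gcongr

/-- lower bound for `ω - 1`. -/
theorem root_of_unity_sub_one (K : ℕ) (hK : 1 ≤ K) (ω : ℂ) (h1 : ω ^ K = 1) (h2 : ω ≠ 1) :
    2 / (K : ℝ) ≤ ‖ω - 1‖ := by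
  have hω : ‖ω‖ = 1 := Complex.norm_eq_one_of_pow_eq_one h1 (by omega)
  have hK0 : (0 : ℝ) < K := by exact_mod_cast hK
  -- `K = (ω - 1) * Σ_{j<K} j ω^j`
  have hg : ∑ j ∈ Finset.range K, ω ^ j = 0 := by
    have := geom_sum_mul ω K
    rw [h1, sub_self] at this
    exact (mul_eq_zero.1 this).resolve_right (sub_ne_zero.2 h2)
  have hid : ∀ n : ℕ, (ω - 1) * ∑ j ∈ Finset.range n, (j : ℂ) * ω ^ j
      = (n : ℂ) * ω ^ n - ω * ∑ j ∈ Finset.range n, ω ^ j := by
    intro n
    induction n with
    | zero => simp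
    | succ n ih =>
      rw [Finset.sum_range_succ, Finset.sum_range_succ, mul_add, ih]
      push_cast
      ring
  have h3 := hid K
  rw [hg, h1, mul_zero, sub_zero, mul_one] at h3
  have h4 : (K : ℝ) ≤ ‖ω - 1‖ * ∑ j ∈ Finset.range K, (j : ℝ) := by
    have h5 : ‖(K : ℂ)‖ = (K : ℝ) := by simp
    rw [← h5, ← h3, norm_mul]
    gcongr
    refine (norm_sum_le _ _).trans (Finset.sum_le_sum fun j _ => ?_)
    rw [norm_mul, norm_pow, hω, one_pow, mul_one]
    simp
  have h6 : ∑ j ∈ Finset.range K, (j : ℝ) ≤ (K : ℝ) * K / 2 := by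
    have h7 : (∑ j ∈ Finset.range K, (j : ℝ)) * 2 = (K : ℝ) * (K - 1) := by
      have := Finset.sum_range_id_mul_two K
      have h8 : ((∑ j ∈ Finset.range K, j) * 2 : ℕ) = K * (K - 1) := this
      have h9 : (((∑ j ∈ Finset.range K, j) * 2 : ℕ) : ℝ) = ((K * (K - 1) : ℕ) : ℝ) := by
        rw [h8]
      push_cast [Nat.cast_sub hK] at h9
      exact h9
    nlinarith
  rw [div_le_iff₀ hK0]
  have h8 : (K : ℝ) ≤ ‖ω - 1‖ * ((K : ℝ) * K / 2) :=
    h4.trans (mul_le_mul_of_nonneg_left h6 (norm_nonneg _))
  have h9 : (K : ℝ) * 2 ≤ K * (‖ω - 1‖ * K) := by nlinarith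
  exact le_of_mul_le_mul_left h9 hK0

end Pool.Agent.Lib.H58D.Pre28
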