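import Pool.Agent.Lib.H58D.Pre28
open scoped BigOperators
open Complex Metric

namespace Pool.Agent.Lib.H58D.Pre28b

/-- Evaluation of a polynomial in `Z` and `ε` at complex numbers. -/
noncomputable def ev (w e : ℂ) : Polynomial (Polynomial ℤ) →+* ℂ :=
  Polynomial.eval₂RingHom (Polynomial.aeval w : Polynomial ℤ →ₐ[ℤ] ℂ).toRingHom e

theorem ev_apply (w e : ℂ) (P : Polynomial (Polynomial ℤ)) :
    ev w e P = (P.map (Polynomial.aeval w : Polynomial ℤ →ₐ[ℤ] ℂ).toRingHom).eval e := by
  unfold ev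
  rw [Polynomial.coe_eval₂RingHom, Polynomial.eval_map]

/-- Maximum principle step (b) of section 3. -/
theorem lowest_coeff_le (P Q : Polynomial ℂ) (k : ℕ) (hP : P = Polynomial.X ^ k * Q)
    (β γ : ℝ) (hγ : 0 ≤ γ) (hβ : γ < β) (K : ℕ) (M : ℝ)
    (h : ∀ e : ℂ, ‖e‖ = 1 → ‖P.eval e‖ ≤ M * ‖(β : ℂ) + γ * e‖ ^ K) :
    ‖Q.eval 0‖ ≤ M * β ^ K := by
  have hne : ∀ e : ℂ, ‖e‖ ≤ 1 → (β : ℂ) + γ * e ≠ 0 := by
    intro e he h0
    have h1 : ‖(β : ℂ)‖ = ‖(γ : ℂ) * e‖ := by
      rw [← norm_neg ((γ : ℂ) * e)]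
      congr 1
      exact eq_neg_of_add_eq_zero_left h0
    rw [norm_mul, Complex.norm_real, Complex.norm_real, Real.norm_eq_abs, Real.norm_eq_abs,
      abs_of_nonneg hγ, abs_of_nonneg (hγ.trans hβ.le)] at h1
    nlinarith
  set F : ℂ → ℂ := fun e => Q.eval e / ((β : ℂ) + γ * e) ^ K with hF
  have hdiff : DiffContOnCl ℂ F (ball 0 1) := by
    apply DifferentiableOn.diffContOnCl
    rw [closure_ball (0 : ℂ) one_ne_zero]
    intro e he
    have he' : ‖e‖ ≤ 1 := by simpa using he
    apply DifferentiableAt.differentiableWithinAt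
    exact (Q.differentiable e).div (by fun_prop) (pow_ne_zero _ (hne e he'))
  have hbd : ∀ e ∈ frontier (ball (0 : ℂ) 1), ‖F e‖ ≤ M := by
    intro e he
    rw [frontier_ball (0 : ℂ) one_ne_zero] at he
    have he1 : ‖e‖ = 1 := by simpa using he
    have h1 := h e he1
    rw [hP, Polynomial.eval_mul, Polynomial.eval_pow, Polynomial.eval_X, norm_mul, norm_pow, he1,
      one_pow, one_mul] at h1
    rw [hF]
    simp only
    rw [norm_div, norm_pow]
    have hpos : 0 < ‖(β : ℂ) + γ * e‖ ^ K := pow_pos (norm_pos_iff.2 (hne e he1.le)) K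
    rw [div_le_iff₀ hpos]
    exact h1
  have h0 := Complex.norm_le_of_forall_mem_frontier_norm_le (isBounded_ball) hdiff hbd
    (subset_closure (mem_ball_self one_pos))
  rw [hF] at h0
  simp only [mul_zero, add_zero] at h0
  have hβ0 : 0 < β := hγ.trans_lt hβ
  rw [norm_div, norm_pow, Complex.norm_real, Real.norm_eq_abs, abs_of_pos hβ0,
    div_le_iff₀ (pow_pos hβ0 K)] at h0
  exact h0

/-- The analytic core of section 3: steps (b), (c), (d). -/
theorem tcore {X : Type*} [Fintype X] [DecidableEq X]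
    (N : Matrix X X (Polynomial (Polynomial ℤ))) (hdet : N.det ≠ 0) (S : Finset X)
    (a β γ : ℝ) (ha : 0 ≤ a) (hγ : 0 ≤ γ) (hβγ : γ < β)
    (h1 : ∀ i, i ∉ S → ∀ w e : ℂ, ‖w‖ = 1 → ‖e‖ = 1 → ∑ j, ‖ev w e (N i j)‖ ^ 2 ≤ a ^ 2)
    (h2 : ∀ i ∈ S, ∀ w e : ℂ, ‖w‖ = 1 → ‖e‖ = 1 →
      ∑ j, ‖ev w e (N i j)‖ ^ 2 ≤ ‖(β : ℂ) + γ * e‖ ^ 2)
    {B : Type*} [CommRing B] [IsDomain B] (f : Polynomial (Polynomial ℤ) →+* B)
    (lam : B →+* ℂ) (z0 : ℂ) (hz : lam (f (Polynomial.C Polynomial.X)) = z0)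
    (he : lam (f Polynomial.X) = 0) (he0 : f Polynomial.X ≠ 0)
    (v : X → B) (hv : v ≠ 0) (hker : (N.map f).mulVec v = 0) :
    ‖z0‖ ≤ a ^ (Fintype.card X - S.card) * β ^ S.card := by
  classical
  set D := N.det with hD
  obtain ⟨E, hE, hE0⟩ : ∃ E : Polynomial (Polynomial ℤ),
      D = Polynomial.X ^ D.natTrailingDegree * E ∧ E.coeff 0 ≠ 0 := by
    obtain ⟨E, hE⟩ := Polynomial.X_pow_dvd_iff.2
      (fun d hd => Polynomial.coeff_eq_zero_of_lt_natTrailingDegree hd :
        ∀ d < D.natTrailingDegree, D.coeff d = 0)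
    refine ⟨E, hE, ?_⟩
    intro h0
    have h3 : D.coeff D.natTrailingDegree = 0 := by
      have h4 : ∀ t : ℕ, D = Polynomial.X ^ t * E → D.coeff t = 0 := by
        intro t ht
        rw [ht]
        have := Polynomial.coeff_X_pow_mul E t 0
        rw [zero_add] at this
        rw [this, h0]
      exact h4 _ hE
    exact (Polynomial.trailingCoeff_nonzero_iff_nonzero.2 hdet) h3
  -- `f D = 0`
  have hfD : f D = 0 := by
    have h3 : (N.map f).det = 0 := Matrix.exists_mulVec_eq_zero_iff.1 ⟨v, hv, hker⟩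
    have h4 := f.map_det N
    rw [RingHom.mapMatrix_apply] at h4
    rw [hD, h4, h3]
  have hfE : f E = 0 := by
    rw [hE, map_mul, map_pow] at hfD
    exact (mul_eq_zero.1 hfD).resolve_left (pow_ne_zero _ he0)
  -- evaluation: `lam ∘ f = ev z0 0`
  have hcomp : lam.comp f = ev z0 0 := by
    refine Polynomial.ringHom_ext (fun c => ?_) ?_
    · have h5 : ((lam.comp f).comp Polynomial.C) = ((ev z0 0).comp Polynomial.C) := by
        refine Polynomial.ringHom_ext (fun n => by simp) ?_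
        simp only [RingHom.comp_apply]
        rw [hz]
        simp [ev]
      exact congrArg (fun g : Polynomial ℤ →+* ℂ => g c) h5
    · rw [RingHom.comp_apply, he]
      simp [ev]
  have hroot : Polynomial.aeval z0 (E.coeff 0) = 0 := by
    have h6 : ev z0 0 E = 0 := by rw [← hcomp, RingHom.comp_apply, hfE, map_zero]
    rw [ev_apply, ← Polynomial.coeff_zero_eq_eval_zero, Polynomial.coeff_map] at h6
    exact h6
  refine Pool.Agent.Lib.H58D.Pre28.root_le_max (E.coeff 0) hE0 z0 hroot _ ?_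
  intro w hw
  -- the polynomial in `ε` at `Z = w`
  set g : Polynomial ℤ →+* ℂ := (Polynomial.aeval w : Polynomial ℤ →ₐ[ℤ] ℂ).toRingHom with hg
  have h7 := lowest_coeff_le (D.map g) (E.map g) D.natTrailingDegree (by
    conv_lhs => rw [hE]
    rw [Polynomial.map_mul, Polynomial.map_pow, Polynomial.map_X]) β γ hγ hβγ S.card
    (a ^ (Fintype.card X - S.card)) (by
      intro e hee
      have h8 : (D.map g).eval e = (N.map (ev w e)).det := by
        have h9 := (ev w e).map_det N
        rw [RingHom.mapMatrix_apply] at h9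
        rw [← h9, ← hD, ev_apply]
      rw [h8]
      have h10 := Pool.Agent.Lib.H58D.Pre28.hadamard (N.map (ev w e))
      have hβ0 : 0 < β := hγ.trans_lt hβγ
      have h11 : ∏ i, ∑ j, ‖(N.map (ev w e)) i j‖ ^ 2
          ≤ (a ^ (Fintype.card X - S.card) * ‖(β : ℂ) + γ * e‖ ^ S.card) ^ 2 := by
        calc ∏ i, ∑ j, ‖(N.map (ev w e)) i j‖ ^ 2
            ≤ ∏ i, (if i ∈ S then ‖(β : ℂ) + γ * e‖ ^ 2 else a ^ 2) := by
              refine Finset.prod_le_prod (fun i _ => Finset.sum_nonneg fun j _ => by positivity)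
                (fun i _ => ?_)
              simp only [Matrix.map_apply]
              split_ifs with hi
              · exact h2 i hi w e hw hee
              · exact h1 i hi w e hw hee
          _ = (a ^ (Fintype.card X - S.card) * ‖(β : ℂ) + γ * e‖ ^ S.card) ^ 2 := by
              rw [Finset.prod_ite, Finset.prod_const, Finset.prod_const, mul_pow, ← pow_mul,
                ← pow_mul, ← pow_mul, ← pow_mul]
              have c1 : (Finset.univ.filter fun i => i ∈ S).card = S.card := by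
                congr 1; ext i; simp
              have c2 : (Finset.univ.filter fun i => i ∉ S).card = Fintype.card X - S.card := by
                rw [Finset.filter_not, Finset.card_sdiff_of_subset (Finset.filter_subset _ _), c1,
                  Finset.card_univ]
              rw [c1, c2]
              ring
      have h12 : ‖(N.map (ev w e)).det‖ ^ 2
          ≤ (a ^ (Fintype.card X - S.card) * ‖(β : ℂ) + γ * e‖ ^ S.card) ^ 2 := h10.trans h11
      exact (sq_le_sq₀ (norm_nonneg _) (by positivity)).1 h12)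
  rw [← Polynomial.coeff_zero_eq_eval_zero, Polynomial.coeff_map] at h7
  exact h7

end Pool.Agent.Lib.H58D.Pre28b
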