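import Pool.Agent.Lib.H58D.Defs

/-! Chunk R1 (size M).  The group ring `ℤ[𝒢]`, `𝒢 = (ι → ℤ) ⧸ Λ`, with `y i = [e_i]`: monomials and the basis of `L_N`.

Proof.  (a) `mon y u = single [u] 1`: `AddMonoidAlgebra.single_pow`, product of singles (`map_sum` of the quotient map, `Σ u_i e_i = u`).
(b) `lat y N` is the span of the elements `single c 1`, `c ∈ gset Λ N`; these are distinct basis vectors of the free module `AddMonoidAlgebra ℤ 𝒢` (`𝒢 →₀ ℤ`), so they are
linearly independent and form a basis of their span (`Module.Basis.span` composed with an equality of submodules, or `Module.Basis.mk`).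
(c) `gset Λ N` is finite (image of the finite set of exponent vectors), its cardinality is `cnt Λ N` by definition. -/

namespace H58D

/-- The generators of the group ring. -/
noncomputable def gy {ι : Type*} [DecidableEq ι] (Λ : AddSubgroup (ι → ℤ)) (i : ι) :
    AddMonoidAlgebra ℤ ((ι → ℤ) ⧸ Λ) :=
  AddMonoidAlgebra.single (QuotientAddGroup.mk (ev i)) 1

private theorem R1_prod {ι : Type*} {G : Type*} [AddCommMonoid G] (s : Finset ι) (f : ι → G) :
    (∏ i ∈ s, (AddMonoidAlgebra.single (f i) 1 : AddMonoidAlgebra ℤ G)) =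
      AddMonoidAlgebra.single (∑ i ∈ s, f i) 1 := by
  classical
  refine Finset.induction_on s ?_ ?_
  · rw [Finset.prod_empty, Finset.sum_empty]
    rfl
  · intro a t ha ih
    rw [Finset.prod_insert ha, Finset.sum_insert ha, ih, AddMonoidAlgebra.single_mul_single, mul_one]

theorem R1_mon {ι : Type*} [Fintype ι] [DecidableEq ι] (Λ : AddSubgroup (ι → ℤ)) (u : ι → ℕ) :
    mon (gy Λ) u = AddMonoidAlgebra.single (QuotientAddGroup.mk (fun i => (u i : ℤ))) 1 := by
  have h1 : ∀ i, gy Λ i ^ u i =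
      AddMonoidAlgebra.single (QuotientAddGroup.mk' Λ (u i • ev i)) 1 := by
    intro i
    unfold gy
    rw [AddMonoidAlgebra.single_pow, one_pow]
    rfl
  unfold mon
  rw [Finset.prod_congr rfl fun i _ => h1 i, R1_prod, ← map_sum]
  have h2 : (∑ i, u i • ev i) = (fun i => (u i : ℤ)) := by
    funext j
    rw [Finset.sum_apply]
    rw [Finset.sum_eq_single j]
    · simp [ev]
    · intro k _ hk
      simp [ev, hk.symm]
    · intro h
      exact absurd (Finset.mem_univ j) h
  rw [h2]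
  rfl

theorem R1_finite {ι : Type*} [Fintype ι] (Λ : AddSubgroup (ι → ℤ)) (N : ℕ) :
    (gset Λ N).Finite := by
  classical
  have hfin : {u : ι → ℕ | deg u ≤ N}.Finite := by
    refine Set.Finite.subset (Set.finite_Iic (fun _ : ι => N)) ?_
    intro u hu i
    exact le_trans (Finset.single_le_sum (f := u) (fun _ _ => Nat.zero_le _) (Finset.mem_univ i)) hu
  refine (hfin.image (fun u => (QuotientAddGroup.mk (fun i => (u i : ℤ)) : (ι → ℤ) ⧸ Λ))).subset ?_
  rintro c ⟨u, hu, rfl⟩
  exact ⟨u, hu, rfl⟩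

private theorem R1_set {ι : Type*} [Fintype ι] [DecidableEq ι] (Λ : AddSubgroup (ι → ℤ)) (N : ℕ) :
    lat (gy Λ) N = Submodule.span ℤ (Set.range fun c : gset Λ N =>
      (AddMonoidAlgebra.single (c : (ι → ℤ) ⧸ Λ) 1 : AddMonoidAlgebra ℤ ((ι → ℤ) ⧸ Λ))) := by
  unfold lat
  refine congrArg (Submodule.span ℤ) (Set.ext fun x => ⟨?_, ?_⟩)
  · rintro ⟨u, hu, rfl⟩
    exact ⟨⟨QuotientAddGroup.mk (fun i => (u i : ℤ)), u, hu, rfl⟩, (R1_mon Λ u).symm⟩
  · rintro ⟨⟨c, u, hu, rfl⟩, rfl⟩
    exact ⟨u, hu, (R1_mon Λ u).symm⟩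

private theorem R1_indep {G : Type*} (S : Set G) :
    LinearIndependent ℤ (fun c : S => (AddMonoidAlgebra.single (c : G) 1 : AddMonoidAlgebra ℤ G)) := by
  have h1 : LinearIndependent ℤ (fun c : G => (AddMonoidAlgebra.single c 1 : AddMonoidAlgebra ℤ G)) := by
    have h2 := (AddMonoidAlgebra.basis G ℤ).linearIndependent
    have h3 : ((AddMonoidAlgebra.basis G ℤ) : G → AddMonoidAlgebra ℤ G) =
        (fun c : G => (AddMonoidAlgebra.single c 1 : AddMonoidAlgebra ℤ G)) := by
      funext c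
      exact AddMonoidAlgebra.basis_apply ℤ c
    rw [h3] at h2
    exact h2
  exact h1.comp (fun c : S => (c : G)) Subtype.val_injective

theorem R1_basis {ι : Type*} [Fintype ι] [DecidableEq ι] (Λ : AddSubgroup (ι → ℤ)) (N : ℕ) :
    ∃ b : Module.Basis (gset Λ N) ℤ (lat (gy Λ) N), ∀ c : gset Λ N,
      ((b c : lat (gy Λ) N) : AddMonoidAlgebra ℤ ((ι → ℤ) ⧸ Λ)) =
        AddMonoidAlgebra.single (c : (ι → ℤ) ⧸ Λ) 1 := by
  have hli := R1_indep (gset Λ N)
  rw [R1_set Λ N]
  exact ⟨Module.Basis.span hli, fun c => congrArg Subtype.val (Module.Basis.span_apply hli c)⟩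

end H58D
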