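import Pool.Agent.Lib.H58D.Sys
import Pool.Agent.Lib.H58D.P4
import Pool.Agent.Lib.H58D.P5
import Pool.Agent.Lib.H58D.K1

/-! Chunk SYS (size L, owner helper44: split it as you like).  From a system with finitely many solutions (after fixing some coordinates to roots of unity) to the abstract data.

Proof.  `ι = {i // x i ≠ 0}`, `y i = x i`.  Relation pairs (all of degree `≤ 2`), from the equations of `S`, all variables in `ι`:
`x_i = 1`: `(e_i, 0)`;  `x_i + x_j = x_k` with `x_i = 0 ≠ x_j`: `(e_j, e_k)` (also with `i`, `j` exchanged);  `x_i + x_j = x_k` with `x_k = 0 ≠ x_i`: `(2 e_j, 2 e_i)`;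
`x_i x_j = x_k` all nonzero: `(e_i + e_j, e_k)`.
`𝒯` = the triples of the equations `x_i + x_j = x_k` of `S` with all three nonzero.
Family: start with `e_(i0)` (`p = Pi.single i0 1`, `m = 0`, `D = 1`) and `pp s • e_(jj s)` (`p = Pi.single (jj s) (pp s)`, `m = 0`, `D = pp s`), which are linearly independent (distinct
coordinates, `pp s ≥ 1`), and extend by relation pairs (`D = 2`) to a family which is maximal linearly independent (over `ℤ`, equivalently over `ℚ`) among all the relation vectors.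
Product: `∏ D = (∏ pp) * 2^(ρ - 1 - d)`.
`iso`: `P` prime, `P ≤ mx y`, contains the binomials of the family and `tri t`, `t ∈ 𝒯`.  By maximality every relation vector `u` has `N • u ∈ latt (family)` for some `N > 0`; `P5` gives
`X^a - C c * X^b ∈ P` for all of: relation pairs (`c = 1`), `(e_j, e_i)` with `c = -1` for the third type, `(e_(jj s), 0)` with `c = x (jj s)` and `(e_(i0), 0)` with `c = 1`.
So for every zero `z` of `P` the extension of `z` by zero solves `S` and has the coordinates `x (jj s)` at `jj s`; the extension map is injective, so the zero set of `P` is finite; `P4`.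
(Equations with all variables zero at `x` or `0 * x_j = 0`, `0 + 0 = 0` hold for the extension too; `x_i = 1` has `x_i ≠ 0`.)
`hcos`: let `ℓ` kill the family and be constant on the triples, `λ_i = ℓ (ev i)`.  For real `t > 0` let `z_i = x_i t^(λ_i)` for `i ∈ ι`, `z_i = 0` otherwise.  All relation vectors `u` are killed by `ℓ`
(`N * ℓ u = 0`), so `z` solves `S` and `z (jj s) = x (jj s)`, because `pp s * λ_(jj s) = 0`.  If some `λ_i ≠ 0` these are infinitely many points (`t ↦ t^(λ_i)` is injective), contradiction.  So `ℓ` kills all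
unit vectors and `ℓ = 0`. -/

namespace H58D

section abstract

variable {ι : Type*} [Fintype ι] [DecidableEq ι]

private theorem sys_mon_single (z : ι → ℂ) (i : ι) (a : ℕ) : mon z (Pi.single i a) = z i ^ a := by
  unfold mon
  rw [Finset.prod_eq_single i]
  · rw [Pi.single_eq_same]
  · intro j _ hj
    rw [Pi.single_eq_of_ne hj, pow_zero]
  · intro h
    exact absurd (Finset.mem_univ i) h

private theorem sys_mon_add (z : ι → ℂ) (a b : ι → ℕ) : mon z (a + b) = mon z a * mon z b := by
  unfold mon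
  rw [← Finset.prod_mul_distrib]
  exact Finset.prod_congr rfl fun i _ => by rw [Pi.add_apply, pow_add]

private theorem sys_mon_zero (z : ι → ℂ) : mon z (0 : ι → ℕ) = 1 := by
  unfold mon
  simp

private theorem sys_deg_single (i : ι) (a : ℕ) : deg (Pi.single i a : ι → ℕ) = a := by
  unfold deg
  rw [Finset.sum_eq_single i]
  · rw [Pi.single_eq_same]
  · intro j _ hj
    rw [Pi.single_eq_of_ne hj]
  · intro h
    exact absurd (Finset.mem_univ i) h

private theorem sys_deg_add (a b : ι → ℕ) : deg (a + b) = deg a + deg b := by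
  unfold deg
  rw [← Finset.sum_add_distrib]
  rfl

private theorem sys_deg_zero : deg (0 : ι → ℕ) = 0 := by
  unfold deg
  simp

/-- extension to a maximal family -/
private theorem sys_extend (y : ι → ℂ) : ∀ (k ρ : ℕ), Fintype.card ι ≤ ρ + k →
    ∀ (p m : Fin ρ → ι → ℕ) (D : Fin ρ → ℕ), (∀ s, 1 ≤ D s) → (∀ s, deg (p s) ≤ D s) →
      (∀ s, deg (m s) ≤ D s) → (∀ s, mon y (p s) = mon y (m s)) →
      LinearIndependent ℤ (fun s => dvec (p s) (m s)) →
      ∃ (ρ' : ℕ) (p' m' : Fin ρ' → ι → ℕ) (D' : Fin ρ' → ℕ), (∀ s, 1 ≤ D' s) ∧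
        (∀ s, deg (p' s) ≤ D' s) ∧ (∀ s, deg (m' s) ≤ D' s) ∧
        (∀ s, mon y (p' s) = mon y (m' s)) ∧
        LinearIndependent ℤ (fun s => dvec (p' s) (m' s)) ∧
        latt (fun s => dvec (p s) (m s)) ≤ latt (fun s => dvec (p' s) (m' s)) ∧
        (∀ a b : ι → ℕ, deg a ≤ 2 → deg b ≤ 2 → mon y a = mon y b →
          Tors (latt (fun s => dvec (p' s) (m' s))) (dvec a b)) ∧
        (∏ s, D' s) * 2 ^ ρ = 2 ^ ρ' * ∏ s, D s := by
  intro k
  induction k with
  | zero =>
    intro ρ hk p m D hD hp hm hpm hli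
    by_cases hall : ∀ a b : ι → ℕ, deg a ≤ 2 → deg b ≤ 2 → mon y a = mon y b →
        Tors (latt (fun s => dvec (p s) (m s))) (dvec a b)
    · exact ⟨ρ, p, m, D, hD, hp, hm, hpm, hli, le_rfl, hall, mul_comm _ _⟩
    · exfalso
      push Not at hall
      obtain ⟨a, b, _, _, _, hab⟩ := hall
      obtain ⟨ℓ, hℓ1, hℓ2⟩ := K1b (fun s => dvec (p s) (m s)) (dvec a b) hab
      have := K1a ρ (fun s => dvec (p s) (m s)) hli ℓ hℓ1 ⟨_, hℓ2⟩
      omega
  | succ k ih =>
    intro ρ hk p m D hD hp hm hpm hli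
    by_cases hall : ∀ a b : ι → ℕ, deg a ≤ 2 → deg b ≤ 2 → mon y a = mon y b →
        Tors (latt (fun s => dvec (p s) (m s))) (dvec a b)
    · exact ⟨ρ, p, m, D, hD, hp, hm, hpm, hli, le_rfl, hall, mul_comm _ _⟩
    · push Not at hall
      obtain ⟨a, b, ha, hb, hab, hT⟩ := hall
      have hfun : (fun s : Fin (ρ + 1) => dvec ((Fin.cons a p : Fin (ρ + 1) → ι → ℕ) s)
          ((Fin.cons b m : Fin (ρ + 1) → ι → ℕ) s)) =
          (Fin.cons (dvec a b) (fun s => dvec (p s) (m s)) : Fin (ρ + 1) → ι → ℤ) := by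
        funext s
        refine Fin.cases ?_ (fun s => ?_) s
        · simp only [Fin.cons_zero]
        · simp only [Fin.cons_succ]
      obtain ⟨ℓ, hℓ1, hℓ2⟩ := K1b (fun s => dvec (p s) (m s)) (dvec a b) hT
      have hli' : LinearIndependent ℤ (fun s : Fin (ρ + 1) =>
          dvec ((Fin.cons a p : Fin (ρ + 1) → ι → ℕ) s)
            ((Fin.cons b m : Fin (ρ + 1) → ι → ℕ) s)) := by
        rw [hfun]
        refine LinearIndependent.finCons' _ _ hli ?_
        intro c w hw hcw
        have h2 : w ∈ latt (fun s => dvec (p s) (m s)) := by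
          rw [← Submodule.mem_toAddSubgroup, Submodule.span_int_eq_addSubgroupClosure] at hw
          exact hw
        have h4 := congrArg ℓ hcw
        rw [map_add, map_zsmul, hℓ1 _ h2, map_zero, add_zero, smul_eq_mul] at h4
        exact (mul_eq_zero.1 h4).resolve_right hℓ2
      obtain ⟨ρ', p', m', D', h1, h2, h3, h4, h5, h6, h7, h8⟩ := ih (ρ + 1) (by omega)
        (Fin.cons a p) (Fin.cons b m) (Fin.cons 2 D)
        (fun s => Fin.cases (by simp) (fun s => by simpa using hD s) s)
        (fun s => Fin.cases (by simpa using ha) (fun s => by simpa using hp s) s)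
        (fun s => Fin.cases (by simpa using hb) (fun s => by simpa using hm s) s)
        (fun s => Fin.cases (by simpa using hab) (fun s => by simpa using hpm s) s) hli'
      refine ⟨ρ', p', m', D', h1, h2, h3, h4, h5, le_trans ?_ h6, h7, ?_⟩
      · unfold latt
        rw [AddSubgroup.closure_le]
        rintro _ ⟨s, rfl⟩
        refine AddSubgroup.subset_closure ⟨s.succ, ?_⟩
        simp only [Fin.cons_succ]
      · rw [Fin.prod_cons] at h8
        have h9 : (∏ s, D' s) * 2 ^ ρ * 2 = 2 ^ ρ' * (∏ s, D s) * 2 := by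
          calc (∏ s, D' s) * 2 ^ ρ * 2 = (∏ s, D' s) * 2 ^ (ρ + 1) := by ring
            _ = 2 ^ ρ' * (2 * ∏ s, D s) := h8
            _ = _ := by ring
        exact Nat.eq_of_mul_eq_mul_right (by norm_num) h9

/-- the vectors at distinct coordinates are independent -/
private theorem sys_li {k : ℕ} (idx : Fin k → ι) (hidx : Function.Injective idx) (w : Fin k → ℕ)
    (hw : ∀ s, 1 ≤ w s) :
    LinearIndependent ℤ (fun s => dvec (Pi.single (idx s) (w s) : ι → ℕ) (0 : ι → ℕ)) := by
  rw [Fintype.linearIndependent_iff]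
  intro g hg s
  have h1 := congrFun hg (idx s)
  rw [Finset.sum_apply, Finset.sum_eq_single s] at h1
  · simp only [Pi.smul_apply, dvec, Pi.single_eq_same, Pi.zero_apply, smul_eq_mul, Nat.cast_zero,
      sub_zero, mul_eq_zero] at h1
    rcases h1 with h1 | h1
    · exact h1
    · have := hw s
      omega
  · intro t _ ht
    simp only [Pi.smul_apply, dvec, Pi.zero_apply, smul_eq_mul, Nat.cast_zero, sub_zero]
    rw [Pi.single_eq_of_ne (fun h => ht (hidx h).symm)]
    simp
  · intro h
    exact absurd (Finset.mem_univ s) h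

/-- the five rules which a transferred point has to satisfy -/
private structure SysRules (y z : ι → ℂ) : Prop where
  r1 : ∀ i, y i = 1 → z i = 1
  r2 : ∀ i j, y i = y j → z i = z j
  r3 : ∀ i j k, y i * y j = y k → z i * z j = z k
  r4 : ∀ i j, y j = -y i → z j = -z i
  r5 : ∀ i j k, y i + y j = y k → z i + z j = z k

/-- the rules for the zeros of a prime ideal -/
private theorem sys_rules_zero (y : ι → ℂ) (hy : ∀ i, y i ≠ 0) (P : Ideal (MvPolynomial ι ℂ))
    (hP : P.IsPrime) (hPy : P ≤ mx y) {κ : Type*} (p m : κ → ι → ℕ)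
    (hb : ∀ s, bin (p s) (m s) ∈ P)
    (hT : ∀ a b : ι → ℕ, deg a ≤ 2 → deg b ≤ 2 → mon y a = mon y b →
      Tors (latt (fun s => dvec (p s) (m s))) (dvec a b))
    (htri : ∀ t : ι × ι × ι, y t.1 + y t.2.1 = y t.2.2 → tri t ∈ P)
    (z : ι → ℂ) (hz : z ∈ MvPolynomial.zeroLocus ℂ P) : SysRules y z := by
  have hz' : ∀ f ∈ P, MvPolynomial.eval z f = 0 := by
    intro f hf
    have := hz f hf
    rwa [MvPolynomial.aeval_eq_eval] at this
  have hev : ∀ u : ι → ℕ, MvPolynomial.eval z (mon MvPolynomial.X u) = mon z u := by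
    intro u
    simp only [mon, map_prod, map_pow, MvPolynomial.eval_X]
  have key : ∀ (a b : ι → ℕ) (c : ℂ), mon y a = c * mon y b →
      Tors (latt (fun s => dvec (p s) (m s))) (dvec a b) → mon z a = c * mon z b := by
    intro a b c hc ⟨N, hN, hab⟩
    have h1 := hz' _ (P5 y hy P hP hPy p m hb a b c hc N hN hab)
    rw [map_sub, map_mul, hev, hev, MvPolynomial.eval_C, sub_eq_zero] at h1
    exact h1
  have key' : ∀ a b : ι → ℕ, deg a ≤ 2 → deg b ≤ 2 → mon y a = mon y b → mon z a = mon z b := by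
    intro a b ha hb' hab
    have := key a b 1 (by rw [hab, one_mul]) (hT a b ha hb' hab)
    rwa [one_mul] at this
  refine ⟨fun i hi => ?_, fun i j hij => ?_, fun i j k hijk => ?_, fun i j hij => ?_,
    fun i j k hijk => ?_⟩
  · have := key' (Pi.single i 1) 0 (by rw [sys_deg_single]; norm_num) (by rw [sys_deg_zero]; norm_num)
      (by rw [sys_mon_single, sys_mon_zero, pow_one, hi])
    rwa [sys_mon_single, sys_mon_zero, pow_one] at this
  · have := key' (Pi.single i 1) (Pi.single j 1) (by rw [sys_deg_single]; norm_num)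
      (by rw [sys_deg_single]; norm_num)
      (by rw [sys_mon_single, sys_mon_single, pow_one, pow_one, hij])
    rwa [sys_mon_single, sys_mon_single, pow_one, pow_one] at this
  · have := key' (Pi.single i 1 + Pi.single j 1) (Pi.single k 1)
      (by rw [sys_deg_add, sys_deg_single, sys_deg_single])
      (by rw [sys_deg_single]; norm_num)
      (by rw [sys_mon_add, sys_mon_single, sys_mon_single, sys_mon_single, pow_one, pow_one, pow_one,
        hijk])
    rwa [sys_mon_add, sys_mon_single, sys_mon_single, sys_mon_single, pow_one, pow_one, pow_one]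
      at this
  · obtain ⟨N, hN, hab⟩ := hT (Pi.single j 2) (Pi.single i 2) (by rw [sys_deg_single])
      (by rw [sys_deg_single]) (by rw [sys_mon_single, sys_mon_single, hij, neg_sq])
    have h2 : dvec (Pi.single j 2 : ι → ℕ) (Pi.single i 2) =
        2 • dvec (Pi.single j 1 : ι → ℕ) (Pi.single i 1) := by
      funext l
      simp only [dvec, Pi.smul_apply, nsmul_eq_mul, Pi.single_apply]
      split_ifs <;> simp
    have := key (Pi.single j 1) (Pi.single i 1) (-1)
      (by rw [sys_mon_single, sys_mon_single, pow_one, pow_one, hij, neg_one_mul])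
      ⟨N * 2, by positivity, by rw [mul_smul, ← h2]; exact hab⟩
    rwa [sys_mon_single, sys_mon_single, pow_one, pow_one, neg_one_mul] at this
  · have h1 := hz' _ (htri (i, j, k) hijk)
    rw [tri, map_sub, map_add, MvPolynomial.eval_X, MvPolynomial.eval_X, MvPolynomial.eval_X,
      sub_eq_zero] at h1
    exact h1

/-- the rules for the points `y_i 2 ^ (λ_i k)` -/
private theorem sys_rules_scale (y : ι → ℂ) {κ : Type*} (p m : κ → ι → ℕ)
    (hT : ∀ a b : ι → ℕ, deg a ≤ 2 → deg b ≤ 2 → mon y a = mon y b →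
      Tors (latt (fun s => dvec (p s) (m s))) (dvec a b))
    (ℓ : (ι → ℤ) →+ ℤ) (hℓ : ∀ s, ℓ (dvec (p s) (m s)) = 0)
    (hℓt : ∀ t : ι × ι × ι, y t.1 + y t.2.1 = y t.2.2 →
      ℓ (ev t.1) = ℓ (ev t.2.1) ∧ ℓ (ev t.2.1) = ℓ (ev t.2.2)) (k : ℕ) :
    SysRules y (fun i => y i * (2 : ℂ) ^ (ℓ (ev i) * (k : ℤ))) := by
  have h2 : (2 : ℂ) ≠ 0 := two_ne_zero
  have hlatt : ∀ v ∈ latt (fun s => dvec (p s) (m s)), ℓ v = 0 := by
    intro v hv
    unfold latt at hv
    induction hv using AddSubgroup.closure_induction with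
    | mem a ha =>
      obtain ⟨s, rfl⟩ := ha
      exact hℓ s
    | zero => exact map_zero _
    | add a b _ _ h1 h2 => rw [map_add, h1, h2, add_zero]
    | neg a _ h1 => rw [map_neg, h1, neg_zero]
  have key : ∀ a b : ι → ℕ, deg a ≤ 2 → deg b ≤ 2 → mon y a = mon y b → ℓ (dvec a b) = 0 := by
    intro a b ha hb hab
    obtain ⟨N, hN, h⟩ := hT a b ha hb hab
    have h3 := hlatt _ h
    rw [map_nsmul, nsmul_eq_mul, mul_eq_zero] at h3
    rcases h3 with h3 | h3
    · exact absurd (by exact_mod_cast h3) hN.ne'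
    · exact h3
  have hs : ∀ (i : ι), dvec (Pi.single i 1 : ι → ℕ) 0 = ev i := by
    intro i
    funext l
    simp only [dvec, ev, Pi.single_apply, Pi.zero_apply, Nat.cast_zero, sub_zero]
    split_ifs <;> simp
  have hd : ∀ a b : ι → ℕ, dvec a b = dvec a 0 - dvec b 0 := by
    intro a b
    funext l
    simp [dvec]
  have ha : ∀ a b : ι → ℕ, dvec (a + b) 0 = dvec a 0 + dvec b 0 := by
    intro a b
    funext l
    simp [dvec]
  refine ⟨fun i hi => ?_, fun i j hij => ?_, fun i j l hijl => ?_, fun i j hij => ?_,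
    fun i j l hijl => ?_⟩
  · have h3 := key (Pi.single i 1) 0 (by rw [sys_deg_single]; norm_num)
      (by rw [sys_deg_zero]; norm_num)
      (by rw [sys_mon_single, sys_mon_zero, pow_one, hi])
    rw [hs] at h3
    change y i * (2 : ℂ) ^ (ℓ (ev i) * (k : ℤ)) = 1
    rw [h3, hi, zero_mul, zpow_zero, one_mul]
  · have h3 := key (Pi.single i 1) (Pi.single j 1) (by rw [sys_deg_single]; norm_num)
      (by rw [sys_deg_single]; norm_num)
      (by rw [sys_mon_single, sys_mon_single, pow_one, pow_one, hij])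
    rw [hd, hs, hs, map_sub, sub_eq_zero] at h3
    change y i * (2 : ℂ) ^ (ℓ (ev i) * (k : ℤ)) = y j * (2 : ℂ) ^ (ℓ (ev j) * (k : ℤ))
    rw [h3, hij]
  · have h3 := key (Pi.single i 1 + Pi.single j 1) (Pi.single l 1)
      (by rw [sys_deg_add, sys_deg_single, sys_deg_single])
      (by rw [sys_deg_single]; norm_num)
      (by rw [sys_mon_add, sys_mon_single, sys_mon_single, sys_mon_single, pow_one, pow_one, pow_one,
        hijl])
    rw [hd, ha, hs, hs, hs, map_sub, map_add, sub_eq_zero] at h3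
    change y i * (2 : ℂ) ^ (ℓ (ev i) * (k : ℤ)) * (y j * (2 : ℂ) ^ (ℓ (ev j) * (k : ℤ))) =
      y l * (2 : ℂ) ^ (ℓ (ev l) * (k : ℤ))
    rw [← h3, ← hijl, add_mul, zpow_add₀ h2]
    ring
  · have h3 := key (Pi.single j 2) (Pi.single i 2) (by rw [sys_deg_single])
      (by rw [sys_deg_single]) (by rw [sys_mon_single, sys_mon_single, hij, neg_sq])
    have h4 : dvec (Pi.single j 2 : ι → ℕ) (Pi.single i 2) = 2 • (ev j - ev i) := by
      funext l
      simp only [dvec, ev, Pi.smul_apply, nsmul_eq_mul, Pi.single_apply, Pi.sub_apply]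
      split_ifs <;> simp
    rw [h4, map_nsmul, map_sub, nsmul_eq_mul] at h3
    have h5 : ℓ (ev j) = ℓ (ev i) := by
      push_cast at h3
      linarith
    change y j * (2 : ℂ) ^ (ℓ (ev j) * (k : ℤ)) = -(y i * (2 : ℂ) ^ (ℓ (ev i) * (k : ℤ)))
    rw [h5, hij, neg_mul]
  · obtain ⟨h3, h4⟩ := hℓt (i, j, l) hijl
    simp only at h3 h4
    rw [h3, h4, ← hijl, add_mul]

end abstract

/-- extension by zero -/
private noncomputable def sysExt {n : ℕ} (x : Fin n → ℂ) (z : {i : Fin n // x i ≠ 0} → ℂ) :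
    Fin n → ℂ := fun i => if h : x i ≠ 0 then z ⟨i, h⟩ else 0

private theorem sysExt_inj {n : ℕ} (x : Fin n → ℂ) : Function.Injective (sysExt x) := by
  intro z z' h
  funext i
  have := congrFun h i
  simp only [sysExt] at this
  rw [dif_pos i.2, dif_pos i.2] at this
  exact this

private theorem sysExt_sol {n : ℕ} (S : Set (Eqn n)) (x : Fin n → ℂ) (hx : x ∈ Sol S)
    (z : {i : Fin n // x i ≠ 0} → ℂ)
    (hz : SysRules (fun i : {i : Fin n // x i ≠ 0} => x i) z) : sysExt x z ∈ Sol S := by
  have hpos : ∀ i (h : x i ≠ 0), sysExt x z i = z ⟨i, h⟩ := fun i h => dif_pos h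
  have hneg : ∀ i, x i = 0 → sysExt x z i = 0 := fun i h => dif_neg (not_not.mpr h)
  intro e he
  have hxe := hx e he
  cases e with
  | one i =>
    change x i = 1 at hxe
    change sysExt x z i = 1
    have hi : x i ≠ 0 := by rw [hxe]; exact one_ne_zero
    rw [hpos i hi]
    exact hz.r1 ⟨i, hi⟩ hxe
  | add i j k =>
    change x i + x j = x k at hxe
    change sysExt x z i + sysExt x z j = sysExt x z k
    by_cases hi : x i = 0
    · by_cases hj : x j = 0
      · have hk : x k = 0 := by rw [← hxe, hi, hj, add_zero]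
        rw [hneg i hi, hneg j hj, hneg k hk, add_zero]
      · have hk' : x j = x k := by rw [← hxe, hi, zero_add]
        have hk : x k ≠ 0 := hk' ▸ hj
        rw [hneg i hi, hpos j hj, hpos k hk, zero_add]
        exact hz.r2 ⟨j, hj⟩ ⟨k, hk⟩ hk'
    · by_cases hj : x j = 0
      · have hk' : x i = x k := by rw [← hxe, hj, add_zero]
        have hk : x k ≠ 0 := hk' ▸ hi
        rw [hneg j hj, hpos i hi, hpos k hk, add_zero]
        exact hz.r2 ⟨i, hi⟩ ⟨k, hk⟩ hk'
      · by_cases hk : x k = 0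
        · rw [hpos i hi, hpos j hj, hneg k hk]
          have h1 : x j = -x i := by
            rw [hk] at hxe
            exact eq_neg_of_add_eq_zero_right hxe
          rw [hz.r4 ⟨i, hi⟩ ⟨j, hj⟩ h1, add_neg_cancel]
        · rw [hpos i hi, hpos j hj, hpos k hk]
          exact hz.r5 ⟨i, hi⟩ ⟨j, hj⟩ ⟨k, hk⟩ hxe
  | mul i j k =>
    change x i * x j = x k at hxe
    change sysExt x z i * sysExt x z j = sysExt x z k
    by_cases hi : x i = 0
    · have hk : x k = 0 := by rw [← hxe, hi, zero_mul]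
      rw [hneg i hi, hneg k hk, zero_mul]
    · by_cases hj : x j = 0
      · have hk : x k = 0 := by rw [← hxe, hj, mul_zero]
        rw [hneg j hj, hneg k hk, mul_zero]
      · have hk : x k ≠ 0 := by
          rw [← hxe]
          exact mul_ne_zero hi hj
        rw [hpos i hi, hpos j hj, hpos k hk]
        exact hz.r3 ⟨i, hi⟩ ⟨j, hj⟩ ⟨k, hk⟩ hxe

theorem SYS (n : ℕ) (S : Set (Eqn n)) (x : Fin n → ℂ) (hx : x ∈ Sol S) (i0 : Fin n)
    (hi0 : Eqn.one i0 ∈ S) (d : ℕ) (jj : Fin d → Fin n) (hjj : Function.Injective jj)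
    (hj0 : ∀ s, jj s ≠ i0) (pp : Fin d → ℕ) (hpp : ∀ s, 1 ≤ pp s)
    (hroot : ∀ s, (x (jj s)) ^ (pp s) = 1)
    (hfin : {z : Fin n → ℂ | z ∈ Sol S ∧ ∀ s, z (jj s) = x (jj s)}.Finite) :
    ∃ (ρ : ℕ) (p m : Fin ρ → {i : Fin n // x i ≠ 0} → ℕ) (D : Fin ρ → ℕ)
      (𝒯 : Set ({i : Fin n // x i ≠ 0} × {i : Fin n // x i ≠ 0} × {i : Fin n // x i ≠ 0})),
      (∀ s, 1 ≤ D s) ∧ (∀ s, deg (p s) ≤ D s) ∧ (∀ s, deg (m s) ≤ D s) ∧
      (∀ s, mon (fun i : {i : Fin n // x i ≠ 0} => x i) (p s) =
        mon (fun i : {i : Fin n // x i ≠ 0} => x i) (m s)) ∧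
      LinearIndependent ℤ (fun s => dvec (p s) (m s)) ∧
      (∀ t ∈ 𝒯, x t.1 + x t.2.1 = x t.2.2) ∧
      (∀ P : Ideal (MvPolynomial {i : Fin n // x i ≠ 0} ℂ), P.IsPrime →
        P ≤ mx (fun i : {i : Fin n // x i ≠ 0} => x i) →
        (∀ s, bin (p s) (m s) ∈ P) → (∀ t ∈ 𝒯, tri t ∈ P) →
        P = mx (fun i : {i : Fin n // x i ≠ 0} => x i)) ∧
      (∀ ℓ : ({i : Fin n // x i ≠ 0} → ℤ) →+ ℤ, (∀ s, ℓ (dvec (p s) (m s)) = 0) →
        (∀ t ∈ 𝒯, ℓ (ev t.1) = ℓ (ev t.2.1) ∧ ℓ (ev t.2.1) = ℓ (ev t.2.2)) → ℓ = 0) ∧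
      (∏ s, D s) * 2 ^ (d + 1) ≤ 2 ^ ρ * ∏ s, pp s := by
  have hx0 : x i0 ≠ 0 := by
    have : x i0 = 1 := hx _ hi0
    rw [this]
    exact one_ne_zero
  have hxj : ∀ s, x (jj s) ≠ 0 := by
    intro s h
    have := hroot s
    rw [h, zero_pow (by have := hpp s; omega)] at this
    exact zero_ne_one this
  let y : {i : Fin n // x i ≠ 0} → ℂ := fun i => x i
  have hy : ∀ i, y i ≠ 0 := fun i => i.2
  let idx : Fin (d + 1) → {i : Fin n // x i ≠ 0} := Fin.cons ⟨i0, hx0⟩ fun s => ⟨jj s, hxj s⟩
  let w : Fin (d + 1) → ℕ := Fin.cons 1 pp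
  have hidx : Function.Injective idx := by
    refine Fin.cons_injective_iff.mpr ⟨?_, ?_⟩
    · rintro ⟨s, hs⟩
      exact hj0 s (congrArg Subtype.val hs)
    · intro s t hst
      exact hjj (congrArg Subtype.val hst)
  have hw : ∀ s, 1 ≤ w s := fun s => Fin.cases (by simp [w]) (fun s => by simpa [w] using hpp s) s
  have hyw : ∀ s, y (idx s) ^ w s = 1 := by
    intro s
    refine Fin.cases ?_ (fun s => ?_) s
    · have : x i0 = 1 := hx _ hi0
      simp [y, idx, w, this]
    · simpa [y, idx, w] using hroot s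
  obtain ⟨ρ, p, m, D, h1, h2, h3, h4, h5, h6, h7, h8⟩ := sys_extend y (Fintype.card {i : Fin n // x i ≠ 0}) (d + 1)
    (by omega) (fun s => Pi.single (idx s) (w s)) (fun _ => 0) w hw
    (fun s => (sys_deg_single _ _).le) (fun s => by rw [sys_deg_zero]; exact Nat.zero_le _)
    (fun s => by rw [sys_mon_single, sys_mon_zero]; exact hyw s) (sys_li idx hidx w hw)
  have hbase : ∀ s, dvec (Pi.single (idx s) (w s)) 0 ∈ latt (fun s => dvec (p s) (m s)) :=
    fun s => h6 (AddSubgroup.subset_closure ⟨s, rfl⟩)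
  refine ⟨ρ, p, m, D, {t | x t.1 + x t.2.1 = x t.2.2}, h1, h2, h3, h4, h5, fun t ht => ht, ?_, ?_, ?_⟩
  · -- the isolation
    intro P hP hPy hb ht
    refine P4 _ P hP hPy ?_
    have hmaps : ∀ z ∈ MvPolynomial.zeroLocus ℂ P, sysExt x z ∈
        {z : Fin n → ℂ | z ∈ Sol S ∧ ∀ s, z (jj s) = x (jj s)} := by
      intro z hz
      refine ⟨sysExt_sol S x hx z (sys_rules_zero y hy P hP hPy p m hb h7 (fun t h => ht t h) z hz),
        fun s => ?_⟩
      have e1 : sysExt x z (jj s) = z ⟨jj s, hxj s⟩ := dif_pos (hxj s)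
      rw [e1]
      have h9 := P5 y hy P hP hPy p m hb (Pi.single ⟨jj s, hxj s⟩ 1) 0 (x (jj s))
        (by rw [sys_mon_single, sys_mon_zero, pow_one, mul_one]) (pp s) (hpp s) (by
          have h10 := hbase s.succ
          have h11 : dvec (Pi.single (idx s.succ) (w s.succ) : {i : Fin n // x i ≠ 0} → ℕ) 0 =
              pp s • dvec (Pi.single ⟨jj s, hxj s⟩ 1 : {i : Fin n // x i ≠ 0} → ℕ) 0 := by
            funext l
            simp only [dvec, Pi.smul_apply, nsmul_eq_mul, Pi.single_apply, idx, w, Fin.cons_succ]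
            split_ifs <;> simp
          rw [← h11]
          exact h10)
      have h12 : MvPolynomial.eval z (mon MvPolynomial.X (Pi.single ⟨jj s, hxj s⟩ 1) -
          MvPolynomial.C (x (jj s)) * mon MvPolynomial.X 0) = 0 := by
        have := hz _ h9
        rwa [MvPolynomial.aeval_eq_eval] at this
      have hev : ∀ u : {i : Fin n // x i ≠ 0} → ℕ,
          MvPolynomial.eval z (mon MvPolynomial.X u) = mon z u := by
        intro u
        simp only [mon, map_prod, map_pow, MvPolynomial.eval_X]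
      rw [map_sub, map_mul, hev, hev, MvPolynomial.eval_C, sys_mon_single, sys_mon_zero, pow_one,
        mul_one, sub_eq_zero] at h12
      exact h12
    exact (hfin.preimage (sysExt_inj x).injOn).subset fun z hz => hmaps z hz
  · -- the cosets
    intro ℓ hℓ hℓt
    have hzero : ∀ i, ℓ (ev i) = 0 := by
      intro i
      by_contra hi
      have hlatt : ∀ v ∈ latt (fun s => dvec (p s) (m s)), ℓ v = 0 := by
        intro v hv
        unfold latt at hv
        induction hv using AddSubgroup.closure_induction with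
        | mem a ha =>
          obtain ⟨s, rfl⟩ := ha
          exact hℓ s
        | zero => exact map_zero _
        | add a b _ _ h1 h2 => rw [map_add, h1, h2, add_zero]
        | neg a _ h1 => rw [map_neg, h1, neg_zero]
      have hmaps : ∀ k : ℕ, sysExt x (fun i => y i * (2 : ℂ) ^ (ℓ (ev i) * (k : ℤ))) ∈
          {z : Fin n → ℂ | z ∈ Sol S ∧ ∀ s, z (jj s) = x (jj s)} := by
        intro k
        refine ⟨sysExt_sol S x hx _ (sys_rules_scale y p m h7 ℓ hℓ (fun t h => hℓt t h) k),
          fun s => ?_⟩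
        have e1 : sysExt x (fun i => y i * (2 : ℂ) ^ (ℓ (ev i) * (k : ℤ))) (jj s) =
            y ⟨jj s, hxj s⟩ * (2 : ℂ) ^ (ℓ (ev ⟨jj s, hxj s⟩) * (k : ℤ)) := dif_pos (hxj s)
        rw [e1]
        have h10 := hlatt _ (hbase s.succ)
        have h11 : dvec (Pi.single (idx s.succ) (w s.succ) : {i : Fin n // x i ≠ 0} → ℕ) 0 =
            pp s • ev ⟨jj s, hxj s⟩ := by
          funext l
          simp only [dvec, ev, Pi.smul_apply, nsmul_eq_mul, Pi.single_apply, idx, w, Fin.cons_succ]
          split_ifs <;> simp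
        rw [h11, map_nsmul, nsmul_eq_mul, mul_eq_zero] at h10
        have h12 : ℓ (ev ⟨jj s, hxj s⟩) = 0 := by
          rcases h10 with h10 | h10
          · have := hpp s
            have h13 : pp s = 0 := by exact_mod_cast h10
            omega
          · exact h10
        rw [h12, zero_mul, zpow_zero, mul_one]
      have hinj : Function.Injective fun k : ℕ =>
          sysExt x (fun i => y i * (2 : ℂ) ^ (ℓ (ev i) * (k : ℤ))) := by
        intro k k' hkk
        have h9 := congrFun (sysExt_inj x hkk) i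
        have h10 := mul_left_cancel₀ (hy i) h9
        have h11 := congrArg norm h10
        rw [norm_zpow, norm_zpow, Complex.norm_ofNat] at h11
        have h12 := zpow_right_injective₀ (by norm_num : (0 : ℝ) < 2) (by norm_num) h11
        have h13 := mul_left_cancel₀ hi h12
        exact_mod_cast h13
      exact Set.not_infinite.mpr hfin (Set.infinite_of_injective_forall_mem hinj hmaps)
    refine AddMonoidHom.ext fun u => ?_
    have hu : u = ∑ i, u i • ev i := by
      funext l
      rw [Finset.sum_apply, Finset.sum_eq_single l]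
      · simp [ev]
      · intro b _ hb
        simp [ev, Pi.single_eq_of_ne hb.symm]
      · intro h
        exact absurd (Finset.mem_univ l) h
    rw [hu, map_sum, AddMonoidHom.zero_apply]
    refine Finset.sum_eq_zero fun i _ => ?_
    rw [map_zsmul, hzero i, smul_zero]
  · -- the product
    have h9 : ∏ s, w s = ∏ s, pp s := by
      rw [Fin.prod_cons, one_mul]
    rw [h9] at h8
    exact h8.le

end H58D
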