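import Pool.Agent.Lib.H58D.Defs

/-! The systems of `MP_dafae9_al`: equations, solutions, and the frozen interface `SYS` between systems and the machine (chunk `SYS` in `SYS.lean`). -/

namespace H58D

/-- The equations `x_i = 1`, `x_i + x_j = x_k`, `x_i * x_j = x_k`. -/
inductive Eqn (n : ℕ) : Type
  | one (i : Fin n) : Eqn n
  | add (i j k : Fin n) : Eqn n
  | mul (i j k : Fin n) : Eqn n

/-- The set `E_n` (with `i ≤ j` in the sums and products). -/
def EE (n : ℕ) : Set (Eqn n) :=
  {e | match e with
    | Eqn.one _ => True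
    | Eqn.add i j _ => i ≤ j
    | Eqn.mul i j _ => i ≤ j}

/-- The point `x` satisfies the equation. -/
def Holds {n : ℕ} (x : Fin n → ℂ) : Eqn n → Prop
  | Eqn.one i => x i = 1
  | Eqn.add i j k => x i + x j = x k
  | Eqn.mul i j k => x i * x j = x k

/-- The solutions of a system. -/
def Sol {n : ℕ} (S : Set (Eqn n)) : Set (Fin n → ℂ) := {x | ∀ e ∈ S, Holds x e}

end H58D
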