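import Pool.Agent.Lib.H58D.TDefs

/-! Chunk T0 (size S).  The cocycle identity, and compatibility of `TMat` with ring homomorphisms.

Proof.  `T0_coc`: both `u + sec z q` and `sec z (mk u + q)` have the class `mk u + q` (`Quotient.out_eq'`, `QuotientAddGroup.out_eq'`), so their difference is in `zmultiples z`; unfold `coc`,
`dif_pos`, `choose_spec`.  `T0_map`: unfold, `map_sum`, `map_mul`, `apply_ite`, `map_pow`, `map_intCast`. -/

namespace H58D

theorem T0_coc {𝒢 : Type*} [AddCommGroup 𝒢] (z u : 𝒢) (q : 𝒢 ⧸ AddSubgroup.zmultiples z) :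
    u + sec z q = sec z (QuotientAddGroup.mk u + q) + (coc z u q) • z := by
  have h : ∃ n : ℤ, u + sec z q = sec z (QuotientAddGroup.mk u + q) + n • z := by
    have h1 : (QuotientAddGroup.mk (sec z (QuotientAddGroup.mk u + q)) :
        𝒢 ⧸ AddSubgroup.zmultiples z) = QuotientAddGroup.mk (u + sec z q) := by
      rw [QuotientAddGroup.mk_add]
      unfold sec
      rw [QuotientAddGroup.out_eq', QuotientAddGroup.out_eq']
    rw [QuotientAddGroup.eq] at h1
    obtain ⟨n, hn⟩ := AddSubgroup.mem_zmultiples_iff.1 h1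
    refine ⟨n, ?_⟩
    rw [hn]
    abel
  unfold coc
  rw [dif_pos h]
  exact h.choose_spec

theorem T0_map {𝒢 : Type*} [AddCommGroup 𝒢] (z : 𝒢) (ψ : 𝒢 →+ ℤ) (a b : Fin 3 → 𝒢)
    (κa κb : Fin 3 → ℤ) (l0 l1 : Fin 3) (k1 w1 L : ℕ) {A A' : Type*} [CommRing A] [CommRing A']
    (f : A →+* A') (X e : A) :
    (TMat z ψ a b κa κb l0 l1 k1 w1 L X e).map f =
      TMat z ψ a b κa κb l0 l1 k1 w1 L (f X) (f e) := by
  ext r r'
  rcases r with q | q
  · simp only [Matrix.map_apply, TMat, rowf, map_sum, map_mul, apply_ite f, map_pow, map_intCast,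
      map_zero]
  · simp only [Matrix.map_apply, TMat, rowf, map_sum, map_mul, apply_ite f, map_pow, map_intCast,
      map_zero, map_add, map_one]

end H58D
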