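import Pool.Agent.Lib.H58D.TDefs

/-! Chunk T1 (size M).  The columns.

Proof.  `ψ z = 0`, so `ψ` is well defined on classes modulo `z`: if `mk u = mk u'` then `ψ u = ψ u'`.  So `mk u ∈ CC z ψ k ↔ 0 ≤ ψ u < k`.
`θ (inl q)` has `ψ`-value in `[w1, w1 + k1)` and `θ (inr q)` has `ψ`-value in `[0, w1)`; translations are injective: `θ` is injective, and its image is all of `CC z ψ (k1 + w1)`
(given a class with value in `[0, w1)` subtract `b l1`, given one with value in `[w1, w1+k1)` subtract `a l0`).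
`a l + q`, `q ∈ CC k1`: value in `[0, k1 + w1)`.  `b l + q`, `q ∈ CC w1`: value in `[0, k1 + w1)`. -/

namespace H58D

private theorem T1_lift {𝒢 : Type*} [AddCommGroup 𝒢] (z : 𝒢) (ψ : 𝒢 →+ ℤ) (hψz : ψ z = 0) :
    ∃ Ψ : (𝒢 ⧸ AddSubgroup.zmultiples z) →+ ℤ, ∀ u : 𝒢, Ψ (QuotientAddGroup.mk u) = ψ u := by
  refine ⟨QuotientAddGroup.lift (AddSubgroup.zmultiples z) ψ ?_, fun u => rfl⟩
  intro x hx
  obtain ⟨n, rfl⟩ := AddSubgroup.mem_zmultiples_iff.1 hx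
  rw [AddMonoidHom.mem_ker, map_zsmul, hψz, smul_zero]

private theorem T1_mem {𝒢 : Type*} [AddCommGroup 𝒢] (z : 𝒢) (ψ : 𝒢 →+ ℤ)
    (Ψ : (𝒢 ⧸ AddSubgroup.zmultiples z) →+ ℤ) (hΨ : ∀ u : 𝒢, Ψ (QuotientAddGroup.mk u) = ψ u)
    (k : ℕ) (q : 𝒢 ⧸ AddSubgroup.zmultiples z) : q ∈ CC z ψ k ↔ 0 ≤ Ψ q ∧ Ψ q < k := by
  constructor
  · rintro ⟨u, rfl, h1, h2⟩
    rw [hΨ]; exact ⟨h1, h2⟩
  · rintro ⟨h1, h2⟩
    obtain ⟨u, rfl⟩ := QuotientAddGroup.mk_surjective q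
    rw [hΨ] at h1 h2
    exact ⟨u, rfl, h1, h2⟩

theorem T1_inj {𝒢 : Type*} [AddCommGroup 𝒢] (z : 𝒢) (ψ : 𝒢 →+ ℤ) (hψz : ψ z = 0)
    (a b : Fin 3 → 𝒢) (l0 l1 : Fin 3) (k1 w1 : ℕ) (ha0 : ψ (a l0) = w1) (hb1 : ψ (b l1) = 0) :
    Function.Injective (theta z ψ a b l0 l1 k1 w1) := by
  obtain ⟨Ψ, hΨ⟩ := T1_lift z ψ hψz
  have hv1 : ∀ q : CC z ψ k1, (w1 : ℤ) ≤ Ψ (theta z ψ a b l0 l1 k1 w1 (Sum.inl q)) := by
    intro q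
    have h := ((T1_mem z ψ Ψ hΨ k1 q).1 q.2).1
    have e : Ψ (theta z ψ a b l0 l1 k1 w1 (Sum.inl q)) = w1 + Ψ q := by
      change Ψ (QuotientAddGroup.mk (a l0) + (q : 𝒢 ⧸ AddSubgroup.zmultiples z)) = _
      rw [map_add, hΨ, ha0]
    rw [e]; linarith
  have hv2 : ∀ q : CC z ψ w1, Ψ (theta z ψ a b l0 l1 k1 w1 (Sum.inr q)) < w1 := by
    intro q
    have h := ((T1_mem z ψ Ψ hΨ w1 q).1 q.2).2
    have e : Ψ (theta z ψ a b l0 l1 k1 w1 (Sum.inr q)) = Ψ q := by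
      change Ψ (QuotientAddGroup.mk (b l1) + (q : 𝒢 ⧸ AddSubgroup.zmultiples z)) = _
      rw [map_add, hΨ, hb1, zero_add]
    rw [e]; exact h
  rintro (q | q) (q' | q') h
  · have h' : QuotientAddGroup.mk (a l0) + (q : 𝒢 ⧸ AddSubgroup.zmultiples z) =
      QuotientAddGroup.mk (a l0) + (q' : 𝒢 ⧸ AddSubgroup.zmultiples z) := h
    rw [Subtype.ext (add_left_cancel h')]
  · have h1 := hv1 q
    have h2 := hv2 q'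
    rw [h] at h1
    exact absurd h1 (not_le.mpr h2)
  · have h1 := hv1 q'
    have h2 := hv2 q
    rw [← h] at h1
    exact absurd h1 (not_le.mpr h2)
  · have h' : QuotientAddGroup.mk (b l1) + (q : 𝒢 ⧸ AddSubgroup.zmultiples z) =
      QuotientAddGroup.mk (b l1) + (q' : 𝒢 ⧸ AddSubgroup.zmultiples z) := h
    rw [Subtype.ext (add_left_cancel h')]

private theorem T1_surj {𝒢 : Type*} [AddCommGroup 𝒢] (z : 𝒢) (ψ : 𝒢 →+ ℤ)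
    (Ψ : (𝒢 ⧸ AddSubgroup.zmultiples z) →+ ℤ) (hΨ : ∀ u : 𝒢, Ψ (QuotientAddGroup.mk u) = ψ u)
    (a b : Fin 3 → 𝒢) (l0 l1 : Fin 3) (k1 w1 : ℕ) (ha0 : ψ (a l0) = w1) (hb1 : ψ (b l1) = 0)
    (x : 𝒢 ⧸ AddSubgroup.zmultiples z) (h0 : 0 ≤ Ψ x) (h1 : Ψ x < (k1 : ℤ) + w1) :
    ∃ r', theta z ψ a b l0 l1 k1 w1 r' = x := by
  by_cases hx : Ψ x < w1
  · have hm : x - QuotientAddGroup.mk (b l1) ∈ CC z ψ w1 := by
      rw [T1_mem z ψ Ψ hΨ, map_sub, hΨ, hb1, sub_zero]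
      exact ⟨h0, hx⟩
    refine ⟨Sum.inr ⟨_, hm⟩, ?_⟩
    change QuotientAddGroup.mk (b l1) + (x - QuotientAddGroup.mk (b l1)) = x
    abel
  · have hm : x - QuotientAddGroup.mk (a l0) ∈ CC z ψ k1 := by
      rw [T1_mem z ψ Ψ hΨ, map_sub, hΨ, ha0]
      push Not at hx
      constructor
      · linarith
      · linarith
    refine ⟨Sum.inl ⟨_, hm⟩, ?_⟩
    change QuotientAddGroup.mk (a l0) + (x - QuotientAddGroup.mk (a l0)) = x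
    abel

theorem T1_a {𝒢 : Type*} [AddCommGroup 𝒢] (z : 𝒢) (ψ : 𝒢 →+ ℤ) (hψz : ψ z = 0)
    (a b : Fin 3 → 𝒢) (l0 l1 : Fin 3) (k1 w1 : ℕ) (ha0 : ψ (a l0) = w1) (hb1 : ψ (b l1) = 0)
    (ha : ∀ l, 0 ≤ ψ (a l) ∧ ψ (a l) ≤ w1) (l : Fin 3) (q : CC z ψ k1) :
    ∃ r', theta z ψ a b l0 l1 k1 w1 r' =
      QuotientAddGroup.mk (a l) + (q : 𝒢 ⧸ AddSubgroup.zmultiples z) := by
  obtain ⟨Ψ, hΨ⟩ := T1_lift z ψ hψz
  have hq := (T1_mem z ψ Ψ hΨ k1 q).1 q.2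
  apply T1_surj z ψ Ψ hΨ a b l0 l1 k1 w1 ha0 hb1
  · rw [map_add, hΨ]
    have := (ha l).1
    linarith [hq.1]
  · rw [map_add, hΨ]
    have := (ha l).2
    linarith [hq.2]

theorem T1_b {𝒢 : Type*} [AddCommGroup 𝒢] (z : 𝒢) (ψ : 𝒢 →+ ℤ) (hψz : ψ z = 0)
    (a b : Fin 3 → 𝒢) (l0 l1 : Fin 3) (k1 w1 : ℕ) (ha0 : ψ (a l0) = w1) (hb1 : ψ (b l1) = 0)
    (hb : ∀ l, 0 ≤ ψ (b l) ∧ ψ (b l) ≤ k1) (l : Fin 3) (q : CC z ψ w1) :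
    ∃ r', theta z ψ a b l0 l1 k1 w1 r' =
      QuotientAddGroup.mk (b l) + (q : 𝒢 ⧸ AddSubgroup.zmultiples z) := by
  obtain ⟨Ψ, hΨ⟩ := T1_lift z ψ hψz
  have hq := (T1_mem z ψ Ψ hΨ w1 q).1 q.2
  apply T1_surj z ψ Ψ hΨ a b l0 l1 k1 w1 ha0 hb1
  · rw [map_add, hΨ]
    have := (hb l).1
    linarith [hq.1]
  · rw [map_add, hΨ]
    have := (hb l).2
    linarith [hq.2]

end H58D
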