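import Pool.Agent.Lib.H58D.T0
import Pool.Agent.Lib.H58D.T1

/-! Chunk T2 (size M).  The matrix kills a nonzero vector over `B`.

Proof.  `φ` is a homomorphism to the units: `φ u * φ (-u) = 1`.  `φ (n • z) = (φ z)^n` for `n : ℕ`.  Put `v r' = φ (sec z (θ r'))`, a unit, so `v ≠ 0` (`J` is nonempty: a class `0` lies in
`CC k` for `k ≥ 1`).  For `r = inl q`: `Σ_{r'} TMat r r' * v r' = Σ_l κa_l (φ z)^(coc (a l) q + L) φ (sec z (mk (a l) + q))`, because for each `l` exactly one `r'` has `θ r' = mk (a l) + q`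
(`T1_inj`, `T1_a`).  By `T0_coc` and `hLa` (`coc + L ≥ 0`): `(φ z)^((coc + L).toNat) * φ (sec z (mk (a l) + q)) = φ (L • z) * φ (a l) * φ (sec z q)`
(`(coc + L) • z + sec (..) = L • z + a l + sec q`).  So the sum is `φ (L•z) φ (sec q) Σ κa_l φ (a l) = 0`.  The same for `inr`.  Then `Matrix.exists_mulVec_eq_zero_iff` (`B` a domain) gives `det = 0`. -/

namespace H58D

private lemma T2_nsmul {𝒢 : Type*} [AddCommGroup 𝒢] {B : Type*} [CommRing B] (φ : 𝒢 → B)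
    (hφ0 : φ 0 = 1) (hφ : ∀ u v, φ (u + v) = φ u * φ v) (z : 𝒢) (n : ℕ) :
    φ (n • z) = φ z ^ n := by
  induction n with
  | zero => rw [zero_smul, pow_zero, hφ0]
  | succ n ih => rw [succ_nsmul, hφ, ih, pow_succ]

private lemma T2_term {𝒢 : Type*} [AddCommGroup 𝒢] {B : Type*} [CommRing B] (φ : 𝒢 → B)
    (hφ0 : φ 0 = 1) (hφ : ∀ u v, φ (u + v) = φ u * φ v) (z u : 𝒢) (L : ℕ)
    (q : 𝒢 ⧸ AddSubgroup.zmultiples z) (hL : 0 ≤ coc z u q + L) :
    φ z ^ (coc z u q + L).toNat * φ (sec z (QuotientAddGroup.mk u + q)) =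
      φ (L • z) * φ (sec z q) * φ u := by
  rw [← T2_nsmul φ hφ0 hφ, ← hφ, ← hφ, ← hφ]
  congr 1
  have h1 := T0_coc z u q
  have h2 : (coc z u q + L).toNat • z = (coc z u q) • z + L • z := by
    rw [← natCast_zsmul z (coc z u q + L).toNat, Int.toNat_of_nonneg hL, add_smul,
      natCast_zsmul]
  have h3 : (coc z u q) • z + sec z (QuotientAddGroup.mk u + q) = u + sec z q := by
    rw [h1]; abel
  calc (coc z u q + L).toNat • z + sec z (QuotientAddGroup.mk u + q)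
      = ((coc z u q) • z + sec z (QuotientAddGroup.mk u + q)) + L • z := by rw [h2]; abel
    _ = L • z + sec z q + u := by rw [h3]; abel

private lemma T2_row {𝒢 : Type*} [AddCommGroup 𝒢] {B : Type*} [CommRing B] (φ : 𝒢 → B)
    (hφ0 : φ 0 = 1) (hφ : ∀ u v, φ (u + v) = φ u * φ v) (z : 𝒢) (L : ℕ)
    {J : Type*} [Fintype J] (θ : J → 𝒢 ⧸ AddSubgroup.zmultiples z)
    (hθ : Function.Injective θ) (t : Fin 3 → 𝒢) (c : Fin 3 → B)
    (q : 𝒢 ⧸ AddSubgroup.zmultiples z) (hL : ∀ l, 0 ≤ coc z (t l) q + L)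
    (hex : ∀ l, ∃ r', θ r' = QuotientAddGroup.mk (t l) + q) :
    ∑ r', rowf z L t c (φ z) q (θ r') * φ (sec z (θ r')) =
      φ (L • z) * φ (sec z q) * ∑ l, c l * φ (t l) := by
  classical
  have h1 : ∀ l, ∑ r', (if QuotientAddGroup.mk (t l) + q = θ r' then
      φ z ^ (coc z (t l) q + L).toNat else 0) * φ (sec z (θ r')) =
      φ (L • z) * φ (sec z q) * φ (t l) := by
    intro l
    obtain ⟨r0, hr0⟩ := hex l
    rw [Finset.sum_eq_single r0]
    · rw [if_pos hr0.symm, hr0]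
      exact T2_term φ hφ0 hφ z (t l) L q (hL l)
    · intro r' _ hne
      rw [if_neg, zero_mul]
      intro h
      exact hne (hθ (h.symm.trans hr0.symm))
    · intro h
      exact absurd (Finset.mem_univ r0) h
  unfold rowf
  calc ∑ r', (∑ l, c l * (if QuotientAddGroup.mk (t l) + q = θ r' then
        φ z ^ (coc z (t l) q + L).toNat else 0)) * φ (sec z (θ r'))
      = ∑ r', ∑ l, c l * ((if QuotientAddGroup.mk (t l) + q = θ r' then
        φ z ^ (coc z (t l) q + L).toNat else 0) * φ (sec z (θ r'))) := by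
        refine Finset.sum_congr rfl fun r' _ => ?_
        rw [Finset.sum_mul]
        refine Finset.sum_congr rfl fun l _ => ?_
        rw [mul_assoc]
    _ = ∑ l, ∑ r', c l * ((if QuotientAddGroup.mk (t l) + q = θ r' then
        φ z ^ (coc z (t l) q + L).toNat else 0) * φ (sec z (θ r'))) := Finset.sum_comm
    _ = ∑ l, c l * (φ (L • z) * φ (sec z q) * φ (t l)) := by
        refine Finset.sum_congr rfl fun l _ => ?_
        rw [← Finset.mul_sum, h1 l]
    _ = φ (L • z) * φ (sec z q) * ∑ l, c l * φ (t l) := by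
        rw [Finset.mul_sum]
        refine Finset.sum_congr rfl fun l _ => ?_
        ring

theorem T2 {𝒢 : Type*} [AddCommGroup 𝒢] (z : 𝒢) (ψ : 𝒢 →+ ℤ) (hψz : ψ z = 0)
    (a b : Fin 3 → 𝒢) (κa κb : Fin 3 → ℤ) (l0 l1 : Fin 3) (k1 w1 L : ℕ) (hkw : 0 < k1 + w1)
    [Fintype (CC z ψ k1)] [Fintype (CC z ψ w1)] [DecidableEq (CC z ψ k1 ⊕ CC z ψ w1)]
    (ha : ∀ l, 0 ≤ ψ (a l) ∧ ψ (a l) ≤ w1) (ha0 : ψ (a l0) = w1)
    (hb : ∀ l, 0 ≤ ψ (b l) ∧ ψ (b l) ≤ k1) (hb1 : ψ (b l1) = 0)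
    (hLa : ∀ l, ∀ q ∈ CC z ψ k1, 0 ≤ coc z (a l) q + L)
    (hLb : ∀ l, ∀ q ∈ CC z ψ w1, 0 ≤ coc z (b l) q + L)
    {B : Type*} [CommRing B] [IsDomain B] (φ : 𝒢 → B) (hφ0 : φ 0 = 1)
    (hφ : ∀ u v, φ (u + v) = φ u * φ v) (e : B)
    (hTa : ∑ l, (κa l : B) * φ (a l) = 0)
    (hTb : ∑ l, (κb l : B) * (1 + if l = l1 then e else 0) * φ (b l) = 0) :
    (TMat z ψ a b κa κb l0 l1 k1 w1 L (φ z) e).det = 0 := by
  rw [← Matrix.exists_mulVec_eq_zero_iff]
  refine ⟨fun r' => φ (sec z (theta z ψ a b l0 l1 k1 w1 r')), ?_, ?_⟩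
  · -- the vector is nonzero
    have hne : Nonempty (CC z ψ k1 ⊕ CC z ψ w1) := by
      rcases Nat.eq_zero_or_pos k1 with h | h
      · have hw : 0 < w1 := by omega
        refine ⟨Sum.inr ⟨QuotientAddGroup.mk 0, 0, rfl, ?_, ?_⟩⟩
        · rw [map_zero]
        · rw [map_zero]; exact_mod_cast hw
      · refine ⟨Sum.inl ⟨QuotientAddGroup.mk 0, 0, rfl, ?_, ?_⟩⟩
        · rw [map_zero]
        · rw [map_zero]; exact_mod_cast h
    obtain ⟨r⟩ := hne
    intro h0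
    have h1 : φ (sec z (theta z ψ a b l0 l1 k1 w1 r)) = 0 := congrFun h0 r
    have h2 : φ (sec z (theta z ψ a b l0 l1 k1 w1 r) +
        -(sec z (theta z ψ a b l0 l1 k1 w1 r))) = 0 := by rw [hφ, h1, zero_mul]
    rw [add_neg_cancel, hφ0] at h2
    exact one_ne_zero h2
  · funext r
    have hinj := T1_inj z ψ hψz a b l0 l1 k1 w1 ha0 hb1
    rcases r with q | q
    · have := T2_row φ hφ0 hφ z L (theta z ψ a b l0 l1 k1 w1) hinj a (fun l => (κa l : B)) q
        (fun l => hLa l q q.2) (fun l => T1_a z ψ hψz a b l0 l1 k1 w1 ha0 hb1 ha l q)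
      rw [hTa, mul_zero] at this
      exact this
    · have := T2_row φ hφ0 hφ z L (theta z ψ a b l0 l1 k1 w1) hinj b
        (fun l => (κb l : B) * (1 + if l = l1 then e else 0)) q
        (fun l => hLb l q q.2) (fun l => T1_b z ψ hψz a b l0 l1 k1 w1 ha0 hb1 hb l q)
      rw [hTb, mul_zero] at this
      exact this

end H58D
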