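import Pool.Agent.Lib.H58D.T1
import Pool.Agent.Lib.H58D.L6

/-! Chunk T4 (size M).  Row norms and Hadamard for `|Z| = |ε| = 1`.

Proof.  Row `inl q`: the columns hit by `l = 0, 1, 2` are pairwise different (`mk (a l) + q = mk (a l') + q` means `a l - a l' ∈ zmultiples z`), each `l` hits at most one `r'` (`T1_inj`), and every nonzero entry
has norm `|κa_l| |Z|^(..) = 1`.  So `Σ_{r'} ‖entry‖² ≤ 3`.  Row `inr q`: first case (all classes different): the entry for `l1` has norm `‖1 + ε‖`, the other two `1`: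
`Σ ≤ ‖1+ε‖² + 2 = 4 + 2 Re ε ≤ 6 + 4 Re ε` as `Re ε ≥ -1`.  Second case: `l1` and `l2` have the same `b` and the same sign, so the same column and the same power of `Z` (`coc` depends only on `b l`, `q`): entry
`± Z^(..) (2 + ε)`, the third index a different column: `Σ ≤ ‖2+ε‖² + 1 = 6 + 4 Re ε`.  (`‖ε‖ = 1`: `‖c+ε‖² = c² + 1 + 2 c Re ε`.)
Then `L6complex` and the product over the two kinds of rows (`Fintype.prod_sum_type`). -/
namespace H58D

private theorem T4_row {Q X : Type*} [Fintype X] (θ : X → Q) (hθ : Function.Injective θ)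
    (m : Fin 3 → Q) [∀ l r, Decidable (m l = θ r)] (e : Fin 3 → ℕ) (c : Fin 3 → ℂ) (Z : ℂ)
    (hZ : ‖Z‖ = 1)
    (h : ∀ l l', l ≠ l' → c l ≠ 0 → c l' ≠ 0 → m l ≠ m l') :
    ∑ r, ‖∑ l, c l * (if m l = θ r then Z ^ (e l) else 0)‖ ^ 2 ≤ ∑ l, ‖c l‖ ^ 2 := by
  have h1 : ∀ r, ‖∑ l, c l * (if m l = θ r then Z ^ (e l) else 0)‖ ^ 2 ≤
      ∑ l, (if m l = θ r then ‖c l‖ ^ 2 else 0) := by
    intro r
    by_cases hex : ∃ l0, c l0 ≠ 0 ∧ m l0 = θ r
    · obtain ⟨l0, hc0, hm0⟩ := hex
      rw [Finset.sum_eq_single l0]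
      · rw [if_pos hm0, norm_mul, norm_pow, hZ, one_pow, mul_one]
        have := Finset.single_le_sum (f := fun l => (if m l = θ r then ‖c l‖ ^ 2 else 0))
          (s := Finset.univ) (fun l _ => by split_ifs <;> positivity) (Finset.mem_univ l0)
        simpa only [if_pos hm0] using this
      · intro l _ hl
        by_cases hc : c l = 0
        · rw [hc, zero_mul]
        · rw [if_neg, mul_zero]
          intro hm
          exact h l l0 hl hc hc0 (hm.trans hm0.symm)
      · intro hn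
        exact absurd (Finset.mem_univ l0) hn
    · rw [Finset.sum_eq_zero]
      · rw [norm_zero]
        refine (le_of_eq (by norm_num)).trans (Finset.sum_nonneg (fun l _ => ?_))
        split_ifs <;> positivity
      · intro l _
        by_cases hc : c l = 0
        · rw [hc, zero_mul]
        · rw [if_neg, mul_zero]
          intro hm
          exact hex ⟨l, hc, hm⟩
  refine (Finset.sum_le_sum (fun r _ => h1 r)).trans ?_
  rw [Finset.sum_comm]
  refine Finset.sum_le_sum (fun l _ => ?_)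
  by_cases hex : ∃ r0, m l = θ r0
  · obtain ⟨r0, hr0⟩ := hex
    rw [Finset.sum_eq_single r0]
    · rw [if_pos hr0]
    · intro r _ hr
      rw [if_neg]
      intro hm
      exact hr (hθ (hm.symm.trans hr0))
    · intro hn
      exact absurd (Finset.mem_univ r0) hn
  · rw [Finset.sum_eq_zero]
    · positivity
    · intro r _
      rw [if_neg]
      intro hm
      exact hex ⟨r, hm⟩

private theorem T4_rowf {𝒢 X : Type*} [AddCommGroup 𝒢] [Fintype X] (z : 𝒢) (L : ℕ)
    (t : Fin 3 → 𝒢) (c : Fin 3 → ℂ) (q : 𝒢 ⧸ AddSubgroup.zmultiples z)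
    (θ : X → 𝒢 ⧸ AddSubgroup.zmultiples z) (hθ : Function.Injective θ) (Z : ℂ) (hZ : ‖Z‖ = 1)
    (h : ∀ l l', l ≠ l' → c l ≠ 0 → c l' ≠ 0 →
      (QuotientAddGroup.mk (t l) : 𝒢 ⧸ AddSubgroup.zmultiples z) + q ≠
        QuotientAddGroup.mk (t l') + q) :
    ∑ r, ‖rowf z L t c Z q (θ r)‖ ^ 2 ≤ ∑ l, ‖c l‖ ^ 2 := by
  unfold rowf
  exact T4_row θ hθ (fun l => (QuotientAddGroup.mk (t l) : 𝒢 ⧸ AddSubgroup.zmultiples z) + q)
    (fun l => (coc z (t l) q + L).toNat) c Z hZ h

private theorem T4_mk {𝒢 : Type*} [AddCommGroup 𝒢] (z u u' : 𝒢)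
    (q : 𝒢 ⧸ AddSubgroup.zmultiples z) (h : ∀ n : ℤ, u - u' ≠ n • z) :
    (QuotientAddGroup.mk u : 𝒢 ⧸ AddSubgroup.zmultiples z) + q ≠ QuotientAddGroup.mk u' + q := by
  intro he
  have h1 := add_right_cancel he
  rw [QuotientAddGroup.eq, AddSubgroup.mem_zmultiples_iff] at h1
  obtain ⟨n, hn⟩ := h1
  refine h (-n) ?_
  rw [neg_smul, hn]
  abel

private theorem T4_merge {𝒢 : Type*} [AddCommGroup 𝒢] (z : 𝒢) (L : ℕ) (b : Fin 3 → 𝒢)
    (κb : Fin 3 → ℤ) (l1 l2 : Fin 3) (hl21 : l2 ≠ l1) (hb2 : b l2 = b l1) (hk2 : κb l2 = κb l1)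
    (ε Z : ℂ) (q q' : 𝒢 ⧸ AddSubgroup.zmultiples z) :
    rowf z L b (fun l => (κb l : ℂ) * (1 + if l = l1 then ε else 0)) Z q q' =
      rowf z L b (fun l => (κb l : ℂ) * (if l = l1 then 2 + ε else if l = l2 then 0 else 1))
        Z q q' := by
  unfold rowf
  rw [← sub_eq_zero, ← Finset.sum_sub_distrib]
  have key : ∀ g : 𝒢 → ℂ, ∑ l, ((κb l : ℂ) * (1 + if l = l1 then ε else 0) * g (b l) -
      (κb l : ℂ) * (if l = l1 then 2 + ε else if l = l2 then 0 else 1) * g (b l)) = 0 := by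
    intro g
    have hterm : ∀ l, (κb l : ℂ) * (1 + if l = l1 then ε else 0) * g (b l) -
        (κb l : ℂ) * (if l = l1 then 2 + ε else if l = l2 then 0 else 1) * g (b l) =
        ((if l = l2 then 1 else 0) - (if l = l1 then 1 else 0)) * ((κb l1 : ℂ) * g (b l1)) := by
      intro l
      by_cases h1 : l = l1
      · subst h1
        rw [if_pos rfl, if_pos rfl, if_neg (Ne.symm hl21), if_pos rfl]
        ring
      · by_cases h2 : l = l2
        · subst h2
          rw [if_neg h1, if_neg h1, if_pos rfl, if_pos rfl, hb2, hk2, if_neg h1]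
          ring
        · rw [if_neg h1, if_neg h1, if_neg h2, if_neg h2, if_neg h1]
          ring
    rw [Finset.sum_congr rfl (fun l _ => hterm l), ← Finset.sum_mul, Finset.sum_sub_distrib]
    simp
  exact key (fun u => if (QuotientAddGroup.mk u : 𝒢 ⧸ AddSubgroup.zmultiples z) + q = q' then
    Z ^ (coc z u q + L).toNat else 0)

private theorem T4_nrm (k : ℤ) (hk : k = 1 ∨ k = -1) (w : ℂ) : ‖(k : ℂ) * w‖ = ‖w‖ := by
  rcases hk with h | h <;> simp [h]

private theorem T4_sq (c : ℝ) (ε : ℂ) (hε : ‖ε‖ = 1) : ‖(c : ℂ) + ε‖ ^ 2 = c ^ 2 + 1 + 2 * c * ε.re := by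
  have h1 : ε.re * ε.re + ε.im * ε.im = 1 := by
    have := Complex.sq_norm ε
    rw [hε, Complex.normSq_apply] at this
    linarith
  rw [Complex.sq_norm, Complex.normSq_apply]
  simp only [Complex.add_re, Complex.ofReal_re, Complex.add_im, Complex.ofReal_im]
  nlinarith [h1]

theorem T4 {𝒢 : Type*} [AddCommGroup 𝒢] (z : 𝒢) (ψ : 𝒢 →+ ℤ) (hψz : ψ z = 0)
    (a b : Fin 3 → 𝒢) (κa κb : Fin 3 → ℤ) (hκa : ∀ l, κa l = 1 ∨ κa l = -1)
    (hκb : ∀ l, κb l = 1 ∨ κb l = -1) (l0 l1 : Fin 3) (k1 w1 L : ℕ)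
    [Fintype (CC z ψ k1)] [Fintype (CC z ψ w1)] [DecidableEq (CC z ψ k1 ⊕ CC z ψ w1)]
    (ha0 : ψ (a l0) = w1) (hb1 : ψ (b l1) = 0)
    (hda : ∀ l l', l ≠ l' → ∀ n : ℤ, a l - a l' ≠ n • z)
    (hdb : (∀ l l', l ≠ l' → ∀ n : ℤ, b l - b l' ≠ n • z) ∨
      (∃ l2, l2 ≠ l1 ∧ b l2 = b l1 ∧ κb l2 = κb l1 ∧
        ∀ l3, l3 ≠ l1 → l3 ≠ l2 → ∀ n : ℤ, b l3 - b l1 ≠ n • z))
    (Z ε : ℂ) (hZ : ‖Z‖ = 1) (hε : ‖ε‖ = 1) :
    ‖(TMat z ψ a b κa κb l0 l1 k1 w1 L Z ε).det‖ ^ 2 ≤
      3 ^ (Fintype.card (CC z ψ k1)) * (6 + 4 * ε.re) ^ (Fintype.card (CC z ψ w1)) := by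
  have hinj := T1_inj z ψ hψz a b l0 l1 k1 w1 ha0 hb1
  have hre : -1 ≤ ε.re := by
    have := Complex.abs_re_le_norm ε
    rw [hε] at this
    exact (abs_le.mp this).1
  have hl : ∀ q : CC z ψ k1, ∑ r', ‖TMat z ψ a b κa κb l0 l1 k1 w1 L Z ε (Sum.inl q) r'‖ ^ 2 ≤ 3 := by
    intro q
    have h := T4_rowf z L a (fun l => (κa l : ℂ)) q (theta z ψ a b l0 l1 k1 w1) hinj Z hZ
      (fun l l' hne _ _ => T4_mk z (a l) (a l') q (hda l l' hne))
    have h2 : ∑ l, ‖((κa l : ℤ) : ℂ)‖ ^ 2 = 3 := by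
      have : ∀ l ∈ (Finset.univ : Finset (Fin 3)), ‖((κa l : ℤ) : ℂ)‖ ^ 2 = 1 := by
        intro l _
        have := T4_nrm (κa l) (hκa l) 1
        rw [mul_one, norm_one] at this
        rw [this, one_pow]
      rw [Finset.sum_congr rfl this]
      simp
    rw [h2] at h
    exact h
  have hr : ∀ q : CC z ψ w1, ∑ r', ‖TMat z ψ a b κa κb l0 l1 k1 w1 L Z ε (Sum.inr q) r'‖ ^ 2 ≤
      6 + 4 * ε.re := by
    intro q
    rcases hdb with hdb | ⟨l2, hl21, hb2, hk2, hdb⟩
    · have h := T4_rowf z L b (fun l => (κb l : ℂ) * (1 + if l = l1 then ε else 0)) q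
        (theta z ψ a b l0 l1 k1 w1) hinj Z hZ
        (fun l l' hne _ _ => T4_mk z (b l) (b l') q (hdb l l' hne))
      refine h.trans ?_
      have h2 : ∀ l, ‖(κb l : ℂ) * (1 + if l = l1 then ε else 0)‖ ^ 2 =
          if l = l1 then 2 + 2 * ε.re else 1 := by
        intro l
        rw [T4_nrm (κb l) (hκb l)]
        split_ifs with hh
        · have := T4_sq 1 ε hε
          rw [Complex.ofReal_one] at this
          rw [this]; ring
        · simp
      simp only [h2]
      rw [Finset.sum_ite, Finset.sum_const, Finset.sum_const]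
      have c1 : (Finset.univ.filter (fun l : Fin 3 => l = l1)).card = 1 := by
        rw [Finset.filter_eq']
        simp
      have c2 : (Finset.univ.filter (fun l : Fin 3 => ¬ l = l1)).card = 2 := by
        fin_cases l1 <;> decide
      rw [c1, c2]
      simp only [one_smul, nsmul_eq_mul]
      push_cast
      linarith
    · have h := T4_rowf z L b
        (fun l => (κb l : ℂ) * (if l = l1 then 2 + ε else if l = l2 then 0 else 1)) q
        (theta z ψ a b l0 l1 k1 w1) hinj Z hZ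
        (by
          intro l l' hne hc hc'
          have hl2 : l ≠ l2 := by
            rintro rfl
            apply hc
            rw [if_neg hl21, if_pos rfl, mul_zero]
          have hl2' : l' ≠ l2 := by
            rintro rfl
            apply hc'
            rw [if_neg hl21, if_pos rfl, mul_zero]
          by_cases hl1 : l = l1
          · subst hl1
            exact (T4_mk z (b l') (b l) q (hdb l' hne.symm hl2')).symm
          · by_cases hl1' : l' = l1
            · subst hl1'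
              exact T4_mk z (b l) (b l') q (hdb l hl1 hl2)
            · exfalso
              revert hne hl2 hl2' hl1 hl1' hl21
              clear * -
              revert l l' l1 l2
              decide)
      have heq : ∀ r', TMat z ψ a b κa κb l0 l1 k1 w1 L Z ε (Sum.inr q) r' =
          rowf z L b
        (fun l => (κb l : ℂ) * (if l = l1 then 2 + ε else if l = l2 then 0 else 1)) Z q
        (theta z ψ a b l0 l1 k1 w1 r') := fun r' =>
        T4_merge z L b κb l1 l2 hl21 hb2 hk2 ε Z q (theta z ψ a b l0 l1 k1 w1 r')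
      simp only [heq]
      refine h.trans ?_
      have h2 : ∀ l, ‖(κb l : ℂ) * (if l = l1 then 2 + ε else if l = l2 then 0 else 1)‖ ^ 2 =
          (if l = l1 then 5 + 4 * ε.re else 0) + (if l = l2 then (-1) else 0) +
            (if l = l1 then (-1 : ℝ) else 0) + 1 := by
        intro l
        rw [T4_nrm (κb l) (hκb l)]
        by_cases h1 : l = l1
        · subst h1
          rw [if_pos rfl, if_pos rfl, if_neg (Ne.symm hl21), if_pos rfl]
          have := T4_sq 2 ε hε
          rw [Complex.ofReal_ofNat] at this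
          rw [this]; ring
        · by_cases h2 : l = l2
          · subst h2
            rw [if_neg h1, if_neg h1, if_pos rfl, if_pos rfl, if_neg h1]
            simp
          · rw [if_neg h1, if_neg h1, if_neg h2, if_neg h2, if_neg h1]
            simp
      simp only [h2]
      rw [Finset.sum_add_distrib, Finset.sum_add_distrib, Finset.sum_add_distrib,
        Finset.sum_ite_eq', Finset.sum_ite_eq', Finset.sum_ite_eq']
      simp only [Finset.mem_univ, if_true, Finset.sum_const, Finset.card_univ, Fintype.card_fin,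
        nsmul_eq_mul]
      push_cast
      linarith
  refine (L6complex _).trans ?_
  rw [Fintype.prod_sum_type]
  have hnn : ∀ i, 0 ≤ ∑ r', ‖TMat z ψ a b κa κb l0 l1 k1 w1 L Z ε i r'‖ ^ 2 :=
    fun i => Finset.sum_nonneg (fun _ _ => by positivity)
  refine mul_le_mul ?_ ?_ (Finset.prod_nonneg (fun i _ => hnn _)) (by positivity)
  · refine (Finset.prod_le_prod (fun i _ => hnn _) (fun i _ => hl i)).trans (le_of_eq ?_)
    rw [Finset.prod_const, Finset.card_univ]
  · refine (Finset.prod_le_prod (fun i _ => hnn _) (fun i _ => hr i)).trans (le_of_eq ?_)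
    rw [Finset.prod_const, Finset.card_univ]

end H58D
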