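import Pool.Agent.Lib.H58D.T0
import Pool.Agent.Lib.H58D.T1

/-! Chunk T6 (size M/L).  The determinant is not identically zero (diagonal dominance).

Proof.  `X = exp (ℓ z)` and `e > 0` a large real number.  For a row with base class `q` and a term `t` (`= a l` or `b l`) with column `q' = mk t + q` we have, by `T0_coc` and `coc + L ≥ 0`,
`X^(coc + L) = exp (L ℓ z) exp (ℓ t) exp (ℓ (sec q)) / exp (ℓ (sec q'))`.  Let `c r' = exp (ℓ (sec z (θ r'))) > 0`.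
So for a row `inl q`: `Σ_{r' ≠ r} ‖A r r'‖ c r' ≤ K_q Σ_{l ≠ l0} exp (ℓ (a l))`, and `‖A r r‖ c r ≥ K_q exp (ℓ (a l0))`, where `K_q = exp (L ℓ z + ℓ (sec q))` (the column of the diagonal entry is
`θ (inl q) = mk (a l0) + q`, which is hit only by `l = l0` because of `hda`).  By `hℓ` this is strictly dominant.
Row `inr q`: the diagonal column is `mk (b l1) + q`; it is hit by `l1` with coefficient `κb (1 + e)` and in the second case of `hdb` also by `l2` with the coefficient `κb` of the same sign (same power of `X`),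
by no other index; so `‖A r r‖ c r ≥ K_q (1 + e) exp (ℓ (b l1))`, and `Σ_{r' ≠ r} ‖A r r'‖ c r' ≤ K_q Σ_l exp (ℓ (b l))`; choose `e` with `e * exp (ℓ (b l1)) > Σ_l exp (ℓ (b l))`.
So the matrix `A * diagonal c` is strictly diagonally dominant by rows: `det_ne_zero_of_sum_row_lt_diag`; hence `det A ≠ 0`. -/

namespace H58D

private theorem T6_mk {𝒢 : Type*} [AddCommGroup 𝒢] (z u v : 𝒢)
    (q : 𝒢 ⧸ AddSubgroup.zmultiples z) (h : ∀ n : ℤ, u - v ≠ n • z) :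
    ¬ ((QuotientAddGroup.mk u : 𝒢 ⧸ AddSubgroup.zmultiples z) + q = QuotientAddGroup.mk v + q) := by
  intro h1
  have h2 := add_right_cancel h1
  have h3 := (QuotientAddGroup.eq (s := AddSubgroup.zmultiples z)).mp h2.symm
  obtain ⟨n, hn⟩ := AddSubgroup.mem_zmultiples_iff.mp h3
  exact h n (by rw [hn]; abel)

private theorem T6_pow {𝒢 : Type*} [AddCommGroup 𝒢] (z t : 𝒢)
    (q : 𝒢 ⧸ AddSubgroup.zmultiples z) (L : ℕ) (ℓ : 𝒢 →+ ℝ) (h : 0 ≤ coc z t q + L) :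
    Real.exp (ℓ z) ^ (coc z t q + L).toNat *
        Real.exp (ℓ (sec z (QuotientAddGroup.mk t + q))) =
      Real.exp ((L : ℝ) * ℓ z + ℓ (sec z q)) * Real.exp (ℓ t) := by
  have h1 := congrArg ℓ (T0_coc z t q)
  rw [map_add, map_add, map_zsmul, zsmul_eq_mul] at h1
  rw [← Real.exp_nat_mul, ← Real.exp_add, ← Real.exp_add]
  refine congrArg Real.exp ?_
  have h2 : (((coc z t q + L).toNat : ℕ) : ℝ) = (coc z t q : ℝ) + L := by
    have h3 := congrArg (fun n : ℤ => (n : ℝ)) (Int.toNat_of_nonneg h)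
    push_cast at h3
    exact_mod_cast h3
  rw [h2]
  linarith

open Classical in
private theorem T6_le {𝒢 : Type*} [AddCommGroup 𝒢] (z : 𝒢) (L : ℕ) (t : Fin 3 → 𝒢)
    (c : Fin 3 → ℂ) (q q' : 𝒢 ⧸ AddSubgroup.zmultiples z) (ℓ : 𝒢 →+ ℝ)
    (h : ∀ l, 0 ≤ coc z (t l) q + L) :
    ‖rowf z L t c ((Real.exp (ℓ z) : ℝ) : ℂ) q q'‖ * Real.exp (ℓ (sec z q')) ≤
      ∑ l, ‖c l‖ * (if QuotientAddGroup.mk (t l) + q = q' then
        Real.exp ((L : ℝ) * ℓ z + ℓ (sec z q)) * Real.exp (ℓ (t l)) else 0) := by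
  unfold rowf
  refine le_trans (mul_le_mul_of_nonneg_right (norm_sum_le _ _) (Real.exp_pos _).le) ?_
  rw [Finset.sum_mul]
  refine Finset.sum_le_sum fun l _ => ?_
  rw [norm_mul, mul_assoc]
  refine mul_le_mul_of_nonneg_left ?_ (norm_nonneg _)
  by_cases hq : QuotientAddGroup.mk (t l) + q = q'
  · rw [if_pos hq, if_pos hq, ← hq, norm_pow, Complex.norm_real,
      Real.norm_of_nonneg (Real.exp_pos _).le]
    exact (T6_pow z (t l) q L ℓ (h l)).le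
  · rw [if_neg hq, if_neg hq, norm_zero, zero_mul]

private theorem T6_sum {R Q : Type*} [Fintype R] [DecidableEq R] [DecidableEq Q] (θ : R → Q)
    (hθ : Function.Injective θ) (r : R) (u : Q) (P : ℝ) (hP : 0 ≤ P) :
    ∑ r' ∈ Finset.univ.erase r, (if u = θ r' then P else 0) ≤ if u = θ r then 0 else P := by
  by_cases h : u = θ r
  · rw [if_pos h]
    refine (Finset.sum_eq_zero fun r' hr' => ?_).le
    exact if_neg fun h' => (Finset.mem_erase.mp hr').1 (hθ (h'.symm.trans h))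
  · rw [if_neg h]
    by_cases h2 : ∃ r', u = θ r'
    · obtain ⟨r', hr'⟩ := h2
      have hrr : r' ∈ Finset.univ.erase r :=
        Finset.mem_erase.mpr ⟨fun h4 => h (h4 ▸ hr'), Finset.mem_univ _⟩
      rw [Finset.sum_eq_single_of_mem r' hrr]
      · rw [if_pos hr']
      · intro r'' _ hne
        exact if_neg fun h3 => hne (hθ (h3.symm.trans hr'))
    · refine le_trans (Finset.sum_eq_zero fun r' _ => ?_).le hP
      exact if_neg fun h' => h2 ⟨r', h'⟩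

open Classical in
private theorem T6_off {𝒢 : Type*} [AddCommGroup 𝒢] {R : Type*} [Fintype R] [DecidableEq R]
    (z : 𝒢) (θ : R → 𝒢 ⧸ AddSubgroup.zmultiples z)
    (hθ : Function.Injective θ) (r : R) (L : ℕ) (t : Fin 3 → 𝒢)
    (c : Fin 3 → ℂ) (q : 𝒢 ⧸ AddSubgroup.zmultiples z) (ℓ : 𝒢 →+ ℝ)
    (h : ∀ l, 0 ≤ coc z (t l) q + L) :
    ∑ r' ∈ Finset.univ.erase r,
      ‖rowf z L t c ((Real.exp (ℓ z) : ℝ) : ℂ) q (θ r')‖ * Real.exp (ℓ (sec z (θ r'))) ≤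
      ∑ l, ‖c l‖ * (if QuotientAddGroup.mk (t l) + q = θ r then 0 else
        Real.exp ((L : ℝ) * ℓ z + ℓ (sec z q)) * Real.exp (ℓ (t l))) := by
  refine le_trans (Finset.sum_le_sum fun r' _ => T6_le z L t c q (θ r') ℓ h) ?_
  rw [Finset.sum_comm]
  refine Finset.sum_le_sum fun l _ => ?_
  rw [← Finset.mul_sum]
  refine mul_le_mul_of_nonneg_left ?_ (norm_nonneg _)
  exact T6_sum θ hθ r _ _ (mul_pos (Real.exp_pos _) (Real.exp_pos _)).le

open Classical in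
private theorem T6_diag {𝒢 : Type*} [AddCommGroup 𝒢] (z : 𝒢) (L : ℕ) (t : Fin 3 → 𝒢)
    (c : Fin 3 → ℂ) (q : 𝒢 ⧸ AddSubgroup.zmultiples z) (ℓ : 𝒢 →+ ℝ) (l0 : Fin 3)
    (h : ∀ l, 0 ≤ coc z (t l) q + L)
    (hne : ∀ l, l ≠ l0 → ¬ (QuotientAddGroup.mk (t l) + q = QuotientAddGroup.mk (t l0) + q)) :
    ‖rowf z L t c ((Real.exp (ℓ z) : ℝ) : ℂ) q (QuotientAddGroup.mk (t l0) + q)‖ *
        Real.exp (ℓ (sec z (QuotientAddGroup.mk (t l0) + q))) =
      ‖c l0‖ * (Real.exp ((L : ℝ) * ℓ z + ℓ (sec z q)) * Real.exp (ℓ (t l0))) := by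
  unfold rowf
  rw [Finset.sum_eq_single l0 (fun l _ hl => by rw [if_neg (hne l hl), mul_zero])
    (fun hn => absurd (Finset.mem_univ _) hn)]
  rw [if_pos rfl, norm_mul, norm_pow, Complex.norm_real,
      Real.norm_of_nonneg (Real.exp_pos _).le, mul_assoc, T6_pow z (t l0) q L ℓ (h l0)]

open Classical in
private theorem T6_diag2 {𝒢 : Type*} [AddCommGroup 𝒢] (z : 𝒢) (L : ℕ) (t : Fin 3 → 𝒢)
    (c : Fin 3 → ℂ) (q : 𝒢 ⧸ AddSubgroup.zmultiples z) (ℓ : 𝒢 →+ ℝ) (l1 l2 : Fin 3)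
    (h : ∀ l, 0 ≤ coc z (t l) q + L) (h12 : l2 ≠ l1) (ht : t l2 = t l1)
    (hne : ∀ l, l ≠ l1 → l ≠ l2 →
      ¬ (QuotientAddGroup.mk (t l) + q = QuotientAddGroup.mk (t l1) + q)) :
    ‖rowf z L t c ((Real.exp (ℓ z) : ℝ) : ℂ) q (QuotientAddGroup.mk (t l1) + q)‖ *
        Real.exp (ℓ (sec z (QuotientAddGroup.mk (t l1) + q))) =
      ‖c l1 + c l2‖ * (Real.exp ((L : ℝ) * ℓ z + ℓ (sec z q)) * Real.exp (ℓ (t l1))) := by
  unfold rowf
  rw [← Finset.add_sum_erase _ _ (Finset.mem_univ l1),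
    Finset.sum_eq_single_of_mem l2 (Finset.mem_erase.mpr ⟨h12, Finset.mem_univ _⟩)
    (fun l hl hl2 => by rw [if_neg (hne l (Finset.mem_erase.mp hl).1 hl2), mul_zero])]
  rw [ht, if_pos rfl, ← add_mul, norm_mul, norm_pow, Complex.norm_real,
      Real.norm_of_nonneg (Real.exp_pos _).le, mul_assoc, T6_pow z (t l1) q L ℓ (h l1)]

private theorem T6_unit (n : ℤ) (h : n = 1 ∨ n = -1) : ‖(n : ℂ)‖ = 1 := by
  rcases h with h | h
  · rw [h]; simp
  · rw [h]; simp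


theorem T6 {𝒢 : Type*} [AddCommGroup 𝒢] (z : 𝒢) (ψ : 𝒢 →+ ℤ) (hψz : ψ z = 0)
    (a b : Fin 3 → 𝒢) (κa κb : Fin 3 → ℤ) (hκa : ∀ l, κa l = 1 ∨ κa l = -1)
    (hκb : ∀ l, κb l = 1 ∨ κb l = -1) (l0 l1 : Fin 3) (k1 w1 L : ℕ)
    [Fintype (CC z ψ k1)] [Fintype (CC z ψ w1)] [DecidableEq (CC z ψ k1 ⊕ CC z ψ w1)]
    (ha : ∀ l, 0 ≤ ψ (a l) ∧ ψ (a l) ≤ w1) (ha0 : ψ (a l0) = w1)
    (hb : ∀ l, 0 ≤ ψ (b l) ∧ ψ (b l) ≤ k1) (hb1 : ψ (b l1) = 0)
    (hLa : ∀ l, ∀ q ∈ CC z ψ k1, 0 ≤ coc z (a l) q + L)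
    (hLb : ∀ l, ∀ q ∈ CC z ψ w1, 0 ≤ coc z (b l) q + L)
    (hda : ∀ l l', l ≠ l' → ∀ n : ℤ, a l - a l' ≠ n • z)
    (hdb : (∀ l l', l ≠ l' → ∀ n : ℤ, b l - b l' ≠ n • z) ∨
      (∃ l2, l2 ≠ l1 ∧ b l2 = b l1 ∧ κb l2 = κb l1 ∧
        ∀ l3, l3 ≠ l1 → l3 ≠ l2 → ∀ n : ℤ, b l3 - b l1 ≠ n • z))
    (ℓ : 𝒢 →+ ℝ)
    (hℓ : ∑ l ∈ Finset.univ.erase l0, Real.exp (ℓ (a l)) < Real.exp (ℓ (a l0))) :
    ∃ X e : ℂ, (TMat z ψ a b κa κb l0 l1 k1 w1 L X e).det ≠ 0 := by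
  classical
  have hP : 0 < Real.exp (ℓ (b l1)) := Real.exp_pos _
  have hS : 0 ≤ ∑ l, Real.exp (ℓ (b l)) := Finset.sum_nonneg fun l _ => (Real.exp_pos _).le
  obtain ⟨E, hE⟩ : ∃ E : ℝ, E = (∑ l, Real.exp (ℓ (b l))) / Real.exp (ℓ (b l1)) := ⟨_, rfl⟩
  have hE0 : 0 ≤ E := by rw [hE]; exact div_nonneg hS hP.le
  have hEP : E * Real.exp (ℓ (b l1)) = ∑ l, Real.exp (ℓ (b l)) := by
    rw [hE]; exact div_mul_cancel₀ _ hP.ne'
  have hθ := T1_inj z ψ hψz a b l0 l1 k1 w1 ha0 hb1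
  refine ⟨((Real.exp (ℓ z) : ℝ) : ℂ), ((E : ℝ) : ℂ), ?_⟩
  have hdom : (TMat z ψ a b κa κb l0 l1 k1 w1 L ((Real.exp (ℓ z) : ℝ) : ℂ) ((E : ℝ) : ℂ) *
      Matrix.diagonal (fun r => ((Real.exp (ℓ (sec z (theta z ψ a b l0 l1 k1 w1 r))) : ℝ) : ℂ))).det
        ≠ 0 := by
    refine det_ne_zero_of_sum_row_lt_diag fun r => ?_
    have hent : ∀ r', ‖(TMat z ψ a b κa κb l0 l1 k1 w1 L ((Real.exp (ℓ z) : ℝ) : ℂ) ((E : ℝ) : ℂ) *
      Matrix.diagonal (fun r => ((Real.exp (ℓ (sec z (theta z ψ a b l0 l1 k1 w1 r))) : ℝ) : ℂ)))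
        r r'‖ = ‖TMat z ψ a b κa κb l0 l1 k1 w1 L ((Real.exp (ℓ z) : ℝ) : ℂ) ((E : ℝ) : ℂ) r r'‖ *
          Real.exp (ℓ (sec z (theta z ψ a b l0 l1 k1 w1 r'))) := by
      intro r'
      rw [Matrix.mul_diagonal, norm_mul, Complex.norm_real,
        Real.norm_of_nonneg (Real.exp_pos _).le]
    rw [hent r, Finset.sum_congr rfl fun r' _ => hent r']
    rcases r with q | q
    · have hK : 0 < Real.exp ((L : ℝ) * ℓ z + ℓ (sec z (q : 𝒢 ⧸ AddSubgroup.zmultiples z))) :=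
        Real.exp_pos _
      have hL := fun l => hLa l q q.2
      have hoff := T6_off z (theta z ψ a b l0 l1 k1 w1) hθ (Sum.inl q) L a
        (fun l => (κa l : ℂ)) q ℓ hL
      have hdg := T6_diag z L a (fun l => (κa l : ℂ)) q ℓ l0 hL
        (fun l hl => T6_mk z _ _ _ (hda l l0 hl))
      refine lt_of_le_of_lt hoff (lt_of_lt_of_eq ?_ hdg.symm)
      rw [T6_unit _ (hκa l0), one_mul, ← Finset.add_sum_erase _ _ (Finset.mem_univ l0)]
      have e0 : (QuotientAddGroup.mk (a l0) : 𝒢 ⧸ AddSubgroup.zmultiples z) +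
        (q : 𝒢 ⧸ AddSubgroup.zmultiples z) = theta z ψ a b l0 l1 k1 w1 (Sum.inl q) := rfl
      rw [if_pos e0, mul_zero, zero_add]
      refine lt_of_le_of_lt (Finset.sum_le_sum (g := fun l =>
        Real.exp ((L : ℝ) * ℓ z + ℓ (sec z (q : 𝒢 ⧸ AddSubgroup.zmultiples z))) *
          Real.exp (ℓ (a l))) fun l _ => ?_) ?_
      · rw [T6_unit _ (hκa l), one_mul]
        by_cases hc : (QuotientAddGroup.mk (a l) : 𝒢 ⧸ AddSubgroup.zmultiples z) +
          (q : 𝒢 ⧸ AddSubgroup.zmultiples z) = theta z ψ a b l0 l1 k1 w1 (Sum.inl q)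
        · rw [if_pos hc]
          exact (mul_pos hK (Real.exp_pos _)).le
        · rw [if_neg hc]
      · rw [← Finset.mul_sum]
        exact mul_lt_mul_of_pos_left hℓ hK
    · have hK : 0 < Real.exp ((L : ℝ) * ℓ z + ℓ (sec z (q : 𝒢 ⧸ AddSubgroup.zmultiples z))) :=
        Real.exp_pos _
      have hL := fun l => hLb l q q.2
      have hoff := T6_off z (theta z ψ a b l0 l1 k1 w1) hθ (Sum.inr q) L b
        (fun l => (κb l : ℂ) * (1 + if l = l1 then ((E : ℝ) : ℂ) else 0)) q ℓ hL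
      have hdg : (1 + E) * (Real.exp ((L : ℝ) * ℓ z +
          ℓ (sec z (q : 𝒢 ⧸ AddSubgroup.zmultiples z))) * Real.exp (ℓ (b l1))) ≤
          ‖rowf z L b (fun l => (κb l : ℂ) * (1 + if l = l1 then ((E : ℝ) : ℂ) else 0))
            ((Real.exp (ℓ z) : ℝ) : ℂ) q
            (QuotientAddGroup.mk (b l1) + (q : 𝒢 ⧸ AddSubgroup.zmultiples z))‖ *
          Real.exp (ℓ (sec z (QuotientAddGroup.mk (b l1) +
            (q : 𝒢 ⧸ AddSubgroup.zmultiples z)))) := by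
        rcases hdb with hdb | ⟨l2, h21, hb21, hκ21, h3⟩
        · rw [T6_diag z L b _ q ℓ l1 hL (fun l hl => T6_mk z _ _ _ (hdb l l1 hl))]
          rw [if_pos rfl, norm_mul, T6_unit _ (hκb l1), one_mul]
          refine mul_le_mul_of_nonneg_right ?_ (mul_pos hK hP).le
          have h5 : (1 : ℂ) + ((E : ℝ) : ℂ) = (((1 + E : ℝ)) : ℂ) := by push_cast; rfl
          rw [h5, Complex.norm_real, Real.norm_of_nonneg (by linarith)]
        · rw [T6_diag2 z L b _ q ℓ l1 l2 hL h21 hb21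
            (fun l hl hl2 => T6_mk z _ _ _ (h3 l hl hl2))]
          refine mul_le_mul_of_nonneg_right ?_ (mul_pos hK hP).le
          rw [if_pos rfl, if_neg h21, hκ21, ← mul_add, norm_mul, T6_unit _ (hκb l1), one_mul]
          have h5 : (1 : ℂ) + ((E : ℝ) : ℂ) + (1 + 0) = (((2 + E : ℝ)) : ℂ) := by
            push_cast; ring
          rw [h5, Complex.norm_real, Real.norm_of_nonneg (by linarith)]
          linarith
      refine lt_of_le_of_lt hoff (lt_of_lt_of_le ?_ hdg)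
      rw [← Finset.add_sum_erase _ _ (Finset.mem_univ l1)]
      have e0 : (QuotientAddGroup.mk (b l1) : 𝒢 ⧸ AddSubgroup.zmultiples z) +
        (q : 𝒢 ⧸ AddSubgroup.zmultiples z) = theta z ψ a b l0 l1 k1 w1 (Sum.inr q) := rfl
      rw [if_pos e0, mul_zero, zero_add]
      refine lt_of_le_of_lt (Finset.sum_le_sum (g := fun l =>
        Real.exp ((L : ℝ) * ℓ z + ℓ (sec z (q : 𝒢 ⧸ AddSubgroup.zmultiples z))) *
          Real.exp (ℓ (b l))) fun l hl => ?_) ?_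
      · rw [if_neg (Finset.mem_erase.mp hl).1, add_zero, mul_one, T6_unit _ (hκb l), one_mul]
        by_cases hc : (QuotientAddGroup.mk (b l) : 𝒢 ⧸ AddSubgroup.zmultiples z) +
          (q : 𝒢 ⧸ AddSubgroup.zmultiples z) = theta z ψ a b l0 l1 k1 w1 (Sum.inr q)
        · rw [if_pos hc]
          exact (mul_pos hK (Real.exp_pos _)).le
        · rw [if_neg hc]
      · rw [← Finset.mul_sum]
        have h7 : ∑ l ∈ Finset.univ.erase l1, Real.exp (ℓ (b l)) ≤ ∑ l, Real.exp (ℓ (b l)) :=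
          Finset.sum_le_sum_of_subset_of_nonneg (Finset.erase_subset _ _)
            fun l _ _ => (Real.exp_pos _).le
        have h8 : ∑ l ∈ Finset.univ.erase l1, Real.exp (ℓ (b l)) <
            (1 + E) * Real.exp (ℓ (b l1)) := by
          have : (1 + E) * Real.exp (ℓ (b l1)) = Real.exp (ℓ (b l1)) + E * Real.exp (ℓ (b l1)) := by
            ring
          rw [this, hEP]
          linarith
        have h9 := mul_lt_mul_of_pos_left h8 hK
        refine lt_of_lt_of_eq h9 ?_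
        ring
  intro h0
  apply hdom
  rw [Matrix.det_mul, h0, zero_mul]

end H58D
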