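import Mathlib
import Pool.Agent.Lib.H58D.Pre28

/-! Chunk TA (size M).  Lowest coefficient in `ε`.

`TA1`.  Write `D = X^k * E` with `k = natTrailingDegree D`, `E.coeff 0 = D.trailingCoeff` (`Polynomial.X_pow_dvd_iff`, `divX`-iterated, or directly the sum over coefficients).  In `B`: `0 = e^k * E(ζ,e)`,
`B` a domain and `e ≠ 0`, so `E(ζ, e) = 0`; `E(ζ,e) = (coeff 0 E)(ζ) + e * (..)`.  Apply `lam`: `lam e = 0`, so `(coeff 0 E)(lam ζ) = 0`.
`TA2`.  Let `β = √(3+√5)`, `γ = √(3-√5)`: `β² + γ² = 6`, `β γ = 2`, so `‖β + γ ε‖² = 6 + 4 Re ε` for `‖ε‖ = 1`, and `β + γ ε ≠ 0` for `‖ε‖ ≤ 1` since `β > γ > 0`.  `D = X^k * E`, `E.eval 0 = D.trailingCoeff`.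
The function `g ε = E.eval ε / (β + γ ε)^K` is differentiable on a neighbourhood of the closed unit disc, and `‖g ε‖² ≤ S` for `‖ε‖ = 1`.  Maximum modulus
(`Complex.norm_le_of_forall_mem_frontier_norm_le` on the unit ball): `‖g 0‖² ≤ S`, i.e. `‖D.trailingCoeff‖² ≤ S β^(2K) = S (3+√5)^K`. -/

namespace H58D

private theorem TA_fact {R : Type*} [CommRing R] (D : Polynomial R) :
    ∃ E : Polynomial R, D = Polynomial.X ^ D.natTrailingDegree * E ∧ E.coeff 0 = D.trailingCoeff := by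
  have h : Polynomial.X ^ D.natTrailingDegree ∣ D := by
    rw [Polynomial.X_pow_dvd_iff]
    intro d hd
    exact Polynomial.coeff_eq_zero_of_lt_natTrailingDegree hd
  obtain ⟨E, hE⟩ := h
  refine ⟨E, hE, ?_⟩
  have h1 : D.coeff D.natTrailingDegree = E.coeff 0 := by
    conv_lhs => rw [hE]
    have := Polynomial.coeff_X_pow_mul E D.natTrailingDegree 0
    rw [zero_add] at this
    rw [← hE]
    rw [← this, ← hE]
  rw [← h1]
  rfl

theorem TA1 (D : Polynomial (Polynomial ℤ)) (hD : D ≠ 0) {B : Type*} [CommRing B] [IsDomain B]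
    (ζ e : B)
    (h : Polynomial.eval₂ (Polynomial.eval₂RingHom (Int.castRingHom B) ζ) e D = 0)
    (he : e ≠ 0) (lam : B →+* ℂ) (hlam : lam e = 0) :
    Polynomial.aeval (lam ζ) D.trailingCoeff = 0 := by
  obtain ⟨E, hE, hc⟩ := TA_fact D
  rw [hE, Polynomial.eval₂_mul, Polynomial.eval₂_pow, Polynomial.eval₂_X] at h
  have h1 := (mul_eq_zero.1 h).resolve_left (pow_ne_zero _ he)
  rw [← Polynomial.divX_mul_X_add E, Polynomial.eval₂_add, Polynomial.eval₂_mul,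
    Polynomial.eval₂_X, Polynomial.eval₂_C] at h1
  have h2 := congrArg lam h1
  rw [map_add, map_mul, hlam, mul_zero, zero_add, map_zero, Polynomial.coe_eval₂RingHom,
    Polynomial.hom_eval₂] at h2
  rw [← hc, Polynomial.aeval_def]
  have h3 : lam.comp (Int.castRingHom B) = algebraMap ℤ ℂ := RingHom.ext_int _ _
  rw [h3] at h2
  exact h2

private theorem TA_sqrt : 0 < 3 - Real.sqrt 5 := by
  have h1 : Real.sqrt 5 < 3 := by
    rw [Real.sqrt_lt' (by norm_num)]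
    norm_num
  linarith

theorem TA2 (D : Polynomial ℂ) (K : ℕ) (S : ℝ)
    (hS : ∀ ε : ℂ, ‖ε‖ = 1 → ‖D.eval ε‖ ^ 2 ≤ S * (6 + 4 * ε.re) ^ K) :
    ‖D.trailingCoeff‖ ^ 2 ≤ S * (3 + Real.sqrt 5) ^ K := by
  obtain ⟨E, hE, hc⟩ := TA_fact D
  have hg := TA_sqrt
  have h5 : 0 < Real.sqrt 5 := Real.sqrt_pos.2 (by norm_num)
  have h55 : Real.sqrt 5 ^ 2 = 5 := Real.sq_sqrt (by norm_num)
  set β : ℝ := Real.sqrt (3 + Real.sqrt 5) with hβ
  set γ : ℝ := Real.sqrt (3 - Real.sqrt 5) with hγ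
  have hβ2 : β ^ 2 = 3 + Real.sqrt 5 := Real.sq_sqrt (by linarith)
  have hγ2 : γ ^ 2 = 3 - Real.sqrt 5 := Real.sq_sqrt hg.le
  have hβ0 : 0 < β := Real.sqrt_pos.2 (by linarith)
  have hγ0 : 0 < γ := Real.sqrt_pos.2 hg
  have hlt : γ < β := Real.sqrt_lt_sqrt hg.le (by linarith)
  have hβγ : β * γ = 2 := by
    rw [hβ, hγ, ← Real.sqrt_mul (by linarith)]
    rw [show (3 + Real.sqrt 5) * (3 - Real.sqrt 5) = 2 ^ 2 by nlinarith]
    exact Real.sqrt_sq (by norm_num)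
  have hS0 : 0 ≤ S := by
    have := hS 1 (by simp)
    have h1 : (0 : ℝ) ≤ S * (6 + 4 * (1 : ℂ).re) ^ K := le_trans (by positivity) this
    have h2 : (0 : ℝ) < (6 + 4 * (1 : ℂ).re) ^ K := by
      rw [Complex.one_re]; positivity
    exact nonneg_of_mul_nonneg_left h1 h2
  have hne : ∀ ε : ℂ, ‖ε‖ ≤ 1 → (β : ℂ) + γ * ε ≠ 0 := by
    intro ε hε h0
    have h1 : (β : ℂ) = -(γ * ε) := by linear_combination h0
    have h2 : ‖(β : ℂ)‖ = ‖(γ : ℂ) * ε‖ := by rw [h1, norm_neg]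
    rw [norm_mul, Complex.norm_real, Complex.norm_real, Real.norm_eq_abs, Real.norm_eq_abs,
      abs_of_pos hβ0, abs_of_pos hγ0] at h2
    nlinarith [norm_nonneg ε]
  have hnorm : ∀ ε : ℂ, ‖ε‖ = 1 → ‖(β : ℂ) + γ * ε‖ ^ 2 = 6 + 4 * ε.re := by
    intro ε hε
    have h1 : ε.re * ε.re + ε.im * ε.im = 1 := by
      have := Complex.sq_norm ε
      rw [hε, Complex.normSq_apply] at this
      linarith
    rw [Complex.sq_norm, Complex.normSq_apply]
    simp only [Complex.add_re, Complex.ofReal_re, Complex.mul_re, Complex.ofReal_im, zero_mul,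
      sub_zero, Complex.add_im, Complex.mul_im, add_zero, zero_add]
    nlinarith [hβ2, hγ2, hβγ, h1]
  have hbd : ∀ ε : ℂ, ‖ε‖ = 1 → ‖E.eval ε / ((β : ℂ) + γ * ε) ^ K‖ ≤ Real.sqrt S := by
    intro ε hε
    have hpos : 0 < ‖(β : ℂ) + γ * ε‖ := norm_pos_iff.2 (hne ε hε.le)
    have h1 : ‖D.eval ε‖ = ‖E.eval ε‖ := by
      conv_lhs => rw [hE]
      rw [Polynomial.eval_mul, Polynomial.eval_pow, Polynomial.eval_X, norm_mul, norm_pow, hε,
        one_pow, one_mul]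
    have h2 := hS ε hε
    rw [h1, ← hnorm ε hε] at h2
    rw [norm_div, norm_pow, div_le_iff₀ (pow_pos hpos K)]
    refine (pow_le_pow_iff_left₀ (norm_nonneg _) (by positivity) two_ne_zero).1 ?_
    rw [mul_pow, Real.sq_sqrt hS0]
    calc ‖E.eval ε‖ ^ 2 ≤ S * (‖(β : ℂ) + γ * ε‖ ^ 2) ^ K := h2
      _ = S * (‖(β : ℂ) + γ * ε‖ ^ K) ^ 2 := by rw [← pow_mul, ← pow_mul, mul_comm 2 K]
  have hd : DiffContOnCl ℂ (fun ε : ℂ => E.eval ε / ((β : ℂ) + γ * ε) ^ K)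
      (Metric.ball (0 : ℂ) 1) := by
    apply DifferentiableOn.diffContOnCl
    rw [closure_ball (0 : ℂ) one_ne_zero]
    refine DifferentiableOn.div E.differentiable.differentiableOn ?_ ?_
    · fun_prop
    · intro ε hε
      refine pow_ne_zero _ (hne ε ?_)
      simpa using hε
  have hmax := Complex.norm_le_of_forall_mem_frontier_norm_le (U := Metric.ball (0 : ℂ) 1)
    Metric.isBounded_ball hd (C := Real.sqrt S) (fun z hz => by
      rw [frontier_ball (0 : ℂ) one_ne_zero] at hz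
      exact hbd z (by simpa using hz)) (z := 0) (subset_closure (Metric.mem_ball_self one_pos))
  simp only [mul_zero, add_zero] at hmax
  rw [← Polynomial.coeff_zero_eq_eval_zero, hc, norm_div, norm_pow, Complex.norm_real,
    Real.norm_eq_abs, abs_of_pos hβ0, div_le_iff₀ (pow_pos hβ0 K)] at hmax
  calc ‖D.trailingCoeff‖ ^ 2 ≤ (Real.sqrt S * β ^ K) ^ 2 := by
        exact pow_le_pow_left₀ (norm_nonneg _) hmax 2
    _ = S * (β ^ 2) ^ K := by
        rw [mul_pow, Real.sq_sqrt hS0, ← pow_mul, ← pow_mul, mul_comm K 2]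
    _ = S * (3 + Real.sqrt 5) ^ K := by rw [hβ2]

theorem TA3 (p : Polynomial ℤ) (hp : p ≠ 0) (S : ℝ)
    (hS : ∀ Z : ℂ, ‖Z‖ = 1 → ‖Polynomial.aeval Z p‖ ≤ S) (z0 : ℂ)
    (hz : Polynomial.aeval z0 p = 0) : ‖z0‖ ≤ S :=
  Pool.Agent.Lib.H58D.Pre28.root_le_max p hp z0 hz S hS

end H58D
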