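import Pool.Agent.Lib.H58D.Defs

/-! Definitions for section 3 of `PROOF.md` (the case `σ = 2`). -/

namespace H58D

open Classical in
/-- The classes modulo `z` with `0 ≤ ψ < k`. -/
def CC {𝒢 : Type*} [AddCommGroup 𝒢] (z : 𝒢) (ψ : 𝒢 →+ ℤ) (k : ℕ) :
    Set (𝒢 ⧸ AddSubgroup.zmultiples z) :=
  {q | ∃ u : 𝒢, QuotientAddGroup.mk u = q ∧ 0 ≤ ψ u ∧ ψ u < k}

/-- A section of `𝒢 → 𝒢 ⧸ ⟨z⟩`. -/
noncomputable def sec {𝒢 : Type*} [AddCommGroup 𝒢] (z : 𝒢) (q : 𝒢 ⧸ AddSubgroup.zmultiples z) : 𝒢 :=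
  Quotient.out q

open Classical in
/-- The integer `c(u,q)` with `u + s(q) = s(u + q) + c(u,q) z`. -/
noncomputable def coc {𝒢 : Type*} [AddCommGroup 𝒢] (z u : 𝒢)
    (q : 𝒢 ⧸ AddSubgroup.zmultiples z) : ℤ :=
  if h : ∃ n : ℤ, u + sec z q = sec z (QuotientAddGroup.mk u + q) + n • z then h.choose else 0

open Classical in
/-- The row of the element `Σ_l c_l [t_l]` times `[s(q)] Z^L`, at the column `q'`. -/
noncomputable def rowf {𝒢 : Type*} [AddCommGroup 𝒢] (z : 𝒢) (L : ℕ) (t : Fin 3 → 𝒢) {A : Type*}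
    [CommRing A] (c : Fin 3 → A) (X : A) (q q' : 𝒢 ⧸ AddSubgroup.zmultiples z) : A :=
  ∑ l, c l * (if QuotientAddGroup.mk (t l) + q = q' then X ^ (coc z (t l) q + L).toNat else 0)

/-- The columns are parametrised by the rows: `θ (inl q) = [a_(l0)] + q`, `θ (inr q) = [b_(l1)] + q`. -/
def theta {𝒢 : Type*} [AddCommGroup 𝒢] (z : 𝒢) (ψ : 𝒢 →+ ℤ) (a b : Fin 3 → 𝒢) (l0 l1 : Fin 3)
    (k1 w1 : ℕ) : (CC z ψ k1) ⊕ (CC z ψ w1) → 𝒢 ⧸ AddSubgroup.zmultiples z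
  | Sum.inl q => QuotientAddGroup.mk (a l0) + (q : 𝒢 ⧸ AddSubgroup.zmultiples z)
  | Sum.inr q => QuotientAddGroup.mk (b l1) + (q : 𝒢 ⧸ AddSubgroup.zmultiples z)

/-- The square matrix of section 3: rows `T_1 · [s(q)]`, `q ∈ CC k1`, and `(T_2 + κ e [b_(l1)]) · [s(q)]`, `q ∈ CC w1`. -/
noncomputable def TMat {𝒢 : Type*} [AddCommGroup 𝒢] (z : 𝒢) (ψ : 𝒢 →+ ℤ) (a b : Fin 3 → 𝒢)
    (κa κb : Fin 3 → ℤ) (l0 l1 : Fin 3) (k1 w1 L : ℕ) {A : Type*} [CommRing A] (X e : A) :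
    Matrix ((CC z ψ k1) ⊕ (CC z ψ w1)) ((CC z ψ k1) ⊕ (CC z ψ w1)) A :=
  fun r r' => match r with
    | Sum.inl q => rowf z L a (fun l => (κa l : A)) X q (theta z ψ a b l0 l1 k1 w1 r')
    | Sum.inr q => rowf z L b (fun l => (κb l : A) * (1 + if l = l1 then e else 0)) X q
        (theta z ψ a b l0 l1 k1 w1 r')

end H58D
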