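import Pool.Agent.Lib.H58D.T2
import Pool.Agent.Lib.H58D.T4
import Pool.Agent.Lib.H58D.T6
import Pool.Agent.Lib.H58D.TA

/-! Chunk TT (size M).  The abstract two-dimensional bound.

Proof.  `haveI` fintype instances from `hf1`, `hf2` (`Nat.card = Fintype.card`).  Choose `L : ℕ` with `coc z (a l) q + L ≥ 0` and `coc z (b l) q + L ≥ 0` for the finitely many `l`, `q`.
`D := (TMat z ψ a b κa κb l0 l1 k1 w1 L (A := ℤ[X][X]) (C X) X).det`.  For a commutative ring `R'`, `Z, ε : R'` and the homomorphism `f = eval₂RingHom (eval₂RingHom (Int.castRingHom R') Z) ε`: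
`f D = (TMat .. Z ε).det` (`RingHom.map_det`, `T0_map`).  `D ≠ 0` by `T6` (with `R' = ℂ`).
In `B` put `e = - κb_(l1) φ (-(b l1)) Σ κb_l φ (b l)`; then `Σ κb_l (1 + [l = l1] e) φ (b l) = 0` (as `κb_(l1)² = 1`, `φ (b l1) φ (-(b l1)) = 1`), `e ≠ 0` (product of units and `hTb`), `lam e = 0` (`hTb0`).
`T2`: `f D = 0` for `Z = φ z`, `ε = e`; `TA1`: `aeval (lam (φ z)) D.trailingCoeff = 0`.
For `‖Z‖ = 1` let `D_Z = D.map (eval at Z) : ℂ[X]`; by `T4`, `‖D_Z.eval ε‖² ≤ S (6 + 4 Re ε)^K`, `S = 3^card (CC k1)`, `K = card (CC w1)`.  If `aeval Z D.trailingCoeff ≠ 0` then it is the trailing coefficient of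
`D_Z` (the lower coefficients are `0`), so `TA2` gives `‖aeval Z D.trailingCoeff‖² ≤ S (3+√5)^K`; if it is `0` this is trivial.
`TA3` with the bound `√(S (3+√5)^K)`. -/

namespace H58D

theorem TT_bound {𝒢 : Type*} [AddCommGroup 𝒢] (z : 𝒢) (t : Fin 3 → 𝒢)
    (s : Set (𝒢 ⧸ AddSubgroup.zmultiples z)) (hs : s.Finite) :
    ∃ L : ℕ, ∀ M : ℕ, L ≤ M → ∀ l, ∀ q ∈ s, 0 ≤ coc z (t l) q + M := by
  classical
  refine ⟨∑ l, ∑ q ∈ hs.toFinset, (coc z (t l) q).natAbs, fun M hM l q hq => ?_⟩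
  have h1 : (coc z (t l) q).natAbs ≤ M := by
    refine le_trans ?_ hM
    refine le_trans ?_ (Finset.single_le_sum
      (f := fun l => ∑ q ∈ hs.toFinset, (coc z (t l) q).natAbs)
      (fun _ _ => Nat.zero_le _) (Finset.mem_univ l))
    exact Finset.single_le_sum (f := fun q => (coc z (t l) q).natAbs)
      (fun _ _ => Nat.zero_le _) (hs.mem_toFinset.mpr hq)
  omega

open Polynomial in
theorem TT_eval {𝒢 : Type*} [AddCommGroup 𝒢] (z : 𝒢) (ψ : 𝒢 →+ ℤ)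
    (a b : Fin 3 → 𝒢) (κa κb : Fin 3 → ℤ) (l0 l1 : Fin 3) (k1 w1 L : ℕ)
    [Fintype (CC z ψ k1)] [Fintype (CC z ψ w1)] [DecidableEq (CC z ψ k1 ⊕ CC z ψ w1)]
    {R : Type*} [CommRing R] (Z ε : R) :
    eval₂ (eval₂RingHom (Int.castRingHom R) Z) ε
      (TMat z ψ a b κa κb l0 l1 k1 w1 L (C (X : ℤ[X])) (X : ℤ[X][X])).det =
      (TMat z ψ a b κa κb l0 l1 k1 w1 L Z ε).det := by
  have h := RingHom.map_det (eval₂RingHom (eval₂RingHom (Int.castRingHom R) Z) ε)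
    (TMat z ψ a b κa κb l0 l1 k1 w1 L (C (X : ℤ[X])) (X : ℤ[X][X]))
  rw [RingHom.mapMatrix_apply, T0_map] at h
  rw [coe_eval₂RingHom] at h
  rw [h]
  simp

open Polynomial in
theorem TT_trail (D : ℤ[X][X]) (f : ℤ[X] →+* ℂ) (hf : f D.trailingCoeff ≠ 0) :
    (D.map f).trailingCoeff = f D.trailingCoeff := by
  have h0 : (D.map f).coeff D.natTrailingDegree = f D.trailingCoeff := by
    rw [coeff_map]; rfl
  have hne : D.map f ≠ 0 := by
    intro h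
    rw [h, coeff_zero] at h0
    exact hf h0.symm
  have h1 : (D.map f).natTrailingDegree ≤ D.natTrailingDegree := by
    apply natTrailingDegree_le_of_ne_zero
    rw [h0]; exact hf
  have h2 : D.natTrailingDegree ≤ (D.map f).natTrailingDegree := by
    apply le_natTrailingDegree hne
    intro m hm
    rw [coeff_map, coeff_eq_zero_of_lt_natTrailingDegree hm, map_zero]
  have h3 : (D.map f).natTrailingDegree = D.natTrailingDegree := le_antisymm h1 h2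
  rw [trailingCoeff, h3, h0]

theorem TT {𝒢 : Type*} [AddCommGroup 𝒢] (z : 𝒢) (ψ : 𝒢 →+ ℤ) (hψz : ψ z = 0)
    (a b : Fin 3 → 𝒢) (κa κb : Fin 3 → ℤ) (hκa : ∀ l, κa l = 1 ∨ κa l = -1)
    (hκb : ∀ l, κb l = 1 ∨ κb l = -1) (l0 l1 : Fin 3) (k1 w1 : ℕ) (hkw : 0 < k1 + w1)
    (hf1 : (CC z ψ k1).Finite) (hf2 : (CC z ψ w1).Finite)
    (ha : ∀ l, 0 ≤ ψ (a l) ∧ ψ (a l) ≤ w1) (ha0 : ψ (a l0) = w1)
    (hb : ∀ l, 0 ≤ ψ (b l) ∧ ψ (b l) ≤ k1) (hb1 : ψ (b l1) = 0)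
    (hda : ∀ l l', l ≠ l' → ∀ n : ℤ, a l - a l' ≠ n • z)
    (hdb : (∀ l l', l ≠ l' → ∀ n : ℤ, b l - b l' ≠ n • z) ∨
      (∃ l2, l2 ≠ l1 ∧ b l2 = b l1 ∧ κb l2 = κb l1 ∧
        ∀ l3, l3 ≠ l1 → l3 ≠ l2 → ∀ n : ℤ, b l3 - b l1 ≠ n • z))
    (ℓ : 𝒢 →+ ℝ)
    (hℓ : ∑ l ∈ Finset.univ.erase l0, Real.exp (ℓ (a l)) < Real.exp (ℓ (a l0)))
    {B : Type*} [CommRing B] [IsDomain B] (φ : 𝒢 → B) (hφ0 : φ 0 = 1)
    (hφ : ∀ u v, φ (u + v) = φ u * φ v) (lam : B →+* ℂ)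
    (hTa : ∑ l, (κa l : B) * φ (a l) = 0) (hTb : ∑ l, (κb l : B) * φ (b l) ≠ 0)
    (hTb0 : lam (∑ l, (κb l : B) * φ (b l)) = 0) :
    ‖lam (φ z)‖ ^ 2 ≤ 3 ^ (Nat.card (CC z ψ k1)) * (3 + Real.sqrt 5) ^ (Nat.card (CC z ψ w1)) := by
  classical
  have : Fintype (CC z ψ k1) := hf1.fintype
  have : Fintype (CC z ψ w1) := hf2.fintype
  obtain ⟨La, hLa⟩ := TT_bound z a _ hf1
  obtain ⟨Lb, hLb⟩ := TT_bound z b _ hf2
  obtain ⟨L, hL1, hL2⟩ : ∃ L : ℕ, La ≤ L ∧ Lb ≤ L := ⟨max La Lb, le_max_left _ _, le_max_right _ _⟩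
  have hLa' := hLa L hL1
  have hLb' := hLb L hL2
  obtain ⟨D, hD⟩ : ∃ D : Polynomial (Polynomial ℤ), D =
    (TMat z ψ a b κa κb l0 l1 k1 w1 L (Polynomial.C (Polynomial.X : Polynomial ℤ))
      (Polynomial.X : Polynomial (Polynomial ℤ))).det := ⟨_, rfl⟩
  have hD0 : D ≠ 0 := by
    intro h0
    obtain ⟨X, e, hXe⟩ := T6 z ψ hψz a b κa κb hκa hκb l0 l1 k1 w1 L ha ha0 hb hb1 hLa' hLb'
      hda hdb ℓ hℓ
    apply hXe
    rw [← TT_eval z ψ a b κa κb l0 l1 k1 w1 L X e, ← hD, h0, Polynomial.eval₂_zero]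
  -- the element e
  obtain ⟨e, he⟩ : ∃ e : B, e = - (κb l1 : B) * φ (-(b l1)) * ∑ l, (κb l : B) * φ (b l) := ⟨_, rfl⟩
  have hunit : ∀ u : 𝒢, φ u * φ (-u) = 1 := by
    intro u
    rw [← hφ, add_neg_cancel, hφ0]
  have hk1 : (κb l1 : B) * (κb l1 : B) = 1 := by
    rcases hκb l1 with h | h <;> simp [h]
  have hk0 : (κb l1 : B) ≠ 0 := by
    intro h
    rw [h, zero_mul] at hk1
    exact zero_ne_one hk1
  have hphi0 : φ (-(b l1)) ≠ 0 := by
    intro h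
    have := hunit (b l1)
    rw [h, mul_zero] at this
    exact zero_ne_one this
  have he0 : e ≠ 0 := by
    rw [he]
    exact mul_ne_zero (mul_ne_zero (neg_ne_zero.mpr hk0) hphi0) hTb
  have hlame : lam e = 0 := by
    rw [he, map_mul, hTb0, mul_zero]
  have hTb' : ∑ l, (κb l : B) * (1 + if l = l1 then e else 0) * φ (b l) = 0 := by
    have h1 : ∀ l : Fin 3, (κb l : B) * (1 + if l = l1 then e else 0) * φ (b l) =
        (κb l : B) * φ (b l) + (if l = l1 then (κb l1 : B) * e * φ (b l1) else 0) := by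
      intro l
      by_cases hl : l = l1
      · subst hl
        simp only [if_true]
        ring
      · simp [hl]
    rw [Finset.sum_congr rfl (fun l _ => h1 l), Finset.sum_add_distrib, Finset.sum_ite_eq' Finset.univ l1]
    simp only [Finset.mem_univ, if_true]
    have h2 : (κb l1 : B) * e * φ (b l1) =
        - (((κb l1 : B) * (κb l1 : B)) * (φ (b l1) * φ (-(b l1)))) * ∑ l, (κb l : B) * φ (b l) := by
      rw [he]; ring
    rw [h2, hk1, hunit]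
    ring
  have hz := T2 z ψ hψz a b κa κb l0 l1 k1 w1 L hkw ha ha0 hb hb1 hLa' hLb' φ hφ0 hφ e hTa hTb'
  rw [← TT_eval z ψ a b κa κb l0 l1 k1 w1 L (φ z) e, ← hD] at hz
  have hA1 := TA1 D hD0 (φ z) e hz he0 lam hlame
  -- the bound on the unit circle
  have hc1 : Nat.card (CC z ψ k1) = Fintype.card (CC z ψ k1) := Nat.card_eq_fintype_card
  have hc2 : Nat.card (CC z ψ w1) = Fintype.card (CC z ψ w1) := Nat.card_eq_fintype_card
  rw [hc1, hc2]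
  have hnn : (0 : ℝ) ≤ 3 ^ (Fintype.card (CC z ψ k1)) *
      (3 + Real.sqrt 5) ^ (Fintype.card (CC z ψ w1)) := by positivity
  have hbd : ∀ Z : ℂ, ‖Z‖ = 1 → ‖Polynomial.aeval Z D.trailingCoeff‖ ≤
      Real.sqrt (3 ^ (Fintype.card (CC z ψ k1)) *
      (3 + Real.sqrt 5) ^ (Fintype.card (CC z ψ w1))) := by
    intro Z hZ
    obtain ⟨f, hf⟩ : ∃ f : Polynomial ℤ →+* ℂ,
      f = Polynomial.eval₂RingHom (Int.castRingHom ℂ) Z := ⟨_, rfl⟩
    have hfa : Polynomial.aeval Z D.trailingCoeff = f D.trailingCoeff := by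
      rw [hf, Polynomial.coe_eval₂RingHom]
      rfl
    rw [hfa]
    by_cases h0 : f D.trailingCoeff = 0
    · rw [h0, norm_zero]
      exact Real.sqrt_nonneg _
    · apply Real.le_sqrt_of_sq_le
      rw [← TT_trail D f h0]
      apply TA2
      intro ε hε
      rw [Polynomial.eval_map, hf, hD, TT_eval]
      exact T4 z ψ hψz a b κa κb hκa hκb l0 l1 k1 w1 L ha0 hb1 hda hdb Z ε hZ hε
  have hfin := TA3 D.trailingCoeff (Polynomial.trailingCoeff_nonzero_iff_nonzero.mpr hD0) _ hbd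
    (lam (φ z)) hA1
  have h4 : ‖lam (φ z)‖ ^ 2 ≤ (Real.sqrt (3 ^ (Fintype.card (CC z ψ k1)) *
      (3 + Real.sqrt 5) ^ (Fintype.card (CC z ψ w1)))) ^ 2 := by
    apply pow_le_pow_left₀ (norm_nonneg _) hfin
  rw [Real.sq_sqrt hnn] at h4
  exact h4

end H58D
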