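import Mathlib

/-! Chunk W1.  The degree of a number field which contains primitive roots of unity of distinct prime orders. -/

namespace H58D

/-- A product of primitive roots of unity of distinct prime orders is a primitive root of unity. -/
theorem W1_root : ∀ (d : ℕ) (pp : Fin d → ℕ) (ζ : Fin d → ℂ), (∀ s, (pp s).Prime) →
    Function.Injective pp → (∀ s, IsPrimitiveRoot (ζ s) (pp s)) →
    IsPrimitiveRoot (∏ s, ζ s) (∏ s, pp s) := by
  intro d
  induction d with
  | zero => 
    intro pp ζ _ _ _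
    simp
  | succ d ih =>
    intro pp ζ hpp hinj hroot
    rw [Fin.prod_univ_succ, Fin.prod_univ_succ]
    have h1 := ih (fun s => pp s.succ) (fun s => ζ s.succ) (fun s => hpp _)
      (fun a b hab => Fin.succ_injective _ (hinj hab)) (fun s => hroot _)
    have hcop : Nat.Coprime (pp 0) (∏ s : Fin d, pp s.succ) := by
      refine Nat.Coprime.prod_right fun s _ => ?_
      refine (Nat.coprime_primes (hpp _) (hpp _)).2 fun h => ?_
      exact absurd (hinj h) (Fin.succ_ne_zero s).symm
    have h2 := (hroot 0).eq_orderOf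
    have h3 := h1.eq_orderOf
    rw [IsPrimitiveRoot.iff_orderOf, (Commute.all _ _).orderOf_mul_eq_mul_orderOf_of_coprime]
    · rw [← h2, ← h3]
    · rw [← h2, ← h3]
      exact hcop

theorem W1 (K : IntermediateField ℚ ℂ) [FiniteDimensional ℚ K] (d : ℕ) (pp : Fin d → ℕ)
    (ζ : Fin d → ℂ) (hpp : ∀ s, (pp s).Prime) (hinj : Function.Injective pp)
    (hroot : ∀ s, IsPrimitiveRoot (ζ s) (pp s)) (hmem : ∀ s, ζ s ∈ K) :
    ∏ s, (pp s - 1) ≤ Module.finrank ℚ K := by
  have h1 := W1_root d pp ζ hpp hinj hroot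
  have hpos : 0 < ∏ s, pp s := Finset.prod_pos fun s _ => (hpp s).pos
  have hm : ∏ s, ζ s ∈ K := prod_mem fun s _ => hmem s
  have h2 : (minpoly ℚ (⟨∏ s, ζ s, hm⟩ : K)).natDegree ≤ Module.finrank ℚ K :=
    minpoly.natDegree_le _
  have h3 : minpoly ℚ (⟨∏ s, ζ s, hm⟩ : K) = minpoly ℚ (∏ s, ζ s) := by
    have := minpoly.algebraMap_eq (A := ℚ) (B := K) (B' := ℂ) (algebraMap K ℂ).injective ⟨∏ s, ζ s, hm⟩
    rw [← this]
    rfl
  rw [h3, ← Polynomial.cyclotomic_eq_minpoly_rat h1 hpos, Polynomial.natDegree_cyclotomic] at h2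
  have h4 : ∏ s, (pp s - 1) = Nat.totient (∏ s, pp s) := by
    clear h1 hpos hm h2 h3 hroot hmem ζ
    induction d with
    | zero => simp
    | succ d ih =>
      rw [Fin.prod_univ_succ, Fin.prod_univ_succ]
      have hcop : Nat.Coprime (pp 0) (∏ s : Fin d, pp s.succ) := by
        refine Nat.Coprime.prod_right fun s _ => ?_
        refine (Nat.coprime_primes (hpp _) (hpp _)).2 fun h => ?_
        exact absurd (hinj h) (Fin.succ_ne_zero s).symm
      rw [Nat.totient_mul hcop, Nat.totient_prime (hpp 0),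
        ih (fun s => pp s.succ) (fun s => hpp _) (fun a b hab => Fin.succ_injective _ (hinj hab))]
  rw [h4]
  exact h2

end H58D
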