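import Mathlib

/-! Chunk W2.  The numerical inequalities of section 4 of `PROOF.md`. -/

namespace H58D

private theorem w2_aux (n : ℕ) : ∀ (d : ℕ) (pp : Fin d → ℕ), (∀ s, 10 * n < pp s) →
    (10 * n - d) * ∏ s, pp s ≤ 10 * n * ∏ s, (pp s - 1) := by
  intro d
  induction d with
  | zero =>
    intro pp _
    simp
  | succ d ih =>
    intro pp hpp
    rw [Fin.prod_univ_succ, Fin.prod_univ_succ]
    have h1 := ih (fun s => pp s.succ) (fun s => hpp _)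
    have h2 := hpp 0
    set P := ∏ s : Fin d, pp s.succ
    set Q := ∏ s : Fin d, (pp s.succ - 1)
    obtain ⟨p, hp⟩ : ∃ p, pp 0 = p + 1 := ⟨pp 0 - 1, by omega⟩
    rw [hp, Nat.add_sub_cancel]
    have h3 : (10 * n - (d + 1)) * (p + 1) ≤ p * (10 * n - d) := by
      rcases Nat.lt_or_ge (10 * n) (d + 1) with h | h
      · have : 10 * n - (d + 1) = 0 := by omega
        rw [this, zero_mul]
        exact Nat.zero_le _
      · obtain ⟨e, he⟩ : ∃ e, 10 * n = d + 1 + e := ⟨10 * n - (d + 1), by omega⟩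
        have h4 : 10 * n - (d + 1) = e := by omega
        have h5 : 10 * n - d = e + 1 := by omega
        rw [h4, h5]
        have h6 : e ≤ p := by omega
        nlinarith
    calc (10 * n - (d + 1)) * ((p + 1) * P) = ((10 * n - (d + 1)) * (p + 1)) * P := by ring
      _ ≤ (p * (10 * n - d)) * P := Nat.mul_le_mul_right _ h3
      _ = p * ((10 * n - d) * P) := by ring
      _ ≤ p * (10 * n * Q) := Nat.mul_le_mul_left _ h1
      _ = 10 * n * (p * Q) := by ring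

theorem W2a (n d : ℕ) (hn : 1 ≤ n) (hd : d ≤ n) (pp : Fin d → ℕ) (hpp : ∀ s, 10 * n < pp s) :
    9 * ∏ s, pp s ≤ 10 * ∏ s, (pp s - 1) := by
  have h1 := w2_aux n d pp hpp
  have h2 : 9 * n ≤ 10 * n - d := by omega
  have h3 : n * (9 * ∏ s, pp s) ≤ n * (10 * ∏ s, (pp s - 1)) := by
    calc n * (9 * ∏ s, pp s) = (9 * n) * ∏ s, pp s := by ring
      _ ≤ (10 * n - d) * ∏ s, pp s := Nat.mul_le_mul_right _ h2
      _ ≤ 10 * n * ∏ s, (pp s - 1) := h1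
      _ = n * (10 * ∏ s, (pp s - 1)) := by ring
  exact Nat.le_of_mul_le_mul_left h3 hn

theorem W2b (n ρ σ d : ℕ) (hd : 1 ≤ d) (hσ : 1 ≤ σ) (hn : ρ + σ ≤ n) (PD PP PQ K : ℕ)
    (hPQ : 1 ≤ PQ) (hA : (K : ℝ) * (2 ^ n / 4 * Real.log 2) ≤ PD * (σ * Real.log 3))
    (hB : PD * 2 ^ (d + 1) ≤ 2 ^ ρ * PP) (hC : 9 * PP ≤ 10 * PQ) (hD : PQ ≤ K) : False := by
  have hl2 : (0 : ℝ) < Real.log 2 := Real.log_pos (by norm_num)
  have hl3 : (0 : ℝ) < Real.log 3 := Real.log_pos (by norm_num)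
  have hlog : 10 * Real.log 3 < 18 * Real.log 2 := by
    have h1 : Real.log ((3 : ℝ) ^ 10) < Real.log ((2 : ℝ) ^ 18) :=
      Real.log_lt_log (by norm_num) (by norm_num)
    rw [Real.log_pow, Real.log_pow] at h1
    exact_mod_cast h1
  have hK : (1 : ℝ) ≤ K := by exact_mod_cast hPQ.trans hD
  have hB' : (PD : ℝ) * 2 ^ (d + 1) ≤ 2 ^ ρ * PP := by exact_mod_cast hB
  have hC' : (9 : ℝ) * PP ≤ 10 * PQ := by exact_mod_cast hC
  have hD' : (PQ : ℝ) ≤ K := by exact_mod_cast hD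
  have hd4 : (4 : ℝ) ≤ 2 ^ (d + 1) := by
    calc (4 : ℝ) = 2 ^ 2 := by norm_num
      _ ≤ 2 ^ (d + 1) := pow_le_pow_right₀ (by norm_num) (by omega)
  have hPD : (0 : ℝ) ≤ PD := Nat.cast_nonneg _
  have h1 : (PD : ℝ) * 4 ≤ 2 ^ ρ * PP :=
    (mul_le_mul_of_nonneg_left hd4 hPD).trans hB'
  have hρ : (0 : ℝ) < 2 ^ ρ := by positivity
  have h2 : (PD : ℝ) * 36 ≤ 2 ^ ρ * (10 * K) := by
    calc (PD : ℝ) * 36 = 9 * (PD * 4) := by ring
      _ ≤ 9 * (2 ^ ρ * PP) := mul_le_mul_of_nonneg_left h1 (by norm_num)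
      _ = 2 ^ ρ * (9 * PP) := by ring
      _ ≤ 2 ^ ρ * (10 * PQ) := mul_le_mul_of_nonneg_left hC' hρ.le
      _ ≤ 2 ^ ρ * (10 * K) := mul_le_mul_of_nonneg_left (by linarith) hρ.le
  have hσ2 : 2 * (σ : ℝ) ≤ 2 ^ σ := by
    have h3 : ∀ s : ℕ, 1 ≤ s → 2 * s ≤ 2 ^ s := by
      intro s hs
      induction s, hs using Nat.le_induction with
      | base => norm_num
      | succ s hs ih =>
        rw [pow_succ]
        omega
    exact_mod_cast h3 σ hσ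
  have hn2 : (2 : ℝ) ^ ρ * 2 ^ σ ≤ 2 ^ n := by
    rw [← pow_add]
    exact pow_le_pow_right₀ (by norm_num) hn
  have hσ' : (1 : ℝ) ≤ σ := by exact_mod_cast hσ
  have h4 : 2 ^ ρ * (2 * (σ : ℝ)) ≤ 2 ^ n := (mul_le_mul_of_nonneg_left hσ2 hρ.le).trans hn2
  -- lower bound of the left side of `hA`
  have h5 : (K : ℝ) * ((2 ^ ρ * (2 * (σ : ℝ))) / 4 * Real.log 2) ≤ PD * (σ * Real.log 3) := by
    refine le_trans ?_ hA
    refine mul_le_mul_of_nonneg_left ?_ (by linarith)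
    refine mul_le_mul_of_nonneg_right ?_ hl2.le
    linarith
  have h6 : 36 * ((K : ℝ) * ((2 ^ ρ * (2 * (σ : ℝ))) / 4 * Real.log 2)) ≤
      (2 ^ ρ * (10 * K)) * (σ * Real.log 3) := by
    calc 36 * ((K : ℝ) * ((2 ^ ρ * (2 * (σ : ℝ))) / 4 * Real.log 2)) ≤
        36 * (PD * (σ * Real.log 3)) := mul_le_mul_of_nonneg_left h5 (by norm_num)
      _ = (PD * 36) * (σ * Real.log 3) := by ring
      _ ≤ (2 ^ ρ * (10 * K)) * (σ * Real.log 3) := by
        refine mul_le_mul_of_nonneg_right h2 ?_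
        positivity
  have h7 : (K * 2 ^ ρ * σ : ℝ) * (18 * Real.log 2) ≤ (K * 2 ^ ρ * σ) * (10 * Real.log 3) := by
    calc (K * 2 ^ ρ * σ : ℝ) * (18 * Real.log 2) =
        36 * ((K : ℝ) * ((2 ^ ρ * (2 * (σ : ℝ))) / 4 * Real.log 2)) := by ring
      _ ≤ (2 ^ ρ * (10 * K)) * (σ * Real.log 3) := h6
      _ = (K * 2 ^ ρ * σ) * (10 * Real.log 3) := by ring
  have h8 : (0 : ℝ) < K * 2 ^ ρ * σ := by
    have : (0 : ℝ) < K := by linarith
    have : (0 : ℝ) < σ := by linarith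
    positivity
  have h9 := le_of_mul_le_mul_left h7 h8
  linarith

end H58D
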