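import Mathlib

/-! Section 4 of `PROOF.md`: the degree of the field generated by the coordinates. -/

namespace H58D

private theorem W28_order {M : Type*} [CommMonoid M] (d : ℕ) : ∀ (z : Fin d → M) (pp : Fin d → ℕ)
    (_ : ∀ s, (pp s).Prime) (_ : Function.Injective pp) (_ : ∀ s, orderOf (z s) = pp s),
    orderOf (∏ s, z s) = ∏ s, pp s := by
  induction d with
  | zero => intro z pp _ _ _; simp
  | succ d ih =>
    intro z pp hpp hinj hz
    rw [Fin.prod_univ_succ, Fin.prod_univ_succ]
    have h1 := ih (fun s => z s.succ) (fun s => pp s.succ) (fun s => hpp _)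
      (fun a b hab => Fin.succ_injective _ (hinj hab)) (fun s => hz _)
    have hco : Nat.Coprime (orderOf (z 0)) (orderOf (∏ s : Fin d, z s.succ)) := by
      rw [hz 0, h1]
      refine Nat.Coprime.prod_right fun s _ => ?_
      rw [Nat.coprime_primes (hpp _) (hpp _)]
      intro h
      exact absurd (hinj h) (Fin.succ_ne_zero s).symm
    rw [(Commute.all _ _).orderOf_mul_eq_mul_orderOf_of_coprime hco, hz 0, h1]

private theorem W28_totient (d : ℕ) : ∀ (pp : Fin d → ℕ)
    (_ : ∀ s, (pp s).Prime) (_ : Function.Injective pp),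
    Nat.totient (∏ s, pp s) = ∏ s, (pp s - 1) := by
  induction d with
  | zero => intro pp _ _; simp
  | succ d ih =>
    intro pp hpp hinj
    rw [Fin.prod_univ_succ, Fin.prod_univ_succ]
    have h1 := ih (fun s => pp s.succ) (fun s => hpp _)
      (fun a b hab => Fin.succ_injective _ (hinj hab))
    have hco : Nat.Coprime (pp 0) (∏ s : Fin d, pp s.succ) := by
      refine Nat.Coprime.prod_right fun s _ => ?_
      rw [Nat.coprime_primes (hpp _) (hpp _)]
      intro h
      exact absurd (hinj h) (Fin.succ_ne_zero s).symm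
    rw [Nat.totient_mul hco, h1, Nat.totient_prime (hpp 0)]

theorem W28_deg {ι : Type*} (x : ι → ℂ)
    [FiniteDimensional ℚ (IntermediateField.adjoin ℚ (Set.range x))] (d : ℕ) (jj : Fin d → ι)
    (pp : Fin d → ℕ) (hpp : ∀ s, (pp s).Prime) (hinj : Function.Injective pp)
    (hz : ∀ s, IsPrimitiveRoot (x (jj s)) (pp s)) :
    ∏ s, (pp s - 1) ≤ Module.finrank ℚ (IntermediateField.adjoin ℚ (Set.range x)) := by
  set K := IntermediateField.adjoin ℚ (Set.range x) with hK
  have hmem : ∀ i, x i ∈ K := fun i =>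
    IntermediateField.subset_adjoin ℚ (Set.range x) ⟨i, rfl⟩
  set N := ∏ s, pp s with hN
  have hNpos : 0 < N := Finset.prod_pos fun s _ => (hpp s).pos
  set ζ : ℂ := ∏ s, x (jj s) with hζ
  have hζK : ζ ∈ K := prod_mem fun s _ => hmem (jj s)
  have hord : orderOf ζ = N :=
    W28_order d (fun s => x (jj s)) pp hpp hinj fun s => (hz s).eq_orderOf.symm
  have hprim : IsPrimitiveRoot ζ N := hord ▸ IsPrimitiveRoot.orderOf ζ
  have hmin : minpoly ℚ ζ = Polynomial.cyclotomic N ℚ :=
    (Polynomial.cyclotomic_eq_minpoly_rat hprim hNpos).symm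
  have h1 : (minpoly ℚ (⟨ζ, hζK⟩ : K)).natDegree ≤ Module.finrank ℚ K := minpoly.natDegree_le _
  have h2 : minpoly ℚ (⟨ζ, hζK⟩ : K) = minpoly ℚ ζ := by
    exact (minpoly.algebraMap_eq (A := ℚ) (B := K) (B' := ℂ) Subtype.val_injective
      (⟨ζ, hζK⟩ : K)).symm
  rw [h2, hmin, Polynomial.natDegree_cyclotomic, hN, W28_totient d pp hpp hinj] at h1
  exact h1

end H58D
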