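import Pool.Agent.Lib.H58D.Y45
import Pool.Agent.Lib.H58D.S1

/-! The joint end (section 4 of `PROOF.md`): the field `K = ℚ(x)` and all its embeddings. -/

namespace H58D

/-- the ranks are eventually constant -/
private theorem je_const {ι : Type*} [Fintype ι] (x : ι → ℂ) (R : ℕ) (hR : ∀ N, rk x N ≤ R) :
    ∃ N₀, ∀ N, N₀ ≤ N → rk x N = rk x N₀ := by
  have hmono : Monotone (rk x) := monotone_nat_of_le_succ fun N => S4 x N
  have hbdd : BddAbove (Set.range (rk x)) := ⟨R, by rintro _ ⟨N, rfl⟩; exact hR N⟩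
  have hne : (Set.range (rk x)).Nonempty := ⟨_, ⟨0, rfl⟩⟩
  obtain ⟨N₀, hN₀⟩ := Nat.sSup_mem hne hbdd
  refine ⟨N₀, fun N hN => le_antisymm ?_ (hmono hN)⟩
  rw [hN₀]
  exact le_csSup hbdd ⟨N, rfl⟩

private theorem je_deg_single {ι : Type*} [Fintype ι] [DecidableEq ι] (i : ι) (k : ℕ) :
    deg (Pi.single i k : ι → ℕ) = k := by
  unfold deg
  rw [Finset.sum_eq_single i]
  · rw [Pi.single_eq_same]
  · intro j _ hj
    rw [Pi.single_eq_of_ne hj]
  · intro h
    exact absurd (Finset.mem_univ i) h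

private theorem je_mon_single {ι : Type*} [Fintype ι] [DecidableEq ι] {B : Type*} [CommRing B]
    (y : ι → B) (i : ι) (k : ℕ) : mon y (Pi.single i k) = y i ^ k := by
  unfold mon
  rw [Finset.prod_eq_single i]
  · rw [Pi.single_eq_same]
  · intro j _ hj
    rw [Pi.single_eq_of_ne hj, pow_zero]
  · intro h
    exact absurd (Finset.mem_univ i) h

/-- the coordinates are algebraic -/
private theorem je_alg {ι : Type*} [Fintype ι] [DecidableEq ι] (x : ι → ℂ) (R : ℕ)
    (hR : ∀ N, rk x N ≤ R) (v : ι) : IsAlgebraic ℚ (x v) := by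
  have hmem : ∀ k : Fin (R + 1), x v ^ (k : ℕ) ∈ lat x R := by
    intro k
    refine Submodule.subset_span ⟨Pi.single v (k : ℕ), ?_, (je_mon_single x v _).symm⟩
    rw [je_deg_single]
    omega
  have h1 := S0_fin x R
  have h2 := S0_free x R
  have hnot : ¬ LinearIndependent ℤ (fun k : Fin (R + 1) => (⟨x v ^ (k : ℕ), hmem k⟩ : lat x R)) := by
    intro h
    have h3 := h.fintype_card_le_finrank
    rw [Fintype.card_fin] at h3
    have h4 : Module.finrank ℤ (lat x R) ≤ R := hR R
    omega
  obtain ⟨g, hg, k, hk⟩ := Fintype.not_linearIndependent_iff.mp hnot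
  refine ⟨∑ k : Fin (R + 1), Polynomial.C (g k : ℚ) * Polynomial.X ^ (k : ℕ), ?_, ?_⟩
  · intro h
    have h3 := congrArg (fun f : Polynomial ℚ => f.coeff (k : ℕ)) h
    simp only [Polynomial.finsetSum_coeff, Polynomial.coeff_C_mul_X_pow, Polynomial.coeff_zero] at h3
    rw [Finset.sum_eq_single k] at h3
    · rw [if_pos rfl] at h3
      exact hk (by exact_mod_cast h3)
    · intro b _ hb
      rw [if_neg]
      intro h4
      exact hb (Fin.ext h4.symm)
    · intro h4
      exact absurd (Finset.mem_univ k) h4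
  · have h3 := congrArg (fun z : lat x R => (z : ℂ)) hg
    simp only [Submodule.coe_sum, Submodule.coe_smul, zsmul_eq_mul, Submodule.coe_zero] at h3
    simp only [map_sum, map_mul, map_pow, Polynomial.aeval_C, Polynomial.aeval_X]
    rw [← h3]
    refine Finset.sum_congr rfl fun k _ => ?_
    simp

/-- a basis of `ℚ(x)` which consists of monomials -/
private theorem je_basis {ι : Type*} [Fintype ι] [DecidableEq ι] (x : ι → ℂ) (R : ℕ)
    (hR : ∀ N, rk x N ≤ R) (N₀ : ℕ) (hN₀ : ∀ N, N₀ ≤ N → rk x N = rk x N₀) :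
    ∃ b : Module.Basis (Fin (rk x N₀)) ℚ (IntermediateField.adjoin ℚ (Set.range x)),
      ∀ s, ∃ e : ι → ℕ, deg e ≤ N₀ ∧ ((b s : IntermediateField.adjoin ℚ (Set.range x)) : ℂ) =
        mon x e := by
  let K := IntermediateField.adjoin ℚ (Set.range x)
  have h1 := S0_fin x N₀
  have h2 := S0_free x N₀
  obtain ⟨w, hw, hwli, _, _⟩ := L0b (monSet x N₀) (S0_finite x N₀) (S0_span x N₀)
  have hmonK : ∀ e : ι → ℕ, mon x e ∈ K := by
    intro e
    unfold mon
    exact prod_mem fun i _ => pow_mem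
      (IntermediateField.subset_adjoin ℚ (Set.range x) (Set.mem_range_self i)) _
  choose e he hwe using hw
  let u : Fin (rk x N₀) → K := fun s => ⟨mon x (e s), hmonK _⟩
  -- independence over the integers, in the complex numbers
  have hliC : LinearIndependent ℤ (fun s : Fin (rk x N₀) => mon x (e s)) := by
    have h3 := hwli.map' (lat x N₀).subtype (Submodule.ker_subtype _)
    have h4 : (lat x N₀).subtype ∘ w = fun s : Fin (rk x N₀) => mon x (e s) := by
      funext s
      exact hwe s
    rwa [h4] at h3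
  have hliCQ : LinearIndependent ℚ (fun s : Fin (rk x N₀) => mon x (e s)) :=
    (LinearIndependent.iff_fractionRing ℤ ℚ).mp hliC
  have hliK : LinearIndependent ℚ u := by
    refine LinearIndependent.of_comp K.val.toLinearMap ?_
    exact hliCQ
  -- all the monomials are rational combinations
  let W : Submodule ℚ ℂ := Submodule.span ℚ (Set.range fun s : Fin (rk x N₀) => mon x (e s))
  have hmonW : ∀ f : ι → ℕ, mon x f ∈ W := by
    intro f
    let N := N₀ + deg f
    have h3 := S0_fin x N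
    have h4 := S0_free x N
    have hrk : Module.finrank ℤ (lat x N) = rk x N₀ := hN₀ N (Nat.le_add_right _ _)
    by_contra hf
    -- then there are too many independent elements
    have h5 : LinearIndependent ℚ (Fin.cons (mon x f) (fun s : Fin (rk x N₀) => mon x (e s)) :
        Fin (rk x N₀ + 1) → ℂ) := by
      rw [linearIndependent_finCons]
      exact ⟨hliCQ, hf⟩
    have h6 : LinearIndependent ℤ (Fin.cons (mon x f) (fun s : Fin (rk x N₀) => mon x (e s)) :
        Fin (rk x N₀ + 1) → ℂ) := (LinearIndependent.iff_fractionRing ℤ ℚ).mpr h5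
    have hmem : ∀ s, (Fin.cons (mon x f) (fun s : Fin (rk x N₀) => mon x (e s)) :
        Fin (rk x N₀ + 1) → ℂ) s ∈ lat x N := by
      intro s
      refine Fin.cases ?_ (fun s => ?_) s
      · exact Submodule.subset_span ⟨f, Nat.le_add_left _ _, rfl⟩
      · exact Submodule.subset_span ⟨e s, (he s).trans (Nat.le_add_right _ _), rfl⟩
    have h7 : LinearIndependent ℤ (fun s => (⟨(Fin.cons (mon x f)
        (fun s : Fin (rk x N₀) => mon x (e s)) : Fin (rk x N₀ + 1) → ℂ) s, hmem s⟩ : lat x N)) :=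
      LinearIndependent.of_comp (lat x N).subtype h6
    have h8 := h7.fintype_card_le_finrank
    rw [Fintype.card_fin, hrk] at h8
    omega
  have halg : K.toSubalgebra = Algebra.adjoin ℚ (Set.range x) :=
    IntermediateField.adjoin_toSubalgebra_of_isAlgebraic (by
      rintro _ ⟨v, rfl⟩
      exact je_alg x R hR v)
  have hKW : ∀ k : K, (k : ℂ) ∈ W := by
    intro k
    have h3 : (k : ℂ) ∈ Algebra.adjoin ℚ (Set.range x) := by
      rw [← halg]
      exact k.2
    rw [← Subalgebra.mem_toSubmodule, Algebra.adjoin_eq_span] at h3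
    refine Submodule.span_le.mpr ?_ h3
    intro z hz
    have h4 : ∃ f : ι → ℕ, z = mon x f := by
      induction hz using Submonoid.closure_induction with
      | mem z hz =>
        obtain ⟨v, rfl⟩ := hz
        exact ⟨Pi.single v 1, by rw [je_mon_single, pow_one]⟩
      | one => exact ⟨0, by simp [mon]⟩
      | mul a b _ _ ha hb =>
        obtain ⟨f, rfl⟩ := ha
        obtain ⟨g, rfl⟩ := hb
        refine ⟨f + g, ?_⟩
        unfold mon
        rw [← Finset.prod_mul_distrib]
        exact Finset.prod_congr rfl fun i _ => by rw [Pi.add_apply, pow_add]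
    obtain ⟨f, rfl⟩ := h4
    exact hmonW f
  have hspan : ⊤ ≤ Submodule.span ℚ (Set.range u) := by
    rintro k -
    have h3 : W = (Submodule.span ℚ (Set.range u)).map K.val.toLinearMap := by
      rw [Submodule.map_span, ← Set.range_comp]
      rfl
    have h4 := hKW k
    rw [h3] at h4
    obtain ⟨k', hk', hkk⟩ := h4
    have h5 : k' = k := Subtype.ext hkk
    rwa [h5] at hk'
  refine ⟨Module.Basis.mk hliK hspan, fun s => ⟨e s, he s, ?_⟩⟩
  rw [Module.Basis.mk_apply]

/-- **The joint end.**  If the ranks `rk x N` are bounded then `K = ℚ(x)` is a number field, and if every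
embedding of `K` makes some coordinate at least `Y ≥ 1` then `log wt x N ≥ [K:ℚ] log Y * N - C'`. -/
theorem JE {ι : Type*} [Fintype ι] [DecidableEq ι] (x : ι → ℂ) (R : ℕ) (hR : ∀ N, rk x N ≤ R) :
    FiniteDimensional ℚ (IntermediateField.adjoin ℚ (Set.range x)) ∧
      ∀ Y : ℝ, 1 ≤ Y →
        (∀ τ : IntermediateField.adjoin ℚ (Set.range x) →ₐ[ℚ] ℂ, ∃ v,
          Y ≤ ‖τ ⟨x v, IntermediateField.subset_adjoin ℚ _ ⟨v, rfl⟩⟩‖) →
        ∃ C' : ℝ, ∀ N : ℕ,
          (Module.finrank ℚ (IntermediateField.adjoin ℚ (Set.range x)) : ℝ) * Real.log Y * N ≤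
            Real.log (wt x N) + C' := by
  obtain ⟨N₀, hN₀⟩ := je_const x R hR
  obtain ⟨b, hb⟩ := je_basis x R hR N₀ hN₀
  let K := IntermediateField.adjoin ℚ (Set.range x)
  have hfd : FiniteDimensional ℚ K := b.finiteDimensional_of_finite
  refine ⟨hfd, fun Y hY hτ => ?_⟩
  have hfr : Module.finrank ℚ K = rk x N₀ := by
    rw [Module.finrank_eq_card_basis b, Fintype.card_fin]
  let y : ι → K := fun v => ⟨x v, IntermediateField.subset_adjoin ℚ _ ⟨v, rfl⟩⟩
  have hS1 : ∀ N, rk x N = rk y N ∧ wt x N = wt y N := fun N =>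
    S1 y (algebraMap K ℂ) (algebraMap K ℂ).injective N
  have hcard : Fintype.card (Fin (rk x N₀)) = Fintype.card (K →ₐ[ℚ] ℂ) := by
    rw [Fintype.card_fin, AlgHom.card, hfr]
  let e : Fin (rk x N₀) ≃ (K →ₐ[ℚ] ℂ) := Fintype.equivOfCardEq hcard
  have hdisc := Algebra.discr_not_zero_of_basis ℚ b
  have hdisc2 := Algebra.discr_eq_det_embeddingsMatrixReindex_pow_two ℚ ℂ b e
  have hmat : Algebra.embeddingsMatrixReindex ℚ ℂ b e =
      Matrix.of fun s j => (e j : K →+* ℂ) (b s) := by
    ext s j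
    simp [Algebra.embeddingsMatrixReindex]
  have hdet : (Matrix.of fun s j => (e j : K →+* ℂ) (b s)).det ≠ 0 := by
    intro h
    rw [hmat, h, zero_pow two_ne_zero, map_eq_zero] at hdisc2
    exact hdisc hdisc2
  choose v hv using fun j => hτ (e j)
  obtain ⟨C, hC1, hC⟩ := Y45 y (rk x N₀) N₀ (fun N hN => by rw [← (hS1 N).1, hN₀ N hN])
    (fun j => (e j : K →+* ℂ)) b (fun s => by
      obtain ⟨f, hf, hbf⟩ := hb s
      refine ⟨f, hf, Subtype.ext ?_⟩
      rw [hbf]
      simp only [mon, y]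
      push_cast
      rfl) hdet v
  have hlogY : 0 ≤ Real.log Y := Real.log_nonneg hY
  have hY0 : 0 < Y := by linarith
  refine ⟨Real.log C + (rk x N₀ : ℝ) * Real.log Y * N₀, fun N => ?_⟩
  rw [hfr]
  have hwt : (1 : ℝ) ≤ wt x N := by exact_mod_cast (S0_pos x N).2
  have hlogw : 0 ≤ Real.log (wt x N) := Real.log_nonneg hwt
  have hlogC : 0 ≤ Real.log C := Real.log_nonneg hC1
  have ha0 : 0 ≤ (rk x N₀ : ℝ) * Real.log Y := by positivity
  rcases le_total N₀ N with hN | hN
  · have h1 := hC N hN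
    have h2 : Y ^ (rk x N₀ * (N - N₀)) ≤ C * wt y N := by
      refine le_trans ?_ h1
      calc Y ^ (rk x N₀ * (N - N₀)) = ∏ _j : Fin (rk x N₀), Y ^ (N - N₀) := by
            rw [Finset.prod_const, Finset.card_univ, Fintype.card_fin, ← pow_mul, mul_comm]
        _ ≤ _ := Finset.prod_le_prod (fun _ _ => by positivity) fun j _ =>
            pow_le_pow_left₀ hY0.le (hv j) _
    rw [← (hS1 N).2] at h2
    have h3 := Real.log_le_log (by positivity) h2
    rw [Real.log_pow, Real.log_mul (by positivity) (by positivity)] at h3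
    push_cast [Nat.cast_sub hN] at h3
    nlinarith
  · have h1 : (rk x N₀ : ℝ) * Real.log Y * N ≤ (rk x N₀ : ℝ) * Real.log Y * N₀ :=
      mul_le_mul_of_nonneg_left (by exact_mod_cast hN) ha0
    linarith

end H58D
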