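import Pool.Agent.Lib.H58D.FA
import Pool.Agent.Lib.H58D.MM
import Pool.Agent.Lib.H58D.K1
import Pool.Agent.Lib.H58D.Y44
import Pool.Agent.Lib.H58D.Y46
import Pool.Agent.Lib.H58D.W1
import Pool.Agent.Lib.H58D.W2

/-! Statement (B) of `PROOF.md`: the assembly of section 4. -/

namespace H58D

/-- A monomial relation holds for all vectors of the lattice which it generates. -/
private theorem w3_lat {ι : Type*} [Fintype ι] (y : ι → ℂ) (hy : ∀ i, y i ≠ 0) {κ : Type*}
    (p m : κ → ι → ℕ) (hrel : ∀ s, mon y (p s) = mon y (m s)) (u : ι → ℤ)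
    (hu : u ∈ latt (fun s => dvec (p s) (m s))) : ∏ i, y i ^ u i = 1 := by
  unfold latt at hu
  induction hu using AddSubgroup.closure_induction with
  | mem u hu =>
    obtain ⟨s, rfl⟩ := hu
    have h1 : ∀ i, y i ^ (dvec (p s) (m s) i) = y i ^ p s i * (y i ^ m s i)⁻¹ := by
      intro i
      unfold dvec
      rw [zpow_sub₀ (hy i), zpow_natCast, zpow_natCast, div_eq_mul_inv]
    simp only [h1]
    rw [Finset.prod_mul_distrib, Finset.prod_inv_distrib]
    have h2 := hrel s
    unfold mon at h2
    rw [h2]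
    refine mul_inv_cancel₀ ?_
    exact Finset.prod_ne_zero_iff.2 fun i _ => pow_ne_zero _ (hy i)
  | zero => simp
  | add a b _ _ ha hb =>
    have h1 : ∀ i, y i ^ ((a + b) i) = y i ^ a i * y i ^ b i := fun i => by
      rw [Pi.add_apply, zpow_add₀ (hy i)]
    simp only [h1]
    rw [Finset.prod_mul_distrib, ha, hb, mul_one]
  | neg a _ ha =>
    have h1 : ∀ i, y i ^ ((-a) i) = (y i ^ a i)⁻¹ := fun i => by
      rw [Pi.neg_apply, zpow_neg]
    simp only [h1]
    rw [Finset.prod_inv_distrib, ha, inv_one]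

/-- A coordinate whose unit vector is torsion modulo the relations has modulus one. -/
private theorem w3_tors {ι : Type*} [Fintype ι] [DecidableEq ι] (y : ι → ℂ) (hy : ∀ i, y i ≠ 0)
    {κ : Type*} (p m : κ → ι → ℕ) (hrel : ∀ s, mon y (p s) = mon y (m s)) (v : ι)
    (hv : Tors (latt (fun s => dvec (p s) (m s))) (ev v)) : ‖y v‖ = 1 := by
  obtain ⟨N, hN, hNv⟩ := hv
  have h1 := w3_lat y hy p m hrel _ hNv
  have h2 : ∏ i, y i ^ ((N • (ev v : ι → ℤ)) i) = y v ^ N := by
    rw [Finset.prod_eq_single v]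
    · simp [ev]
    · intro i _ hi
      simp [ev, Pi.single_eq_of_ne hi]
    · intro h
      exact absurd (Finset.mem_univ v) h
  rw [h2] at h1
  have h3 : ‖y v‖ ^ N = 1 := by rw [← norm_pow, h1, norm_one]
  exact (pow_eq_one_iff_of_nonneg (norm_nonneg _) (by omega)).1 h3

theorem FB (n : ℕ) (hn : 1 ≤ n) (T : Set (Eqn n)) (hT : (Sol T).Nonempty) :
    ∃ x ∈ Sol T, ∀ i, ‖x i‖ ≤ (2 : ℝ) ^ ((2 : ℝ) ^ ((n : ℝ) - 2)) := by
  classical
  have hY1 : (1 : ℝ) ≤ (2 : ℝ) ^ ((2 : ℝ) ^ ((n : ℝ) - 2)) :=
    Real.one_le_rpow (by norm_num) (by positivity)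
  have hY0 : (0 : ℝ) < (2 : ℝ) ^ ((2 : ℝ) ^ ((n : ℝ) - 2)) := lt_of_lt_of_le one_pos hY1
  by_cases h1 : ∃ i0, Eqn.one i0 ∈ T
  · obtain ⟨i0, hi0⟩ := h1
    obtain ⟨d, jj, pp, x, hjj, hj0, hpp, hppinj, hx, hroot, hfin⟩ :=
      greedy n T hT i0 hi0 (10 * n)
    rcases Nat.eq_zero_or_pos d with hd | hd
    · subst hd
      have hfin' : (Sol T).Finite := hfin.subset fun z hz => ⟨hz, fun s => Fin.elim0 s⟩
      exact ⟨x, hx, fun i => FA n T i0 hi0 hfin' x hx i⟩
    · have hdn : d ≤ n := by
        have := Fintype.card_le_of_injective jj hjj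
        simpa using this
      obtain ⟨ρ, p, m, D, 𝒯, hD, hp, hm, hrel, hind, h𝒯, iso, hcos, hprod⟩ :=
        SYS n T x hx i0 hi0 d jj hjj hj0 pp (fun s => (hpp s).1.one_le)
          (fun s => (hroot s).pow_eq_one) hfin
      let y : {i : Fin n // x i ≠ 0} → ℂ := fun i => x i
      have hy : ∀ i, y i ≠ 0 := fun i => i.2
      by_cases hnt : ∃ t ∈ 𝒯, ∃ ℓ : ({i : Fin n // x i ≠ 0} → ℤ) →+ ℤ,
          (∀ v ∈ latt (fun s => dvec (p s) (m s)), ℓ v = 0) ∧
            ¬ (ℓ (ev t.1) = ℓ (ev t.2.1) ∧ ℓ (ev t.2.1) = ℓ (ev t.2.2))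
      · obtain ⟨t, ht, ℓ, hℓ, hne⟩ := hnt
        obtain ⟨⟨R, hR⟩, hmm⟩ := MM y hy ρ p m D hp hm hrel hind 𝒯 h𝒯 iso t.1 t.2.1 t.2.2
          (h𝒯 t ht) ℓ hℓ hne 9 (Or.inl rfl)
        obtain ⟨hfd, hje⟩ := JE y R hR
        by_contra hcon
        push Not at hcon
        -- all embeddings
        have hmemK : ∀ i : Fin n, x i ∈ IntermediateField.adjoin ℚ (Set.range y) := by
          intro i
          by_cases hi : x i = 0
          · rw [hi]
            exact zero_mem _
          · exact IntermediateField.subset_adjoin ℚ _ ⟨⟨i, hi⟩, rfl⟩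
        have hall : ∀ τ : IntermediateField.adjoin ℚ (Set.range y) →ₐ[ℚ] ℂ, ∃ v,
            (2 : ℝ) ^ ((2 : ℝ) ^ ((n : ℝ) - 2)) ≤
              ‖τ ⟨y v, IntermediateField.subset_adjoin ℚ _ ⟨v, rfl⟩⟩‖ := by
          intro τ
          have hz : (fun i => τ ⟨x i, hmemK i⟩) ∈ Sol T := by
            intro e he
            have hxe := hx e he
            cases e with
            | one i =>
              change x i = 1 at hxe
              change τ ⟨x i, hmemK i⟩ = 1
              rw [← map_one τ]
              congr 1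
              exact Subtype.ext hxe
            | add i j k =>
              change x i + x j = x k at hxe
              change τ ⟨x i, hmemK i⟩ + τ ⟨x j, hmemK j⟩ = τ ⟨x k, hmemK k⟩
              rw [← map_add]
              congr 1
              exact Subtype.ext hxe
            | mul i j k =>
              change x i * x j = x k at hxe
              change τ ⟨x i, hmemK i⟩ * τ ⟨x j, hmemK j⟩ = τ ⟨x k, hmemK k⟩
              rw [← map_mul]
              congr 1
              exact Subtype.ext hxe
          obtain ⟨i, hi⟩ := hcon _ hz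
          have hxi : x i ≠ 0 := by
            intro h0
            have h2' : (⟨x i, hmemK i⟩ : IntermediateField.adjoin ℚ (Set.range y)) = 0 :=
              Subtype.ext h0
            have h2 : τ ⟨x i, hmemK i⟩ = 0 := by
              rw [h2', map_zero]
            have h3 : ‖τ ⟨x i, hmemK i⟩‖ = 0 := by rw [h2, norm_zero]
            have h4 : (2 : ℝ) ^ ((2 : ℝ) ^ ((n : ℝ) - 2)) < 0 := by
              rw [← h3]
              exact hi
            linarith
          exact ⟨⟨i, hxi⟩, hi.le⟩
        obtain ⟨C', hC'⟩ := hje _ hY1 hall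
        have hmain := hmm _ C' hC'
        -- ranks
        have hρ : ρ < Fintype.card {i : Fin n // x i ≠ 0} := by
          refine K1a ρ (fun s => dvec (p s) (m s)) hind ℓ hℓ ?_
          by_contra h0
          push Not at h0
          exact hne ⟨by rw [h0, h0], by rw [h0, h0]⟩
        have hcard : Fintype.card {i : Fin n // x i ≠ 0} ≤ n := by
          have := Fintype.card_subtype_le (fun i : Fin n => x i ≠ 0)
          rwa [Fintype.card_fin] at this
        obtain ⟨σ, hσ⟩ : ∃ σ, Fintype.card {i : Fin n // x i ≠ 0} = ρ + σ :=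
          ⟨Fintype.card {i : Fin n // x i ≠ 0} - ρ, by omega⟩
        have hσ1 : 1 ≤ σ := by omega
        have hxj : ∀ s, x (jj s) ≠ 0 := fun s h => by
          have h2 := (hroot s).pow_eq_one
          rw [h, zero_pow (hpp s).1.ne_zero] at h2
          exact zero_ne_one h2
        have hdeg : ∏ s, (pp s - 1) ≤
            Module.finrank ℚ (IntermediateField.adjoin ℚ (Set.range y)) :=
          W1 (IntermediateField.adjoin ℚ (Set.range y)) d pp (fun s => x (jj s))
            (fun s => (hpp s).1) hppinj hroot (fun s => hmemK _)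
        have hPQ : 1 ≤ ∏ s, (pp s - 1) := by
          refine Finset.one_le_prod' fun s _ => ?_
          have := (hpp s).1.two_le
          omega
        have hlog9 : Real.log ((9 : ℕ) : ℝ) / 2 = Real.log 3 := by
          have h2 : ((9 : ℕ) : ℝ) = 3 ^ 2 := by norm_num
          rw [h2, Real.log_pow]
          push_cast
          ring
        have hlogY : Real.log ((2 : ℝ) ^ ((2 : ℝ) ^ ((n : ℝ) - 2))) = 2 ^ n / 4 * Real.log 2 := by
          rw [Real.log_rpow (by norm_num), Real.rpow_sub (by norm_num), Real.rpow_natCast]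
          norm_num
        refine W2b n ρ σ d hd hσ1 (by omega) (∏ s, D s) (∏ s, pp s) (∏ s, (pp s - 1))
          (Module.finrank ℚ (IntermediateField.adjoin ℚ (Set.range y))) hPQ ?_ hprod
          (W2a n d hn hdn pp fun s => (hpp s).2) hdeg
        rw [hlog9, hlogY, hσ, Nat.add_sub_cancel_left] at hmain
        push_cast
        calc _ ≤ _ := hmain
          _ = _ := by ring
      · -- no nontrivial triple: all moduli are one
        push Not at hnt
        refine ⟨x, hx, fun i => ?_⟩
        by_cases hi : x i = 0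
        · rw [hi, norm_zero]
          exact hY0.le
        · have htor : Tors (latt (fun s => dvec (p s) (m s)))
              (ev (⟨i, hi⟩ : {i : Fin n // x i ≠ 0})) := by
            by_contra hnot
            obtain ⟨ℓ, hℓ1, hℓ2⟩ := K1b (fun s => dvec (p s) (m s)) _ hnot
            have h0 : ℓ = 0 := by
              refine hcos ℓ (fun s => hℓ1 _ (AddSubgroup.subset_closure ⟨s, rfl⟩)) fun t ht => ?_
              exact hnt t ht ℓ hℓ1
            exact hℓ2 (by rw [h0]; rfl)
          have h2 := w3_tors y hy p m hrel ⟨i, hi⟩ htor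
          have h3 : ‖x i‖ = 1 := h2
          rw [h3]
          exact hY1
  · refine ⟨fun _ => 0, ?_, fun i => by rw [norm_zero]; exact hY0.le⟩
    intro e he
    cases e with
    | one i => exact absurd ⟨i, he⟩ h1
    | add i j k => exact add_zero 0
    | mul i j k => exact mul_zero 0

end H58D
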