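import Pool.Agent.Lib.H58D.S0
import Pool.Agent.Lib.H58D.L1
import Pool.Agent.Lib.H58D.S4

/-! The joint end (section 4 of `PROOF.md`): a lower bound for the weight from all embeddings. -/

namespace H58D

open Finset

private theorem y45_deg_add {ι : Type*} [Fintype ι] (a b : ι → ℕ) : deg (a + b) = deg a + deg b := by
  unfold deg
  rw [← Finset.sum_add_distrib]
  rfl

private theorem y45_mon_add {ι : Type*} [Fintype ι] {B : Type*} [CommRing B] (y : ι → B)
    (a b : ι → ℕ) : mon y (a + b) = mon y a * mon y b := by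
  unfold mon
  rw [← Finset.prod_mul_distrib]
  exact Finset.prod_congr rfl fun i _ => by rw [Pi.add_apply, pow_add]

private theorem y45_mon_single {ι : Type*} [Fintype ι] [DecidableEq ι] {B : Type*} [CommRing B]
    (y : ι → B) (i : ι) (k : ℕ) : mon y (Pi.single i k) = y i ^ k := by
  unfold mon
  rw [Finset.prod_eq_single i]
  · rw [Pi.single_eq_same]
  · intro j _ hj
    rw [Pi.single_eq_of_ne hj, pow_zero]
  · intro h
    exact absurd (Finset.mem_univ i) h

private theorem y45_deg_single {ι : Type*} [Fintype ι] [DecidableEq ι] (i : ι) (k : ℕ) :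
    deg (Pi.single i k : ι → ℕ) = k := by
  unfold deg
  rw [Finset.sum_eq_single i]
  · rw [Pi.single_eq_same]
  · intro j _ hj
    rw [Pi.single_eq_of_ne hj]
  · intro h
    exact absurd (Finset.mem_univ i) h

/-- the determinant of a tuple of monomials under the embeddings -/
private theorem y45_tuple {ι : Type*} [Fintype ι] [DecidableEq ι] {K : Type*} [Field K] [CharZero K]
    (y : ι → K) (a N : ℕ) (hN : rk y N = a) (τ : Fin a → (K →+* ℂ)) (u t : Fin a → K)
    (hu : ∀ s, u s ∈ lat y N) (ht : ∀ s, ∃ e : ι → ℕ, deg e ≤ N ∧ t s = mon y e)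
    (hdet : (Matrix.of fun s j => τ j (u s)).det ≠ 0) :
    ‖(Matrix.of fun s j => τ j (t s)).det‖ ≤ ‖(Matrix.of fun s j => τ j (u s)).det‖ * wt y N := by
  have h1 := S0_fin y N
  have h2 := S0_free y N
  have hcard : Module.finrank ℤ (lat y N) = a := hN
  let b : Module.Basis (Fin a) ℤ (lat y N) := Module.finBasisOfFinrankEq ℤ _ hcard
  have ht' : ∀ s, t s ∈ lat y N := by
    intro s
    obtain ⟨e, he, hte⟩ := ht s
    exact Submodule.subset_span ⟨e, he, hte⟩
  -- a tuple in terms of the basis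
  have hexp : ∀ w : Fin a → K, ∀ hw : ∀ s, w s ∈ lat y N,
      (Matrix.of fun s j => τ j (w s)) =
        ((Matrix.of fun s i => b.repr ⟨w s, hw s⟩ i : Matrix (Fin a) (Fin a) ℤ).map
          (Int.cast : ℤ → ℂ)) * (Matrix.of fun i j => τ j ((b i : lat y N) : K)) := by
    intro w hw
    ext s j
    rw [Matrix.mul_apply]
    have h3 := congrArg (fun z : lat y N => τ j (z : K)) (b.sum_repr ⟨w s, hw s⟩)
    simp only [Submodule.coe_sum, map_sum, Submodule.coe_smul, zsmul_eq_mul, map_mul,
      map_intCast] at h3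
    simp only [Matrix.of_apply, Matrix.map_apply]
    exact h3.symm
  have hidx : ∀ w : Fin a → lat y N, (Submodule.span ℤ (Set.range w)).toAddSubgroup.index =
      ((Matrix.of fun s i => b.repr (w s) i : Matrix (Fin a) (Fin a) ℤ).det).natAbs := by
    intro w
    rw [L1 b w, Module.Basis.det_apply, ← Matrix.det_transpose]
    rfl
  let A : Matrix (Fin a) (Fin a) ℤ := Matrix.of fun s i => b.repr ⟨t s, ht' s⟩ i
  let A' : Matrix (Fin a) (Fin a) ℤ := Matrix.of fun s i => b.repr ⟨u s, hu s⟩ i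
  let T : Matrix (Fin a) (Fin a) ℂ := Matrix.of fun i j => τ j ((b i : lat y N) : K)
  have hA : (Matrix.of fun s j => τ j (t s)).det = (A.det : ℂ) * T.det := by
    rw [hexp t ht', Matrix.det_mul, ← Int.cast_det]
  have hA' : (Matrix.of fun s j => τ j (u s)).det = (A'.det : ℂ) * T.det := by
    rw [hexp u hu, Matrix.det_mul, ← Int.cast_det]
  have hA'0 : A'.det ≠ 0 := by
    intro h
    rw [hA', h, Int.cast_zero, zero_mul] at hdet
    exact hdet rfl
  have h5 : (1 : ℝ) ≤ ‖(A'.det : ℂ)‖ := by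
    rw [Complex.norm_intCast]
    exact_mod_cast Int.one_le_abs hA'0
  have h6 : ‖(A.det : ℂ)‖ ≤ wt y N := by
    rw [Complex.norm_intCast]
    have h7 := hidx fun s => ⟨t s, ht' s⟩
    have h8 : (Submodule.span ℤ (Set.range fun s => (⟨t s, ht' s⟩ : lat y N))).toAddSubgroup.index ≤
        wt y N := by
      have h9 := L0a (monSet y N) (S0_finite y N)
        (fun s : Fin (Module.finrank ℤ (lat y N)) => (⟨t (Fin.cast hcard s), ht' _⟩ : lat y N))
        (fun s => ht (Fin.cast hcard s))
      have h10 : Set.range (fun s : Fin (Module.finrank ℤ (lat y N)) =>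
          (⟨t (Fin.cast hcard s), ht' _⟩ : lat y N)) =
          Set.range fun s => (⟨t s, ht' s⟩ : lat y N) := by
        ext z
        constructor
        · rintro ⟨s, rfl⟩
          exact ⟨_, rfl⟩
        · rintro ⟨s, rfl⟩
          exact ⟨Fin.cast hcard.symm s, rfl⟩
      rw [h10] at h9
      exact h9
    rw [h7] at h8
    have h11 : |A.det| = ((A.det.natAbs : ℕ) : ℤ) := Int.abs_eq_natAbs _
    have h12 : (|((A.det : ℤ) : ℝ)|) = ((A.det.natAbs : ℕ) : ℝ) := by
      rw [← Int.cast_abs, h11]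
      simp
    rw [h12]
    exact_mod_cast h8
  rw [hA, hA', norm_mul, norm_mul]
  calc ‖(A.det : ℂ)‖ * ‖T.det‖ ≤ wt y N * ‖T.det‖ := mul_le_mul_of_nonneg_right h6 (norm_nonneg _)
    _ = 1 * ‖T.det‖ * wt y N := by ring
    _ ≤ ‖(A'.det : ℂ)‖ * ‖T.det‖ * wt y N := by
        refine mul_le_mul_of_nonneg_right (mul_le_mul_of_nonneg_right h5 (norm_nonneg _)) ?_
        positivity

/-- **The joint end, abstract form.** -/
theorem Y45 {ι : Type*} [Fintype ι] [DecidableEq ι] {K : Type*} [Field K] [CharZero K]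
    (y : ι → K) (a N₀ : ℕ) (hN : ∀ N, N₀ ≤ N → rk y N = a) (τ : Fin a → (K →+* ℂ))
    (u : Fin a → K) (hu : ∀ s, ∃ e : ι → ℕ, deg e ≤ N₀ ∧ u s = mon y e)
    (hdet : (Matrix.of fun s j => τ j (u s)).det ≠ 0) (v : Fin a → ι) :
    ∃ C : ℝ, 1 ≤ C ∧ ∀ N, N₀ ≤ N → ∏ j, ‖τ j (y (v j))‖ ^ (N - N₀) ≤ C * wt y N := by
  let U : Matrix (Fin a) (Fin a) ℂ := Matrix.of fun s j => τ j (u s)
  have hU : IsUnit U.det := isUnit_iff_ne_zero.mpr hdet
  let β : Matrix (Fin a) (Fin a) ℂ := U⁻¹
  have hβ : β * U = 1 := Matrix.nonsing_inv_mul U hU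
  let C : ℝ := (∑ f : Fin a → Fin a, ∏ j, ‖β j (f j)‖) * ‖U.det‖
  have hC0 : 0 ≤ C := by positivity
  refine ⟨C + 1, by linarith, fun N hNN => ?_⟩
  let z : Fin a → K := fun j => y (v j) ^ (N - N₀)
  -- the diagonal matrix
  have hdiag : (Matrix.diagonal fun j => τ j (z j)) =
      Matrix.of fun j => ∑ s, β j s • (fun j' => τ j' (u s * z j)) := by
    ext j j'
    rw [Matrix.of_apply, Finset.sum_apply]
    have h1 : ∀ s, (β j s • fun j' => τ j' (u s * z j)) j' = β j s * U s j' * τ j' (z j) := by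
      intro s
      simp only [Pi.smul_apply, smul_eq_mul, map_mul, U, Matrix.of_apply]
      ring
    rw [Finset.sum_congr rfl fun s _ => h1 s, ← Finset.sum_mul]
    have h2 : ∑ s, β j s * U s j' = (1 : Matrix (Fin a) (Fin a) ℂ) j j' := by
      rw [← hβ, Matrix.mul_apply]
    rw [h2, Matrix.diagonal_apply, Matrix.one_apply]
    by_cases hjj : j = j'
    · subst hjj
      simp
    · simp [hjj]
  have hdet1 : (Matrix.diagonal fun j => τ j (z j)).det = ∏ j, τ j (z j) := Matrix.det_diagonal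
  have hdet2 : (Matrix.diagonal fun j => τ j (z j)).det =
      ∑ f : Fin a → Fin a, (∏ j, β j (f j)) * (Matrix.of fun j j' => τ j' (u (f j) * z j)).det := by
    rw [hdiag]
    have h1 := (Matrix.detRowAlternating (n := Fin a) (R := ℂ)).toMultilinearMap.map_sum
      (fun j s => β j s • (fun j' => τ j' (u s * z j)))
    have h2 : (Matrix.of fun j => ∑ s, β j s • (fun j' => τ j' (u s * z j))).det =
        (Matrix.detRowAlternating (n := Fin a) (R := ℂ)).toMultilinearMap
          (fun j => ∑ s, β j s • (fun j' => τ j' (u s * z j))) := rfl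
    rw [h2, h1]
    refine Finset.sum_congr rfl fun f _ => ?_
    rw [MultilinearMap.map_smul_univ]
    rfl
  have hbound : ∀ f : Fin a → Fin a,
      ‖(Matrix.of fun j j' => τ j' (u (f j) * z j)).det‖ ≤ ‖U.det‖ * wt y N := by
    intro f
    refine y45_tuple y a N (hN N hNN) τ u (fun j => u (f j) * z j) (fun s => ?_) (fun s => ?_) hdet
    · obtain ⟨e, he, hue⟩ := hu s
      exact Submodule.subset_span ⟨e, he.trans hNN, hue⟩
    · obtain ⟨e, he, hue⟩ := hu (f s)
      refine ⟨e + Pi.single (v s) (N - N₀), ?_, ?_⟩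
      · rw [y45_deg_add, y45_deg_single]
        omega
      · rw [y45_mon_add, y45_mon_single, hue]
  have hfin : ∏ j, ‖τ j (y (v j))‖ ^ (N - N₀) ≤ C * wt y N := by
    calc ∏ j, ‖τ j (y (v j))‖ ^ (N - N₀) = ‖∏ j, τ j (z j)‖ := by
          rw [norm_prod]
          refine Finset.prod_congr rfl fun j _ => ?_
          rw [← norm_pow, ← map_pow]
      _ = ‖∑ f : Fin a → Fin a, (∏ j, β j (f j)) *
            (Matrix.of fun j j' => τ j' (u (f j) * z j)).det‖ := by rw [← hdet1, hdet2]
      _ ≤ ∑ f : Fin a → Fin a, ‖(∏ j, β j (f j)) *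
            (Matrix.of fun j j' => τ j' (u (f j) * z j)).det‖ := norm_sum_le _ _
      _ ≤ ∑ f : Fin a → Fin a, (∏ j, ‖β j (f j)‖) * (‖U.det‖ * wt y N) := by
          refine Finset.sum_le_sum fun f _ => ?_
          rw [norm_mul, norm_prod]
          exact mul_le_mul_of_nonneg_left (hbound f) (by positivity)
      _ = C * wt y N := by
          rw [← Finset.sum_mul]
          ring
  refine hfin.trans (mul_le_mul_of_nonneg_right (by linarith) (by positivity))

end H58D
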